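import Pool.Agent.Y192.OG.EDefs

/-!
Statements of the algebraic steps for normal varieties which are finite over subvarieties of tori.
Each `St_` is a proposition that is proved in another file.
-/

set_option autoImplicit false

namespace Pool.Agent.Y192.OG

open FF MvPolynomial Pool.Agent.W603.LV Pool.Agent.W602.GT Pool.Agent.TH122.AB

/-- the least saturated group with respect to which an ideal is homogeneous -/
def St_least : Prop :=
  ∀ (N : ℕ) (I : Ideal (AddMonoidAlgebra ℂ (Fin N → ℤ))), ∃ Γ₀ : Submodule ℤ (Fin N → ℤ), Sat Γ₀ ∧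
    (∀ g ∈ I, ∀ q, comp Γ₀ q g ∈ I) ∧
    ∀ Γ, Sat Γ → (∀ g ∈ I, ∀ q, comp Γ q g ∈ I) → Γ₀ ≤ Γ

/-- the monomials `xm x (bt j)` are independent over the field `F0 x Γ` -/
def St_split : Prop :=
  ∀ (N : ℕ) (K : Type) [Field K] [Algebra ℂ K] (x : Fin N → Kˣ) (Γ : Submodule ℤ (Fin N → ℤ))
    (b : ℕ) (bt : Fin b → Fin N → ℤ) (co : (Fin N → ℤ) →+ (Fin b → ℤ)), Splt Γ bt co →
    (∀ g ∈ RingHom.ker (ep x), ∀ q, comp Γ q g ∈ RingHom.ker (ep x)) →
    AlgebraicIndependent (F0 x Γ) (fun j => (xm x (bt j) : K)) ∧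
    ∀ m : Fin N → ℤ, ∃ c : F0 x Γ, c ≠ 0 ∧ (xm x m : K) = (c : K) * ∏ j, (xm x (bt j) : K) ^ co m j

/-- lifting polynomials over `F0 x Γ` to Laurent polynomials -/
def St_lift : Prop :=
  ∀ (N : ℕ) (K : Type) [Field K] [Algebra ℂ K] (x : Fin N → Kˣ) (Γ : Submodule ℤ (Fin N → ℤ))
    (b : ℕ) (bt : Fin b → Fin N → ℤ) (co : (Fin N → ℤ) →+ (Fin b → ℤ)), Splt Γ bt co →
    ∀ S : Finset (MvPolynomial (Fin b) (F0 x Γ)),
      ∃ g0 : AddMonoidAlgebra ℂ (Fin N → ℤ), (∀ m ∈ g0.coeff.support, m ∈ Γ) ∧ ep x g0 ≠ 0 ∧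
        ∀ a ∈ S, ∃ A : AddMonoidAlgebra ℂ (Fin N → ℤ), ep x A = ep x g0 * aeval (fun j => (xm x (bt j) : K)) a ∧
          ∀ m ∈ A.coeff.support, ∃ c ∈ a.support, co m = fun j => (c j : ℤ)

/-- the components of a Laurent polynomial which is given by a polynomial over `F0 x Γ` -/
def St_comp : Prop :=
  ∀ (N : ℕ) (K : Type) [Field K] [Algebra ℂ K] (x : Fin N → Kˣ) (Γ : Submodule ℤ (Fin N → ℤ))
    (b : ℕ) (bt : Fin b → Fin N → ℤ) (co : (Fin N → ℤ) →+ (Fin b → ℤ)), Splt Γ bt co →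
    (∀ g ∈ RingHom.ker (ep x), ∀ q, comp Γ q g ∈ RingHom.ker (ep x)) →
    ∀ (f : AddMonoidAlgebra ℂ (Fin N → ℤ)) (g : F0 x Γ) (F : MvPolynomial (Fin b) (F0 x Γ)), g ≠ 0 →
      ep x f = (g : K) * aeval (fun j => (xm x (bt j) : K)) F →
      ∀ t : Fin N → ℤ, (∃ c ∈ F.support, co t = fun j => (c j : ℤ)) →
        comp Γ (Γ.mkQ t) f ∉ RingHom.ker (ep x)

/-- squarefree polynomials over `F0 x Γ` and radicals -/
def St_gr : Prop :=
  ∀ (N : ℕ) (K : Type) [Field K] [Algebra ℂ K] (x : Fin N → Kˣ) (Γ : Submodule ℤ (Fin N → ℤ))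
    (b : ℕ) (bt : Fin b → Fin N → ℤ) (co : (Fin N → ℤ) →+ (Fin b → ℤ)), Splt Γ bt co →
    (∀ g ∈ RingHom.ker (ep x), ∀ q, comp Γ q g ∈ RingHom.ker (ep x)) →
    ∀ (f : AddMonoidAlgebra ℂ (Fin N → ℤ)) (g : F0 x Γ) (F : MvPolynomial (Fin b) (F0 x Γ)), g ≠ 0 → F ≠ 0 → Squarefree F →
      ep x f = (g : K) * aeval (fun j => (xm x (bt j) : K)) F → GR (RingHom.ker (ep x)) f Γ

/-- convex combinations with rational coefficients -/
def St_conv : Prop :=
  ∀ (b : ℕ) (T : Finset (Fin b → ℤ)) (c : Fin b → ℤ) (e : ℕ), T.Nonempty → 1 ≤ e →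
    (∀ w : Fin b → ℤ, ∃ t ∈ T, (e : ℤ) * ∑ i, w i * t i ≤ ∑ i, w i * c i) →
    ∃ p : ℕ, 1 ≤ p ∧ ∃ t : Fin (p * e) → Fin b → ℤ, (∀ l, t l ∈ T) ∧ (p : ℤ) • c = ∑ l, t l

/-- derivations at places over a place of a subfield -/
def St_der : Prop :=
  ∀ (k F K : Type) [Field k] [CharZero k] [Field F] [Field K] [Algebra k F] [Algebra k K]
    [Algebra F K] [IsScalarTower k F K] [FiniteDimensional F K] (q : Place k F) (P : Place k K)
    (e : ℕ), Over P q e → ∀ D : Derivation ℤ K K,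
      ((∀ g : F, P.Reg (D (algebraMap F K g) / algebraMap F K g)) → ∀ h : K, P.Reg (D h / h)) ∧
      (e = 1 → (∀ g : F, q.Reg g → P.Reg (D (algebraMap F K g))) → ∀ h : K, P.Reg h → P.Reg (D h))

/-- divisorial places over an intermediate field are divisorial -/
def St_divtower : Prop :=
  ∀ (k K : Type) [Field k] [Field K] [Algebra ℂ k] [Algebra ℂ K] [Algebra k K]
    [IsScalarTower ℂ k K] (d0 b d : ℕ), Algebra.trdeg ℂ k = d0 → 1 ≤ b → d = d0 + b →
    ∀ P : Place k K, Divisorial b P → Divisorial d (resP P)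

/-- the places over the places of irreducible polynomials are divisorial -/
def St_divadic : Prop :=
  ∀ (k F K : Type) [Field k] [Field F] [Field K] [Algebra k F] [Algebra k K] [Algebra F K]
    [IsScalarTower k F K] (b : ℕ) (X : Fin b → F), Gens (k := k) X →
    ∀ p : MvPolynomial (Fin b) k, Irreducible p → ∀ q : Place k F, IsAdic X p q →
    ∀ (P : Place k K) (e : ℕ), Over P q e → Divisorial b P

/-- the places over the places of weights are divisorial -/
def St_divtor : Prop :=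
  ∀ (k F K : Type) [Field k] [Field F] [Field K] [Algebra k F] [Algebra k K] [Algebra F K]
    [IsScalarTower k F K] (b : ℕ) (X : Fin b → F), Gens (k := k) X →
    ∀ w : Fin b → ℤ, Prim w → ∀ q : Place k F, IsTor X w q →
    ∀ (P : Place k K) (e : ℕ), Over P q e → Divisorial b P

/-- existence of the places of weights -/
def St_tor : Prop :=
  ∀ (k F : Type) [Field k] [Field F] [Algebra k F] (b : ℕ) (X : Fin b → F), Gens (k := k) X →
    ∀ w : Fin b → ℤ, Prim w → ∃ q : Place k F, IsTor X w q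

/-- derivations of logarithmic type at the places of irreducible polynomials -/
def St_deradic : Prop :=
  ∀ (k F K : Type) [Field k] [Field F] [Field K] [Algebra k F] [Algebra k K] [Algebra F K]
    [IsScalarTower k F K] (b : ℕ) (X : Fin b → F), Gens (k := k) X →
    ∀ p : MvPolynomial (Fin b) k, Irreducible p → ∀ q : Place k F, IsAdic X p q →
    ∀ (P : Place k K) (e : ℕ), Over P q e → ∀ D : Derivation ℤ K K,
      (∀ c : k, ∃ c' : k, D (algebraMap k K c) = algebraMap k K c') →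
      (∀ i, ∃ ε : k, D (algebraMap F K (X i)) = algebraMap k K ε * algebraMap F K (X i)) →
      ∀ g : F, q.Reg g → P.Reg (D (algebraMap F K g))

/-- derivations of logarithmic type at the places of weights -/
def St_dertor : Prop :=
  ∀ (k F K : Type) [Field k] [Field F] [Field K] [Algebra k F] [Algebra k K] [Algebra F K]
    [IsScalarTower k F K] (b : ℕ) (X : Fin b → F), Gens (k := k) X →
    ∀ w : Fin b → ℤ, ∀ q : Place k F, IsTor X w q →
    ∀ (P : Place k K) (e : ℕ), Over P q e → ∀ D : Derivation ℤ K K,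
      (∀ c : k, ∃ c' : k, D (algebraMap k K c) = algebraMap k K c') →
      (∀ i, ∃ ε : k, D (algebraMap F K (X i)) = algebraMap k K ε * algebraMap F K (X i)) →
      ∀ g : F, P.Reg (D (algebraMap F K g) / algebraMap F K g)

/-- the functions given by logarithmic pluricanonical forms -/
def St_forms : Prop :=
  ∀ (k F K : Type) [Field k] [CharZero k] [Field F] [Field K] [Algebra ℂ k] [Algebra ℂ K]
    [Algebra k F] [Algebra k K] [Algebra F K] [IsScalarTower k F K] [IsScalarTower ℂ k K]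
    [FiniteDimensional F K] (b d : ℕ) (X : Fin b → F), 1 ≤ b → Gens (k := k) X →
    ∀ (Bd : Place ℂ K → Prop) (G : K),
    (∀ P : Place k K, (∀ i, P.ord (algebraMap F K (X i)) = 0) → P.ord G ≠ 1 → ¬ Bd (resP P)) →
    LogGeneralType ℂ K d Bd →
    ∃ (κ : ℕ) (ψ : Fin (d + 1) → K), 1 ≤ κ ∧
      (∀ z : K, IsAlgebraic (IntermediateField.adjoin ℂ (Set.range ψ)) z) ∧
      (∀ p : MvPolynomial (Fin b) k, Irreducible p → (∀ i, ¬ (MvPolynomial.X i ∣ p)) →
        ∀ q : Place k F, IsAdic X p q → ∀ (P : Place k K) (e : ℕ), Over P q e → ∀ i,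
          P.Reg (ψ i * algebraMap F K (aeval X p) ^ κ) ∧ (e = 1 → P.ord G ≠ 1 → P.Reg (ψ i))) ∧
      (∀ w : Fin b → ℤ, Prim w → ∀ q : Place k F, IsTor X w q →
        ∀ (P : Place k K) (e : ℕ), Over P q e → ∀ i, P.Reg (ψ i))

/-- the minimal polynomial of a function which is regular over a place -/
def St_mp : Prop :=
  ∀ (k F K : Type) [Field k] [CharZero k] [Field F] [Field K] [Algebra k F] [Algebra k K]
    [Algebra F K] [IsScalarTower k F K] [FiniteDimensional F K] (q : Place k F) (z : K),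
    (∀ (P : Place k K) (e : ℕ), Over P q e → P.Reg z) → ∀ i, q.Reg ((minpoly F z).coeff i)

/-- the coefficients of the equation of a function with bounded poles -/
def St_coef : Prop :=
  ∀ (k F K : Type) [Field k] [CharZero k] [Field F] [Field K] [Algebra k F] [Algebra k K]
    [Algebra F K] [IsScalarTower k F K] [FiniteDimensional F K] (b : ℕ) (X : Fin b → F),
    Gens (k := k) X → ∀ (f : MvPolynomial (Fin b) k) (κ : ℕ) (ψ : K), f ≠ 0 →
    (∀ p : MvPolynomial (Fin b) k, Irreducible p → (∀ i, ¬ (MvPolynomial.X i ∣ p)) →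
      ∀ q : Place k F, IsAdic X p q → ∀ (P : Place k K) (e : ℕ), Over P q e →
        P.Reg (ψ * algebraMap F K (aeval X f) ^ κ)) →
    (∀ w : Fin b → ℤ, Prim w → ∀ q : Place k F, IsTor X w q →
      ∀ (P : Place k K) (e : ℕ), Over P q e → P.Reg ψ) →
    ∃ (D M : ℕ) (c : ℕ → F) (a : ℕ → MvPolynomial (Fin b) k),
      ψ ^ D + ∑ l ∈ Finset.Icc 1 D, algebraMap F K (c l) * ψ ^ (D - l) = 0 ∧
      ∀ l ∈ Finset.Icc 1 D, aeval X f ^ (κ * l) * c l * (∏ i, X i) ^ M = aeval X (a l) ∧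
        ∀ w : Fin b → ℤ, ∀ m ∈ (a l).support, ∃ t ∈ f.support,
          ((κ * l : ℕ) : ℤ) * tw w t ≤ tw w m - M * ∑ i, w i

/-- denominators of functions which are regular over the zeros of a polynomial -/
def St_den : Prop :=
  ∀ (k F K : Type) [Field k] [CharZero k] [Field F] [Field K] [Algebra k F] [Algebra k K]
    [Algebra F K] [IsScalarTower k F K] [FiniteDimensional F K] (b : ℕ) (X : Fin b → F),
    Gens (k := k) X → ∀ (f : MvPolynomial (Fin b) k), f ≠ 0 → ∀ z : K,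
    (∀ p : MvPolynomial (Fin b) k, Irreducible p → p ∣ f → ∀ q : Place k F, IsAdic X p q →
      ∀ (P : Place k K) (e : ℕ), Over P q e → P.Reg z) →
    ∃ s : MvPolynomial (Fin b) k, s ≠ 0 ∧ IsRelPrime s f ∧
      ∃ (D : ℕ) (a : ℕ → MvPolynomial (Fin b) k),
        (algebraMap F K (aeval X s) * z) ^ D + ∑ l ∈ Finset.Icc 1 D,
          algebraMap F K (aeval X (a l)) * (algebraMap F K (aeval X s) * z) ^ (D - l) = 0

/-- the orders of functions with poles along the ramification divisor and the zeros of `G`, along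
arcs which are transversal to `f = 0` and not transversal to `G = 0` -/
def St_val : Prop :=
  ∀ (k F K : Type) [Field k] [CharZero k] [Field F] [Field K] [Algebra k F] [Algebra k K]
    [Algebra F K] [IsScalarTower k F K] [FiniteDimensional F K] (b : ℕ) (X : Fin b → F),
    Gens (k := k) X → ∀ (f : MvPolynomial (Fin b) k), f ≠ 0 → Squarefree f →
    ∀ G : K, G ≠ 0 →
    (∀ p : MvPolynomial (Fin b) k, Irreducible p → p ∣ f → ∀ q : Place k F, IsAdic X p q →
      ∀ (P : Place k K) (e : ℕ), Over P q e → P.Reg G) →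
    ∀ (κ t : ℕ) (ψ : Fin t → K),
    (∀ p : MvPolynomial (Fin b) k, Irreducible p → p ∣ f → ∀ q : Place k F, IsAdic X p q →
      ∀ (P : Place k K) (e : ℕ), Over P q e → e = 1 → P.ord G ≠ 1 → ∀ i, P.Reg (ψ i)) →
    ∃ Z : Finset K,
      (∀ z ∈ Z, ∀ p : MvPolynomial (Fin b) k, Irreducible p → p ∣ f → ∀ q : Place k F,
        IsAdic X p q → ∀ (P : Place k K) (e : ℕ), Over P q e → P.Reg z) ∧
      ∀ (R : Subring K) (v : R → WithTop ℤ), IsV v → ∀ (W fr Gr g1 : R) (h : Fin t → R),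
        (∀ z ∈ Z, (W : K) * z ∈ R) → (fr : K) = algebraMap F K (aeval X f) → (Gr : K) = G →
        (∀ i, (h i : K) = (fr : K) ^ κ * (g1 : K) * ψ i) → v W = 0 → v fr = 1 → v Gr ≠ 1 →
        ∀ i, ((κ : ℤ) : WithTop ℤ) ≤ v (h i)

/-- logarithmic general type of varieties with highly ramified boundary -/
def St_lgt : Prop :=
  ∀ (K : Type) [Field K] [Algebra ℂ K] [Algebra.EssFiniteType ℂ K] (n d : ℕ)
    (y : Fin (n + 1) → K) (G : K), 1 ≤ d → (∀ i, y i ≠ 0) → G ≠ 0 →
    (∀ z : K, IsAlgebraic (IntermediateField.adjoin ℂ (Set.range fun i => y i / y 0)) z) →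
    LogGeneralType ℂ K d (fun P => (∃ i, P.ord (y i) ≠ P.ord (y 0)) ∨ P.ord G = 1) →
    ∃ m : ℕ, ∀ (L : Type) [Field L] [Algebra ℂ L] [Algebra.EssFiniteType ℂ L] [Algebra K L]
      [IsScalarTower ℂ K L] [Algebra.IsAlgebraic K L] (Bd : Place ℂ L → Prop),
      (∀ P : Place ℂ L, ¬ Bd P →
        ((∀ i, P.ord (algebraMap K L (y i)) = P.ord (algebraMap K L (y 0))) ∧
          P.ord (algebraMap K L G) ≠ 1) ∨
        ∃ i j, P.ord (algebraMap K L (y i)) + m ≤ P.ord (algebraMap K L (y j))) →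
      LogGeneralType ℂ L d Bd

end Pool.Agent.Y192.OG
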