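import Pool.Agent.Y192.OG.StG
import Pool.Agent.Y809.OG.Split
import Pool.Agent.Y290.OG.Lift
import Pool.Agent.Y500.OG.Coef

/-!
Algebraic tools for the function fields of varieties over tori.
-/

set_option autoImplicit false

namespace Pool.Agent.Y192.OG

open FF MvPolynomial Pool.Agent.W603.LV Pool.Agent.W602.GT Pool.Agent.TH122.AB

/-- algebraic elements over a larger ring -/
theorem alg_of {A B K : Type} [CommRing A] [CommRing B] [Field K] [Algebra A K] [Algebra B K]
    (φ : A →+* B) (hφ : Function.Injective φ) (hc : ∀ a, algebraMap B K (φ a) = algebraMap A K a)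
    {z : K} (hz : IsAlgebraic A z) : IsAlgebraic B z := by
  obtain ⟨p, hp, hz⟩ := hz
  refine ⟨p.map φ, (Polynomial.map_ne_zero_iff hφ).2 hp, ?_⟩
  have h1 : (algebraMap B K).comp φ = algebraMap A K := RingHom.ext hc
  rw [Polynomial.aeval_def, Polynomial.eval₂_map, h1]
  exact hz

theorem intElem_of_eq {A B : Type} [CommRing A] [CommRing B] (φ : A →+* B) (D : ℕ) (a : ℕ → A)
    (z : B) (h : z ^ D + ∑ l ∈ Finset.Icc 1 D, φ (a l) * z ^ (D - l) = 0) :
    φ.IsIntegralElem z := by
  rcases subsingleton_or_nontrivial A with hA | hA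
  · refine ⟨0, ?_, by simp⟩
    exact Subsingleton.elim _ _
  refine ⟨Polynomial.X ^ D + ∑ l ∈ Finset.Icc 1 D, Polynomial.C (a l) * Polynomial.X ^ (D - l),
    ?_, ?_⟩
  · apply Polynomial.monic_X_pow_add
    refine Polynomial.mem_degreeLT.1 (Submodule.sum_mem _ fun l hl => Polynomial.mem_degreeLT.2 ?_)
    have h1 := Finset.mem_Icc.mp hl
    refine (Polynomial.degree_C_mul_X_pow_le _ _).trans_lt ?_
    exact_mod_cast (by omega : D - l < D)
  · rw [Polynomial.eval₂_add, Polynomial.eval₂_X_pow, Polynomial.eval₂_finsetSum]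
    rw [← h]
    congr 1
    refine Finset.sum_congr rfl fun l _ => ?_
    rw [Polynomial.eval₂_mul, Polynomial.eval₂_C, Polynomial.eval₂_X_pow]

section

variable {N : ℕ} {K : Type} [Field K] [Algebra ℂ K]

theorem ep_single_one (x : Fin N → Kˣ) (m : Fin N → ℤ) :
    ep x (AddMonoidAlgebra.single m (1 : ℂ)) = (xm x m : K) := by
  rw [ep_single, one_smul]

theorem xm_single (x : Fin N → Kˣ) (i : Fin N) : xm x (Pi.single i 1) = x i := by
  unfold xm
  rw [Finset.prod_eq_single i]
  · rw [Pi.single_eq_same, zpow_one]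
  · intro j _ hj
    rw [Pi.single_eq_of_ne hj, zpow_zero]
  · intro h
    exact absurd (Finset.mem_univ i) h

theorem xm_neg (x : Fin N → Kˣ) (m : Fin N → ℤ) : xm x (-m) = (xm x m)⁻¹ := by
  rw [eq_inv_iff_mul_eq_one, ← xm_add, neg_add_cancel, xm_zero]

/-- the ring generated by the units and finitely many integral elements -/
theorem mkR (x : Fin N → Kˣ) (S : Finset K)
    (hS : ∀ z ∈ S, ((ep x : AddMonoidAlgebra ℂ (Fin N → ℤ) →+* K)).IsIntegralElem z) :
    ∃ (R : Subalgebra ℂ K) (j : AddMonoidAlgebra ℂ (Fin N → ℤ) →ₐ[ℂ] R), R.FG ∧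
      (∀ z ∈ S, z ∈ R) ∧ (∀ g, (j g : K) = ep x g) ∧
      (j : AddMonoidAlgebra ℂ (Fin N → ℤ) →+* R).IsIntegral := by
  classical
  set T : Finset K := (Finset.univ.image fun i => (x i : K)) ∪
    ((Finset.univ.image fun i => (((x i)⁻¹ : Kˣ) : K)) ∪ S) with hT
  set R : Subalgebra ℂ K := Algebra.adjoin ℂ (T : Set K) with hR
  have hxR : ∀ i, (x i : K) ∈ R := fun i => Algebra.subset_adjoin
    (Finset.mem_union_left _ (Finset.mem_image_of_mem _ (Finset.mem_univ i)))
  have hxR' : ∀ i, (((x i)⁻¹ : Kˣ) : K) ∈ R := fun i => Algebra.subset_adjoin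
    (Finset.mem_union_right _ (Finset.mem_union_left _
      (Finset.mem_image_of_mem _ (Finset.mem_univ i))))
  have hpow : ∀ i (n : ℤ), ((x i ^ n : Kˣ) : K) ∈ R := by
    intro i n
    cases n with
    | ofNat n =>
      rw [Int.ofNat_eq_natCast, zpow_natCast, Units.val_pow_eq_pow_val]
      exact R.pow_mem (hxR i) n
    | negSucc n =>
      rw [zpow_negSucc, ← inv_pow, Units.val_pow_eq_pow_val]
      exact R.pow_mem (hxR' i) _
  have hxm : ∀ m, (xm x m : K) ∈ R := by
    intro m
    unfold xm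
    rw [Units.coe_prod]
    exact R.prod_mem fun i _ => hpow i _
  have hep : ∀ g, ep x g ∈ R := by
    intro g
    induction g using AddMonoidAlgebra.induction_linear with
    | zero =>
      rw [map_zero]
      exact R.zero_mem
    | add f g hf hg =>
      rw [map_add]
      exact R.add_mem hf hg
    | single m a =>
      rw [ep_single]
      exact R.smul_mem (hxm m) a
  refine ⟨R, (ep x).codRestrict R hep, ⟨T, rfl⟩, ?_, fun g => rfl, ?_⟩
  · intro z hz
    exact Algebra.subset_adjoin (Finset.mem_union_right _ (Finset.mem_union_right _ hz))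
  · intro r
    apply RingHom.IsIntegralElem.of_map (g := (R.val : R →+* K)) Subtype.val_injective
    have hcomp : (R.val : R →+* K).comp
        ((ep x).codRestrict R hep : AddMonoidAlgebra ℂ (Fin N → ℤ) →+* R)
        = (ep x : AddMonoidAlgebra ℂ (Fin N → ℤ) →+* K) := RingHom.ext fun g => rfl
    rw [hcomp]
    have key : ∀ z ∈ Algebra.adjoin ℂ (T : Set K),
        (ep x : AddMonoidAlgebra ℂ (Fin N → ℤ) →+* K).IsIntegralElem z := by
     intro z hz
     induction hz using Algebra.adjoin_induction with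
     | mem z hz =>
       rcases Finset.mem_union.mp hz with h | h
       · obtain ⟨i, -, rfl⟩ := Finset.mem_image.mp h
         have := (ep x : AddMonoidAlgebra ℂ (Fin N → ℤ) →+* K).isIntegralElem_map
           (x := AddMonoidAlgebra.single (Pi.single i 1) (1 : ℂ))
         have e : (ep x : AddMonoidAlgebra ℂ (Fin N → ℤ) →+* K)
           (AddMonoidAlgebra.single (Pi.single i 1) (1 : ℂ)) = (x i : K) := by
           change ep x _ = _
           rw [ep_single_one, xm_single]
         rwa [e] at this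
       · rcases Finset.mem_union.mp h with h | h
         · obtain ⟨i, -, rfl⟩ := Finset.mem_image.mp h
           have := (ep x : AddMonoidAlgebra ℂ (Fin N → ℤ) →+* K).isIntegralElem_map
             (x := AddMonoidAlgebra.single (-Pi.single i 1) (1 : ℂ))
           have e : (ep x : AddMonoidAlgebra ℂ (Fin N → ℤ) →+* K)
             (AddMonoidAlgebra.single (-Pi.single i 1) (1 : ℂ)) = (((x i)⁻¹ : Kˣ) : K) := by
             change ep x _ = _
             rw [ep_single_one, xm_neg, xm_single]
           rwa [e] at this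
         · exact hS z h
     | algebraMap c =>
       have := (ep x : AddMonoidAlgebra ℂ (Fin N → ℤ) →+* K).isIntegralElem_map
         (x := algebraMap ℂ _ c)
       have e : (ep x : AddMonoidAlgebra ℂ (Fin N → ℤ) →+* K) (algebraMap ℂ _ c)
         = algebraMap ℂ K c := (ep x).commutes c
       rwa [e] at this
     | add a b _ _ ha hb => exact ha.add _ hb
     | mul a b _ _ ha hb => exact ha.mul _ hb
    exact key r r.2

theorem splt_xm {x : Fin N → Kˣ} {Γ : Submodule ℤ (Fin N → ℤ)} {b : ℕ} {bt : Fin b → Fin N → ℤ}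
    {co : (Fin N → ℤ) →+ (Fin b → ℤ)} (h_split : St_split) (hS : Splt Γ bt co)
    (hom : ∀ g ∈ RingHom.ker (ep x), ∀ q, comp Γ q g ∈ RingHom.ker (ep x)) (m : Fin N → ℤ) :
    ∃ c : F0 x Γ, c ≠ 0 ∧ (xm x m : K) = (c : K) * ∏ j, (xm x (bt j) : K) ^ co m j :=
  (h_split N K x Γ b bt co hS hom).2 m

/-- the rational function field generated by the monomials -/
theorem fld [Algebra.EssFiniteType ℂ K] (h_split : St_split) (x : Fin N → Kˣ)
    (Γ : Submodule ℤ (Fin N → ℤ)) {b : ℕ} {bt : Fin b → Fin N → ℤ}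
    {co : (Fin N → ℤ) →+ (Fin b → ℤ)} (hS : Splt Γ bt co)
    (hom : ∀ g ∈ RingHom.ker (ep x), ∀ q, comp Γ q g ∈ RingHom.ker (ep x))
    (halg : ∀ z : K, IsAlgebraic (IntermediateField.adjoin ℂ (Set.range fun i => (x i : K))) z) :
    ∃ (F : IntermediateField (F0 x Γ) K) (X : Fin b → F), (∀ j, (X j : K) = (xm x (bt j) : K)) ∧
      Gens (k := F0 x Γ) X ∧ FiniteDimensional F K := by
  classical
  obtain ⟨hind, hmon⟩ := h_split N K x Γ b bt co hS hom
  set Z : Fin b → K := fun j => (xm x (bt j) : K) with hZ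
  set F : IntermediateField (F0 x Γ) K := IntermediateField.adjoin (F0 x Γ) (Set.range Z) with hF
  let X : Fin b → F := fun j => ⟨Z j, IntermediateField.subset_adjoin _ _ ⟨j, rfl⟩⟩
  have hxF : ∀ i, (x i : K) ∈ F := by
    intro i
    obtain ⟨c, -, hc⟩ := hmon (Pi.single i 1)
    rw [xm_single] at hc
    rw [hc]
    refine F.mul_mem (F.algebraMap_mem c) (F.prod_mem fun j _ => ?_)
    exact zpow_mem (X j).2 _
  have hle : IntermediateField.adjoin ℂ (Set.range fun i => (x i : K))
      ≤ IntermediateField.restrictScalars ℂ F := by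
    rw [IntermediateField.adjoin_le_iff]
    rintro _ ⟨i, rfl⟩
    exact hxF i
  let φ : IntermediateField.adjoin ℂ (Set.range fun i => (x i : K)) →+* F :=
    { toFun := fun a => ⟨a.1, hle a.2⟩
      map_one' := rfl
      map_zero' := rfl
      map_add' := fun _ _ => rfl
      map_mul' := fun _ _ => rfl }
  haveI : Algebra.IsAlgebraic F K := ⟨fun z => alg_of φ φ.injective (fun a => rfl) (halg z)⟩
  haveI : IsScalarTower ℂ F K := IsScalarTower.of_algebraMap_eq fun c => rfl
  haveI : Algebra.EssFiniteType F K := Algebra.EssFiniteType.of_comp ℂ F K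
  haveI : CharZero (F0 x Γ) := charZero_of_injective_algebraMap (algebraMap ℂ (F0 x Γ)).injective
  refine ⟨F, X, fun j => rfl, Pool.Agent.Y172.gens_of hind rfl fun j => rfl, ?_⟩
  exact Algebra.finite_of_essFiniteType_of_isAlgebraic

end

end Pool.Agent.Y192.OG
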