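import Pool.Agent.Y192.OG.B6

/-!
Finite covers of subvarieties of tori: uniform control of the functions.
-/

set_option autoImplicit false

namespace Pool.Agent.Y192.OG

open Filter Metric Set Topology Pool.Agent.W603.BP

variable {N : ℕ}

section comp

variable (Γ : Submodule ℤ (Fin N → ℤ))

theorem comp_add (q : (Fin N → ℤ) ⧸ Γ) (g h : Lau N) :
    comp Γ q (g + h) = comp Γ q g + comp Γ q h := by
  apply AddMonoidAlgebra.coeff_injective
  ext m
  rw [comp_coeff, AddMonoidAlgebra.coeff_add, AddMonoidAlgebra.coeff_add, Finsupp.add_apply,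
    Finsupp.add_apply, comp_coeff, comp_coeff]
  split_ifs with h1
  · rfl
  · rw [add_zero]

theorem comp_zero (q : (Fin N → ℤ) ⧸ Γ) : comp Γ q (0 : Lau N) = 0 := by
  have h := comp_add Γ q 0 0
  rw [add_zero] at h
  exact left_eq_add.mp h

theorem comp_neg (q : (Fin N → ℤ) ⧸ Γ) (g : Lau N) : comp Γ q (-g) = -comp Γ q g := by
  rw [eq_neg_iff_add_eq_zero, ← comp_add, neg_add_cancel, comp_zero]

theorem comp_sum' (q : (Fin N → ℤ) ⧸ Γ) {ι : Type} (s : Finset ι) (g : ι → Lau N) :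
    comp Γ q (∑ i ∈ s, g i) = ∑ i ∈ s, comp Γ q (g i) := by
  classical
  induction s using Finset.induction_on with
  | empty => rw [Finset.sum_empty, Finset.sum_empty, comp_zero]
  | insert a s ha ih => rw [Finset.sum_insert ha, Finset.sum_insert ha, comp_add, ih]

theorem comp_single_pos {q : (Fin N → ℤ) ⧸ Γ} {m : Fin N → ℤ} (h : Γ.mkQ m = q) (a : ℂ) :
    comp Γ q (AddMonoidAlgebra.single m a : Lau N) = AddMonoidAlgebra.single m a := by
  classical
  apply AddMonoidAlgebra.coeff_injective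
  ext m'
  rw [comp_coeff]
  split_ifs with h1
  · rfl
  · rw [AddMonoidAlgebra.coeff_single, Finsupp.single_apply, if_neg]
    rintro rfl
    exact h1 h

theorem comp_single_neg {q : (Fin N → ℤ) ⧸ Γ} {m : Fin N → ℤ} (h : Γ.mkQ m ≠ q) (a : ℂ) :
    comp Γ q (AddMonoidAlgebra.single m a : Lau N) = 0 := by
  classical
  apply AddMonoidAlgebra.coeff_injective
  ext m'
  rw [comp_coeff]
  split_ifs with h1
  · rw [AddMonoidAlgebra.coeff_single, Finsupp.single_apply, if_neg]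
    · rfl
    · rintro rfl
      exact h h1
  · rfl

/-- shifting by a monomial -/
theorem comp_shift (m0 t : Fin N → ℤ) (g : Lau N) :
    comp Γ (Γ.mkQ (t + m0)) (AddMonoidAlgebra.single m0 (1 : ℂ) * g)
      = AddMonoidAlgebra.single m0 (1 : ℂ) * comp Γ (Γ.mkQ t) g := by
  induction g using AddMonoidAlgebra.induction_linear with
  | zero => rw [mul_zero, comp_zero, comp_zero, mul_zero]
  | add f g hf hg => rw [mul_add, comp_add, comp_add, hf, hg, mul_add]
  | single m a =>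
    rw [AddMonoidAlgebra.single_mul_single, one_mul]
    by_cases h : Γ.mkQ m = Γ.mkQ t
    · rw [comp_single_pos Γ h, comp_single_pos, AddMonoidAlgebra.single_mul_single, one_mul]
      rw [map_add, map_add, h, add_comm]
    · rw [comp_single_neg Γ h, mul_zero, comp_single_neg]
      rw [map_add, map_add, add_comm]
      exact fun h1 => h (add_right_cancel h1)

/-- a product with support in one class -/
theorem comp_mul_of {p : Lau N} (hp : ∀ m ∈ p.coeff.support, m ∈ Γ) (m1 : Fin N → ℤ)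
    (q : (Fin N → ℤ) ⧸ Γ) (h : Γ.mkQ m1 ≠ q) :
    comp Γ q (p * AddMonoidAlgebra.single m1 (1 : ℂ)) = 0 := by
  have hp' : p = ∑ m ∈ p.coeff.support, AddMonoidAlgebra.single m (p.coeff m) := by
    conv_lhs => rw [← AddMonoidAlgebra.sum_coeff_single p]
    rfl
  rw [hp', Finset.sum_mul, comp_sum']
  refine Finset.sum_eq_zero fun m hm => ?_
  rw [AddMonoidAlgebra.single_mul_single, comp_single_neg]
  rw [map_add, (Submodule.Quotient.mk_eq_zero Γ).mpr (hp m hm) |> fun h0 =>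
    (show Γ.mkQ m = 0 from h0), zero_add]
  exact h

theorem comp_comp {Γ₀ : Submodule ℤ (Fin N → ℤ)} (h : Γ₀ ≤ Γ) (t : Fin N → ℤ) (g : Lau N) :
    comp Γ₀ (Γ₀.mkQ t) (comp Γ (Γ.mkQ t) g) = comp Γ₀ (Γ₀.mkQ t) g := by
  apply AddMonoidAlgebra.coeff_injective
  ext m
  rw [comp_coeff, comp_coeff, comp_coeff]
  by_cases h1 : Γ₀.mkQ m = Γ₀.mkQ t
  · have h2 : Γ.mkQ m = Γ.mkQ t := by
      rw [← sub_eq_zero, ← map_sub] at h1 ⊢
      exact (Submodule.Quotient.mk_eq_zero Γ).mpr (h ((Submodule.Quotient.mk_eq_zero Γ₀).mp h1))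
    rw [if_pos h1, if_pos h1, if_pos h2]
  · rw [if_neg h1, if_neg h1]

end comp

/-- `m` lies in `e` times the polytope spanned by the weights of `f` on the variety with the ideal
`I`, with respect to the torus on which the characters in `Γ₀` are trivial -/
def InPol (I : Ideal (Lau N)) (f : Lau N) (Γ₀ : Submodule ℤ (Fin N → ℤ)) (e : ℕ)
    (m : Fin N → ℤ) : Prop :=
  ∃ p : ℕ, 1 ≤ p ∧ ∃ t : Fin (p * e) → Fin N → ℤ,
    (∀ l, comp Γ₀ (Γ₀.mkQ (t l)) f ∉ I) ∧ (p : ℤ) • m - ∑ l, t l ∈ Γ₀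

/-- the weights of `f` are weights of the terms -/
theorem wt_mem {I : Ideal (Lau N)} {f : Lau N} {Γ₀ Γ : Submodule ℤ (Fin N → ℤ)} (hΓ : Γ₀ ≤ Γ)
    (hom0 : ∀ g ∈ I, ∀ q, comp Γ₀ q g ∈ I) (hom : ∀ g ∈ I, ∀ q, comp Γ q g ∈ I) {b : ℕ}
    {bt : Fin b → Fin N → ℤ} {S : Finset (Fin b →₀ ℕ)} {pp : (Fin b →₀ ℕ) → Lau N}
    {m0 : Fin N → ℤ} (hpp : ∀ β ∈ S, ∀ m ∈ (pp β).coeff.support, m ∈ Γ)
    (h : AddMonoidAlgebra.single m0 (1 : ℂ) * f
          - ∑ β ∈ S, pp β * AddMonoidAlgebra.single (∑ j, (β j : ℤ) • bt j) (1 : ℂ) ∈ I)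
    {t : Fin N → ℤ} (ht : comp Γ₀ (Γ₀.mkQ t) f ∉ I) :
    ∃ β ∈ S, t - (mb bt β - m0) ∈ Γ := by
  by_contra hcon
  push Not at hcon
  apply ht
  have h1 := hom _ h (Γ.mkQ (t + m0))
  rw [sub_eq_add_neg, comp_add, comp_neg, comp_shift, comp_sum'] at h1
  have h2 : ∑ β ∈ S, comp Γ (Γ.mkQ (t + m0))
      (pp β * AddMonoidAlgebra.single (∑ j, (β j : ℤ) • bt j) (1 : ℂ)) = 0 := by
    refine Finset.sum_eq_zero fun β hβ => comp_mul_of Γ (hpp β hβ) _ _ ?_
    intro h3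
    apply hcon β hβ
    rw [← sub_eq_zero, ← map_sub] at h3
    have h4 := (Submodule.Quotient.mk_eq_zero Γ).mp h3
    have h5 : t - (mb bt β - m0) = -(∑ j, (β j : ℤ) • bt j - (t + m0)) := by
      unfold mb
      abel
    rw [h5]
    exact Γ.neg_mem h4
  rw [h2, neg_zero, add_zero] at h1
  have h3 : comp Γ (Γ.mkQ t) f ∈ I := by
    have h4 := I.mul_mem_left (AddMonoidAlgebra.single (-m0) (1 : ℂ)) h1
    rw [← mul_assoc, AddMonoidAlgebra.single_mul_single, neg_add_cancel, mul_one] at h4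
    have h5 : (AddMonoidAlgebra.single (0 : Fin N → ℤ) (1 : ℂ) : Lau N) = 1 := rfl
    rwa [h5, one_mul] at h4
  have h4 := hom0 _ h3 (Γ₀.mkQ t)
  rwa [comp_comp Γ hΓ] at h4

section cover

variable {R : Type} [CommRing R] [Algebra ℂ R] (j : Lau N →ₐ[ℂ] R) (f : Lau N) (k : ℕ) {s : ℕ}
  (h : Fin s → R)

/-- a lift of a curve to the cover -/
structure Lf (c : Curve N) (η : R →ₐ[ℂ] c.Mr) : Prop where
  ext : ∀ g, η (j g) = c.ev g
  zer : ∀ i, ∀ z ∈ c.U, c.val (c.ev f) z = 0 → ((k : ℤ) : WithTop ℤ) ≤ c.ord z (η (h i))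

/-- uniform control of a function on the cover -/
def UC (Γ : Submodule ℤ (Fin N → ℤ)) (T : Finset (Fin N → ℤ)) (hT : T.Nonempty) (e : ℕ)
    (A : R) : Prop :=
  ∃ (Φ : Finset (Fin N → ℤ)) (w : ℕ), (∀ φ ∈ Φ, φ ∈ Γ) ∧
    ∀ (c : Curve N) (η : R →ₐ[ℂ] c.Mr), c.ev f ≠ 0 → Lf j f k h c η → ∀ r : Rad c (c.ev f),
      Ctl r (η A) (fun z => e * lmT c T hT z) (fun z => e * nuT c (c.ev f) T hT z) Φ w

variable {j f k h} {Γ : Submodule ℤ (Fin N → ℤ)} {T : Finset (Fin N → ℤ)} {hT : T.Nonempty}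

theorem UC.add {e : ℕ} {A B : R} (hA : UC j f k h Γ T hT e A) (hB : UC j f k h Γ T hT e B) :
    UC j f k h Γ T hT e (A + B) := by
  classical
  obtain ⟨Φ, w, a1, a2⟩ := hA
  obtain ⟨Φ', w', b1, b2⟩ := hB
  refine ⟨Φ ∪ Φ', max w w', fun φ hφ => (Finset.mem_union.mp hφ).elim (a1 φ) (b1 φ), ?_⟩
  intro c η hf0 hη r
  rw [map_add]
  exact (a_ctl N c _ r _).2.2.2.2.2.2.1 _ _ _ _ _
    (ctl_mono (a2 c η hf0 hη r) Finset.subset_union_left (le_max_left _ _))
    (ctl_mono (b2 c η hf0 hη r) Finset.subset_union_right (le_max_right _ _))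

theorem UC.mul {e e' : ℕ} {A B : R} (hA : UC j f k h Γ T hT e A)
    (hB : UC j f k h Γ T hT e' B) : UC j f k h Γ T hT (e + e') (A * B) := by
  classical
  obtain ⟨Φ, w, a1, a2⟩ := hA
  obtain ⟨Φ', w', b1, b2⟩ := hB
  refine ⟨Φ ∪ Φ', w + w', fun φ hφ => (Finset.mem_union.mp hφ).elim (a1 φ) (b1 φ), ?_⟩
  intro c η hf0 hη r
  rw [map_mul]
  have h1 := (a_ctl N c _ r _).2.2.2.2.2.1 _ _ _ _ _ _ _ _
    (ctl_mono (a2 c η hf0 hη r) (Finset.subset_union_left (s₂ := Φ')) le_rfl)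
    (ctl_mono (b2 c η hf0 hη r) (Finset.subset_union_right (s₁ := Φ)) le_rfl)
  refine ctl_weak 0 h1 (Finset.Subset.refl _) le_rfl (fun z _ => ?_) fun z _ => ?_
  · push_cast
    linarith
  · push_cast
    linarith

theorem UC.const (x : ℂ) : UC j f k h Γ T hT 0 (algebraMap ℂ R x) := by
  refine ⟨∅, 0, by simp, fun c η hf0 hη r => ?_⟩
  rw [AlgHom.commutes]
  refine ctl_weak 0 ((a_ctl N c _ r ∅).2.2.2.1 x) (Finset.Subset.refl _) le_rfl (fun z _ => ?_)
    fun z _ => ?_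
  · simp
  · simp

theorem UC.mon {φ : Fin N → ℤ} (hφ : φ ∈ Γ) :
    UC j f k h Γ T hT 0 (j (AddMonoidAlgebra.single φ 1)) := by
  refine ⟨{φ}, 1, by simpa using hφ, fun c η hf0 hη r => ?_⟩
  rw [hη.ext, c.ev_single, one_smul]
  refine ctl_weak 0 ((a_ctl N c _ r {φ}).2.1 φ (by simp)) (Finset.Subset.refl _) le_rfl
    (fun z _ => ?_) fun z _ => ?_
  · simp
  · simp

theorem UC.pow {e : ℕ} {A : R} (hA : UC j f k h Γ T hT e A) (n : ℕ) :
    UC j f k h Γ T hT (e * n) (A ^ n) := by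
  induction n with
  | zero =>
    have := UC.const (j := j) (f := f) (k := k) (h := h) (Γ := Γ) (T := T) (hT := hT) 1
    rw [map_one] at this
    simpa using this
  | succ n ih =>
    rw [pow_succ]
    have := UC.mul ih hA
    rwa [show e * n + e = e * (n + 1) by ring] at this

theorem UC.root {I : Ideal (Lau N)} {Γ₀ : Submodule ℤ (Fin N → ℤ)} {i : Fin s} {d : ℕ}
    {a : ℕ → Lau N} (hrel : h i ^ d + ∑ l ∈ Finset.Icc 1 d, j (a l) * h i ^ (d - l) = 0)
    (hle : Γ₀ ≤ Γ) (ha : ∀ l ∈ Finset.Icc 1 d, ∀ m ∈ (a l).coeff.support, InPol I f Γ₀ (l * k) m)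
    (hT' : ∀ t, comp Γ₀ (Γ₀.mkQ t) f ∉ I → ∃ τ ∈ T, t - τ ∈ Γ) :
    UC j f k h Γ T hT k (h i) := by
  classical
  have hd : ∀ l ∈ Finset.Icc 1 d, ∃ Φ : Finset (Fin N → ℤ), (∀ φ ∈ Φ, φ ∈ Γ) ∧
      ∀ (c : Curve N) (F : c.Mr) (r : Rad c F), Ctl r (c.ev (a l))
        (fun z => ((l * k : ℕ) : ℝ) * lmT c T hT z) (fun z => ((l * k : ℕ) : ℤ) * dT c T hT z) Φ 1 := by
    intro l hl
    refine ctl_dom (a l) fun m hm => ?_
    obtain ⟨p, hp, t, ht, hpm⟩ := ha l hl m hm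
    exact domE_of hT hp t (fun l' => hT' _ (ht l')) (hle hpm)
  choose! Φ hΦ1 hΦ2 using hd
  refine ⟨(Finset.Icc 1 d).biUnion Φ, 1, ?_, ?_⟩
  · intro φ hφ
    obtain ⟨l, hl, hφ⟩ := Finset.mem_biUnion.mp hφ
    exact hΦ1 l hl φ hφ
  · intro c η hf0 hη r
    refine ctl_zr ?_ fun z hz h0 => hη.zer i z hz h0
    refine a_root N c _ r _ 1 d (η (h i)) (fun l => c.ev (a l)) _ _ ?_ fun l hl => ?_
    · have := congrArg η hrel
      rw [map_add, map_pow, map_sum, map_zero] at this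
      rw [← this]
      congr 1
      refine Finset.sum_congr rfl fun l _ => ?_
      rw [map_mul, map_pow, hη.ext]
    · have hl1 := (Finset.mem_Icc.mp hl).1
      refine ctl_weak 0 (hΦ2 l hl c _ r) (Finset.subset_biUnion_of_mem Φ hl) (by omega)
        (fun z _ => ?_) fun z _ => ?_
      · push_cast
        linarith
      · push_cast
        linarith

theorem UC.fn {b : ℕ} {bt : Fin b → Fin N → ℤ} {S : Finset (Fin b →₀ ℕ)}
    {pp : (Fin b →₀ ℕ) → Lau N} {m0 : Fin N → ℤ}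
    (hpp : ∀ β ∈ S, ∀ m ∈ (pp β).coeff.support, m ∈ Γ)
    (hrel : AddMonoidAlgebra.single m0 (1 : ℂ) * f
          - ∑ β ∈ S, pp β * AddMonoidAlgebra.single (∑ j, (β j : ℤ) • bt j) (1 : ℂ)
            ∈ RingHom.ker j)
    (hTS : ∀ β ∈ S, mb bt β - m0 ∈ T) : UC j f k h Γ T hT 1 (j f) := by
  classical
  refine ⟨S.biUnion fun β => (pp β).coeff.support, 1, ?_, ?_⟩
  · intro φ hφ
    obtain ⟨β, hβ, hφ⟩ := Finset.mem_biUnion.mp hφ
    exact hpp β hβ φ hφ
  · intro c η hf0 hη r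
    rw [hη.ext]
    refine ctl_zr ?_ fun z hz h0 => one_le_ord hz h0
    set Φ := S.biUnion fun β => (pp β).coeff.support with hΦ
    obtain ⟨h1, h2, h3, h4, h5, h6, h7, h8, h9⟩ := a_ctl N c (c.ev f) r Φ
    have hvan : ∀ g ∈ RingHom.ker j, c.ev g = 0 := by
      intro g hg
      rw [← hη.ext, (RingHom.mem_ker).mp hg, map_zero]
    have hev := Ph_eval c bt S pp hvan hrel
    have hF : c.ev f = ∑ β ∈ S, c.ev (pp β) * c.mon (mb bt β - m0) := by
      have e1 := hev.1.symm.trans hev.2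
      have e2 := congrArg (fun y => c.mon (-m0) * y) e1
      rw [← mul_assoc, ← c.mon_add, neg_add_cancel, c.mon_zero, one_mul] at e2
      rw [e2, Finset.mul_sum]
      refine Finset.sum_congr rfl fun β _ => ?_
      rw [sub_eq_add_neg, c.mon_add]
      ring
    have hterm : ∀ β ∈ S, Ctl r (c.ev (pp β) * c.mon (mb bt β - m0))
        (fun z => ((1 : ℕ) : ℝ) * lmT c T hT z) (fun z => ((1 : ℕ) : ℤ) * dT c T hT z) Φ 1 := by
      intro β hβ
      have g1 := h6 _ _ _ _ _ _ _ _ (ctl_pp a_ctl r Φ (pp β) fun m hm =>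
        Finset.mem_biUnion.mpr ⟨β, hβ, hm⟩) (h1 (mb bt β - m0))
      refine ctl_weak 0 g1 (Finset.Subset.refl _) le_rfl (fun z _ => ?_) fun z _ => ?_
      · have := le_lmT (c := c) (hT := hT) (hTS β hβ) z
        push_cast
        linarith
      · have := dT_le (c := c) (hT := hT) (hTS β hβ) z
        push_cast
        linarith
    have key : ∀ s : Finset (Fin b →₀ ℕ), s ⊆ S →
        Ctl r (∑ β ∈ s, c.ev (pp β) * c.mon (mb bt β - m0))
        (fun z => ((1 : ℕ) : ℝ) * lmT c T hT z) (fun z => ((1 : ℕ) : ℤ) * dT c T hT z) Φ 1 := by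
      intro s
      induction s using Finset.induction_on with
      | empty =>
        intro _
        rw [Finset.sum_empty]
        refine ⟨⟨0, le_rfl, fun n z hz y hy => ?_⟩, fun z hz => ?_⟩
        · rw [zero_mul, zero_mul]
          have : c.val 0 y = 0 := by
            have := c.val_smul 0 (0 : c.Mr) y
            rw [zero_smul, zero_mul] at this
            exact this
          rw [this, norm_zero]
        · rw [ord_zero]
          exact le_top
      | insert m s hm ih =>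
        intro hs
        rw [Finset.sum_insert hm]
        exact h7 _ _ _ _ _ (hterm m (hs (Finset.mem_insert_self _ _)))
          (ih fun x hx => hs (Finset.mem_insert_of_mem hx))
    have := key S (Finset.Subset.refl _)
    rw [← hF] at this
    exact this

end cover

end Pool.Agent.Y192.OG
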