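import Mathlib

/-!
The polynomial attached to a Laurent polynomial and a subgroup of exponents.
-/

set_option autoImplicit false

namespace Pool.Agent.Y192.OG

/-- the component of a Laurent polynomial in a class modulo a subgroup of exponents -/
noncomputable def comp {N : ℕ} (Γ : Submodule ℤ (Fin N → ℤ)) (q : (Fin N → ℤ) ⧸ Γ)
    (g : AddMonoidAlgebra ℂ (Fin N → ℤ)) : AddMonoidAlgebra ℂ (Fin N → ℤ) := by
  classical
  exact AddMonoidAlgebra.ofCoeff (g.coeff.filter fun m => Γ.mkQ m = q)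

/-- saturated subgroups -/
def Sat {N : ℕ} (Γ : Submodule ℤ (Fin N → ℤ)) : Prop :=
  ∀ (n : ℤ) (m : Fin N → ℤ), n ≠ 0 → n • m ∈ Γ → m ∈ Γ

/-- The polynomial attached to a Laurent polynomial `f`, an ideal `I` and a saturated subgroup `Γ`
such that `I` is homogeneous with respect to `Γ`. -/
def St_hat : Prop :=
  ∀ (N : ℕ) (Γ : Submodule ℤ (Fin N → ℤ)) (I : Ideal (AddMonoidAlgebra ℂ (Fin N → ℤ)))
    (f : AddMonoidAlgebra ℂ (Fin N → ℤ)), Sat Γ → I.IsPrime → f ∉ I →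
    (I ⊔ Ideal.span {f}).IsRadical → (∀ g ∈ I, ∀ q, comp Γ q g ∈ I) →
    ∃ (b : ℕ) (bt : Fin b → Fin N → ℤ) (co : (Fin N → ℤ) →+ (Fin b → ℤ)),
      (∀ m, co m = 0 ↔ m ∈ Γ) ∧ (∀ j, co (bt j) = Pi.single j 1) ∧
      ∃ (S : Finset (Fin b →₀ ℕ)) (pp : (Fin b →₀ ℕ) → AddMonoidAlgebra ℂ (Fin N → ℤ))
        (m0 : Fin N → ℤ) (G : AddMonoidAlgebra ℂ (Fin N → ℤ)),
        (∀ β ∈ S, pp β ∉ I ∧ ∀ m ∈ (pp β).coeff.support, m ∈ Γ) ∧
        (AddMonoidAlgebra.single m0 (1 : ℂ) * f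
          - ∑ β ∈ S, pp β * AddMonoidAlgebra.single (∑ j, (β j : ℤ) • bt j) (1 : ℂ) ∈ I) ∧
        ((∀ q, f - comp Γ q f ∉ I) → 2 ≤ S.card) ∧ G ∉ I ∧
        ∀ (R : Type) [CommRing R] [IsDomain R] [Algebra ℂ R]
          (ev : AddMonoidAlgebra ℂ (Fin N → ℤ) →ₐ[ℂ] R), (∀ g ∈ I, ev g = 0) → ev G ≠ 0 →
          (∀ β ∈ S, ev (pp β) ≠ 0) ∧
          Squarefree (MvPolynomial.map (algebraMap R (FractionRing R))
            (∑ β ∈ S, MvPolynomial.monomial β (ev (pp β)))) ∧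
          ∀ i, ¬ (MvPolynomial.X i ∣ MvPolynomial.map (algebraMap R (FractionRing R))
            (∑ β ∈ S, MvPolynomial.monomial β (ev (pp β))))

end Pool.Agent.Y192.OG
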