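import Mathlib

/-!
Statements of the algebraic steps. Each `St_` is a proposition that is proved in another file.
-/

set_option autoImplicit false

namespace Pool.Agent.Y192.OG

open MvPolynomial

/-- a ring with a derivation whose constants are the complex numbers, in the strong sense that
proportional elements with proportional derivatives have a constant ratio -/
structure ConstD (R : Type) [CommRing R] [IsDomain R] [Algebra ℂ R] (D : Derivation ℂ R R) :
    Prop where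
  ratio : ∀ a b : R, b ≠ 0 → a * D b = b * D a → ∃ x : ℂ, a = x • b

/-- linear algebra over two fields -/
def St_pivot : Prop :=
  ∀ (F : Type) [Field F] [Algebra ℂ F] (ι : Type) [Fintype ι] (V : Submodule F (ι → F))
    (L : Submodule ℂ F) (W : Submodule ℂ (ι → F)), FiniteDimensional ℂ L →
    (∀ v ∈ W, v ∈ V ∧ ∀ i, v i ∈ L) →
    FiniteDimensional ℂ W ∧ Module.finrank ℂ W ≤ Module.finrank F V * Module.finrank ℂ L

/-- the dimensions of the powers of a finite dimensional space grow slowly somewhere -/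
def St_grow : Prop :=
  ∀ (g : ℕ) (η : ℝ), 0 < η → ∃ σ₀ : ℕ, ∀ (A : Type) [CommRing A] [Nontrivial A] [Algebra ℂ A]
    (S : Finset A), S.card ≤ g → (1 : A) ∈ S →
    (∀ σ : ℕ, FiniteDimensional ℂ ↥((Submodule.span ℂ (S : Set A)) ^ σ) ∧
      1 ≤ Module.finrank ℂ ↥((Submodule.span ℂ (S : Set A)) ^ σ) ∧
      Module.finrank ℂ ↥((Submodule.span ℂ (S : Set A)) ^ σ) ≤ (σ + 1) ^ g) ∧
    ∃ σ ≤ σ₀, (Module.finrank ℂ ↥((Submodule.span ℂ (S : Set A)) ^ (σ + 1)) : ℝ)
      ≤ (1 + η) * Module.finrank ℂ ↥((Submodule.span ℂ (S : Set A)) ^ σ)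

/-- Criterion for a polynomial to be squarefree. -/
def St_sqf : Prop :=
  ∀ (K : Type) [Field K] [CharZero K] (b : ℕ) (P : MvPolynomial (Fin b) K), P ≠ 0 →
    (∀ i, ¬ (X i ∣ P)) →
    (∀ i, ∃ (A B Q : MvPolynomial (Fin b) K) (k : ℕ), Q ≠ 0 ∧ Q.degreeOf i = 0 ∧
      A * P + B * (X i * pderiv i P) = X i ^ k * Q) →
    Squarefree P

/-- the derivative of a polynomial along `t`, see `DP_eval` below for the meaning -/
noncomputable def DP {R : Type} [CommRing R] [Algebra ℂ R] (D : Derivation ℂ R R) {b : ℕ}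
    (t : Fin b → Rˣ) (P : MvPolynomial (Fin b) R) : MvPolynomial (Fin b) R :=
  ∑ β ∈ P.support, monomial β (D (coeff β P)
    + coeff β P * ∑ j, (β j : R) * (((t j)⁻¹ : Rˣ) : R) * D (t j : R))

/-- the value at `t` of `DP` is the derivative of the value at `t` -/
def St_DPeval : Prop :=
  ∀ (R : Type) [CommRing R] [Algebra ℂ R] (D : Derivation ℂ R R) (b : ℕ) (t : Fin b → Rˣ)
    (P : MvPolynomial (Fin b) R),
    eval (fun j => (t j : R)) (DP D t P) = D (eval (fun j => (t j : R)) P) ∧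
    (∀ i, (DP D t P).degreeOf i ≤ P.degreeOf i)

/-- A squarefree polynomial has no common factor with its derivative along `t`, if it has no zero
which is a constant multiple of `t`. -/
def St_cop : Prop :=
  ∀ (R : Type) [CommRing R] [IsDomain R] [Algebra ℂ R] (D : Derivation ℂ R R), ConstD R D →
    ∀ (b : ℕ) (t : Fin b → Rˣ) (P : MvPolynomial (Fin b) R),
    Squarefree (map (algebraMap R (FractionRing R)) P) →
    (∀ i, ¬ (X i ∣ map (algebraMap R (FractionRing R)) P)) →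
    (∀ y : Fin b → ℂ, (∀ i, y i ≠ 0) →
      ∑ β ∈ P.support, (∏ i, y i ^ β i) • (coeff β P * ∏ i, (t i : R) ^ β i) ≠ 0) →
    IsRelPrime (map (algebraMap R (FractionRing R)) P)
      (map (algebraMap R (FractionRing R)) (DP D t P))

/-- Dimension count. -/
def St_dim : Prop :=
  ∀ (R : Type) [CommRing R] [IsDomain R] [Algebra ℂ R] (b : ℕ) (t : Fin b → Rˣ)
    (P Q : MvPolynomial (Fin b) R) (L L' : Submodule ℂ R) (K : ℕ),
    P ≠ 0 → IsRelPrime (map (algebraMap R (FractionRing R)) P)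
      (map (algebraMap R (FractionRing R)) Q) →
    (∀ i, Q.degreeOf i ≤ P.degreeOf i) → (∀ i, P.degreeOf i ≤ K) →
    FiniteDimensional ℂ L →
    (∀ x ∈ L, ∀ β, x * coeff β P ∈ L' ∧ x * coeff β Q ∈ L') →
    (∀ c : MvPolynomial (Fin b) R, (∀ β, coeff β c ∈ L') →
      (∀ β ∈ c.support, ∀ i, β i < K + P.degreeOf i) →
      eval (fun j => (t j : R)) c = 0 → c = 0) →
    ∀ V : Submodule ℂ R, V = Submodule.span ℂ {y : R | ∃ x ∈ L, ∃ β : Fin b →₀ ℕ,
        (∀ i, β i < K) ∧ (y = x * (∏ i, (t i : R) ^ β i) * eval (fun j => (t j : R)) P ∨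
          y = x * (∏ i, (t i : R) ^ β i) * eval (fun j => (t j : R)) Q)} →
      FiniteDimensional ℂ V ∧
      2 * K ^ b * Module.finrank ℂ L ≤
        Module.finrank ℂ V + (∏ i, (K - P.degreeOf i)) * Module.finrank ℂ L

/-- Bezout identity in the direction of a one parameter group -/
def St_bez : Prop :=
  ∀ (M : Type) [AddCommGroup M] (I : Ideal (AddMonoidAlgebra ℂ M)), I.IsPrime →
    ∀ f : AddMonoidAlgebra ℂ M, f ∉ I → (I ⊔ Ideal.span {f}).IsRadical →
    ∀ lam : M →+ ℤ, Function.Surjective lam →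
    (∀ g ∈ I, ∀ n : ℤ, (AddMonoidAlgebra.ofCoeff (g.coeff.filter fun m => lam m = n) :
      AddMonoidAlgebra ℂ M) ∈ I) →
    ∃ A B Q : AddMonoidAlgebra ℂ M, Q ∉ I ∧ (∀ m ∈ Q.coeff.support, lam m = 0) ∧
      A * f + B * (∑ m ∈ f.coeff.support, AddMonoidAlgebra.single m ((lam m : ℂ) * f.coeff m)) - Q
        ∈ I

/-- minimal relations -/
def St_circ : Prop :=
  ∀ (V : Type) [AddCommGroup V] [Module ℂ V] (ι : Type) [Fintype ι] (e : ι → V),
    (∀ i, e i ≠ 0) → ¬ LinearIndependent ℂ e →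
    ∃ (k : ℕ) (j : Fin (k + 1) → ι) (a : Fin (k + 1) → ℂ), 1 ≤ k ∧ Function.Injective j ∧
      (∀ i, a i ≠ 0) ∧ ∑ i, a i • e (j i) = 0 ∧
      LinearIndependent ℂ (fun i : Fin k => a i.succ • e (j i.succ))

/-- elementary inequality -/
def St_num : Prop :=
  ∀ (b : ℕ) (d : Fin b → ℕ), ∃ C : ℝ, 0 ≤ C ∧ ∀ K : ℕ, 1 ≤ K → (∀ i, d i ≤ K) →
    (K : ℝ) ^ 2 * (∏ i, ((K : ℝ) + d i) + ∏ i, ((K : ℝ) - d i) - 2 * (K : ℝ) ^ b)
      ≤ C * (K : ℝ) ^ b

end Pool.Agent.Y192.OG
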