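import Pool.Agent.Y141.OG.Cl
import Pool.Agent.Y180.OG.Bez
import Pool.Agent.Y246.OG.Rad
import Pool.Agent.Y248.OG.Jen
import Pool.Agent.Y419.OG.Circ
import Pool.Agent.Y419.OG.Cnt
import Pool.Agent.Y419.OG.DPeval
import Pool.Agent.Y419.OG.Grow
import Pool.Agent.Y419.OG.Num
import Pool.Agent.Y419.OG.Sqf
import Pool.Agent.Y419.OG.Wr
import Pool.Agent.Y705.OG.Gwl
import Pool.Agent.Y833.OG.Cop
import Pool.Agent.Y833.OG.Dim
import Pool.Agent.Y833.OG.Hat
import Pool.Agent.Y852.OG.Ctl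
import Pool.Agent.Y852.OG.Ring

/-!
All steps.
-/

set_option autoImplicit false

namespace Pool.Agent.Y192.OG

theorem a_circ : St_circ := Pool.Agent.Y419.OG.t_circ
theorem a_grow : St_grow := Pool.Agent.Y419.OG.t_grow
theorem a_sqf : St_sqf := Pool.Agent.Y419.OG.t_sqf
theorem a_DPeval : St_DPeval := Pool.Agent.Y419.OG.t_DPeval
theorem a_num : St_num := Pool.Agent.Y419.OG.t_num
theorem a_cop : St_cop := Pool.Agent.Y833.OG.t_cop
theorem a_dim : St_dim := Pool.Agent.Y833.OG.t_dim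
theorem a_bez : St_bez := Pool.Agent.Y180.OG.t_bez
theorem a_hat : St_hat := Pool.Agent.Y833.OG.t_hat a_bez a_sqf
theorem a_ring : St_ring := Pool.Agent.Y852.OG.t_ring
theorem a_ord : St_ord := Pool.Agent.Y852.OG.t_ord
theorem a_ctl : St_ctl := Pool.Agent.Y852.OG.t_ctl a_ring a_ord
theorem a_cnt : St_cnt := Pool.Agent.Y419.OG.t_cnt
theorem a_ht : St_ht := Pool.Agent.Y419.OG.t_ht a_cnt a_ord
theorem a_jen : St_jen := Pool.Agent.Y248.OG.t_jen a_ring
theorem a_wr : St_wr := Pool.Agent.Y419.OG.t_wr a_ring a_ord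
theorem a_gwl : St_gwl := Pool.Agent.Y705.OG.t_gwl a_ring a_ord a_cnt a_jen a_ht a_wr
theorem a_cl : St_cl := Pool.Agent.Y141.OG.t_cl a_ring a_ord a_cnt a_jen a_ht a_wr
theorem a_rad : St_rad := Pool.Agent.Y246.OG.t_rad a_ord a_cnt a_jen

end Pool.Agent.Y192.OG
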