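import Pool.Agent.Y192.OG.StC
import Pool.Agent.Y172.Grow
import Pool.Agent.W602.GT.Defs
import Pool.Agent.W602.GT.Der

/-!
Definitions for normal varieties which are finite over subvarieties of tori, in terms of function
fields.
-/

set_option autoImplicit false

namespace Pool.Agent.Y192.OG

open FF MvPolynomial Pool.Agent.W603.LV Pool.Agent.W602.GT Pool.Agent.TH122.AB

section torus

variable {N : ℕ} {K : Type} [Field K] [Algebra ℂ K]

/-- monomials in units -/
def xm (x : Fin N → Kˣ) (m : Fin N → ℤ) : Kˣ := ∏ i, x i ^ m i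

omit [Algebra ℂ K] in
theorem xm_zero (x : Fin N → Kˣ) : xm x 0 = 1 := by simp [xm]

omit [Algebra ℂ K] in
theorem xm_add (x : Fin N → Kˣ) (m m' : Fin N → ℤ) : xm x (m + m') = xm x m * xm x m' := by
  unfold xm
  rw [← Finset.prod_mul_distrib]
  exact Finset.prod_congr rfl fun i _ => by rw [Pi.add_apply, zpow_add]

/-- evaluation of Laurent polynomials at units -/
noncomputable def ep (x : Fin N → Kˣ) : AddMonoidAlgebra ℂ (Fin N → ℤ) →ₐ[ℂ] K :=
  AddMonoidAlgebra.lift ℂ K (Fin N → ℤ)
    { toFun := fun m => (xm x m.toAdd : K)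
      map_one' := by simp [xm_zero]
      map_mul' := fun m m' => by rw [toAdd_mul, xm_add, Units.val_mul] }

theorem ep_single (x : Fin N → Kˣ) (m : Fin N → ℤ) (c : ℂ) :
    ep x (AddMonoidAlgebra.single m c) = c • (xm x m : K) := by
  unfold ep
  rw [AddMonoidAlgebra.lift_single]
  rfl

/-- the field generated by the monomials with exponents in `Γ` -/
noncomputable def F0 (x : Fin N → Kˣ) (Γ : Submodule ℤ (Fin N → ℤ)) : IntermediateField ℂ K :=
  IntermediateField.adjoin ℂ {z | ∃ γ ∈ Γ, z = (xm x γ : K)}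

/-- a splitting of the lattice of exponents: the coordinates `co`, with kernel `Γ`, and elements
`bt j` with coordinates `Pi.single j 1` -/
structure Splt (Γ : Submodule ℤ (Fin N → ℤ)) {b : ℕ} (bt : Fin b → Fin N → ℤ)
    (co : (Fin N → ℤ) →+ (Fin b → ℤ)) : Prop where
  ker : ∀ m, co m = 0 ↔ m ∈ Γ
  bt : ∀ j, co (bt j) = Pi.single j 1

end torus

section places

variable {k K : Type} [Field k] [Field K] [Algebra ℂ k] [Algebra ℂ K] [Algebra k K]
  [IsScalarTower ℂ k K]

/-- a place over `k` as a place over the complex numbers -/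
def resP (P : Place k K) : Place ℂ K where
  ord := P.ord
  ord_zero := P.ord_zero
  ord_mul := P.ord_mul
  ord_add := P.ord_add
  ord_const := fun {c} hc => by
    rw [IsScalarTower.algebraMap_apply ℂ k K]
    exact P.ord_const (by simpa using hc)
  surj := P.surj

end places

section rational

variable {k F : Type} [Field k] [Field F] [Algebra k F] {b : ℕ}

/-- `q` is the place of the irreducible polynomial `p` -/
def IsAdic (X : Fin b → F) (p : MvPolynomial (Fin b) k) (q : Place k F) : Prop :=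
  q.ord (aeval X p) = 1 ∧
    ∀ A : MvPolynomial (Fin b) k, A ≠ 0 →
      0 ≤ q.ord (aeval X A) ∧ (q.ord (aeval X A) = 0 ↔ ¬ p ∣ A)

/-- the weight of an exponent -/
def tw (w : Fin b → ℤ) (c : Fin b →₀ ℕ) : ℤ := ∑ i, w i * c i

/-- `q` is the place of the weights `w` -/
def IsTor (X : Fin b → F) (w : Fin b → ℤ) (q : Place k F) : Prop :=
  ∀ A : MvPolynomial (Fin b) k, A ≠ 0 →
    (∀ c ∈ A.support, q.ord (aeval X A) ≤ tw w c) ∧ ∃ c ∈ A.support, q.ord (aeval X A) = tw w c

/-- primitive weights -/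
def Prim (w : Fin b → ℤ) : Prop := ∃ c : Fin b → ℤ, ∑ i, w i * c i = 1

end rational

/-- valuations of a ring with nonnegative values -/
structure IsV {R : Type} [CommRing R] (v : R → WithTop ℤ) : Prop where
  one : v 1 = 0
  mul : ∀ a b, v (a * b) = v a + v b
  add : ∀ a b, min (v a) (v b) ≤ v (a + b)
  nonneg : ∀ a, 0 ≤ v a

/-- the radical of the ideal generated by `I` and `f` is, up to denominators in `Γ`, generated by
`I` and `f` -/
def GR {N : ℕ} (I : Ideal (AddMonoidAlgebra ℂ (Fin N → ℤ))) (f : AddMonoidAlgebra ℂ (Fin N → ℤ)) (Γ : Submodule ℤ (Fin N → ℤ)) : Prop :=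
  ∀ u ∈ (I ⊔ Ideal.span {f}).radical, ∃ g : AddMonoidAlgebra ℂ (Fin N → ℤ), g ∉ I ∧ (∀ m ∈ g.coeff.support, m ∈ Γ) ∧
    g * u ∈ I ⊔ Ideal.span {f}

end Pool.Agent.Y192.OG
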