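import Pool.Agent.Y180.OG.Bez
import Pool.Agent.Y833.OG.Hat
import Pool.Agent.Y192.OG.EDefs

/-!
The squarefree polynomial attached to a Laurent polynomial and a saturated subgroup, when the
radical of an ideal is generated up to denominators in a smaller subgroup. The proofs follow
the files Bez and Hat of helpers 180 and 833.
-/

set_option autoImplicit false

namespace Pool.Agent.Y192.OG

section bezout

open Polynomial Pool.Agent.Y180.OG

/-- Bezout identity in the direction of a one parameter group, when the radical is generated up to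
denominators of degree zero -/
theorem bez_gr (M : Type) [AddCommGroup M] (I : Ideal (AddMonoidAlgebra ℂ M)) (hIp : I.IsPrime)
    (f : AddMonoidAlgebra ℂ M) (hf : f ∉ I) (lam : M →+ ℤ) (hlam : Function.Surjective lam)
    (hrad : ∀ u ∈ (I ⊔ Ideal.span {f}).radical, ∃ g : AddMonoidAlgebra ℂ M, g ∉ I ∧
      (∀ m ∈ g.coeff.support, lam m = 0) ∧ g * u ∈ I ⊔ Ideal.span {f})
    (hhom : ∀ g ∈ I, ∀ n : ℤ, (AddMonoidAlgebra.ofCoeff (g.coeff.filter fun m => lam m = n) :
      AddMonoidAlgebra ℂ M) ∈ I) :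
    ∃ A B Q : AddMonoidAlgebra ℂ M, Q ∉ I ∧ (∀ m ∈ Q.coeff.support, lam m = 0) ∧
      A * f + B * (∑ m ∈ f.coeff.support, AddMonoidAlgebra.single m ((lam m : ℂ) * f.coeff m)) - Q
        ∈ I := by
  obtain ⟨b, hb⟩ := hlam 1
  -- the field
  let I0 : Ideal (A0 lam) := I.comap (jj lam)
  have hI0 : I0.IsPrime := Ideal.comap_isPrime (jj lam) I
  let k := FractionRing (A0 lam ⧸ I0)
  let ι : A0 lam →+* k := (algebraMap (A0 lam ⧸ I0) k).comp (Ideal.Quotient.mk I0)
  have hι : ∀ c : A0 lam, ι c = 0 ↔ jj lam c ∈ I := by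
    intro c
    change algebraMap (A0 lam ⧸ I0) k (Ideal.Quotient.mk I0 c) = 0 ↔ _
    rw [map_eq_zero_iff _ (IsFractionRing.injective (A0 lam ⧸ I0) k), Ideal.Quotient.eq_zero_iff_mem]
    rfl
  have hk : ∀ x : k, ∃ c a : A0 lam, ι c ≠ 0 ∧ ι c * x = ι a := by
    intro x
    obtain ⟨a, c, hc, rfl⟩ := IsFractionRing.div_surjective (A := A0 lam ⧸ I0) x
    obtain ⟨a, rfl⟩ := Ideal.Quotient.mk_surjective a
    obtain ⟨c, rfl⟩ := Ideal.Quotient.mk_surjective c
    have hc0 : algebraMap (A0 lam ⧸ I0) k (Ideal.Quotient.mk I0 c) ≠ 0 := by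
      rw [Ne, map_eq_zero_iff _ (IsFractionRing.injective (A0 lam ⧸ I0) k)]
      exact nonZeroDivisors.ne_zero hc
    refine ⟨c, a, hc0, ?_⟩
    exact mul_div_cancel₀ _ hc0
  have hchar : CharZero k := by
    have hinj : Function.Injective (ι.comp (AddMonoidAlgebra.singleZeroRingHom : ℂ →+* A0 lam)) :=
      RingHom.injective _
    exact charZero_of_injective_ringHom hinj
  have hK : ∀ g, kap ι hb g = 0 ↔ g ∈ I := kap_zero_iff ι hb hι hhom
  have hden := denom ι hb hk
  have hf0 : kap ι hb f ≠ 0 := fun h => hf ((hK f).1 h)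
  -- the polynomial
  obtain ⟨n0, p0, hp0⟩ := LaurentPolynomial.exists_T_pow (kap ι hb f)
  have hp00 : p0 ≠ 0 := by
    rintro rfl
    rw [map_zero] at hp0
    have h1 := congrArg (fun x => x * LaurentPolynomial.T (-(n0 : ℤ))) hp0
    simp only [zero_mul, mul_assoc, ← LaurentPolynomial.T_add, add_neg_cancel, LaurentPolynomial.T_zero,
      mul_one] at h1
    exact hf0 h1.symm
  obtain ⟨p, hp, hXp⟩ := Polynomial.exists_eq_pow_rootMultiplicity_mul_and_not_dvd p0 hp00 0
  rw [C_0, sub_zero] at hp hXp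
  set r := rootMultiplicity 0 p0 with hr
  have hpn : toLaurent p = kap ι hb f * LaurentPolynomial.T ((n0 : ℤ) - r) := by
    rw [LaurentPolynomial.T_sub, ← mul_assoc, ← hp0, hp, map_mul, toLaurent_X_pow, mul_comm,
      ← mul_assoc, ← LaurentPolynomial.T_add, neg_add_cancel, LaurentPolynomial.T_zero, one_mul]
  generalize ((n0 : ℤ) - r) = n at hpn
  have hp_ne : p ≠ 0 := by
    rintro rfl
    rw [mul_zero] at hp
    exact hp00 hp
  -- squarefree
  have hsq : Squarefree p := by
    rintro q ⟨t, ht⟩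
    have hq0 : q ≠ 0 := by rintro rfl; simp at ht; exact hp_ne ht
    have ht0 : t ≠ 0 := by rintro rfl; simp at ht; exact hp_ne ht
    obtain ⟨c, g1, hc, h1⟩ := hden (toLaurent (q * t))
    obtain ⟨c', g2, hc', h2⟩ := hden (toLaurent t * LaurentPolynomial.T n)
    have e1 : jj lam c' * g1 ^ 2 - (jj lam c) ^ 2 * g2 * f ∈ I := by
      rw [← hK, map_sub, map_mul, map_mul, map_mul, map_pow, map_pow, kap_jj, kap_jj, ← h1, ← h2,
        map_mul]
      have h3 : toLaurent p = toLaurent q * toLaurent q * toLaurent t := by rw [ht, map_mul, map_mul]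
      rw [h3] at hpn
      linear_combination (LaurentPolynomial.C (ι c') * LaurentPolynomial.C (ι c) ^ 2 * toLaurent t) * hpn
    have e2 : (jj lam c' * g1) ^ 2 ∈ I ⊔ Ideal.span {f} := by
      have h4 : (jj lam c' * g1) ^ 2 = jj lam c' * (jj lam c' * g1 ^ 2 - (jj lam c) ^ 2 * g2 * f) +
          jj lam c' * (jj lam c) ^ 2 * g2 * f := by ring
      rw [h4]
      refine Ideal.add_mem _ (Ideal.mem_sup_left (I.mul_mem_left _ e1)) (Ideal.mem_sup_right ?_)
      exact Ideal.mul_mem_left _ _ (Ideal.mem_span_singleton_self f)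
    obtain ⟨gg, hgg1, hgg2, e3⟩ := hrad _ ⟨2, e2⟩
    have hgg3 : kap ι hb gg = LaurentPolynomial.C (ι (cn hb 0 gg)) := by
      ext n
      have h0 : (LaurentPolynomial.C (ι (cn hb 0 gg)) : LaurentPolynomial k) =
        AddMonoidAlgebra.single (0 : ℤ) (ι (cn hb 0 gg)) := rfl
      rw [kap_coeff, h0, AddMonoidAlgebra.coeff_single, Finsupp.single_apply]
      split_ifs with h
      · rw [← h]
      · have h3 : fil lam n gg = 0 := by
          ext m
          unfold fil
          rw [AddMonoidAlgebra.coeff_ofCoeff, Finsupp.filter_apply]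
          split_ifs with h'
          · rw [AddMonoidAlgebra.coeff_zero, Finsupp.zero_apply]
            by_contra hne
            have := hgg2 m (Finsupp.mem_support_iff.mpr hne)
            omega
          · rfl
        unfold cn
        rw [h3, AddMonoidAlgebra.mapDomain_zero, map_zero]
    have hgg4 : ι (cn hb 0 gg) ≠ 0 := by
      intro h
      rw [h, map_zero] at hgg3
      exact hgg1 ((hK gg).1 hgg3)
    obtain ⟨i, hi, j, hj, hij⟩ := Submodule.mem_sup.1 e3
    obtain ⟨a, ha⟩ := Ideal.mem_span_singleton'.1 hj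
    have e4 : LaurentPolynomial.C (ι (cn hb 0 gg)) * (LaurentPolynomial.C (ι c') *
        (LaurentPolynomial.C (ι c) * toLaurent (q * t))) = kap ι hb a * kap ι hb f := by
      rw [h1, ← hgg3, ← kap_jj ι hb, ← map_mul (kap ι hb), ← map_mul (kap ι hb), ← hij, map_add,
        (hK i).2 hi, zero_add, ← ha, map_mul]
    have e5 : kap ι hb f = toLaurent p * LaurentPolynomial.T (-n) := by
      rw [hpn, mul_assoc, ← LaurentPolynomial.T_add, add_neg_cancel, LaurentPolynomial.T_zero, mul_one]
    have hqt : toLaurent (q * t) ≠ (0 : LaurentPolynomial k) := toLaurent_ne_zero.2 (mul_ne_zero hq0 ht0)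
    have hc3 : ι (cn hb 0 gg) * ι c' * ι c ≠ 0 := mul_ne_zero (mul_ne_zero hgg4 hc') hc
    have e6 : LaurentPolynomial.C (ι (cn hb 0 gg) * ι c' * ι c) =
        kap ι hb a * LaurentPolynomial.T (-n) * toLaurent q := by
      apply mul_right_cancel₀ hqt
      have h5 : toLaurent p = toLaurent q * toLaurent (q * t) := by rw [ht, ← map_mul, mul_assoc]
      rw [map_mul, map_mul]
      calc LaurentPolynomial.C (ι (cn hb 0 gg)) * LaurentPolynomial.C (ι c') *
            LaurentPolynomial.C (ι c) * toLaurent (q * t)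
          = LaurentPolynomial.C (ι (cn hb 0 gg)) * (LaurentPolynomial.C (ι c') *
            (LaurentPolynomial.C (ι c) * toLaurent (q * t))) := by ring
        _ = kap ι hb a * kap ι hb f := e4
        _ = _ := by rw [e5, h5]; ring
    -- `q` divides a power of `X`
    obtain ⟨m, w, hw⟩ := LaurentPolynomial.exists_T_pow
      (LaurentPolynomial.C ((ι (cn hb 0 gg) * ι c' * ι c)⁻¹) *
        (kap ι hb a * LaurentPolynomial.T (-n)))
    have e7 : toLaurent (q * w) = (toLaurent (X ^ m) : LaurentPolynomial k) := by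
      rw [map_mul, hw, toLaurent_X_pow]
      have h6 : (LaurentPolynomial.C ((ι (cn hb 0 gg) * ι c' * ι c)⁻¹) *
          LaurentPolynomial.C (ι (cn hb 0 gg) * ι c' * ι c) : LaurentPolynomial k) = 1 := by
        rw [← map_mul, inv_mul_cancel₀ hc3, map_one]
      linear_combination LaurentPolynomial.T (m : ℤ) * h6 -
        LaurentPolynomial.C ((ι (cn hb 0 gg) * ι c' * ι c)⁻¹) * LaurentPolynomial.T (m : ℤ) * e6
    have e8 : q * w = X ^ m := toLaurent_injective e7
    have e9 : q ∣ X ^ m := ⟨w, e8.symm⟩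
    obtain ⟨i', hi', hass⟩ := (dvd_prime_pow (prime_X (R := k)) m).1 e9
    rcases Nat.eq_zero_or_pos i' with h7 | h7
    · rw [h7, pow_zero] at hass
      exact associated_one_iff_isUnit.1 hass
    · exfalso
      apply hXp
      have h8 : (X : k[X]) ∣ q := (dvd_pow_self X h7.ne').trans hass.symm.dvd
      rw [ht, mul_assoc]
      exact h8.mul_right _
  -- separable
  obtain ⟨u, v, huv⟩ := PerfectField.separable_iff_squarefree.2 hsq
  have h1 : toLaurent u * toLaurent p + toLaurent v * LaurentPolynomial.T (-1) * dl (toLaurent p) =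
      (1 : LaurentPolynomial k) := by
    rw [dl_poly, map_mul, toLaurent_X]
    have h2 := congrArg toLaurent huv
    rw [map_add, map_mul, map_mul, map_one] at h2
    have h3 : (LaurentPolynomial.T (-1) * LaurentPolynomial.T 1 : LaurentPolynomial k) = 1 := by
      rw [← LaurentPolynomial.T_add]; simp
    linear_combination h2 + toLaurent v * toLaurent (derivative p) * h3
  rw [hpn, dl_mul_T] at h1
  obtain ⟨c1, gA, hc1, hA⟩ := hden (toLaurent u * LaurentPolynomial.T n +
    toLaurent v * LaurentPolynomial.T (-1) * (n : LaurentPolynomial k) * LaurentPolynomial.T n)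
  obtain ⟨c2, gB, hc2, hB⟩ := hden (toLaurent v * LaurentPolynomial.T (-1) * LaurentPolynomial.T n)
  refine ⟨jj lam c2 * gA, jj lam c1 * gB, jj lam (c1 * c2), ?_, ?_, ?_⟩
  · rw [← hι, map_mul]
    exact mul_ne_zero hc1 hc2
  · intro m hm
    classical
    have h2 : (jj lam (c1 * c2)).coeff.support ⊆
        (c1 * c2).coeff.support.image (fun x : lam.ker => (x : M)) := Finsupp.mapDomain_support
    obtain ⟨x, -, rfl⟩ := Finset.mem_image.1 (h2 hm)
    exact x.2
  · have hD : (∑ m ∈ f.coeff.support, AddMonoidAlgebra.single m ((lam m : ℂ) * f.coeff m)) = DD lam f := rfl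
    rw [hD, ← hK, map_sub, map_add, map_mul, map_mul, map_mul, map_mul, kap_DD, kap_jj, kap_jj, kap_jj,
      ← hA, ← hB, map_mul, map_mul]
    linear_combination (LaurentPolynomial.C (ι c1) * LaurentPolynomial.C (ι c2)) * h1

end bezout

open Pool.Agent.Y833.OG

/-- The polynomial attached to a Laurent polynomial `f`, an ideal `I` and a saturated subgroup `Γ`
such that `I` is homogeneous with respect to `Γ`, when the radical is generated up to denominators
in a smaller subgroup. -/
theorem hat_gr (hsqf : St_sqf) (N : ℕ) (Γ₀ Γ : Submodule ℤ (Fin N → ℤ)) (hΓ : Γ₀ ≤ Γ)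
    (I : Ideal (AddMonoidAlgebra ℂ (Fin N → ℤ))) (f : AddMonoidAlgebra ℂ (Fin N → ℤ))
    (hsat : Sat Γ) (hI : I.IsPrime) (hfI : f ∉ I) (hrad : GR I f Γ₀)
    (hhom : ∀ g ∈ I, ∀ q, comp Γ q g ∈ I) :
    ∃ (b : ℕ) (bt : Fin b → Fin N → ℤ) (co : (Fin N → ℤ) →+ (Fin b → ℤ)),
      (∀ m, co m = 0 ↔ m ∈ Γ) ∧ (∀ j, co (bt j) = Pi.single j 1) ∧
      ∃ (S : Finset (Fin b →₀ ℕ)) (pp : (Fin b →₀ ℕ) → AddMonoidAlgebra ℂ (Fin N → ℤ))
        (m0 : Fin N → ℤ) (G : AddMonoidAlgebra ℂ (Fin N → ℤ)),
        (∀ β ∈ S, pp β ∉ I ∧ ∀ m ∈ (pp β).coeff.support, m ∈ Γ) ∧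
        (AddMonoidAlgebra.single m0 (1 : ℂ) * f
          - ∑ β ∈ S, pp β * AddMonoidAlgebra.single (∑ j, (β j : ℤ) • bt j) (1 : ℂ) ∈ I) ∧
        ((∀ q, f - comp Γ q f ∉ I) → 2 ≤ S.card) ∧ G ∉ I ∧
        ∀ (R : Type) [CommRing R] [IsDomain R] [Algebra ℂ R]
          (ev : AddMonoidAlgebra ℂ (Fin N → ℤ) →ₐ[ℂ] R), (∀ g ∈ I, ev g = 0) → ev G ≠ 0 →
          (∀ β ∈ S, ev (pp β) ≠ 0) ∧
          Squarefree (MvPolynomial.map (algebraMap R (FractionRing R))
            (∑ β ∈ S, MvPolynomial.monomial β (ev (pp β)))) ∧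
          ∀ i, ¬ (MvPolynomial.X i ∣ MvPolynomial.map (algebraMap R (FractionRing R))
            (∑ β ∈ S, MvPolynomial.monomial β (ev (pp β)))) := by
  classical
  obtain ⟨b, bt, co, hco, hbt⟩ := basis_exists Γ hsat
  have hhomc : ∀ g ∈ I, ∀ c, cmp co c g ∈ I := fun g hg c => by
    rw [cmp_eq_comp hbt hco]
    exact hhom g hg _
  have hunit : ∀ (m : Fin N → ℤ) (g : Lau N), g * AddMonoidAlgebra.single m 1 ∈ I → g ∈ I := by
    intro m g h
    have h1 := I.mul_mem_right (AddMonoidAlgebra.single (-m) 1) h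
    rwa [mul_assoc, AddMonoidAlgebra.single_mul_single, add_neg_cancel, one_mul,
      ← AddMonoidAlgebra.one_def, mul_one] at h1
  refine ⟨b, bt, co, hco, hbt, ?_⟩
  -- classes
  set Q : Finset (Fin b → ℤ) := (f.coeff.support.image co).filter fun c => cmp co c f ∉ I
    with hQ
  have hsumf := sum_cmp (co := co) f (f.coeff.support.image co)
    (fun m hm => Finset.mem_image_of_mem _ hm)
  have hQne : Q.Nonempty := by
    by_contra hne
    rw [Finset.not_nonempty_iff_eq_empty] at hne
    apply hfI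
    rw [← hsumf]
    refine I.sum_mem fun c hc => ?_
    by_contra hcI
    have h1 : c ∈ Q := Finset.mem_filter.mpr ⟨hc, hcI⟩
    rw [hne] at h1
    exact absurd h1 (Finset.notMem_empty _)
  have hfQ : f - ∑ c ∈ Q, cmp co c f ∈ I := by
    have h1 := Finset.sum_filter_add_sum_filter_not (f.coeff.support.image co)
      (fun c => cmp co c f ∉ I) (fun c => cmp co c f)
    rw [hsumf] at h1
    have h2 : f - ∑ c ∈ Q, cmp co c f = ∑ c ∈ (f.coeff.support.image co).filter
        (fun c => ¬ cmp co c f ∉ I), cmp co c f := by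
      rw [sub_eq_iff_eq_add, add_comm]
      exact h1.symm
    rw [h2]
    refine I.sum_mem fun c hc => ?_
    exact not_not.mp (Finset.mem_filter.mp hc).2
  set lo : Fin b → ℤ := fun j => Q.inf' hQne (fun c => c j) with hlo
  have hlo1 : ∀ c ∈ Q, ∀ j, lo j ≤ c j := fun c hc j => Finset.inf'_le _ hc
  have hlo2 : ∀ j, ∃ c ∈ Q, c j = lo j := by
    intro j
    obtain ⟨c, hc, h⟩ := Finset.exists_mem_eq_inf' hQne (fun c : Fin b → ℤ => c j)
    exact ⟨c, hc, h.symm⟩
  set bf : (Fin b → ℤ) → (Fin b →₀ ℕ) :=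
    fun c => Finsupp.equivFunOnFinite.symm (fun j => (c j - lo j).toNat) with hbf
  have hbf1 : ∀ c ∈ Q, ti (bf c) + lo = c := by
    intro c hc
    ext j
    simp only [Pi.add_apply, ti, hbf, Finsupp.equivFunOnFinite_symm_apply_apply]
    have := hlo1 c hc j
    omega
  set S : Finset (Fin b →₀ ℕ) := Q.image bf with hSd
  have hS : ∀ β ∈ S, ti β + lo ∈ Q := by
    intro β hβ
    obtain ⟨c, hc, rfl⟩ := Finset.mem_image.mp hβ
    rw [hbf1 c hc]
    exact hc
  have hbfinj : Set.InjOn bf Q := by
    intro c hc c' hc' h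
    rw [← hbf1 c hc, ← hbf1 c' hc', h]
  set pp : (Fin b →₀ ℕ) → Lau N := fun β =>
    cmp co (ti β + lo) f * AddMonoidAlgebra.single (-(Bv bt (ti β + lo))) 1 with hpp
  have hppI : ∀ β ∈ S, pp β ∉ I := fun β hβ h => (Finset.mem_filter.mp (hS β hβ)).2 (hunit _ _ h)
  have hppΓ : ∀ β, ∀ m ∈ (pp β).coeff.support, co m = 0 := by
    intro β m hm
    rw [Finsupp.mem_support_iff, hpp] at hm
    rw [AddMonoidAlgebra.coeff_mul_single_apply, cmp_coeff, mul_one] at hm
    by_contra h
    apply hm
    rw [if_neg]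
    intro h'
    rw [map_add, map_neg, map_neg, neg_neg, co_Bv hbt] at h'
    exact h (by simpa using h')
  have hcong : AddMonoidAlgebra.single (Bv bt (-lo)) (1 : ℂ) * f
      - ∑ β ∈ S, pp β * AddMonoidAlgebra.single (Bv bt (ti β)) (1 : ℂ) ∈ I := by
    have h1 : ∀ β, pp β * AddMonoidAlgebra.single (Bv bt (ti β)) (1 : ℂ) =
        AddMonoidAlgebra.single (Bv bt (-lo)) (1 : ℂ) * cmp co (ti β + lo) f := by
      intro β
      rw [hpp, mul_assoc, AddMonoidAlgebra.single_mul_single, mul_one, mul_comm]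
      congr 2
      rw [Bv_add, Bv_neg]
      abel
    rw [Finset.sum_congr rfl (fun β _ => h1 β), hSd, Finset.sum_image hbfinj,
      Finset.sum_congr rfl (fun c hc => by rw [hbf1 c hc]), ← Finset.mul_sum, ← mul_sub]
    exact I.mul_mem_left _ hfQ
  -- the elements for the derivatives
  have hb : ∀ j : Fin b, ∃ A B R : Lau N, R ∉ I ∧ (∀ m ∈ R.coeff.support, co m j = 0) ∧
      A * f + B * (∑ m ∈ f.coeff.support,
        AddMonoidAlgebra.single m (((co m j : ℤ) : ℂ) * f.coeff m)) - R ∈ I := by
    intro j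
    refine bez_gr (Fin N → ℤ) I hI f hfI ((Pi.evalAddMonoidHom (fun _ => ℤ) j).comp co) ?_ ?_ ?_
    · intro n
      refine ⟨n • bt j, ?_⟩
      change co (n • bt j) j = n
      rw [map_zsmul, hbt]
      simp
    · intro u hu
      obtain ⟨g, hg1, hg2, hg3⟩ := hrad u hu
      refine ⟨g, hg1, fun m hm => ?_, hg3⟩
      change co m j = 0
      rw [(hco m).2 (hΓ (hg2 m hm)), Pi.zero_apply]
    · intro g hg n
      have h1 : (AddMonoidAlgebra.ofCoeff (g.coeff.filter fun m =>
          ((Pi.evalAddMonoidHom (fun _ => ℤ) j).comp co) m = n) : Lau N) =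
          ∑ c ∈ (g.coeff.support.image co).filter (fun c => c j = n), cmp co c g := by
        ext m
        rw [AddMonoidAlgebra.coeff_ofCoeff, Finsupp.filter_apply, AddMonoidAlgebra.coeff_sum,
          Finsupp.finsetSum_apply]
        simp only [cmp_coeff]
        rw [Finset.sum_ite_eq]
        change (if co m j = n then _ else _) = _
        by_cases hm : m ∈ g.coeff.support
        · by_cases h : co m j = n
          · rw [if_pos h, if_pos]
            exact Finset.mem_filter.mpr ⟨Finset.mem_image_of_mem _ hm, h⟩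
          · rw [if_neg h, if_neg]
            exact fun h' => h (Finset.mem_filter.mp h').2
        · have h0 : g.coeff m = 0 := by simpa using hm
          rw [h0]
          simp
      rw [h1]
      exact I.sum_mem fun c _ => hhomc g hg c
  choose A B Rr hR1 hR2 hR3 using hb
  have hcj : ∀ j, ∃ c, cmp co c (Rr j) ∉ I := by
    intro j
    by_contra h
    push Not at h
    apply hR1 j
    rw [← sum_cmp (co := co) (Rr j) ((Rr j).coeff.support.image co)
      (fun m hm => Finset.mem_image_of_mem _ hm)]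
    exact I.sum_mem fun c _ => h c
  choose cj hcj using hcj
  refine ⟨S, pp, Bv bt (-lo), (∏ c ∈ Q, cmp co c f) * ∏ j, cmp co (cj j) (Rr j), ?_, hcong,
    ?_, ?_, ?_⟩
  · intro β hβ
    exact ⟨hppI β hβ, fun m hm => (hco m).mp (hppΓ β m hm)⟩
  · intro h
    rw [hSd, Finset.card_image_of_injOn hbfinj]
    by_contra hlt
    have hcard : Q.card = 1 := by
      have := hQne.card_pos
      omega
    obtain ⟨c, hc⟩ := Finset.card_eq_one.mp hcard
    rw [hc, Finset.sum_singleton, cmp_eq_comp hbt hco] at hfQ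
    exact h _ hfQ
  · intro h
    rcases hI.mem_or_mem h with h | h
    · rw [Ideal.IsPrime.prod_mem_iff] at h
      obtain ⟨c, hc, h⟩ := h
      exact (Finset.mem_filter.mp hc).2 h
    · rw [Ideal.IsPrime.prod_mem_iff] at h
      obtain ⟨j, _, h⟩ := h
      exact hcj j h
  · intro R _ _ _ ev hev hG
    rw [map_mul, map_prod, map_prod] at hG
    have hG1 : ∀ c ∈ Q, ev (cmp co c f) ≠ 0 := by
      intro c hc h
      exact hG (by rw [Finset.prod_eq_zero hc h, zero_mul])
    have hG2 : ∀ j, ev (cmp co (cj j) (Rr j)) ≠ 0 := by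
      intro j h
      exact hG (by rw [Finset.prod_eq_zero (Finset.mem_univ j) h, mul_zero])
    have hevu : ∀ m : Fin N → ℤ, ev (AddMonoidAlgebra.single m 1) ≠ 0 := by
      intro m h
      have h1 : ev (AddMonoidAlgebra.single m 1 * AddMonoidAlgebra.single (-m) 1) = 1 := by
        rw [AddMonoidAlgebra.single_mul_single, add_neg_cancel, one_mul,
          ← AddMonoidAlgebra.one_def, map_one]
      rw [map_mul, h, zero_mul] at h1
      exact zero_ne_one h1
    have hpp0 : ∀ β ∈ S, ev (pp β) ≠ 0 := by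
      intro β hβ
      rw [hpp, map_mul]
      exact mul_ne_zero (hG1 _ (hS β hβ)) (hevu _)
    have hinj : Function.Injective (algebraMap R (FractionRing R)) :=
      IsFractionRing.injective R _
    have ha0 : ∀ r : R, r ≠ 0 → algebraMap R (FractionRing R) r ≠ 0 := by
      intro r hr h
      rw [← map_zero (algebraMap R (FractionRing R))] at h
      exact hr (hinj h)
    have hmap : MvPolynomial.map (algebraMap R (FractionRing R))
        (∑ β ∈ S, MvPolynomial.monomial β (ev (pp β))) =
        ∑ β ∈ S, MvPolynomial.monomial β (algebraMap R (FractionRing R) (ev (pp β))) := by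
      rw [map_sum]
      refine Finset.sum_congr rfl fun β _ => ?_
      rw [MvPolynomial.map_monomial]
    rw [hmap]
    set P := ∑ β ∈ S, MvPolynomial.monomial β (algebraMap R (FractionRing R) (ev (pp β)))
      with hP
    have hPc : ∀ β ∈ S, MvPolynomial.coeff β P = algebraMap R (FractionRing R) (ev (pp β)) := by
      intro β hβ
      rw [hP, MvPolynomial.coeff_sum]
      simp only [MvPolynomial.coeff_monomial]
      rw [Finset.sum_ite_eq', if_pos hβ]
    have hPX : ∀ i, ¬ (MvPolynomial.X i ∣ P) := by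
      rintro i ⟨p, hp⟩
      obtain ⟨c, hc, hci⟩ := hlo2 i
      have h1 := hPc (bf c) (Finset.mem_image_of_mem _ hc)
      rw [hp, MvPolynomial.coeff_X_mul', if_neg] at h1
      · exact ha0 _ (hpp0 _ (Finset.mem_image_of_mem _ hc)) h1.symm
      · rw [Finsupp.mem_support_iff, not_not]
        simp only [hbf, Finsupp.equivFunOnFinite_symm_apply_apply]
        omega
    refine ⟨hpp0, ?_, hPX⟩
    haveI : CharZero (FractionRing R) :=
      charZero_of_injective_algebraMap (algebraMap ℂ (FractionRing R)).injective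
    have hP0 : P ≠ 0 := by
      obtain ⟨c, hc⟩ := hQne
      intro h
      have h1 := hPc (bf c) (Finset.mem_image_of_mem _ hc)
      rw [h, MvPolynomial.coeff_zero] at h1
      exact ha0 _ (hpp0 _ (Finset.mem_image_of_mem _ hc)) h1.symm
    apply hsqf (FractionRing R) b P hP0 hPX
    intro j
    -- the ring homomorphism
    have hHI : ∀ g ∈ I, Hat co bt ev g = 0 := by
      intro g hg
      ext c
      rw [Hat_coeff, hev _ (I.mul_mem_right _ (hhomc g hg c)), map_zero]
      simp
    have hHf : Hat co bt ev f = AddMonoidAlgebra.single lo 1 * io (FractionRing R) b P := by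
      have h1 := hHI _ hcong
      rw [map_sub, map_mul, Hat_Bv hbt, map_sum, sub_eq_zero] at h1
      have h2 : ∑ β ∈ S, Hat co bt ev (pp β * AddMonoidAlgebra.single (Bv bt (ti β)) (1 : ℂ)) =
          io (FractionRing R) b P := by
        rw [hP, map_sum]
        refine Finset.sum_congr rfl fun β _ => ?_
        rw [map_mul, Hat_Bv hbt, Hat_zero_of_supp ev _ (hppΓ β), io_monomial,
          AddMonoidAlgebra.single_mul_single, zero_add, mul_one]
      rw [h2] at h1
      rw [← h1, ← mul_assoc, AddMonoidAlgebra.single_mul_single, add_neg_cancel, one_mul,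
        ← AddMonoidAlgebra.one_def, one_mul]
    have hHD : Hat co bt ev (∑ m ∈ f.coeff.support,
        AddMonoidAlgebra.single m (((co m j : ℤ) : ℂ) * f.coeff m)) =
        dl j (Hat co bt ev f) := by
      have h1 : f = ∑ m ∈ f.coeff.support, AddMonoidAlgebra.single m (f.coeff m) :=
        (AddMonoidAlgebra.sum_coeff_single f).symm
      conv_rhs => rw [h1]
      rw [map_sum, map_sum, dl_sum]
      refine Finset.sum_congr rfl fun m _ => ?_
      rw [Hat_single, Hat_single, dl_single]
      congr 1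
      have h2 : (AddMonoidAlgebra.single (rs co bt m) (((co m j : ℤ) : ℂ) * f.coeff m) : Lau N) =
          ((co m j : ℤ)) • AddMonoidAlgebra.single (rs co bt m) (f.coeff m) := by
        rw [AddMonoidAlgebra.smul_single, zsmul_eq_mul]
      rw [h2, map_zsmul, map_zsmul, zsmul_eq_mul]
    have hid := hHI _ (hR3 j)
    rw [map_sub, map_add, map_mul, map_mul, hHD, hHf, dl_mul_single, dl_io, sub_eq_zero] at hid
    obtain ⟨k1, hk1⟩ := io_clear (Hat co bt ev (A j) * AddMonoidAlgebra.single lo 1 +
      Hat co bt ev (B j) * AddMonoidAlgebra.single lo ((lo j : ℤ) : FractionRing R))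
    obtain ⟨k2, hk2⟩ := io_clear (Hat co bt ev (B j) * AddMonoidAlgebra.single lo 1)
    obtain ⟨k3, hk3⟩ := io_clear (Hat co bt ev (Rr j))
    obtain ⟨A', hA'⟩ := hk1 (max k1 (max k2 k3)) (le_max_left _ _)
    obtain ⟨B', hB'⟩ := hk2 (max k1 (max k2 k3)) (le_trans (le_max_left _ _) (le_max_right _ _))
    obtain ⟨R', hR'⟩ := hk3 (max k1 (max k2 k3)) (le_trans (le_max_right _ _) (le_max_right _ _))
    set k := max k1 (max k2 k3) with hk
    have hident : A' * P + B' * (MvPolynomial.X j * MvPolynomial.pderiv j P) = R' := by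
      apply io_inj
      rw [map_add, map_mul, map_mul, ← hA', ← hB', ← hR', ← hid]
      ring
    obtain ⟨q, hq0, hqd, hq⟩ := exists_split j k _ R' hR' (cj j) (by
        rw [Hat_coeff, map_mul]
        exact ha0 _ (mul_ne_zero (hG2 j) (hevu _))) (by
        intro c hc
        by_contra hcj0
        apply hc
        rw [Hat_coeff]
        have h1 : cmp co c (Rr j) = 0 := by
          ext m
          rw [cmp_coeff]
          split_ifs with h
          · by_contra hne
            have := hR2 j m (Finsupp.mem_support_iff.mpr hne)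
            rw [h] at this
            exact hcj0 this
          · rfl
        rw [h1, zero_mul, map_zero, map_zero])
    exact ⟨A', B', q, k, hq0, hqd, by rw [hident, hq]⟩

end Pool.Agent.Y192.OG
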