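import Pool.Agent.Y192.OG.D2

/-!
Equations of functions over the ring of Laurent polynomials.
-/

set_option autoImplicit false
set_option linter.unusedSectionVars false

namespace Pool.Agent.Y192.OG

open FF MvPolynomial Pool.Agent.W603.LV Pool.Agent.W602.GT Pool.Agent.TH122.AB

theorem eq_scale {A : Type} [CommRing A] (D : ℕ) (C : ℕ → A) (z u : A)
    (h : z ^ D + ∑ l ∈ Finset.Icc 1 D, C l * z ^ (D - l) = 0) :
    (u * z) ^ D + ∑ l ∈ Finset.Icc 1 D, (u ^ l * C l) * (u * z) ^ (D - l) = 0 := by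
  have h1 := congrArg (fun y => u ^ D * y) h
  simp only [mul_zero] at h1
  rw [← h1, mul_add, mul_pow, Finset.mul_sum]
  congr 1
  refine Finset.sum_congr rfl fun l hl => ?_
  have h2 := Finset.mem_Icc.mp hl
  have h3 : u ^ D = u ^ l * u ^ (D - l) := by rw [← pow_add, Nat.add_sub_cancel' h2.2]
  rw [h3, mul_pow]
  ring

variable {N : ℕ} {K : Type} [Field K] [Algebra ℂ K]
  {x : Fin N → Kˣ} {Γ : Submodule ℤ (Fin N → ℤ)} {b : ℕ} {bt : Fin b → Fin N → ℤ}
  {co : (Fin N → ℤ) →+ (Fin b → ℤ)} {F : IntermediateField (F0 x Γ) K} {X : Fin b → F}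

/-- a Laurent polynomial with exponents in `Γ` gives an element of `F0 x Γ` -/
theorem ep_mem {g : AddMonoidAlgebra ℂ (Fin N → ℤ)} (hg : ∀ m ∈ g.coeff.support, m ∈ Γ) :
    ep x g ∈ F0 x Γ := by
  have h1 : g = ∑ m ∈ g.coeff.support, AddMonoidAlgebra.single m (g.coeff m) :=
    (AddMonoidAlgebra.sum_coeff_single g).symm
  rw [h1, map_sum]
  refine (F0 x Γ).sum_mem fun m hm => ?_
  rw [ep_single]
  exact (F0 x Γ).smul_mem (IntermediateField.subset_adjoin _ _ ⟨m, hg m hm, rfl⟩)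

/-- the coefficients -/
noncomputable def La (bt : Fin b → Fin N → ℤ) (g A : AddMonoidAlgebra ℂ (Fin N → ℤ)) (r M : ℕ) :
    AddMonoidAlgebra ℂ (Fin N → ℤ) :=
  g ^ r * A * AddMonoidAlgebra.single (-((M : ℤ) • ∑ j, bt j)) (1 : ℂ)

theorem La_ep {g A : AddMonoidAlgebra ℂ (Fin N → ℤ)} {a : MvPolynomial (Fin b) (F0 x Γ)}
    (hA : ep x A = ep x g * aeval (fun j => (xm x (bt j) : K)) a) (r M : ℕ) :
    ep x (La bt g A r M) = ep x g ^ (r + 1) * aeval (fun j => (xm x (bt j) : K)) a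
      * ((∏ j, (xm x (bt j) : K)) ^ M)⁻¹ := by
  have h1 : (xm x (-((M : ℤ) • ∑ j, bt j)) : K) = ((∏ j, (xm x (bt j) : K)) ^ M)⁻¹ := by
    rw [xm_neg, Pool.Agent.Y809.OG.xm_zsmul, Pool.Agent.Y809.OG.xm_sum, zpow_natCast]
    rw [Units.val_inv_eq_inv_val, Units.val_pow_eq_pow_val, Units.coe_prod]
  unfold La
  rw [map_mul, map_mul, map_pow, hA, ep_single_one, h1]
  ring

theorem supp_pow_co (hS : Splt Γ bt co) {g : AddMonoidAlgebra ℂ (Fin N → ℤ)}
    (hg : ∀ m ∈ g.coeff.support, m ∈ Γ) (r : ℕ) : ∀ m ∈ (g ^ r).coeff.support, co m = 0 := by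
  have h1 : ∀ r : ℕ, Pool.Agent.Y290.OG.SG Γ (g ^ r) := by
    intro r
    induction r with
    | zero =>
      rw [pow_zero]
      exact Pool.Agent.Y290.OG.SG.one
    | succ r ih =>
      rw [pow_succ]
      exact Pool.Agent.Y290.OG.SG.mul ih hg
  intro m hm
  rw [hS.ker]
  exact h1 r m hm

theorem La_supp (hS : Splt Γ bt co) {g A : AddMonoidAlgebra ℂ (Fin N → ℤ)}
    {a : MvPolynomial (Fin b) (F0 x Γ)} (hg : ∀ m ∈ g.coeff.support, m ∈ Γ)
    (hA : ∀ m ∈ A.coeff.support, ∃ c ∈ a.support, co m = fun j => (c j : ℤ)) (r M : ℕ) :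
    ∀ m ∈ (La bt g A r M).coeff.support, ∃ c ∈ a.support,
      ∀ w : Fin b → ℤ, ∑ i, w i * co m i = tw w c - M * ∑ i, w i := by
  intro m hm
  unfold La at hm
  obtain ⟨m1, hm1, m2, hm2, hm12⟩ := Pool.Agent.Y290.OG.supp_mul _ _ m hm
  obtain ⟨m3, hm3, m4, hm4, hm34⟩ := Pool.Agent.Y290.OG.supp_mul _ _ m1 hm1
  obtain ⟨c, hc, hmc⟩ := hA m4 hm4
  have h3 := supp_pow_co hS hg r m3 hm3
  have h2 : m2 = -((M : ℤ) • ∑ j, bt j) := Pool.Agent.Y290.OG.supp_single _ _ _ hm2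
  have h5 : co (∑ j, bt j) = fun _ => 1 := by
    rw [map_sum]
    ext i
    rw [Finset.sum_apply, Finset.sum_eq_single i]
    · rw [hS.bt, Pi.single_eq_same]
    · intro j _ hj
      rw [hS.bt, Pi.single_eq_of_ne hj.symm]
    · intro h
      exact absurd (Finset.mem_univ i) h
  refine ⟨c, hc, fun w => ?_⟩
  have h6 : co m = fun i => (c i : ℤ) - M := by
    rw [← hm12, ← hm34, map_add, map_add, h3, zero_add, hmc, h2, map_neg, map_zsmul, h5]
    ext i
    simp only [Pi.add_apply, Pi.neg_apply, Pi.smul_apply, smul_eq_mul, mul_one]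
    ring
  rw [h6]
  unfold tw
  rw [Finset.mul_sum, ← Finset.sum_sub_distrib]
  refine Finset.sum_congr rfl fun i _ => ?_
  ring

end Pool.Agent.Y192.OG
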