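import Pool.Agent.Y192.OG.Asm8
import Pool.Agent.W601.PH.Quasi

/-!
Varieties over a closed subset of an algebraic torus which are ramified over the boundary divisors
and over a hypersurface.
-/

set_option autoImplicit false

namespace Pool.Agent.Y192.OG

open Filter Metric Set Topology Pool.Agent.W601.SM Pool.Agent.W601.PH Pool.Agent.W603.BP

/-- the value of a Laurent polynomial at a point of the torus -/
noncomputable def lev {n : ℕ} (g : Lau n) (x : Fin n → ℂ) : ℂ :=
  g.coeff.sum fun m a => a * ∏ i, x i ^ m i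

/-- the point of the torus with the homogeneous coordinates `v` -/
noncomputable def tor {n : ℕ} (v : Fin (n + 1) → ℂ) : Fin n → ℂ := fun i => v i.succ / v 0

/-- The part of weight `k` of a Laurent polynomial with respect to the one-parameter subgroup
`t ↦ (t ^ l 1, …, t ^ l n)` of the torus. -/
noncomputable def wpart {n : ℕ} (l : Fin n → ℤ) (k : ℤ) (g : Lau n) : Lau n :=
  AddMonoidAlgebra.ofCoeff (g.coeff.filter fun m => ∑ i, l i * m i = k)

/-- `X - D` lies over the closed subset of the torus with the ideal `I`, and the morphism is ramified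
over the coordinate hyperplanes (boundary divisors) with multiplicities at least `m`, over
the hypersurface `f = 0` with multiplicities at least `2`. -/
def Orb {N n : ℕ} (X D : BiSet N n) (I : Ideal (Lau n)) (f : Lau n) (m : ℕ) : Prop :=
  (∀ u v, QMem X D u v → (∀ i, v i ≠ 0) → ∀ g ∈ I, lev g (tor v) = 0) ∧
  ∀ u v, QArc X D u v →
    (∀ i, v 0 i = 0 → (m : ℕ∞) ≤ analyticOrderAt (fun z => v z i) 0) ∧
    ((∀ i, v 0 i ≠ 0) → lev f (tor (v 0)) = 0 →
      2 ≤ analyticOrderAt (fun z => lev f (tor (v z))) 0)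

section Alg

variable {n : ℕ}

theorem lev_zero (x : Fin n → ℂ) : lev (0 : Lau n) x = 0 := by
  unfold lev
  rw [AddMonoidAlgebra.coeff_zero, Finsupp.sum_zero_index]

theorem lev_add (g h : Lau n) (x : Fin n → ℂ) : lev (g + h) x = lev g x + lev h x := by
  unfold lev
  rw [AddMonoidAlgebra.coeff_add, Finsupp.sum_add_index']
  · intro m
    rw [zero_mul]
  · intro m a b
    rw [add_mul]

theorem lev_single (m : Fin n → ℤ) (a : ℂ) (x : Fin n → ℂ) :
    lev (AddMonoidAlgebra.single m a) x = a * ∏ i, x i ^ m i := by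
  unfold lev
  rw [AddMonoidAlgebra.coeff_single, Finsupp.sum_single_index]
  rw [zero_mul]

theorem val_ev (c : Curve n) (g : Lau n) {z : ℂ} (hz : z ∈ c.U) :
    c.val (c.ev g) z = lev g (fun i => c.xf i z) := by
  induction g using AddMonoidAlgebra.induction_linear with
  | zero =>
    rw [map_zero, lev_zero]
    have := c.val_smul 0 (0 : c.Mr) z
    rw [zero_smul, zero_mul] at this
    exact this
  | add f g hf hg => rw [map_add, c.val_add, Pi.add_apply, hf, hg, lev_add]
  | single m a =>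
    rw [c.ev_single, c.val_smul, c.val_mon m hz, lev_single]
    rfl

theorem wpart_coeff (l : Fin n → ℤ) (k : ℤ) (g : Lau n) (m : Fin n → ℤ) :
    (wpart l k g).coeff m = if ∑ i, l i * m i = k then g.coeff m else 0 := by
  unfold wpart
  rw [AddMonoidAlgebra.coeff_ofCoeff, Finsupp.filter_apply]

/-- a functional vanishing on a saturated subgroup -/
theorem exists_func {Γ : Submodule ℤ (Fin n → ℤ)} (hΓ : Sat Γ) (htop : Γ ≠ ⊤) :
    ∃ l : Fin n → ℤ, l ≠ 0 ∧ ∀ m ∈ Γ, ∑ i, l i * m i = 0 := by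
  classical
  obtain ⟨m0, hm0⟩ : ∃ m, m ∉ Γ := by
    by_contra hcon
    push Not at hcon
    exact htop (Submodule.eq_top_iff'.mpr hcon)
  have : Module.IsTorsionFree ℤ ((Fin n → ℤ) ⧸ Γ) := by
    refine ⟨fun r hr x y hxy => ?_⟩
    have hr0 : r ≠ 0 := hr.ne_zero
    obtain ⟨x, rfl⟩ := Γ.mkQ_surjective x
    obtain ⟨y, rfl⟩ := Γ.mkQ_surjective y
    have h1 : Γ.mkQ (r • (x - y)) = 0 := by
      rw [map_smul, map_sub, smul_sub, sub_eq_zero]
      exact hxy
    have h2 : x - y ∈ Γ := hΓ r _ hr0 ((Submodule.Quotient.mk_eq_zero Γ).mp h1)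
    have h3 : Γ.mkQ (x - y) = 0 := (Submodule.Quotient.mk_eq_zero Γ).mpr h2
    rw [map_sub, sub_eq_zero] at h3
    exact h3
  have : Module.Free ℤ ((Fin n → ℤ) ⧸ Γ) := inferInstance
  let b := Module.Free.chooseBasis ℤ ((Fin n → ℤ) ⧸ Γ)
  have hne : Γ.mkQ m0 ≠ 0 := fun h => hm0 ((Submodule.Quotient.mk_eq_zero Γ).mp h)
  obtain ⟨i, hi⟩ : ∃ i, b.repr (Γ.mkQ m0) i ≠ 0 := by
    by_contra hcon
    push Not at hcon
    apply hne
    apply b.repr.injective
    ext i
    rw [hcon i, map_zero]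
    rfl
  let L : (Fin n → ℤ) →ₗ[ℤ] ℤ := (b.coord i).comp Γ.mkQ
  have hL : ∀ m, ∑ j, L (Pi.single j 1) * m j = L m := by
    intro m
    conv_rhs => rw [← Finset.univ_sum_single m]
    rw [map_sum]
    refine Finset.sum_congr rfl fun j _ => ?_
    have : (Pi.single j (m j) : Fin n → ℤ) = m j • Pi.single j 1 := by
      rw [← Pi.single_smul, smul_eq_mul, mul_one]
    rw [this, map_smul, smul_eq_mul, mul_comm]
  refine ⟨fun j => L (Pi.single j 1), ?_, ?_⟩
  · intro h
    apply hi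
    have h1 := hL m0
    have h2 : ∑ j, L (Pi.single j 1) * m0 j = 0 := by
      refine Finset.sum_eq_zero fun j _ => ?_
      have := congrFun h j
      simp only [Pi.zero_apply] at this
      rw [this, zero_mul]
    rw [h2] at h1
    exact h1.symm
  · intro m hm
    rw [hL]
    change b.coord i (Γ.mkQ m) = 0
    rw [show Γ.mkQ m = 0 from (Submodule.Quotient.mk_eq_zero Γ).mpr hm, map_zero]

/-- the stabiliser condition for one-parameter subgroups implies the condition for all saturated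
subgroups of exponents -/
theorem hst_of {I : Ideal (Lau n)} {f : Lau n}
    (hfin : ∀ l : Fin n → ℤ, l ≠ 0 → (∀ g ∈ I, ∀ k, wpart l k g ∈ I) →
      ∀ k, f - wpart l k f ∉ I) :
    ∀ Γ : Submodule ℤ (Fin n → ℤ), Sat Γ → Γ ≠ ⊤ → (∀ g ∈ I, ∀ q, comp Γ q g ∈ I) →
      ∀ q, f - comp Γ q f ∉ I := by
  classical
  intro Γ hΓ htop hhom q hq
  obtain ⟨l, hl, hlΓ⟩ := exists_func hΓ htop
  have hch : ∀ q : (Fin n → ℤ) ⧸ Γ, ∃ m, Γ.mkQ m = q := fun q => Γ.mkQ_surjective q
  choose b hb using hch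
  have hlb : ∀ m, ∑ i, l i * m i = ∑ i, l i * b (Γ.mkQ m) i := by
    intro m
    have h1 : m - b (Γ.mkQ m) ∈ Γ := by
      rw [← Submodule.Quotient.mk_eq_zero Γ]
      change Γ.mkQ (m - b (Γ.mkQ m)) = 0
      rw [map_sub, hb, sub_self]
    have h2 := hlΓ _ h1
    simp only [Pi.sub_apply, mul_sub, Finset.sum_sub_distrib] at h2
    linarith
  have hcw : ∀ (q : (Fin n → ℤ) ⧸ Γ) (k : ℤ) (g : Lau n),
      comp Γ q (wpart l k g) = if ∑ i, l i * b q i = k then comp Γ q g else 0 := by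
    intro q k g
    apply AddMonoidAlgebra.coeff_injective
    ext m
    rw [comp_coeff, wpart_coeff]
    by_cases h1 : Γ.mkQ m = q
    · rw [if_pos h1, hlb m, h1]
      by_cases h2 : ∑ i, l i * b q i = k
      · rw [if_pos h2, if_pos h2, comp_coeff, if_pos h1]
      · rw [if_neg h2, if_neg h2]
        rfl
    · rw [if_neg h1]
      by_cases h2 : ∑ i, l i * b q i = k
      · rw [if_pos h2, comp_coeff, if_neg h1]
      · rw [if_neg h2]
        rfl
  have hcsub : ∀ (q : (Fin n → ℤ) ⧸ Γ) (g h : Lau n), comp Γ q (g - h) = comp Γ q g - comp Γ q h := by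
    intro q g h
    apply AddMonoidAlgebra.coeff_injective
    ext m
    rw [comp_coeff, AddMonoidAlgebra.coeff_sub, AddMonoidAlgebra.coeff_sub, Finsupp.sub_apply,
      Finsupp.sub_apply, comp_coeff, comp_coeff]
    split_ifs with h1
    · rfl
    · rw [sub_zero]
  have hmem : ∀ g : Lau n, (∀ q, comp Γ q g ∈ I) → g ∈ I := by
    intro g hg
    rw [← sum_comp Γ g]
    exact I.sum_mem fun q _ => hg q
  refine hfin l hl (fun g hg k => ?_) (∑ i, l i * b q i) ?_
  · apply hmem
    intro q'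
    rw [hcw]
    split_ifs
    · exact hhom g hg q'
    · exact I.zero_mem
  · apply hmem
    intro q'
    rw [hcsub, hcw]
    split_ifs with h1
    · rw [sub_self]
      exact I.zero_mem
    · rw [sub_zero]
      have h2 : q' ≠ q := fun h => h1 (by rw [h])
      have h3 : comp Γ q' (f - comp Γ q f) = comp Γ q' f := by
        rw [hcsub]
        have : comp Γ q' (comp Γ q f) = 0 := by
          apply AddMonoidAlgebra.coeff_injective
          ext m
          rw [comp_coeff, comp_coeff]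
          split_ifs with h4 h5
          · exact absurd (h4.symm.trans h5) h2
          · rfl
          · rfl
        rw [this, sub_zero]
      rw [← h3]
      exact hhom _ hq q'

/-- a homogeneous polynomial with the same zeros in the torus -/
theorem hform (g : Lau n) : ∃ k : ℕ, ∀ a b : ℕ, k ≤ a → k ≤ b →
    ∃ (P : MvPolynomial (Fin (n + 1)) ℂ), P.IsHomogeneous (a + n * b) ∧
      ∀ v : Fin (n + 1) → ℂ, (∀ i, v i ≠ 0) →
        MvPolynomial.eval v P = (v 0 ^ a * ∏ i : Fin n, v i.succ ^ b) * lev g (tor v) := by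
  induction g using AddMonoidAlgebra.induction_linear with
  | zero =>
    refine ⟨0, fun a b _ _ => ⟨0, MvPolynomial.isHomogeneous_zero _ _ _, fun v _ => ?_⟩⟩
    rw [map_zero, lev_zero, mul_zero]
  | add f g hf hg =>
    obtain ⟨k1, h1⟩ := hf
    obtain ⟨k2, h2⟩ := hg
    refine ⟨max k1 k2, fun a b ha hb => ?_⟩
    obtain ⟨P1, a1, b1⟩ := h1 a b ((le_max_left _ _).trans ha) ((le_max_left _ _).trans hb)
    obtain ⟨P2, a2, b2⟩ := h2 a b ((le_max_right _ _).trans ha) ((le_max_right _ _).trans hb)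
    refine ⟨P1 + P2, a1.add a2, fun v hv => ?_⟩
    rw [map_add, b1 v hv, b2 v hv, lev_add]
    ring
  | single m x =>
    set k : ℕ := ∑ i, (m i).natAbs with hk
    have hki : ∀ i, (m i).natAbs ≤ k := fun i =>
      Finset.single_le_sum (f := fun i => (m i).natAbs) (fun i _ => Nat.zero_le _)
        (Finset.mem_univ i)
    have hks : |∑ i, m i| ≤ k := by
      refine (Finset.abs_sum_le_sum_abs _ _).trans ?_
      rw [hk]
      push_cast
      exact le_rfl
    refine ⟨k, fun a b ha hb => ?_⟩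
    set e0 : ℕ := ((a : ℤ) - ∑ i, m i).toNat with he0
    set e : Fin n → ℕ := fun i => ((b : ℤ) + m i).toNat with he
    have h0 : (e0 : ℤ) = a - ∑ i, m i := by
      rw [he0, Int.toNat_of_nonneg]
      have := (abs_le.mp hks).2
      omega
    have h1 : ∀ i, (e i : ℤ) = b + m i := by
      intro i
      rw [he]
      simp only
      rw [Int.toNat_of_nonneg]
      have := hki i
      omega
    have e3 : a + n * b = e0 + ∑ i, e i := by
      have : ((a + n * b : ℕ) : ℤ) = ((e0 + ∑ i, e i : ℕ) : ℤ) := by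
        push_cast
        rw [Finset.sum_congr rfl (fun i _ => h1 i), h0, Finset.sum_add_distrib]
        simp
      exact_mod_cast this
    refine ⟨MvPolynomial.C x * (MvPolynomial.X 0 ^ e0 * ∏ i : Fin n, MvPolynomial.X i.succ ^ e i),
      ?_, ?_⟩
    · have h2 : (MvPolynomial.X 0 ^ e0 * ∏ i : Fin n, MvPolynomial.X i.succ ^ e i :
          MvPolynomial (Fin (n + 1)) ℂ).IsHomogeneous (e0 + ∑ i, e i) := by
        refine MvPolynomial.IsHomogeneous.mul ?_ (MvPolynomial.IsHomogeneous.prod _ _ _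
          fun i _ => ?_)
        · have := (MvPolynomial.isHomogeneous_X ℂ (0 : Fin (n + 1))).pow e0
          rwa [one_mul] at this
        · have := (MvPolynomial.isHomogeneous_X ℂ i.succ).pow (e i)
          rwa [one_mul] at this
      rw [e3]
      have := (MvPolynomial.isHomogeneous_C (Fin (n + 1)) x).mul h2
      rwa [zero_add] at this
    · intro v hv
      have hX0 := hv 0
      rw [lev_single, map_mul, MvPolynomial.eval_C, map_mul, map_prod, map_pow, MvPolynomial.eval_X]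
      simp only [map_pow, MvPolynomial.eval_X]
      have hmon : ∏ i, tor v i ^ m i = v 0 ^ (-∑ i, m i) * ∏ i, v i.succ ^ m i := by
        unfold tor
        rw [← Finset.sum_neg_distrib, Pool.Agent.Y246.OG.zpow_sum _ hX0, ← Finset.prod_mul_distrib]
        refine Finset.prod_congr rfl fun i _ => ?_
        rw [div_zpow, zpow_neg]
        field_simp
      rw [hmon]
      have e1 : v 0 ^ e0 = v 0 ^ a * v 0 ^ (-∑ i, m i) := by
        rw [← zpow_natCast, ← zpow_natCast, ← zpow_add₀ hX0, h0, sub_eq_add_neg]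
      have e2 : ∏ i : Fin n, v i.succ ^ e i
          = (∏ i : Fin n, v i.succ ^ b) * ∏ i : Fin n, v i.succ ^ m i := by
        rw [← Finset.prod_mul_distrib]
        refine Finset.prod_congr rfl fun i _ => ?_
        rw [← zpow_natCast, ← zpow_natCast, ← zpow_add₀ (hv i.succ), h1 i]
      rw [e1, e2]
      ring

end Alg

section Main

variable {n : ℕ}

/-- The theorem for discs. -/
theorem disc_main {I : Ideal (Lau n)} {f G : Lau n} {m : ℕ}
    (hcurves : ∀ c : Curve n, Adm I f m c → c.ev G ≠ 0 →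
      ∀ j, ∃ R : ℂ → ℂ, MeromorphicAt (fun w => R w⁻¹) 0 ∧ ∃ R0 : ℝ, ∀ z, R0 < ‖z‖ →
        c.X j z = R z * c.X 0 z)
    {N : ℕ} {X D : BiSet N n} (hX : Orb X D I f m) {u : ℂ → Fin (N + 1) → ℂ}
    {v : ℂ → Fin (n + 1) → ℂ} (h : QDisc X D u v)
    (hne : ∃ z ∈ ball (0 : ℂ) 1 \ {0}, (∀ i, v z i ≠ 0) ∧ lev G (tor (v z)) ≠ 0) :
    Extends v := by
  classical
  have hv := fun j => an_of_diffOn h.diffv j
  have hu := fun j => an_of_diffOn h.diffu j
  have hmem : ∀ z ∈ PB 1, QMem X D (u z) (v z) := fun z hz => h.mem z (mem_disc.mpr hz)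
  have hinv : ∀ z ∈ Ext 1, z⁻¹ ∈ PB 1 := fun z hz =>
    inv_mem_PB one_pos (by rw [inv_one]; exact hz)
  have hinv' : ∀ w ∈ PB 1, w⁻¹ ∈ Ext 1 := fun w hw => by
    have := inv_mem_Ext hw
    rwa [inv_one] at this
  have hz0 : ∀ z ∈ Ext 1, z ≠ 0 := fun z hz => ext_ne_zero zero_le_one hz
  obtain ⟨p, hp, hp1, hp2⟩ := hne
  have hpE : p⁻¹ ∈ Ext 1 := hinv' p (mem_disc.mp hp)
  -- the curve
  let c : Curve n :=
    { r0 := 1
      X := fun i z => v z⁻¹ i
      hr0 := le_rfl
      an := fun i z hz => (hv i z⁻¹ (hinv z hz)).comp_of_eq (analyticAt_inv (hz0 z hz)) rfl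
      ncz := by
        intro z hz
        by_contra hcon
        push Not at hcon
        exact (hmem _ (hinv z hz)).1.2.1 (funext hcon)
      nz := fun i => ⟨p⁻¹, hpE, by simp only [inv_inv]; exact hp1 i⟩ }
  have hval : ∀ (g : Lau n) (z : ℂ), z ∈ c.U → c.val (c.ev g) z = lev g (tor (v z⁻¹)) := by
    intro g z hz
    rw [val_ev c g hz]
    rfl
  -- the shifted arcs
  have harc : ∀ z ∈ PB 1, QArc X D (fun w => u (w + z)) (fun w => v (w + z)) := by
    intro z hz
    have hsh : AnalyticAt ℂ (fun w : ℂ => w + z) 0 := by fun_prop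
    refine ⟨fun j => ?_, fun j => ?_, ?_⟩
    · exact (hu j z hz).comp_of_eq hsh (zero_add z)
    · exact (hv j z hz).comp_of_eq hsh (zero_add z)
    · have h1 : Tendsto (fun w : ℂ => w + z) (𝓝 0) (𝓝 z) := by
        have h2 : ContinuousAt (fun w : ℂ => w + z) 0 := by fun_prop
        have h3 := h2.tendsto
        simpa using h3
      exact (h1.eventually ((PB_open 1).mem_nhds hz)).mono fun w hw => hmem _ hw
  have hshift : ∀ (φ : ℂ → ℂ) (z : ℂ), analyticOrderAt (fun w => φ (w + z)) 0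
      = analyticOrderAt φ z := by
    intro φ z
    have e1 : (fun w => φ (w + z)) = φ ∘ fun w => w + z := rfl
    have hd : deriv (fun w : ℂ => w + z) 0 ≠ 0 := by
      rw [deriv_add_const, deriv_id'']
      exact one_ne_zero
    rw [e1, analyticOrderAt_comp_of_deriv_ne_zero (by fun_prop) hd, zero_add]
  have hinvord : ∀ (φ : ℂ → ℂ) (z : ℂ), z ≠ 0 → analyticOrderAt (fun w => φ w⁻¹) z
      = analyticOrderAt φ z⁻¹ := by
    intro φ z hz
    have e1 : (fun w => φ w⁻¹) = φ ∘ fun w : ℂ => w⁻¹ := rfl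
    have hd : deriv (fun w : ℂ => w⁻¹) z ≠ 0 := by
      rw [deriv_inv]
      exact neg_ne_zero.mpr (inv_ne_zero (pow_ne_zero _ hz))
    rw [e1, analyticOrderAt_comp_of_deriv_ne_zero (analyticAt_inv hz) hd]
  have hadm : Adm I f m c := by
    refine ⟨fun g hg => ?_, fun i z hz h0 => ?_, fun z hz h0 => ?_⟩
    · apply c.val_inj
      intro z hz
      rw [hval g z hz]
      have h1 : c.val 0 z = 0 := by
        have := c.val_smul 0 (0 : c.Mr) z
        rw [zero_smul, zero_mul] at this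
        exact this
      rw [h1]
      exact hX.1 _ _ (hmem _ (hinv z hz.1)) hz.2 g hg
    · have h1 := (hX.2 _ _ (harc z⁻¹ (hinv z hz))).1 i (by
        rw [zero_add]
        exact h0)
      rw [hshift (fun w => v w i)] at h1
      change (m : ℕ∞) ≤ analyticOrderAt (fun w => v w⁻¹ i) z
      rw [hinvord (fun w => v w i) z (hz0 z hz)]
      exact h1
    · have hzE : z ∈ Ext 1 := hz.1
      rw [hval f z hz] at h0
      have h1 := (hX.2 _ _ (harc z⁻¹ (hinv z hzE))).2 (by
        intro i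
        rw [zero_add]
        exact hz.2 i) (by
        rw [zero_add]
        exact h0)
      rw [hshift (fun w => lev f (tor (v w)))] at h1
      rw [← hinvord (fun w => lev f (tor (v w))) z (hz0 z hzE)] at h1
      have h2 : c.val (c.ev f) =ᶠ[𝓝 z] fun w => lev f (tor (v w⁻¹)) := by
        filter_upwards [c.U_open.mem_nhds hz] with w hw
        exact hval f w hw
      unfold Curve.ord
      rw [(c.val_an _ z hz).meromorphicOrderAt_eq, analyticOrderAt_congr h2]
      generalize analyticOrderAt (fun w => lev f (tor (v w⁻¹))) z = a at h1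
      cases a with
      | top => exact le_top
      | coe k =>
        rw [ENat.map_natCast]
        have h3 : 2 ≤ k := by exact_mod_cast h1
        have h4 : (2 : ℤ) ≤ (k : ℤ) := by exact_mod_cast h3
        exact WithTop.coe_le_coe.mpr h4
  have hG : c.ev G ≠ 0 := by
    intro h0
    apply hp2
    have hpU : p⁻¹ ∈ c.U := ⟨hpE, fun i => by change v p⁻¹⁻¹ i ≠ 0; rw [inv_inv]; exact hp1 i⟩
    have h1 := hval G p⁻¹ hpU
    rw [inv_inv, h0] at h1
    rw [← h1]
    have := c.val_smul 0 (0 : c.Mr) p⁻¹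
    rw [zero_smul, zero_mul] at this
    exact this
  refine extends_mrel hv (fun z hz => (hmem z hz).1.2.1) (h := fun w => v w 0) fun j => ?_
  obtain ⟨R, hR, R0, hRe⟩ := hcurves c hadm hG j
  refine ⟨fun w => R w⁻¹, hR, ?_⟩
  rw [ev_iff]
  set R1 : ℝ := max R0 1 with hR1
  have hR1pos : 0 < R1 := lt_of_lt_of_le one_pos (le_max_right _ _)
  refine ⟨R1⁻¹, inv_pos.mpr hR1pos, ?_⟩
  intro w hw
  have hw' : R1 < ‖w⁻¹‖ := by
    have := inv_mem_Ext hw
    rwa [inv_inv] at this
  have h1 := hRe w⁻¹ (lt_of_le_of_lt (le_max_left _ _) hw')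
  have h2 : v w⁻¹⁻¹ j = R w⁻¹ * v w⁻¹⁻¹ 0 := h1
  rw [inv_inv] at h2
  exact h2

/-- The main theorem. -/
theorem orb_main {I : Ideal (Lau n)} [hI : I.IsPrime] {f : Lau n} (hf : f ∉ I)
    (hrad : (I ⊔ Ideal.span {f}).IsRadical)
    (hfin : ∀ l : Fin n → ℤ, l ≠ 0 → (∀ g ∈ I, ∀ k, wpart l k g ∈ I) →
      ∀ k, f - wpart l k f ∉ I) :
    ∃ (m : ℕ) (G : Lau n), G ∉ I ∧ ∀ (N : ℕ) (X D : BiSet N n), Orb X D I f m →
      (∀ u v, QDisc X D u v →
        (∃ z ∈ ball (0 : ℂ) 1 \ {0}, (∀ i, v z i ≠ 0) ∧ lev G (tor (v z)) ≠ 0) → Extends v) ∧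
      (X.Irred → X.GenFinite →
        (∃ u v, QMem X D u v ∧ (∀ i, v i ≠ 0) ∧ lev G (tor v) ≠ 0) → QPicard X D) := by
  classical
  obtain ⟨m, G, hG, hcurves⟩ := curves hf hrad (hst_of hfin)
  refine ⟨m, G, hG, fun N X D hX => ?_⟩
  have hcurve : ∀ u v, QDisc X D u v →
      (∃ z ∈ ball (0 : ℂ) 1 \ {0}, (∀ i, v z i ≠ 0) ∧ lev G (tor (v z)) ≠ 0) → Extends v :=
    fun u v h hne => disc_main hcurves hX h hne
  refine ⟨hcurve, fun hirr hgf hpt => ?_⟩
  obtain ⟨D0, e, hD, hDne, hDfin⟩ := hgf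
  obtain ⟨k, hk⟩ := hform G
  obtain ⟨P, hP1, hP2⟩ := hk k k le_rfl le_rfl
  obtain ⟨u1, v1, hm1, hv1, hg1⟩ := hpt
  -- the coordinates
  set Q : MvPolynomial (Fin (n + 1)) ℂ := P * ∏ i, MvPolynomial.X i with hQ
  have hQhom : Q.IsHomogeneous (k + n * k + ∑ _i : Fin (n + 1), 1) :=
    hP1.mul (MvPolynomial.IsHomogeneous.prod _ _ _ fun i _ => MvPolynomial.isHomogeneous_X ℂ i)
  have hQ1 : MvPolynomial.eval v1 Q ≠ 0 := by
    rw [hQ, map_mul, map_prod, hP2 v1 hv1]
    refine mul_ne_zero (mul_ne_zero (mul_ne_zero (pow_ne_zero _ (hv1 0))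
      (Finset.prod_ne_zero_iff.mpr fun i _ => pow_ne_zero _ (hv1 _))) hg1) ?_
    exact Finset.prod_ne_zero_iff.mpr fun i _ => by rw [MvPolynomial.eval_X]; exact hv1 i
  have hQ2 : ∀ v, MvPolynomial.eval v Q ≠ 0 → (∀ i, v i ≠ 0) ∧ lev G (tor v) ≠ 0 := by
    intro v hv
    rw [hQ, map_mul, map_prod] at hv
    have h1 := right_ne_zero_of_mul hv
    have h2 : ∀ i, v i ≠ 0 := fun i => by
      have := Finset.prod_ne_zero_iff.mp h1 i (Finset.mem_univ i)
      rwa [MvPolynomial.eval_X] at this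
    have h3 := left_ne_zero_of_mul hv
    rw [hP2 v h2] at h3
    exact ⟨h2, right_ne_zero_of_mul h3⟩
  have hRhom := hQhom.mul hD
  -- a point outside the boundary
  have hout : ∃ u v, QMem X D u v ∧ ev2 u v (MvPolynomial.rename Sum.inr (Q * D0) : BiPoly N n) ≠ 0 := by
    have hP : ∃ P ∈ D.I, ev2 u1 v1 P ≠ 0 := by
      by_contra hcon
      push Not at hcon
      exact hm1.2 ⟨hm1.1.1, hm1.1.2.1, hcon⟩
    obtain ⟨B, hBD, hB1⟩ := hP
    by_contra hcon
    push Not at hcon
    obtain ⟨a, b, hab⟩ := D.hom B hBD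
    obtain ⟨a', b', hab'⟩ := biHom_inr (N := N) hQhom
    have hBQ : BiHom (B * MvPolynomial.rename Sum.inr Q : BiPoly N n) := by
      refine ⟨a + a', b + b', fun s t u v => ?_⟩
      rw [ev2_mul, ev2_mul, hab, hab']
      ring
    rcases hirr.2 (B * MvPolynomial.rename Sum.inr Q) (MvPolynomial.rename Sum.inr D0) hBQ
      (biHom_inr hD) (by
      intro u v huv
      rw [mul_assoc, ← map_mul, ev2_mul]
      by_cases hPv : ev2 u v B = 0
      · rw [hPv, zero_mul]
      · rw [hcon u v ⟨huv, fun hd => hPv (hd.2.2 B hBD)⟩, mul_zero]) with h1 | h1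
    · have h2 := h1 u1 v1 hm1.1
      rw [ev2_mul, ev2_inr] at h2
      exact (mul_ne_zero hB1 hQ1) h2
    · obtain ⟨u0, v0, h0, h0ne⟩ := hDne
      exact h0ne (by rw [← ev2_inr (N := N) u0]; exact h1 u0 v0 h0)
  refine ⟨MvPolynomial.rename Sum.inr (Q * D0), biHom_inr hRhom, hout, ?_⟩
  rintro u v h ⟨z0, hz0, hz0ne⟩
  rw [ev2_inr, map_mul] at hz0ne
  have hE : Extends v := hcurve u v h ⟨z0, hz0, hQ2 _ (left_ne_zero_of_mul hz0ne)⟩
  refine ⟨?_, hE⟩
  exact extends_lift (fun j => an_of_diffOn h.diffu j)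
    (fun z hz => (h.mem z (mem_disc.mpr hz)).1) hE (mem_disc.mp hz0)
    (hDfin (v z0) (right_ne_zero_of_mul hz0ne))

end Main

end Pool.Agent.Y192.OG
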