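import Pool.Agent.Y192.OG.StB
import Pool.Agent.Y192.OG.StC

/-!
The comparison relation, small monomials, and the induction statement.
-/

set_option autoImplicit false

namespace Pool.Agent.Y192.OG

open Filter Metric Set Topology Pool.Agent.W603.BP

/-- Laurent polynomials -/
abbrev Lau (N : ℕ) : Type := AddMonoidAlgebra ℂ (Fin N → ℤ)

section LeLemmas

variable {T A B C D : ℕ → ℝ}

theorem Le.trans (h1 : Le T A B) (h2 : Le T B C) : Le T A C := by
  intro δ hδ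
  filter_upwards [h1 (δ / 2) (by linarith), h2 (δ / 2) (by linarith)] with n h3 h4
  linarith

theorem Le.add (h1 : Le T A B) (h2 : Le T C D) : Le T (fun n => A n + C n) (fun n => B n + D n) := by
  intro δ hδ
  filter_upwards [h1 (δ / 2) (by linarith), h2 (δ / 2) (by linarith)] with n h3 h4
  linarith

theorem Le.of_le (hT : ∀ n, 0 ≤ T n) (h : ∀ n, A n ≤ B n) : Le T A B := by
  intro δ hδ
  refine Eventually.of_forall fun n => ?_
  have := mul_nonneg hδ.le (hT n)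
  linarith [h n]

theorem Le.mul (hT : ∀ n, 0 ≤ T n) {a : ℝ} (ha : 0 ≤ a) (h : Le T A B) :
    Le T (fun n => a * A n) (fun n => a * B n) := by
  rcases ha.eq_or_lt with h0 | h0
  · subst h0
    exact Le.of_le hT fun n => by simp
  · intro δ hδ
    filter_upwards [h (δ / a) (by positivity)] with n h1
    have h2 := mul_le_mul_of_nonneg_left h1 ha
    have e : a * (B n + δ / a * T n) = a * B n + δ * T n := by field_simp
    linarith

theorem Le.sum (hT : ∀ n, 0 ≤ T n) {ι : Type*} (s : Finset ι) {X Y : ι → ℕ → ℝ}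
    (h : ∀ i ∈ s, Le T (X i) (Y i)) : Le T (fun n => ∑ i ∈ s, X i n) (fun n => ∑ i ∈ s, Y i n) := by
  classical
  induction s using Finset.induction_on with
  | empty => exact Le.of_le hT fun n => by simp
  | insert a s ha ih =>
    have h1 := (h a (Finset.mem_insert_self a s)).add
      (ih fun i hi => h i (Finset.mem_insert_of_mem hi))
    simpa only [Finset.sum_insert ha] using h1

end LeLemmas

/-- the curves under consideration -/
structure Adm {N : ℕ} (I : Ideal (Lau N)) (f : Lau N) (μ : ℕ) (c : Curve N) : Prop where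
  van : ∀ g ∈ I, c.ev g = 0
  ram : ∀ i, ∀ z ∈ Ext c.r0, c.X i z = 0 → (μ : ℕ∞) ≤ analyticOrderAt (c.X i) z
  two : ∀ z ∈ c.U, c.val (c.ev f) z = 0 → (2 : WithTop ℤ) ≤ c.ord z (c.ev f)

theorem Adm.mono {N : ℕ} {I : Ideal (Lau N)} {f : Lau N} {μ μ' : ℕ} {c : Curve N}
    (h : Adm I f μ c) (hμ : μ' ≤ μ) : Adm I f μ' c :=
  ⟨h.van, fun i z hz h0 => le_trans (by exact_mod_cast hμ) (h.ram i z hz h0), h.two⟩

variable {N : ℕ} {c : Curve N} {F : c.Mr}

/-- monomials of small height -/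
def Sm (r : Rad c F) (ε : ℝ) (m : Fin N → ℤ) : Prop :=
  Le (fun n => c.ch (r.s n)) (fun n => c.ht m (r.s n)) (fun n => ε * c.ch (r.s n))

theorem ch_nonneg (hht : St_ht) (r : Rad c F) (n : ℕ) : 0 ≤ c.ch (r.s n) :=
  ((hht N c).1 _ (r.hs n)).2.2.2.2.1

theorem ht_nonneg (hht : St_ht) (r : Rad c F) (n : ℕ) (m : Fin N → ℤ) : 0 ≤ c.ht m (r.s n) :=
  ((hht N c).1 _ (r.hs n)).1 m

theorem ch_pos (r : Rad c F) : ∀ᶠ n in atTop, 0 < c.ch (r.s n) := by
  have h1 := r.small 1 one_pos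
  have h2 : Tendsto (fun n => Real.log (r.s n)) atTop atTop := Real.tendsto_log_atTop.comp r.lim
  filter_upwards [h1, h2.eventually_gt_atTop 0] with n h3 h4
  linarith [h3.1]

theorem Sm.mono (hht : St_ht) {r : Rad c F} {ε ε' : ℝ} {m : Fin N → ℤ} (h : Sm r ε m)
    (hε : ε ≤ ε') : Sm r ε' m :=
  Le.trans h (Le.of_le (ch_nonneg hht r) fun n =>
    mul_le_mul_of_nonneg_right hε (ch_nonneg hht r n))

theorem sm_elim (hht : St_ht) {φ γ0 γ : Fin N → ℤ} {n k : ℤ} (hn : n ≠ 0)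
    (h : n • φ = γ0 + k • γ) {ε' : ℝ} (hε' : 0 < ε') :
    ∃ ε0 : ℝ, 0 < ε0 ∧ ∀ (c : Curve N) (F : c.Mr) (r : Rad c F), Sm r ε0 γ0 → Sm r ε0 γ →
      Sm r ε' φ := by
  refine ⟨ε' / (1 + |(k : ℝ)|), by positivity, ?_⟩
  intro c F r h0 h1
  have hT := ch_nonneg hht r
  have h2 : Le (fun n => c.ch (r.s n)) (fun i => c.ht φ (r.s i))
      (fun i => c.ht γ0 (r.s i) + |(k : ℝ)| * c.ht γ (r.s i)) := by
    apply Le.of_le hT
    intro i
    obtain ⟨a1, a2, a3, a4, a5, a6⟩ := (hht N c).1 _ (r.hs i)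
    have b1 := a3 n φ
    have b2 := a2 γ0 (k • γ)
    rw [a3 k γ, ← h, b1] at b2
    have b3 : (1 : ℝ) ≤ |(n : ℝ)| := by
      have : 1 ≤ |n| := Int.one_le_abs hn
      exact_mod_cast this
    have b4 := a1 φ
    nlinarith
  refine Le.trans h2 (Le.trans (Le.add h0 (Le.mul hT (abs_nonneg (k : ℝ)) h1)) ?_)
  apply Le.of_le hT
  intro i
  have e : ε' / (1 + |(k : ℝ)|) * c.ch (r.s i) + |(k : ℝ)| * (ε' / (1 + |(k : ℝ)|) * c.ch (r.s i))
      = ε' * c.ch (r.s i) := by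
    have : (1 + |(k : ℝ)|) ≠ 0 := by positivity
    field_simp
  exact le_of_eq e

/-- the induction statement -/
def Ind {N : ℕ} (I : Ideal (Lau N)) (f : Lau N) (Γ : Submodule ℤ (Fin N → ℤ)) : Prop :=
  ∃ (Φ : Finset (Fin N → ℤ)) (ε : ℝ) (μ : ℕ) (G : Lau N), (∀ φ ∈ Φ, φ ∈ Γ) ∧ 0 < ε ∧ G ∉ I ∧
    ∀ c : Curve N, Adm I f μ c → ∀ r : Rad c (c.ev f), (∀ φ ∈ Φ, Sm r ε φ) → c.ev G = 0

/-- the induction statement for finitely many additional monomials -/
def IndL {N : ℕ} (I : Ideal (Lau N)) (f : Lau N) (Γ : Submodule ℤ (Fin N → ℤ))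
    (S : Finset (Fin N → ℤ)) : Prop :=
  ∃ (Φ : Finset (Fin N → ℤ)) (ε : ℝ) (μ : ℕ) (G : Lau N), (∀ φ ∈ Φ, φ ∈ Γ) ∧ 0 < ε ∧ G ∉ I ∧
    ∀ c : Curve N, Adm I f μ c → ∀ r : Rad c (c.ev f), (∀ φ ∈ Φ, Sm r ε φ) →
      (∃ γ ∈ S, Sm r ε γ) → c.ev G = 0

/-- the saturation of the subgroup generated by a saturated subgroup and an element -/
def satu {N : ℕ} (Γ : Submodule ℤ (Fin N → ℤ)) (γ : Fin N → ℤ) : Submodule ℤ (Fin N → ℤ) where
  carrier := {m | ∃ (n k : ℤ) (γ0 : Fin N → ℤ), n ≠ 0 ∧ γ0 ∈ Γ ∧ n • m = γ0 + k • γ}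
  zero_mem' := ⟨1, 0, 0, one_ne_zero, Γ.zero_mem, by simp⟩
  add_mem' := by
    rintro m1 m2 ⟨n1, k1, g1, h1, hg1, e1⟩ ⟨n2, k2, g2, h2, hg2, e2⟩
    refine ⟨n1 * n2, n2 * k1 + n1 * k2, n2 • g1 + n1 • g2, mul_ne_zero h1 h2,
      Γ.add_mem (Γ.smul_mem _ hg1) (Γ.smul_mem _ hg2), ?_⟩
    have : (n1 * n2) • (m1 + m2) = n2 • (n1 • m1) + n1 • (n2 • m2) := by module
    rw [this, e1, e2]
    module
  smul_mem' := by
    rintro a m ⟨n, k, g, h, hg, e⟩
    refine ⟨n, a * k, a • g, h, Γ.smul_mem _ hg, ?_⟩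
    have : n • (a • m) = a • (n • m) := by module
    rw [this, e]
    module

theorem le_satu {N : ℕ} (Γ : Submodule ℤ (Fin N → ℤ)) (γ : Fin N → ℤ) : Γ ≤ satu Γ γ :=
  fun m hm => ⟨1, 0, m, one_ne_zero, hm, by simp⟩

theorem mem_satu {N : ℕ} (Γ : Submodule ℤ (Fin N → ℤ)) (γ : Fin N → ℤ) : γ ∈ satu Γ γ :=
  ⟨1, 1, 0, one_ne_zero, Γ.zero_mem, by simp⟩

theorem sat_satu {N : ℕ} (Γ : Submodule ℤ (Fin N → ℤ)) (γ : Fin N → ℤ) : Sat (satu Γ γ) := by
  rintro j m hj ⟨n, k, g, h, hg, e⟩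
  exact ⟨n * j, k, g, mul_ne_zero h hj, hg, by rw [← e, mul_smul]⟩

theorem indL_of {N : ℕ} (hht : St_ht) {I : Ideal (Lau N)} [hI : I.IsPrime] {f : Lau N}
    {Γ : Submodule ℤ (Fin N → ℤ)} (ih : ∀ Γ', Sat Γ' → Γ < Γ' → Ind I f Γ')
    (S : Finset (Fin N → ℤ)) (hS : ∀ γ ∈ S, γ ∉ Γ) : IndL I f Γ S := by
  classical
  induction S using Finset.induction_on with
  | empty =>
    refine ⟨∅, 1, 0, 1, by simp, one_pos, fun h => hI.ne_top (I.eq_top_of_isUnit_mem h isUnit_one),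
      ?_⟩
    rintro c - r - ⟨γ, hγ, -⟩
    simp at hγ
  | insert γ S hγS ihS =>
    obtain ⟨Φ1, ε1, μ1, G1, a1, a2, a3, a4⟩ := ihS fun γ hγ => hS γ (Finset.mem_insert_of_mem hγ)
    have hγ := hS γ (Finset.mem_insert_self _ _)
    obtain ⟨Φ2, ε2, μ2, G2, b1, b2, b3, b4⟩ := ih (satu Γ γ) (sat_satu Γ γ)
      (lt_of_le_of_ne (le_satu Γ γ) fun h => hγ (by rw [h]; exact mem_satu Γ γ))
    -- the elements of `Φ2` are small as soon as finitely many elements of `Γ` and `γ` are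
    have key : ∀ s : Finset (Fin N → ℤ), (∀ φ ∈ s, φ ∈ satu Γ γ) →
        ∃ (Φ : Finset (Fin N → ℤ)) (ε : ℝ), (∀ φ ∈ Φ, φ ∈ Γ) ∧ 0 < ε ∧
          ∀ (c : Curve N) (F : c.Mr) (r : Rad c F), (∀ φ ∈ Φ, Sm r ε φ) → Sm r ε γ →
            ∀ φ ∈ s, Sm r ε2 φ := by
      intro s
      induction s using Finset.induction_on with
      | empty => exact fun _ => ⟨∅, 1, by simp, one_pos, fun _ _ _ _ _ φ hφ => by simp at hφ⟩
      | insert φ s hφs ihs =>
        intro hs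
        obtain ⟨Φ, ε, c1, c2, c3⟩ := ihs fun φ hφ => hs φ (Finset.mem_insert_of_mem hφ)
        obtain ⟨n, k, γ0, d1, d2, d3⟩ := hs φ (Finset.mem_insert_self _ _)
        obtain ⟨ε0, e1, e2⟩ := sm_elim hht d1 d3 b2
        refine ⟨insert γ0 Φ, min ε ε0, ?_, lt_min c2 e1, ?_⟩
        · intro ψ hψ
          rcases Finset.mem_insert.mp hψ with rfl | h
          · exact d2
          · exact c1 ψ h
        · intro c F r h1 h2 ψ hψ
          rcases Finset.mem_insert.mp hψ with rfl | h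
          · exact e2 c F r ((h1 γ0 (Finset.mem_insert_self _ _)).mono hht (min_le_right _ _))
              (h2.mono hht (min_le_right _ _))
          · exact c3 c F r (fun φ hφ => (h1 φ (Finset.mem_insert_of_mem hφ)).mono hht
              (min_le_left _ _)) (h2.mono hht (min_le_left _ _)) ψ h
    obtain ⟨Φ3, ε3, c1, c2, c3⟩ := key Φ2 b1
    refine ⟨Φ1 ∪ Φ3, min ε1 ε3, max μ1 μ2, G1 * G2, ?_, lt_min a2 c2, ?_, ?_⟩
    · intro φ hφ
      rcases Finset.mem_union.mp hφ with h | h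
      · exact a1 φ h
      · exact c1 φ h
    · intro h
      rcases hI.mem_or_mem h with h | h
      · exact a3 h
      · exact b3 h
    · rintro c hc r h1 ⟨ψ, hψ, h2⟩
      rw [map_mul]
      rcases Finset.mem_insert.mp hψ with rfl | hψ
      · rw [b4 c (hc.mono (le_max_right _ _)) r (c3 c _ r (fun φ hφ =>
          (h1 φ (Finset.mem_union_right _ hφ)).mono hht (min_le_right _ _))
          (h2.mono hht (min_le_right _ _))), mul_zero]
      · rw [a4 c (hc.mono (le_max_left _ _)) r (fun φ hφ =>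
          (h1 φ (Finset.mem_union_left _ hφ)).mono hht (min_le_left _ _))
          ⟨ψ, hψ, h2.mono hht (min_le_left _ _)⟩, zero_mul]

/-- the beginning of the induction -/
theorem ind_top {N : ℕ} (hht : St_ht) {I : Ideal (Lau N)} (hI : I ≠ ⊤) (f : Lau N) :
    Ind I f ⊤ := by
  classical
  refine ⟨Finset.univ.image fun i => Pi.single i 1, 1 / (2 * (N + 1)), 0, 1, fun _ _ => trivial,
    by positivity, fun h => hI (I.eq_top_of_isUnit_mem h isUnit_one), ?_⟩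
  intro c _ r h
  exfalso
  have hT := ch_nonneg hht r
  have h1 : Le (fun n => c.ch (r.s n)) (fun n => c.ch (r.s n))
      (fun n => ∑ _i : Fin N, 1 / (2 * ((N : ℝ) + 1)) * c.ch (r.s n)) := by
    have := Le.sum hT (Finset.univ : Finset (Fin N))
      (X := fun i n => c.ht (Pi.single i 1) (r.s n))
      (Y := fun _ n => 1 / (2 * ((N : ℝ) + 1)) * c.ch (r.s n))
      (fun i _ => h _ (Finset.mem_image_of_mem _ (Finset.mem_univ i)))
    exact this
  obtain ⟨n, h2, h3⟩ := ((h1 (1 / 4) (by norm_num)).and (ch_pos r)).exists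
  simp only [Finset.sum_const, Finset.card_univ, Fintype.card_fin, nsmul_eq_mul] at h2
  have h4 : (N : ℝ) * (1 / (2 * ((N : ℝ) + 1)) * c.ch (r.s n)) ≤ 1 / 2 * c.ch (r.s n) := by
    rw [← mul_assoc]
    apply mul_le_mul_of_nonneg_right _ h3.le
    rw [mul_one_div, div_le_div_iff₀ (by positivity) (by norm_num)]
    linarith
  linarith

/-- the error terms are small -/
theorem err_small (hht : St_ht) {μ : ℕ} (hμ : 1 ≤ μ)
    (ram : ∀ i, ∀ z ∈ Ext c.r0, c.X i z = 0 → (μ : ℕ∞) ≤ analyticOrderAt (c.X i) z)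
    {r : Rad c F} {Φ : Finset (Fin N → ℤ)} {ε : ℝ} (h : ∀ φ ∈ Φ, Sm r ε φ) {a b : ℝ}
    (ha : 0 ≤ a) (hb : 0 ≤ b) :
    Le (fun n => c.ch (r.s n)) (fun n => a * ∑ φ ∈ Φ, c.ht φ (r.s n)
      + b * c.cnt (fun z => (c.bad z : ℤ)) (r.s n))
      (fun n => (a * (Φ.card * ε) + b / μ) * c.ch (r.s n)) := by
  have hT := ch_nonneg hht r
  have h1 := Le.mul hT ha (Le.sum hT Φ (X := fun φ n => c.ht φ (r.s n))
      (Y := fun _ n => ε * c.ch (r.s n)) h)
  have h2 : Le (fun n => c.ch (r.s n)) (fun n => b * c.cnt (fun z => (c.bad z : ℤ)) (r.s n))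
      (fun n => b / μ * c.ch (r.s n)) := by
    apply Le.of_le hT
    intro n
    have h3 := (hht N c).2 μ ram _ (r.hs n)
    have hμ' : (0 : ℝ) < μ := by exact_mod_cast hμ
    rw [div_mul_eq_mul_div, le_div_iff₀ hμ']
    nlinarith
  refine Le.trans (Le.add h1 h2) (Le.of_le hT fun n => le_of_eq ?_)
  simp only [Finset.sum_const, nsmul_eq_mul]
  ring

/-- control of Laurent polynomials supported in one class -/
theorem ctl_ev (hctl : St_ctl) (r : Rad c F) (Φ : Finset (Fin N → ℤ)) (g : Lau N)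
    (m0 : Fin N → ℤ) (h : ∀ m ∈ g.coeff.support, m - m0 ∈ Φ) :
    Ctl r (c.ev g) (fun z => c.lam z m0) (fun z => c.del z m0) Φ 1 := by
  classical
  obtain ⟨h1, h2, h3, h4, h5, h6, h7, h8, h9⟩ := hctl N c F r Φ
  have hz : Ctl r (0 : c.Mr) (fun z => c.lam z m0) (fun z => c.del z m0) Φ 1 := by
    have := h8 0 _ _ _ _ (h9 _ _ _ 0 1 (by norm_num) (h1 m0))
    rwa [zero_smul] at this
  have hterm : ∀ m : Fin N → ℤ, m - m0 ∈ Φ → ∀ x : ℂ,
      Ctl r (x • c.mon m) (fun z => c.lam z m0) (fun z => c.del z m0) Φ 1 := by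
    intro m hm x
    apply h8
    have := h6 _ _ _ _ _ _ _ _ (h1 m0) (h2 _ hm)
    rw [← c.mon_add, add_sub_cancel] at this
    simpa using this
  have hg : g = ∑ m ∈ g.coeff.support, AddMonoidAlgebra.single m (g.coeff m) := by
    conv_lhs => rw [← AddMonoidAlgebra.sum_coeff_single g]
    rfl
  have key : ∀ s : Finset (Fin N → ℤ), (∀ m ∈ s, m - m0 ∈ Φ) →
      Ctl r (∑ m ∈ s, g.coeff m • c.mon m) (fun z => c.lam z m0) (fun z => c.del z m0) Φ 1 := by
    intro s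
    induction s using Finset.induction_on with
    | empty => exact fun _ => hz
    | insert m s hm ih =>
      intro hs
      rw [Finset.sum_insert hm]
      exact h7 _ _ _ _ _ (hterm m (hs m (Finset.mem_insert_self _ _)) _)
        (ih fun m hm => hs m (Finset.mem_insert_of_mem hm))
  have e : c.ev g = ∑ m ∈ g.coeff.support, g.coeff m • c.mon m := by
    conv_lhs => rw [hg]
    rw [map_sum]
    exact Finset.sum_congr rfl fun m _ => c.ev_single m _
  rw [e]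
  exact key _ h

/-- a relation between controlled functions gives a small monomial -/
theorem rel_small (hcirc : St_circ) (hcl : St_cl) (hctl : St_ctl) (hht : St_ht) (hcnt : St_cnt)
    (hord : St_ord) (hF : F ≠ 0) (r : Rad c F) (Φ : Finset (Fin N → ℤ)) (w : ℕ) {ι : Type}
    [Fintype ι] (e : ι → c.Mr) (m : ι → Fin N → ℤ) (hne : ∀ i, e i ≠ 0)
    (hdep : ¬ LinearIndependent ℂ e)
    (hc : ∀ i, Ctl r (e i) (fun z => c.lam z (m i)) (fun z => c.del z (m i)) Φ w) :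
    ∃ i j, i ≠ j ∧ Le (fun n => c.ch (r.s n)) (fun n => c.ht (m i - m j) (r.s n))
      (fun n => 2 * (Fintype.card ι * w) * ∑ φ ∈ Φ, c.ht φ (r.s n)
        + 2 * (Fintype.card ι * w + (Fintype.card ι : ℝ) ^ 2)
          * c.cnt (fun z => (c.bad z : ℤ)) (r.s n)) := by
  classical
  obtain ⟨k, j, a, hk, hj, ha, hsum, hind⟩ := hcirc _ ι e hne hdep
  obtain ⟨-, -, -, -, -, -, -, h8, -⟩ := hctl N c F r Φ
  have h1 := hcl N c F r Φ w k (fun i => m (j i)) (fun _ => 0) (fun i => a i • e (j i))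
    (fun _ => 0) hF hk (fun i => by
      have := h8 (a i) _ _ _ _ (hc (j i))
      simpa using this) hsum hind (fun _ => Nat.zero_le _) (fun _ => le_rfl) (by
      intro R
      have : {z : ℂ | c.r0 + 1 ≤ ‖z‖ ∧ ‖z‖ ≤ R ∧ (((0 : ℤ)) : ℝ) ≠ 0} = ∅ := by
        ext z
        simp
      rw [this]
      exact finite_empty) (by
      rintro z - ⟨i, hi⟩ -
      exact absurd rfl hi) 0 1 rfl rfl
  have h01 : (0 : Fin (k + 1)) ≠ 1 := by
    intro h
    have := congrArg Fin.val h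
    rcases k with _ | k
    · omega
    · simp at this
  refine ⟨j 0, j 1, fun h => h01 (hj h), Le.trans h1 ?_⟩
  have hT := ch_nonneg hht r
  apply Le.of_le hT
  intro n
  have hkc : ((k : ℝ)) ≤ Fintype.card ι := by
    have := Fintype.card_le_of_injective j hj
    rw [Fintype.card_fin] at this
    have h2 : k ≤ Fintype.card ι := by omega
    exact_mod_cast h2
  have c0 : c.cnt (fun z => (((0 : ℤ)) : ℝ)) (r.s n) = 0 := by
    unfold Curve.cnt
    simp
  have c1 : 0 ≤ c.cnt (fun z => (c.bad z : ℤ)) (r.s n) := by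
    obtain ⟨-, -, g3, -⟩ := hcnt N c
    have hl : c.LocFin (fun z => (c.bad z : ℤ)) := (hord N c).2.2.2.2.2.2.1
    have h0 : c.LocFin (fun _ => (0 : ℝ)) := by
      intro R
      have : {z : ℂ | c.r0 + 1 ≤ ‖z‖ ∧ ‖z‖ ≤ R ∧ (0 : ℝ) ≠ 0} = ∅ := by
        ext z
        simp
      rw [this]
      exact finite_empty
    have := g3 _ _ h0 hl (fun z _ => by
      unfold Curve.bad
      split_ifs <;> simp) (r.s n)
    have e0 : c.cnt (fun _ => (0 : ℝ)) (r.s n) = 0 := by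
      unfold Curve.cnt
      simp
    rw [e0] at this
    exact this
  have c2 : 0 ≤ ∑ φ ∈ Φ, c.ht φ (r.s n) := Finset.sum_nonneg fun φ _ => ht_nonneg hht r n φ
  rw [c0, add_zero]
  have hk0 : (0 : ℝ) ≤ k := Nat.cast_nonneg k
  have hw0 : (0 : ℝ) ≤ w := Nat.cast_nonneg w
  have hkw : (k : ℝ) * w ≤ Fintype.card ι * w := mul_le_mul_of_nonneg_right hkc hw0
  have hkk : (k : ℝ) ^ 2 ≤ (Fintype.card ι : ℝ) ^ 2 := pow_le_pow_left₀ hk0 hkc 2
  have e1 := mul_le_mul_of_nonneg_right hkw c2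
  have e2 := mul_le_mul_of_nonneg_right (add_le_add hkw hkk) c1
  linarith

end Pool.Agent.Y192.OG
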