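import Pool.Agent.Y192.OG.Asm1

/-!
The induction step if the ideal is not homogeneous.
-/

set_option autoImplicit false

namespace Pool.Agent.Y192.OG

open Filter Metric Set Topology Pool.Agent.W603.BP

variable {N : ℕ}

open Classical in
theorem comp_coeff (Γ : Submodule ℤ (Fin N → ℤ)) (q : (Fin N → ℤ) ⧸ Γ) (g : Lau N)
    (m : Fin N → ℤ) : (comp Γ q g).coeff m = if Γ.mkQ m = q then g.coeff m else 0 := by
  unfold comp
  rw [AddMonoidAlgebra.coeff_ofCoeff, Finsupp.filter_apply]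

theorem comp_supp (Γ : Submodule ℤ (Fin N → ℤ)) (q : (Fin N → ℤ) ⧸ Γ) (g : Lau N)
    (m : Fin N → ℤ) (hm : m ∈ (comp Γ q g).coeff.support) :
    Γ.mkQ m = q ∧ m ∈ g.coeff.support := by
  classical
  rw [Finsupp.mem_support_iff, comp_coeff] at hm
  split_ifs at hm with h
  · exact ⟨h, Finsupp.mem_support_iff.mpr hm⟩
  · exact absurd rfl hm

open Classical in
theorem sum_comp (Γ : Submodule ℤ (Fin N → ℤ)) (g : Lau N) :
    ∑ q ∈ g.coeff.support.image Γ.mkQ, comp Γ q g = g := by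
  apply AddMonoidAlgebra.coeff_injective
  ext m
  rw [AddMonoidAlgebra.coeff_sum, Finsupp.finsetSum_apply]
  simp only [comp_coeff]
  rw [Finset.sum_ite_eq]
  split_ifs with h
  · rfl
  · by_contra hne
    exact h (Finset.mem_image_of_mem _ (Finsupp.mem_support_iff.mpr fun h0 => hne h0.symm))

/-- choice of the constants -/
theorem consts (a b : ℝ) (hb : 0 ≤ b) (n : ℕ) {ε1 : ℝ} (h1 : 0 < ε1) (μ1 : ℕ) :
    ∃ (ε : ℝ) (μ : ℕ), 0 < ε ∧ ε ≤ ε1 ∧ 1 ≤ μ ∧ μ1 ≤ μ ∧ a * (n * ε) + b / μ ≤ ε1 := by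
  obtain ⟨μ2, hμ2⟩ := exists_nat_gt (2 * b / ε1)
  set μ : ℕ := max μ1 (max 1 μ2) with hμ
  have hμ1 : μ1 ≤ μ := le_max_left _ _
  have hμ3 : 1 ≤ μ := (le_max_left 1 μ2).trans (le_max_right _ _)
  have hμ4 : μ2 ≤ μ := (le_max_right 1 μ2).trans (le_max_right _ _)
  have hμ0 : (0 : ℝ) < μ := by exact_mod_cast hμ3
  have hbμ : b / μ ≤ ε1 / 2 := by
    rw [div_le_iff₀ hμ0]
    rw [div_lt_iff₀ h1] at hμ2
    have : (μ2 : ℝ) ≤ μ := by exact_mod_cast hμ4
    nlinarith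
  refine ⟨min ε1 (ε1 / (2 * (|a| * n + 1))), μ, lt_min h1 (by positivity), min_le_left _ _, hμ3,
    hμ1, ?_⟩
  have h2 : min ε1 (ε1 / (2 * (|a| * n + 1))) ≤ ε1 / (2 * (|a| * n + 1)) := min_le_right _ _
  set ε := min ε1 (ε1 / (2 * (|a| * n + 1))) with hε
  have hε0 : 0 < ε := lt_min h1 (by positivity)
  have h3 : a * (n * ε) ≤ ε1 / 2 := by
    have h4 : a * (n * ε) ≤ |a| * n * ε := by
      rw [mul_assoc]
      exact mul_le_mul_of_nonneg_right (le_abs_self a) (by positivity)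
    have h5 : |a| * n * ε ≤ (|a| * n + 1) * ε := by nlinarith
    have h6 : (|a| * n + 1) * ε ≤ ε1 / 2 := by
      rw [le_div_iff₀ (by positivity)] at h2
      linarith
    linarith
  linarith

theorem caseA (hcirc : St_circ) (hcl : St_cl) (hctl : St_ctl) (hht : St_ht) (hcnt : St_cnt)
    (hord : St_ord) {I : Ideal (Lau N)} [hI : I.IsPrime] {f : Lau N} (hf : f ∉ I)
    {Γ : Submodule ℤ (Fin N → ℤ)}
    (ih : ∀ Γ', Sat Γ' → Γ < Γ' → Ind I f Γ') {g : Lau N} (hg : g ∈ I)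
    (hq : ∃ q, comp Γ q g ∉ I) : Ind I f Γ := by
  classical
  set cls := g.coeff.support.image Γ.mkQ with hcls
  set Q := cls.filter fun q => comp Γ q g ∉ I with hQ
  have hb : ∀ q : (Fin N → ℤ) ⧸ Γ, ∃ m, Γ.mkQ m = q := fun q => Γ.mkQ_surjective q
  choose b hb using hb
  set L : Finset (Fin N → ℤ) := ((Q ×ˢ Q).filter fun x => x.1 ≠ x.2).image
    fun x => b x.1 - b x.2 with hL
  have hLΓ : ∀ γ ∈ L, γ ∉ Γ := by
    intro γ hγ h
    obtain ⟨x, hx, rfl⟩ := Finset.mem_image.mp hγ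
    apply (Finset.mem_filter.mp hx).2
    have h1 : Γ.mkQ (b x.1 - b x.2) = 0 := (Submodule.Quotient.mk_eq_zero Γ).mpr h
    rw [map_sub, hb, hb, sub_eq_zero] at h1
    exact h1
  obtain ⟨Φ1, ε1, μ1, G1, a1, a2, a3, a4⟩ := indL_of hht ih L hLΓ
  set Φ0 : Finset (Fin N → ℤ) := Q.biUnion fun q =>
    (comp Γ q g).coeff.support.image fun m => m - b q with hΦ0
  have hΦ0Γ : ∀ φ ∈ Φ0, φ ∈ Γ := by
    intro φ hφ
    obtain ⟨q, hq, hφ⟩ := Finset.mem_biUnion.mp hφ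
    obtain ⟨m, hm, rfl⟩ := Finset.mem_image.mp hφ
    have h1 := (comp_supp Γ q g m hm).1
    rw [← Submodule.Quotient.mk_eq_zero Γ]
    change Γ.mkQ (m - b q) = 0
    rw [map_sub, hb, h1, sub_self]
  obtain ⟨ε, μ, c1, c2, c3, c4, c5⟩ := consts (2 * (Q.card * (1 : ℕ)))
    (2 * (Q.card * (1 : ℕ) + (Q.card : ℝ) ^ 2)) (by positivity) Φ0.card a2 μ1
  refine ⟨Φ0 ∪ Φ1, ε, μ, f * ((∏ q ∈ Q, comp Γ q g) * G1), ?_, c1, ?_, ?_⟩
  · intro φ hφ
    rcases Finset.mem_union.mp hφ with h | h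
    · exact hΦ0Γ φ h
    · exact a1 φ h
  · intro h
    rcases hI.mem_or_mem h with h | h
    · exact hf h
    rcases hI.mem_or_mem h with h | h
    · obtain ⟨q, hq1, hq2⟩ := (hI.prod_mem_iff).mp h
      exact (Finset.mem_filter.mp hq1).2 hq2
    · exact a3 h
  intro c hc r hsm
  by_contra hG
  rw [map_mul, map_mul, map_prod] at hG
  have hf0 : c.ev f ≠ 0 := left_ne_zero_of_mul hG
  have hG2 := right_ne_zero_of_mul hG
  have hP : ∀ q ∈ Q, c.ev (comp Γ q g) ≠ 0 := by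
    intro q hq h0
    exact left_ne_zero_of_mul hG2 (Finset.prod_eq_zero hq h0)
  have hG1 : c.ev G1 ≠ 0 := right_ne_zero_of_mul hG2
  have hsum : ∑ q ∈ Q, c.ev (comp Γ q g) = 0 := by
    have h1 : ∑ q ∈ cls, c.ev (comp Γ q g) = 0 := by
      rw [← map_sum, hcls, sum_comp, hc.van g hg]
    rw [← h1, hQ, Finset.sum_filter]
    refine Finset.sum_congr rfl fun q _ => ?_
    by_cases h : comp Γ q g ∈ I
    · rw [if_neg (not_not.mpr h), hc.van _ h]
    · rw [if_pos h]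
  obtain ⟨q0, hq0⟩ := hq
  have hq0Q : q0 ∈ Q := by
    refine Finset.mem_filter.mpr ⟨?_, hq0⟩
    by_contra hcon
    apply hq0
    have : comp Γ q0 g = 0 := by
      apply AddMonoidAlgebra.coeff_injective
      ext m
      rw [comp_coeff]
      split_ifs with h
      · by_contra hne
        apply hcon
        rw [hcls, Finset.mem_image]
        exact ⟨m, Finsupp.mem_support_iff.mpr hne, h⟩
      · rfl
    rw [this]
    exact I.zero_mem
  obtain ⟨i, j, hij, hle⟩ := rel_small hcirc hcl hctl hht hcnt hord hf0 r Φ0 1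
    (fun q : Q => c.ev (comp Γ q g)) (fun q => b q) (fun q => hP q q.2)
    (Fintype.not_linearIndependent_iff.mpr ⟨fun _ => 1, by
      simp only [one_smul]
      rw [← hsum]
      exact Finset.sum_coe_sort Q fun q => c.ev (comp Γ q g), ⟨q0, hq0Q⟩, one_ne_zero⟩)
    (fun q => ctl_ev hctl r Φ0 _ _ fun m hm =>
      Finset.mem_biUnion.mpr ⟨q, q.2, Finset.mem_image_of_mem _ hm⟩)
  apply hG1
  refine a4 c (hc.mono c4) r (fun φ hφ => (hsm φ (Finset.mem_union_right _ hφ)).mono hht c2)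
    ⟨b i - b j, Finset.mem_image.mpr ⟨(i, j), Finset.mem_filter.mpr ⟨Finset.mem_product.mpr
      ⟨i.2, j.2⟩, fun h => hij (Subtype.ext h)⟩, rfl⟩, ?_⟩
  rw [Fintype.card_coe] at hle
  refine Le.trans hle (Le.trans (err_small hht c3 hc.ram (fun φ hφ =>
    hsm φ (Finset.mem_union_left _ hφ)) (by positivity) (by positivity)) ?_)
  apply Le.of_le (ch_nonneg hht r)
  intro n
  exact mul_le_mul_of_nonneg_right c5 (ch_nonneg hht r n)

end Pool.Agent.Y192.OG
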