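import Pool.Agent.Y192.OG.Asm2

/-!
The polynomial along a curve: coefficients, evaluation, control.
-/

set_option autoImplicit false

namespace Pool.Agent.Y192.OG

open Filter Metric Set Topology Pool.Agent.W603.BP

variable {N : ℕ}

theorem dom (hring : St_ring) (c : Curve N) : IsDomain c.Mr := by
  obtain ⟨h1, h2, -, -⟩ := hring N c
  have : NoZeroDivisors c.Mr := ⟨fun {a b} h => h1 a b h⟩
  exact NoZeroDivisors.to_isDomain _

/-- the exponent of the monomial given by `β` -/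
def mb {b : ℕ} (bt : Fin b → Fin N → ℤ) (β : Fin b →₀ ℕ) : Fin N → ℤ := ∑ j, (β j : ℤ) • bt j

/-- the coordinates -/
noncomputable def tt (c : Curve N) {b : ℕ} (bt : Fin b → Fin N → ℤ) (j : Fin b) : c.Mrˣ :=
  c.monu (bt j)

theorem tt_coe (c : Curve N) {b : ℕ} (bt : Fin b → Fin N → ℤ) (j : Fin b) :
    (tt c bt j : c.Mr) = c.mon (bt j) := rfl

theorem tt_inv_coe (c : Curve N) {b : ℕ} (bt : Fin b → Fin N → ℤ) (j : Fin b) :
    (((tt c bt j)⁻¹ : c.Mrˣ) : c.Mr) = c.mon (-bt j) := rfl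

theorem mon_sum (c : Curve N) {ι : Type} (s : Finset ι) (m : ι → Fin N → ℤ) :
    c.mon (∑ i ∈ s, m i) = ∏ i ∈ s, c.mon (m i) := by
  classical
  induction s using Finset.induction_on with
  | empty => simp [c.mon_zero]
  | insert a s ha ih => rw [Finset.sum_insert ha, Finset.prod_insert ha, c.mon_add, ih]

theorem mon_nsmul (c : Curve N) (n : ℕ) (m : Fin N → ℤ) : c.mon ((n : ℤ) • m) = c.mon m ^ n := by
  induction n with
  | zero => simp [c.mon_zero]
  | succ n ih =>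
    rw [pow_succ, ← ih, ← c.mon_add]
    congr 1
    push_cast
    module

theorem prod_tt (c : Curve N) {b : ℕ} (bt : Fin b → Fin N → ℤ) (β : Fin b →₀ ℕ) :
    ∏ i, (tt c bt i : c.Mr) ^ β i = c.mon (mb bt β) := by
  unfold mb
  rw [mon_sum]
  exact Finset.prod_congr rfl fun i _ => by rw [tt_coe, mon_nsmul]

/-- the polynomial along the curve -/
noncomputable def Ph (c : Curve N) {b : ℕ} (S : Finset (Fin b →₀ ℕ))
    (pp : (Fin b →₀ ℕ) → Lau N) : MvPolynomial (Fin b) c.Mr :=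
  ∑ β ∈ S, MvPolynomial.monomial β (c.ev (pp β))

open Classical in
theorem Ph_coeff (c : Curve N) {b : ℕ} (S : Finset (Fin b →₀ ℕ))
    (pp : (Fin b →₀ ℕ) → Lau N) (γ : Fin b →₀ ℕ) :
    MvPolynomial.coeff γ (Ph c S pp) = if γ ∈ S then c.ev (pp γ) else 0 := by
  unfold Ph
  rw [MvPolynomial.coeff_sum]
  simp only [MvPolynomial.coeff_monomial]
  rw [Finset.sum_ite_eq']

theorem Ph_supp (c : Curve N) {b : ℕ} (S : Finset (Fin b →₀ ℕ))
    (pp : (Fin b →₀ ℕ) → Lau N) (h : ∀ β ∈ S, c.ev (pp β) ≠ 0) : (Ph c S pp).support = S := by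
  classical
  ext γ
  rw [MvPolynomial.mem_support_iff, Ph_coeff]
  constructor
  · intro h1
    by_contra h2
    rw [if_neg h2] at h1
    exact h1 rfl
  · intro h1
    rw [if_pos h1]
    exact h γ h1

theorem Ph_deg (c : Curve N) {b : ℕ} (S : Finset (Fin b →₀ ℕ))
    (pp : (Fin b →₀ ℕ) → Lau N) (h : ∀ β ∈ S, c.ev (pp β) ≠ 0) (i : Fin b) :
    (Ph c S pp).degreeOf i = S.sup fun β => β i := by
  classical
  rw [MvPolynomial.degreeOf_eq_sup, Ph_supp c S pp h]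

theorem eval_mono (c : Curve N) {b : ℕ} (bt : Fin b → Fin N → ℤ) (β : Fin b →₀ ℕ) (x : c.Mr) :
    MvPolynomial.eval (fun j => (tt c bt j : c.Mr)) (MvPolynomial.monomial β x)
      = x * c.mon (mb bt β) := by
  rw [MvPolynomial.eval_monomial, ← prod_tt, Finsupp.prod_fintype]
  intro i
  simp

theorem Ph_eval (c : Curve N) {b : ℕ} (bt : Fin b → Fin N → ℤ) (S : Finset (Fin b →₀ ℕ))
    (pp : (Fin b →₀ ℕ) → Lau N) {m0 : Fin N → ℤ} {I : Ideal (Lau N)} {f : Lau N}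
    (hvan : ∀ g ∈ I, c.ev g = 0)
    (h : AddMonoidAlgebra.single m0 (1 : ℂ) * f
          - ∑ β ∈ S, pp β * AddMonoidAlgebra.single (∑ j, (β j : ℤ) • bt j) (1 : ℂ) ∈ I) :
    MvPolynomial.eval (fun j => (tt c bt j : c.Mr)) (Ph c S pp) = c.mon m0 * c.ev f ∧
      MvPolynomial.eval (fun j => (tt c bt j : c.Mr)) (Ph c S pp)
        = ∑ β ∈ S, c.ev (pp β) * c.mon (mb bt β) := by
  have h1 := hvan _ h
  rw [map_sub, sub_eq_zero, map_mul, map_sum, c.ev_single, one_smul] at h1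
  have h2 : MvPolynomial.eval (fun j => (tt c bt j : c.Mr)) (Ph c S pp)
        = ∑ β ∈ S, c.ev (pp β) * c.mon (mb bt β) := by
    unfold Ph
    rw [map_sum]
    exact Finset.sum_congr rfl fun β _ => eval_mono c bt β _
  refine ⟨?_, h2⟩
  rw [h2, h1]
  refine Finset.sum_congr rfl fun β _ => ?_
  rw [map_mul, c.ev_single, one_smul]
  rfl

section control

variable {c : Curve N} {F : c.Mr}

theorem lam_zero (c : Curve N) (z : ℂ) : c.lam z 0 = 0 := by simp [Curve.lam]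

theorem del_zero (c : Curve N) (z : ℂ) : c.del z 0 = 0 := by simp [Curve.del]

theorem ctl_zero (hctl : St_ctl) (r : Rad c F) (Φ : Finset (Fin N → ℤ)) (w : ℕ) :
    Ctl r (0 : c.Mr) (fun _ => 0) (fun _ => 0) Φ w := by
  obtain ⟨h1, h2, h3, h4, h5, h6, h7, h8, h9⟩ := hctl N c F r Φ
  have := h9 _ _ _ 0 w (Nat.zero_le _) (h4 0)
  rwa [map_zero] at this

theorem ctl_mul0 (hctl : St_ctl) (r : Rad c F) (Φ : Finset (Fin N → ℤ)) {g h : c.Mr} {w w' : ℕ}
    (hg : Ctl r g (fun _ => 0) (fun _ => 0) Φ w) (hh : Ctl r h (fun _ => 0) (fun _ => 0) Φ w') :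
    Ctl r (g * h) (fun _ => 0) (fun _ => 0) Φ (w + w') := by
  obtain ⟨h1, h2, h3, h4, h5, h6, h7, h8, h9⟩ := hctl N c F r Φ
  have := h6 _ _ _ _ _ _ _ _ hg hh
  simpa using this

theorem ctl_sum0 (hctl : St_ctl) (r : Rad c F) (Φ : Finset (Fin N → ℤ)) {ι : Type}
    (s : Finset ι) (g : ι → c.Mr) {w : ℕ}
    (hg : ∀ i ∈ s, Ctl r (g i) (fun _ => 0) (fun _ => 0) Φ w) :
    Ctl r (∑ i ∈ s, g i) (fun _ => 0) (fun _ => 0) Φ w := by
  classical
  obtain ⟨h1, h2, h3, h4, h5, h6, h7, h8, h9⟩ := hctl N c F r Φ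
  induction s using Finset.induction_on with
  | empty => exact ctl_zero hctl r Φ w
  | insert a s ha ih =>
    rw [Finset.sum_insert ha]
    exact h7 _ _ _ _ _ (hg a (Finset.mem_insert_self _ _))
      (ih fun i hi => hg i (Finset.mem_insert_of_mem hi))

theorem ctl_pp (hctl : St_ctl) (r : Rad c F) (Φ : Finset (Fin N → ℤ)) (g : Lau N)
    (h : ∀ m ∈ g.coeff.support, m ∈ Φ) : Ctl r (c.ev g) (fun _ => 0) (fun _ => 0) Φ 1 := by
  have := ctl_ev hctl r Φ g 0 (fun m hm => by rw [sub_zero]; exact h m hm)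
  simpa only [lam_zero, del_zero] using this

theorem ctl_Dpp (hctl : St_ctl) (r : Rad c F) (Φ : Finset (Fin N → ℤ)) (g : Lau N)
    (h : ∀ m ∈ g.coeff.support, m ∈ Φ) : Ctl r (c.Dr (c.ev g)) (fun _ => 0) (fun _ => 0) Φ 2 := by
  obtain ⟨h1, h2, h3, h4, h5, h6, h7, h8, h9⟩ := hctl N c F r Φ
  have hg : g = ∑ m ∈ g.coeff.support, AddMonoidAlgebra.single m (g.coeff m) := by
    conv_lhs => rw [← AddMonoidAlgebra.sum_coeff_single g]
    rfl
  have e : c.Dr (c.ev g) = ∑ m ∈ g.coeff.support,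
      g.coeff m • (c.mon m * (c.mon (-m) * c.Dr (c.mon m))) := by
    conv_lhs => rw [hg]
    rw [map_sum, map_sum]
    refine Finset.sum_congr rfl fun m _ => ?_
    rw [c.ev_single, Derivation.map_smul, ← mul_assoc, ← c.mon_add, add_neg_cancel, c.mon_zero,
      one_mul]
  rw [e]
  apply ctl_sum0 hctl
  intro m hm
  apply h8
  exact ctl_mul0 hctl r Φ (h2 m (h m hm)) (h3 m)

theorem ctl_coeff_DP (hctl : St_ctl) (r : Rad c F) (Φ : Finset (Fin N → ℤ)) {b : ℕ}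
    (bt : Fin b → Fin N → ℤ) (S : Finset (Fin b →₀ ℕ)) (pp : (Fin b →₀ ℕ) → Lau N)
    (h : ∀ β ∈ S, ∀ m ∈ (pp β).coeff.support, m ∈ Φ) (γ : Fin b →₀ ℕ) :
    Ctl r (MvPolynomial.coeff γ (DP c.Dr (tt c bt) (Ph c S pp))) (fun _ => 0) (fun _ => 0) Φ 2 := by
  classical
  obtain ⟨h1, h2, h3, h4, h5, h6, h7, h8, h9⟩ := hctl N c F r Φ
  unfold DP
  rw [MvPolynomial.coeff_sum]
  simp only [MvPolynomial.coeff_monomial]
  apply ctl_sum0 hctl
  intro β hβ
  split_ifs with hγ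
  · have hβS : β ∈ S := by
      by_contra hcon
      rw [MvPolynomial.mem_support_iff, Ph_coeff, if_neg hcon] at hβ
      exact hβ rfl
    rw [Ph_coeff, if_pos hβS]
    apply h7
    · exact ctl_Dpp hctl r Φ _ (h β hβS)
    · apply ctl_mul0 hctl r Φ (w := 1) (w' := 1) (ctl_pp hctl r Φ _ (h β hβS))
      apply ctl_sum0 hctl
      intro j _
      rw [tt_coe, tt_inv_coe, mul_assoc]
      have e : ((β j : ℕ) : c.Mr) * (c.mon (-bt j) * c.Dr (c.mon (bt j)))
          = ((β j : ℕ) : ℂ) • (c.mon (-bt j) * c.Dr (c.mon (bt j))) := by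
        rw [Algebra.smul_def, map_natCast]
      rw [e]
      exact h8 _ _ _ _ _ (h3 _)
  · exact ctl_zero hctl r Φ 2

theorem ctl_pow (hctl : St_ctl) (r : Rad c F) (Φ : Finset (Fin N → ℤ)) (Sg : Set c.Mr)
    (h : ∀ x ∈ Sg, Ctl r x (fun _ => 0) (fun _ => 0) Φ 2) (n : ℕ) :
    ∀ x ∈ (Submodule.span ℂ Sg) ^ n, Ctl r x (fun _ => 0) (fun _ => 0) Φ (2 * n) := by
  obtain ⟨h1, h2, h3, h4, h5, h6, h7, h8, h9⟩ := hctl N c F r Φ
  have hspan : ∀ x ∈ Submodule.span ℂ Sg, Ctl r x (fun _ => 0) (fun _ => 0) Φ 2 := by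
    intro x hx
    induction hx using Submodule.span_induction with
    | mem x hx => exact h x hx
    | zero => exact ctl_zero hctl r Φ 2
    | add x y _ _ hx hy => exact h7 _ _ _ _ _ hx hy
    | smul a x _ hx => exact h8 _ _ _ _ _ hx
  induction n with
  | zero =>
    intro x hx
    rw [pow_zero, Submodule.mem_one] at hx
    obtain ⟨y, rfl⟩ := hx
    exact h4 y
  | succ n ih =>
    intro x hx
    rw [pow_succ] at hx
    induction hx using Submodule.mul_induction_on' with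
    | mem_mul_mem y hy z hz =>
      have := ctl_mul0 hctl r Φ (ih y hy) (hspan z hz)
      exact this
    | add y _ z _ hy hz => exact h7 _ _ _ _ _ hy hz

end control

end Pool.Agent.Y192.OG
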