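import Pool.Agent.Y192.OG.Asm5

/-!
The induction step if the ideal is homogeneous.
-/

set_option autoImplicit false

namespace Pool.Agent.Y192.OG

open Filter Metric Set Topology Pool.Agent.W603.BP

theorem num_final {b : ℕ} (d : Fin b → ℕ) {C : ℝ} (hC : 0 ≤ C) (K : ℕ) (hK : 1 ≤ K)
    (hd : ∀ i, d i ≤ K)
    (h : (K : ℝ) ^ 2 * (∏ i, ((K : ℝ) + d i) + ∏ i, ((K : ℝ) - d i) - 2 * (K : ℝ) ^ b)
      ≤ C * (K : ℝ) ^ b) (l l' M : ℕ) (hl : 1 ≤ l)
    (hl' : (l' : ℝ) ≤ (1 + 1 / (2 ^ (b + 1) * (K : ℝ) ^ 2)) * l)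
    (hM : 2 * K ^ b * l ≤ M + (∏ i, (K - d i)) * l) :
    0 < M ∧ (((l' * ∏ i, (K + d i) : ℕ) : ℝ) - M) * (2 * K) ≤ ((2 * C + 1) / K) * M := by
  have hK0 : (0 : ℝ) < K := by exact_mod_cast hK
  have hl0 : (1 : ℝ) ≤ l := by exact_mod_cast hl
  set Pp : ℝ := ∏ i, ((K : ℝ) + d i) with hPp
  set Pm : ℝ := ∏ i, ((K : ℝ) - d i) with hPm
  have hdr : ∀ i, (d i : ℝ) ≤ K := fun i => by exact_mod_cast hd i
  have e1 : ((∏ i, (K - d i) : ℕ) : ℝ) = Pm := by
    rw [Nat.cast_prod]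
    exact Finset.prod_congr rfl fun i _ => Nat.cast_sub (hd i)
  have e2 : ((∏ i, (K + d i) : ℕ) : ℝ) = Pp := by
    rw [Nat.cast_prod]
    exact Finset.prod_congr rfl fun i _ => Nat.cast_add _ _
  have hPm1 : Pm ≤ (K : ℝ) ^ b := by
    calc Pm ≤ ∏ _i : Fin b, (K : ℝ) := Finset.prod_le_prod (fun i _ => by linarith [hdr i])
          fun i _ => by have : (0 : ℝ) ≤ d i := Nat.cast_nonneg _; linarith
      _ = (K : ℝ) ^ b := by simp
  have hPp1 : Pp ≤ (2 * K : ℝ) ^ b := by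
    calc Pp ≤ ∏ _i : Fin b, (2 * K : ℝ) := Finset.prod_le_prod (fun i _ => by positivity)
          fun i _ => by linarith [hdr i]
      _ = (2 * K : ℝ) ^ b := by simp
  have hPp0 : 0 ≤ Pp := Finset.prod_nonneg fun i _ => by positivity
  have hM' : 2 * (K : ℝ) ^ b * l ≤ M + Pm * l := by
    rw [← e1]
    exact_mod_cast hM
  have hKb : 0 < (K : ℝ) ^ b := by positivity
  have hMl : (K : ℝ) ^ b * l ≤ M := by nlinarith
  have hM0 : (0 : ℝ) < M := lt_of_lt_of_le (by positivity) hMl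
  refine ⟨by exact_mod_cast hM0, ?_⟩
  push_cast [e2]
  set η : ℝ := 1 / (2 ^ (b + 1) * (K : ℝ) ^ 2) with hη
  have hη0 : 0 ≤ η := by positivity
  have h3 : (l' : ℝ) * Pp ≤ (1 + η) * l * Pp := mul_le_mul_of_nonneg_right hl' hPp0
  have h4 : (K : ℝ) ^ 2 * (η * Pp) ≤ (K : ℝ) ^ b / 2 := by
    have h5 : η * Pp ≤ η * (2 * K : ℝ) ^ b := mul_le_mul_of_nonneg_left hPp1 hη0
    have h6 : (K : ℝ) ^ 2 * (η * (2 * K : ℝ) ^ b) = (K : ℝ) ^ b / 2 := by
      rw [hη, mul_pow, pow_succ (2 : ℝ) b]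
      have : (2 : ℝ) ^ b ≠ 0 := by positivity
      field_simp
    rw [← h6]
    exact mul_le_mul_of_nonneg_left h5 (by positivity)
  have h7 : (K : ℝ) ^ 2 * ((l' : ℝ) * Pp - M) ≤ (C + 1 / 2) * ((K : ℝ) ^ b * l) := by
    have h8 : (l' : ℝ) * Pp - M ≤ l * (Pp + Pm - 2 * (K : ℝ) ^ b + η * Pp) := by nlinarith
    calc (K : ℝ) ^ 2 * ((l' : ℝ) * Pp - M)
        ≤ (K : ℝ) ^ 2 * (l * (Pp + Pm - 2 * (K : ℝ) ^ b + η * Pp)) :=
          mul_le_mul_of_nonneg_left h8 (by positivity)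
      _ = l * ((K : ℝ) ^ 2 * (Pp + Pm - 2 * (K : ℝ) ^ b) + (K : ℝ) ^ 2 * (η * Pp)) := by ring
      _ ≤ l * (C * (K : ℝ) ^ b + (K : ℝ) ^ b / 2) :=
          mul_le_mul_of_nonneg_left (add_le_add h h4) (by positivity)
      _ = _ := by ring
  have h9 : (K : ℝ) ^ 2 * ((l' : ℝ) * Pp - M) ≤ (C + 1 / 2) * M :=
    h7.trans (mul_le_mul_of_nonneg_left hMl (by positivity))
  rw [div_mul_eq_mul_div, le_div_iff₀ hK0]
  nlinarith

variable {N : ℕ}

theorem coeff_DP (c : Curve N) {b : ℕ} (bt : Fin b → Fin N → ℤ) (S : Finset (Fin b →₀ ℕ))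
    (pp : (Fin b →₀ ℕ) → Lau N) (γ : Fin b →₀ ℕ) (hγ : γ ∉ S) :
    MvPolynomial.coeff γ (DP c.Dr (tt c bt) (Ph c S pp)) = 0 := by
  classical
  unfold DP
  rw [MvPolynomial.coeff_sum]
  apply Finset.sum_eq_zero
  intro β hβ
  rw [MvPolynomial.coeff_monomial, if_neg]
  rintro rfl
  rw [MvPolynomial.mem_support_iff, Ph_coeff, if_neg hγ] at hβ
  exact hβ rfl

theorem co_mb {b : ℕ} {bt : Fin b → Fin N → ℤ} {co : (Fin N → ℤ) →+ (Fin b → ℤ)}
    (h : ∀ j, co (bt j) = Pi.single j 1) (β : Fin b →₀ ℕ) (i : Fin b) :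
    co (mb bt β) i = β i := by
  unfold mb
  rw [map_sum, Finset.sum_apply, Finset.sum_eq_single i]
  · rw [map_zsmul, h, Pi.smul_apply, Pi.single_eq_same]
    simp
  · intro j _ hj
    rw [map_zsmul, h, Pi.smul_apply, Pi.single_eq_of_ne (Ne.symm hj)]
    simp
  · intro h
    exact absurd (Finset.mem_univ i) h

/-- the estimate for the relation between the function and its terms -/
theorem cl_case (hring : St_ring) (hord : St_ord) (hctl : St_ctl) (hcnt : St_cnt)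
    (hcl : St_cl) {c : Curve N} {F : c.Mr} (hF : F ≠ 0) (r : Rad c F)
    (two : ∀ z ∈ c.U, c.val F z = 0 → (2 : WithTop ℤ) ≤ c.ord z F)
    (Φ : Finset (Fin N → ℤ)) {b : ℕ} (bt : Fin b → Fin N → ℤ) (m0 : Fin N → ℤ)
    (S : Finset (Fin b →₀ ℕ)) (pp : (Fin b →₀ ℕ) → Lau N) (hS : 2 ≤ S.card)
    (hΦ : ∀ β ∈ S, ∀ m ∈ (pp β).coeff.support, m ∈ Φ)
    (hsum : c.mon m0 * F = ∑ β ∈ S, c.ev (pp β) * c.mon (mb bt β))
    (hli : ∀ a : (Fin b →₀ ℕ) → ℂ, ∑ β ∈ S, (a β • c.ev (pp β)) * c.mon (mb bt β) = 0 →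
      ∀ β ∈ S, a β = 0) :
    ∃ β ∈ S, ∃ γ ∈ S, β ≠ γ ∧ Le (fun n => c.ch (r.s n))
      (fun n => c.ht (mb bt β - mb bt γ) (r.s n))
      (fun n => 2 * (S.card * (1 : ℕ) * ∑ φ ∈ Φ, c.ht φ (r.s n)
        + (S.card * (1 : ℕ) + (S.card : ℝ) ^ 2) * (c.cnt (fun z => (c.bad z : ℤ)) (r.s n)
          + c.cnt (fun z => (rho c F z : ℤ)) (r.s n)))) := by
  classical
  obtain ⟨h1, h2, h3, h4, h5, h6, h7, h8, h9⟩ := hctl N c F r Φ
  obtain ⟨r1, r2, r3, r4, r5⟩ := rho_spec hring hcnt hord hF two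
  set k := S.card with hk
  let ι : Fin k → (Fin b →₀ ℕ) := fun i => (S.equivFin.symm i : S)
  have hι : ∀ i, ι i ∈ S := fun i => (S.equivFin.symm i).2
  have hιi : Function.Injective ι := fun i j h =>
    S.equivFin.symm.injective (Subtype.ext h)
  have hre : ∀ g : (Fin b →₀ ℕ) → c.Mr, ∑ i, g (ι i) = ∑ β ∈ S, g β := by
    intro g
    rw [← Finset.sum_coe_sort S g]
    exact Fintype.sum_equiv S.equivFin.symm _ _ fun i => rfl
  have hcl' := hcl N c F r Φ 1 k (Fin.cons m0 fun i => mb bt (ι i)) (Fin.cons 1 fun _ => 0)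
    (Fin.cons (-(c.mon m0 * F)) fun i => c.ev (pp (ι i)) * c.mon (mb bt (ι i))) (rho c F) hF
    (by omega) (by
      intro i
      refine Fin.cases ?_ (fun i => ?_) i
      · simp only [Fin.cons_zero]
        have := h8 (-1) _ _ _ _ (h9 _ _ _ 0 1 (by norm_num) (h6 _ _ _ _ _ _ _ _ (h1 m0) (h5 hF)))
        rw [neg_one_smul] at this
        simpa using this
      · simp only [Fin.cons_succ]
        have := h6 _ _ _ _ _ _ _ _ (ctl_pp hctl r Φ (pp (ι i)) (hΦ _ (hι i)))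
          (h1 (mb bt (ι i)))
        simpa using this)
    (by
      rw [Fin.sum_univ_succ]
      simp only [Fin.cons_zero, Fin.cons_succ]
      rw [hre fun β => c.ev (pp β) * c.mon (mb bt β), ← hsum, neg_add_cancel])
    (by
      simp only [Fin.cons_succ]
      rw [Fintype.linearIndependent_iff]
      intro g hg i
      set a : (Fin b →₀ ℕ) → ℂ := fun β => ∑ j, if ι j = β then g j else 0 with ha
      have haι : ∀ j, a (ι j) = g j := by
        intro j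
        simp only [ha]
        rw [Finset.sum_eq_single j]
        · rw [if_pos rfl]
        · intro j' _ hj'
          rw [if_neg fun h => hj' (hιi h)]
        · intro h
          exact absurd (Finset.mem_univ j) h
      rw [← haι i]
      apply hli a _ _ (hι i)
      rw [← hre fun β => (a β • c.ev (pp β)) * c.mon (mb bt β), ← hg]
      refine Finset.sum_congr rfl fun j _ => ?_
      rw [haι, smul_mul_assoc])
    (by
      intro i
      refine Fin.cases ?_ (fun i => ?_) i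
      · simp
      · simp)
    r1 r3 (fun z hz _ h0 => r4 z hz h0)
  have h01 := hcl' (Fin.succ ⟨0, by omega⟩) (Fin.succ ⟨1, by omega⟩) rfl rfl
  simp only [Fin.cons_succ] at h01
  refine ⟨_, hι ⟨0, by omega⟩, _, hι ⟨1, by omega⟩, fun h => ?_, h01⟩
  have := hιi h
  simp at this

end Pool.Agent.Y192.OG
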