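import Pool.Agent.Y192.OG.Asm7

/-!
The theorem for curves.
-/

set_option autoImplicit false

namespace Pool.Agent.Y192.OG

open Filter Metric Set Topology Pool.Agent.W603.BP

variable {N : ℕ}

theorem caseB {I : Ideal (Lau N)} [hI : I.IsPrime] {f : Lau N} (hf : f ∉ I)
    (hrad : (I ⊔ Ideal.span {f}).IsRadical) {Γ : Submodule ℤ (Fin N → ℤ)} (hΓ : Sat Γ)
    (hhom : ∀ g ∈ I, ∀ q, comp Γ q g ∈ I) (hst : ∀ q, f - comp Γ q f ∉ I)
    (ih : ∀ Γ', Sat Γ' → Γ < Γ' → Ind I f Γ') : Ind I f Γ := by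
  classical
  obtain ⟨b, bt, co, co1, co2, S, pp, m0, G0, s1, s2, s3, s4, s5⟩ :=
    a_hat N Γ I f hΓ hI hf hrad hhom
  have hS := s3 hst
  have hbt : Function.Injective bt := by
    intro i j hij
    have h1 := co2 i
    rw [hij, co2 j] at h1
    by_contra hne
    have h2 := congrFun h1 i
    rw [Pi.single_eq_same, Pi.single_eq_of_ne hne] at h2
    exact zero_ne_one h2
  have hdiff : ∀ β γ : Fin b →₀ ℕ, β ≠ γ → mb bt β - mb bt γ ∉ Γ := by
    intro β γ hne h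
    apply hne
    rw [← co1] at h
    ext i
    have h1 := congrFun h i
    rw [map_sub, Pi.sub_apply, co_mb co2, co_mb co2, Pi.zero_apply, sub_eq_zero] at h1
    exact_mod_cast h1
  set d : Fin b → ℕ := fun i => S.sup fun β => β i with hd
  -- the first list
  obtain ⟨Φ1, ε1, μ1, G1, p1, p2, p3, p4⟩ := indL_of a_ht ih
    (((S ×ˢ S).filter fun x => x.1 ≠ x.2).image fun x => mb bt x.1 - mb bt x.2) (by
      intro γ hγ
      obtain ⟨x, hx, rfl⟩ := Finset.mem_image.mp hγ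
      exact hdiff _ _ (Finset.mem_filter.mp hx).2)
  -- the size of the box
  obtain ⟨C, hC, hCK⟩ := a_num b d
  set H : ℝ := ∑ j, ∑ i, |(bt j i : ℝ)| with hH
  have hH0 : 0 ≤ H := Finset.sum_nonneg fun j _ => Finset.sum_nonneg fun i _ => abs_nonneg _
  set D : ℝ := 2 * (S.card * (1 : ℕ) + (S.card : ℝ) ^ 2) with hD
  have hD0 : 0 ≤ D := by positivity
  obtain ⟨K0, hK0⟩ := exists_nat_gt (2 * (D * (2 * C + 1) * H) / ε1)
  set K : ℕ := max K0 (max 1 (Finset.univ.sup d)) with hKdef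
  have hK1 : 1 ≤ K := (le_max_left _ _).trans (le_max_right _ _)
  have hKd : ∀ i, d i ≤ K := fun i =>
    (Finset.le_sup (Finset.mem_univ i)).trans ((le_max_right _ _).trans (le_max_right _ _))
  have hKr : (0 : ℝ) < K := by exact_mod_cast hK1
  have hKε : D * ((2 * C + 1) / K * H) ≤ ε1 / 2 := by
    have h1 : (K0 : ℝ) ≤ K := by exact_mod_cast le_max_left _ _
    rw [div_lt_iff₀ p2] at hK0
    have e : D * ((2 * C + 1) / K * H) = (D * (2 * C + 1) * H) / K := by ring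
    rw [e, div_le_iff₀ hKr]
    nlinarith
  obtain ⟨σ₀, hσ₀⟩ := a_grow (2 * S.card + 1) (1 / (2 ^ (b + 1) * (K : ℝ) ^ 2)) (by positivity)
  -- the second list
  set n : Fin b → ℕ := fun i => K + d i with hn
  obtain ⟨Φ2, ε2, μ2, G2, q1, q2, q3, q4⟩ := indL_of a_ht ih
    (((box n ×ˢ box n).filter fun x => x.1 ≠ x.2).image fun x => mb bt x.1 - mb bt x.2) (by
      intro γ hγ
      obtain ⟨x, hx, rfl⟩ := Finset.mem_image.mp hγ
      exact hdiff _ _ (Finset.mem_filter.mp hx).2)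
  set Φs : Finset (Fin N → ℤ) := S.biUnion fun β => (pp β).coeff.support with hΦs
  have hΦsΓ : ∀ φ ∈ Φs, φ ∈ Γ := by
    intro φ hφ
    obtain ⟨β, hβ, hφ⟩ := Finset.mem_biUnion.mp hφ
    exact (s1 β hβ).2 φ hφ
  set w : ℕ := 2 * (σ₀ + 1) with hw
  set Mm : ℕ := (σ₀ + 2) ^ (2 * S.card + 1) * ∏ i, n i with hMm
  set n0 : ℕ := (box n).card with hn0
  set a1 : ℝ := 2 * (n0 * w) with ha1
  set b1 : ℝ := 2 * (n0 * w + (n0 : ℝ) ^ 2) with hb1
  set a2 : ℝ := 2 * (S.card * (1 : ℕ)) + D * w with ha2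
  set b2 : ℝ := D + D * (w + Mm) with hb2
  have ha10 : 0 ≤ a1 := by positivity
  have hb10 : 0 ≤ b1 := by positivity
  have ha20 : 0 ≤ a2 := by positivity
  have hb20 : 0 ≤ b2 := by positivity
  obtain ⟨ε, μ, c1, c2, c3, c4, c5⟩ := consts (a1 + a2) (b1 + b2) (by positivity) Φs.card
    (lt_min (half_pos p2) q2) (max μ1 μ2)
  have hμ0 : (0 : ℝ) < μ := by exact_mod_cast c3
  have t1 : 0 ≤ (Φs.card : ℝ) * ε := by positivity
  have c6 : a1 * (Φs.card * ε) + b1 / μ ≤ ε2 := by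
    have h1 : a1 * (Φs.card * ε) ≤ (a1 + a2) * (Φs.card * ε) :=
      mul_le_mul_of_nonneg_right (by linarith) t1
    have h2 : b1 / μ ≤ (b1 + b2) / μ := div_le_div_of_nonneg_right (by linarith) hμ0.le
    have h3 := min_le_right (ε1 / 2) ε2
    linarith
  have c7 : a2 * (Φs.card * ε) + b2 / μ ≤ ε1 / 2 := by
    have h1 : a2 * (Φs.card * ε) ≤ (a1 + a2) * (Φs.card * ε) :=
      mul_le_mul_of_nonneg_right (by linarith) t1
    have h2 : b2 / μ ≤ (b1 + b2) / μ := div_le_div_of_nonneg_right (by linarith) hμ0.le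
    have h3 := min_le_left (ε1 / 2) ε2
    linarith
  have hεε1 : ε ≤ ε1 := (c2.trans (min_le_left _ _)).trans (by linarith)
  have hεε2 : ε ≤ ε2 := c2.trans (min_le_right _ _)
  refine ⟨Φs ∪ (Φ1 ∪ Φ2), ε, μ, f * (G0 * (G1 * G2)), ?_, c1, ?_, ?_⟩
  · intro φ hφ
    rcases Finset.mem_union.mp hφ with h | h
    · exact hΦsΓ φ h
    rcases Finset.mem_union.mp h with h | h
    · exact p1 φ h
    · exact q1 φ h
  · intro h
    rcases hI.mem_or_mem h with h | h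
    · exact hf h
    rcases hI.mem_or_mem h with h | h
    · exact s4 h
    rcases hI.mem_or_mem h with h | h
    · exact p3 h
    · exact q3 h
  intro c hc r hsm
  by_contra hG
  rw [map_mul, map_mul, map_mul] at hG
  have hF : c.ev f ≠ 0 := left_ne_zero_of_mul hG
  have hG' := right_ne_zero_of_mul hG
  have hG0 : c.ev G0 ≠ 0 := left_ne_zero_of_mul hG'
  have hG1 : c.ev G1 ≠ 0 := left_ne_zero_of_mul (right_ne_zero_of_mul hG')
  have hG2 : c.ev G2 ≠ 0 := right_ne_zero_of_mul (right_ne_zero_of_mul hG')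
  haveI := dom a_ring c
  obtain ⟨u1, u2, u3⟩ := s5 c.Mr c.ev hc.van hG0
  have hev := Ph_eval c bt S pp hc.van s2
  have hΦ : ∀ β ∈ S, ∀ m ∈ (pp β).coeff.support, m ∈ Φs := fun β hβ m hm =>
    Finset.mem_biUnion.mpr ⟨β, hβ, hm⟩
  obtain ⟨g1, σ, g2, g3⟩ := hσ₀ c.Mr (gens c bt S pp) (gens_card c bt S pp)
    (one_mem_gens c bt S pp)
  have hsm' : ∀ φ ∈ Φs, Sm r ε φ := fun φ hφ => hsm φ (Finset.mem_union_left _ hφ)
  have hT := ch_nonneg a_ht r
  rcases curve_dich hF r hc.two Φs bt hbt m0 S pp hS hΦ hev u1 u2 u3 hC K hK1 hKd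
    (hCK K hK1 hKd) σ₀ σ g2 g1 g3 with ⟨β, hβ, γ, hγ, hne, hle⟩ | ⟨β, hβ, γ, hγ, hne, hle⟩
  · apply hG2
    refine q4 c (hc.mono ((le_max_right _ _).trans c4)) r (fun φ hφ =>
      (hsm φ (Finset.mem_union_right _ (Finset.mem_union_right _ hφ))).mono a_ht hεε2)
      ⟨mb bt β - mb bt γ, Finset.mem_image.mpr ⟨(β, γ), Finset.mem_filter.mpr
        ⟨Finset.mem_product.mpr ⟨hβ, hγ⟩, hne⟩, rfl⟩, ?_⟩
    refine Le.trans hle (Le.trans (err_small a_ht c3 hc.ram hsm' ha10 hb10) ?_)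
    exact Le.of_le hT fun k => mul_le_mul_of_nonneg_right c6 (hT k)
  · apply hG1
    refine p4 c (hc.mono ((le_max_left _ _).trans c4)) r (fun φ hφ =>
      (hsm φ (Finset.mem_union_right _ (Finset.mem_union_left _ hφ))).mono a_ht hεε1)
      ⟨mb bt β - mb bt γ, Finset.mem_image.mpr ⟨(β, γ), Finset.mem_filter.mpr
        ⟨Finset.mem_product.mpr ⟨hβ, hγ⟩, hne⟩, rfl⟩, ?_⟩
    have h1 := Le.add (err_small a_ht c3 hc.ram hsm' ha20 hb20)
      (Le.of_le hT (A := fun k => D * ((2 * C + 1) / K * ∑ j, c.ht (bt j) (r.s k)))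
        (B := fun k => ε1 / 2 * c.ch (r.s k)) fun k => by
        have h2 : ∑ j, c.ht (bt j) (r.s k) ≤ H * c.ch (r.s k) := by
          rw [hH, Finset.sum_mul]
          exact Finset.sum_le_sum fun j _ => ((a_ht N c).1 _ (r.hs k)).2.2.2.1 (bt j)
        have h3 : D * ((2 * C + 1) / K * ∑ j, c.ht (bt j) (r.s k))
            ≤ D * ((2 * C + 1) / K * (H * c.ch (r.s k))) := by
          apply mul_le_mul_of_nonneg_left _ hD0
          exact mul_le_mul_of_nonneg_left h2 (by positivity)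
        have h4 : D * ((2 * C + 1) / K * (H * c.ch (r.s k)))
            = (D * ((2 * C + 1) / K * H)) * c.ch (r.s k) := by ring
        rw [h4] at h3
        exact h3.trans (mul_le_mul_of_nonneg_right hKε (hT k)))
    refine Le.trans hle (Le.trans (Le.of_le hT fun k => le_of_eq ?_) (Le.trans h1
      (Le.of_le hT fun k => ?_)))
    · rw [hD, ha2, hb2, hMm, hw, hn, hD]
      push_cast
      ring
    · rw [← add_mul]
      exact mul_le_mul_of_nonneg_right (by linarith) (hT k)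

/-- the induction -/
theorem main_ind {I : Ideal (Lau N)} [hI : I.IsPrime] {f : Lau N} (hf : f ∉ I)
    (hrad : (I ⊔ Ideal.span {f}).IsRadical)
    (hst : ∀ Γ : Submodule ℤ (Fin N → ℤ), Sat Γ → Γ ≠ ⊤ → (∀ g ∈ I, ∀ q, comp Γ q g ∈ I) →
      ∀ q, f - comp Γ q f ∉ I) (Γ : Submodule ℤ (Fin N → ℤ)) : Sat Γ → Ind I f Γ := by
  induction Γ using WellFoundedGT.induction with
  | ind Γ ih =>
    intro hΓ
    by_cases htop : Γ = ⊤
    · rw [htop]
      exact ind_top a_ht hI.ne_top f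
    · have ih' : ∀ Γ', Sat Γ' → Γ < Γ' → Ind I f Γ' := fun Γ' h1 h2 => ih Γ' h2 h1
      by_cases hhom : ∀ g ∈ I, ∀ q, comp Γ q g ∈ I
      · exact caseB hf hrad hΓ hhom (hst Γ hΓ htop hhom) ih'
      · push Not at hhom
        obtain ⟨g, hg, q, hq⟩ := hhom
        exact caseA a_circ a_cl a_ctl a_ht a_cnt a_ord hf ih' hg ⟨q, hq⟩

/-- the theorem for curves -/
theorem curves {I : Ideal (Lau N)} [hI : I.IsPrime] {f : Lau N} (hf : f ∉ I)
    (hrad : (I ⊔ Ideal.span {f}).IsRadical)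
    (hst : ∀ Γ : Submodule ℤ (Fin N → ℤ), Sat Γ → Γ ≠ ⊤ → (∀ g ∈ I, ∀ q, comp Γ q g ∈ I) →
      ∀ q, f - comp Γ q f ∉ I) :
    ∃ (μ : ℕ) (G : Lau N), G ∉ I ∧ ∀ c : Curve N, Adm I f μ c → c.ev G ≠ 0 →
      ∀ j, ∃ R : ℂ → ℂ, MeromorphicAt (fun w => R w⁻¹) 0 ∧ ∃ R0 : ℝ, ∀ z, R0 < ‖z‖ →
        c.X j z = R z * c.X 0 z := by
  have hbot : Sat (⊥ : Submodule ℤ (Fin N → ℤ)) := by
    intro n m hn h
    rw [Submodule.mem_bot] at h ⊢
    exact (smul_eq_zero.mp h).resolve_left hn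
  obtain ⟨Φ, ε, μ, G, h1, h2, h3, h4⟩ := main_ind hf hrad hst ⊥ hbot
  refine ⟨μ, f * G, fun h => ?_, ?_⟩
  · rcases hI.mem_or_mem h with h | h
    · exact hf h
    · exact h3 h
  intro c hc hG
  rw [map_mul] at hG
  by_contra hcon
  obtain ⟨r⟩ := a_rad N c f (left_ne_zero_of_mul hG) hcon
  apply right_ne_zero_of_mul hG
  apply h4 c hc r
  intro φ hφ
  have h5 : φ = 0 := (Submodule.mem_bot ℤ).mp (h1 φ hφ)
  have hT := ch_nonneg a_ht r
  apply Le.of_le hT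
  intro n
  have h6 := ((a_ht N c).1 _ (r.hs n)).2.2.1 0 0
  rw [zero_smul, Int.cast_zero, abs_zero, zero_mul] at h6
  rw [h5, h6]
  exact mul_nonneg h2.le (hT n)

end Pool.Agent.Y192.OG
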