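import Pool.Agent.Y192.OG.B2

/-!
The dichotomy for one curve, without a lower bound for the multiplicities.
-/

set_option autoImplicit false

namespace Pool.Agent.Y192.OG

open Filter Metric Set Topology Pool.Agent.W603.BP

variable {N : ℕ}

/-- The dichotomy for one curve. -/
theorem curve_dich' {c : Curve N} {F : c.Mr} (hF : F ≠ 0) (r : Rad c F)
    (Φ : Finset (Fin N → ℤ)) {b : ℕ} (bt : Fin b → Fin N → ℤ) (hbt : Function.Injective bt)
    (m0 : Fin N → ℤ) (S : Finset (Fin b →₀ ℕ)) (pp : (Fin b →₀ ℕ) → Lau N) (hSne : S.Nonempty)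
    (hΦ : ∀ β ∈ S, ∀ m ∈ (pp β).coeff.support, m ∈ Φ)
    (hev : MvPolynomial.eval (fun j => (tt c bt j : c.Mr)) (Ph c S pp) = c.mon m0 * F ∧
      MvPolynomial.eval (fun j => (tt c bt j : c.Mr)) (Ph c S pp)
        = ∑ β ∈ S, c.ev (pp β) * c.mon (mb bt β))
    [IsDomain c.Mr] (hp : ∀ β ∈ S, c.ev (pp β) ≠ 0)
    (hsq : Squarefree (MvPolynomial.map (algebraMap c.Mr (FractionRing c.Mr)) (Ph c S pp)))
    (hX : ∀ i, ¬ (MvPolynomial.X i ∣
      MvPolynomial.map (algebraMap c.Mr (FractionRing c.Mr)) (Ph c S pp)))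
    {C : ℝ} (hC : 0 ≤ C) (K : ℕ) (hK : 1 ≤ K) (hd : ∀ i, (S.sup fun β => β i) ≤ K)
    (hCK : (K : ℝ) ^ 2 * (∏ i, ((K : ℝ) + (S.sup fun β => β i : ℕ))
      + ∏ i, ((K : ℝ) - (S.sup fun β => β i : ℕ)) - 2 * (K : ℝ) ^ b) ≤ C * (K : ℝ) ^ b)
    (σ₀ σ : ℕ) (hσ : σ ≤ σ₀)
    (hgr : (∀ σ : ℕ, FiniteDimensional ℂ
        ↥((Submodule.span ℂ (gens c bt S pp : Set c.Mr)) ^ σ) ∧
      1 ≤ Module.finrank ℂ ↥((Submodule.span ℂ (gens c bt S pp : Set c.Mr)) ^ σ) ∧
      Module.finrank ℂ ↥((Submodule.span ℂ (gens c bt S pp : Set c.Mr)) ^ σ)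
        ≤ (σ + 1) ^ (2 * S.card + 1)))
    (hη : (Module.finrank ℂ ↥((Submodule.span ℂ (gens c bt S pp : Set c.Mr)) ^ (σ + 1)) : ℝ)
      ≤ (1 + 1 / (2 ^ (b + 1) * (K : ℝ) ^ 2))
        * Module.finrank ℂ ↥((Submodule.span ℂ (gens c bt S pp : Set c.Mr)) ^ σ)) :
    (∃ β ∈ box (fun i => K + S.sup fun β => β i), ∃ γ ∈ box (fun i => K + S.sup fun β => β i),
      β ≠ γ ∧ Le (fun i => c.ch (r.s i)) (fun i => c.ht (mb bt β - mb bt γ) (r.s i))
      (fun i => 2 * ((box (fun i => K + S.sup fun β => β i)).card * (2 * (σ₀ + 1) : ℕ))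
          * ∑ φ ∈ Φ, c.ht φ (r.s i)
        + 2 * ((box (fun i => K + S.sup fun β => β i)).card * (2 * (σ₀ + 1) : ℕ)
          + ((box (fun i => K + S.sup fun β => β i)).card : ℝ) ^ 2)
          * c.cnt (fun z => (c.bad z : ℤ)) (r.s i))) ∨
    ((∀ a : (Fin b →₀ ℕ) → ℂ,
        ∑ β ∈ S, (a β • c.ev (pp β)) * c.mon (mb bt β) = 0 → ∀ β ∈ S, a β = 0) ∧
      Le (fun n => c.ch (r.s n)) (fun n => c.cnt (fun z => (rho c F z : ℤ)) (r.s n))
        (fun n => (2 * C + 1) / K * ∑ j, c.ht (bt j) (r.s n)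
            + (2 * (σ₀ + 1) : ℕ) * ∑ φ ∈ Φ, c.ht φ (r.s n)
            + ((2 * (σ₀ + 1) : ℕ) + ((σ₀ + 2) ^ (2 * S.card + 1)
              * ∏ i, (K + S.sup fun β => β i) : ℕ))
              * c.cnt (fun z => (c.bad z : ℤ)) (r.s n))) := by
  classical
  set P := Ph c S pp with hP
  set Sg := gens c bt S pp with hSg
  set W := Submodule.span ℂ (Sg : Set c.Mr) with hW
  have hPd : ∀ i, P.degreeOf i = S.sup fun β => β i := fun i => Ph_deg c S pp hp i
  have hPs : P.support = S := Ph_supp c S pp hp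
  have hP0 : P ≠ 0 := by
    intro h
    rw [h, MvPolynomial.support_zero] at hPs
    rw [← hPs] at hSne
    exact Finset.not_nonempty_empty hSne
  have h1W : (1 : c.Mr) ∈ W := Submodule.subset_span (one_mem_gens c bt S pp)
  haveI f1 := (hgr σ).1
  haveI f2 := (hgr (σ + 1)).1
  have hWmul : ∀ x ∈ W ^ σ, ∀ y ∈ W, x * y ∈ W ^ (σ + 1) := by
    intro x hx y hy
    rw [pow_succ]
    exact Submodule.mul_mem_mul hx hy
  have hcP : ∀ β, MvPolynomial.coeff β P ∈ W := by
    intro β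
    rw [hP, Ph_coeff]
    split_ifs with h
    · exact Submodule.subset_span (p_mem_gens c bt S pp h)
    · exact W.zero_mem
  have hcQ : ∀ β, MvPolynomial.coeff β (DP c.Dr (tt c bt) P) ∈ W := by
    intro β
    by_cases h : β ∈ S
    · exact Submodule.subset_span (q_mem_gens c bt S pp h)
    · rw [hP, coeff_DP c bt S pp β h]
      exact W.zero_mem
  have hone : (1 : c.Mr) ∈ W ^ σ := by
    have : (1 : Submodule ℂ c.Mr) ≤ W ^ σ := by
      have h2 : (1 : Submodule ℂ c.Mr) ≤ W := by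
        rw [Submodule.one_le]
        exact h1W
      exact one_le_pow_of_one_le' h2 σ
    exact this (Submodule.one_le.mp le_rfl)
  have hWW : ∀ y ∈ W, y ∈ W ^ (σ + 1) := fun y hy => by
    have := hWmul 1 hone y hy
    rwa [one_mul] at this
  have hctlW : ∀ x ∈ W ^ (σ + 1), Ctl r x (fun _ => 0) (fun _ => 0) Φ (2 * (σ₀ + 1)) := by
    intro x hx
    exact (a_ctl N c F r Φ).2.2.2.2.2.2.2.2 _ _ _ _ _ (by omega)
      (ctl_pow a_ctl r Φ _ (gens_ctl r Φ bt S pp hΦ) (σ + 1) x hx)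
  by_cases hind : ∀ cc : MvPolynomial (Fin b) c.Mr,
      (∀ β, MvPolynomial.coeff β cc ∈ W ^ (σ + 1)) →
      (∀ β ∈ cc.support, ∀ i, β i < K + P.degreeOf i) →
      MvPolynomial.eval (fun j => (tt c bt j : c.Mr)) cc = 0 → cc = 0
  · right
    -- linear independence of the terms
    have hli : ∀ a : (Fin b →₀ ℕ) → ℂ,
        ∑ β ∈ S, (a β • c.ev (pp β)) * c.mon (mb bt β) = 0 → ∀ β ∈ S, a β = 0 := by
      intro a ha β hβ
      set cc : MvPolynomial (Fin b) c.Mr :=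
        ∑ β ∈ S, MvPolynomial.monomial β (a β • c.ev (pp β)) with hcc
      have hco : ∀ γ, MvPolynomial.coeff γ cc = if γ ∈ S then a γ • c.ev (pp γ) else 0 := by
        intro γ
        rw [hcc, MvPolynomial.coeff_sum]
        simp only [MvPolynomial.coeff_monomial]
        rw [Finset.sum_ite_eq']
      have h0 : cc = 0 := by
        apply hind
        · intro γ
          rw [hco]
          split_ifs with h
          · exact Submodule.smul_mem _ _ (hWW _ (Submodule.subset_span (p_mem_gens c bt S pp h)))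
          · exact Submodule.zero_mem _
        · intro γ hγ i
          have hγS : γ ∈ S := by
            by_contra hcon
            rw [MvPolynomial.mem_support_iff, hco, if_neg hcon] at hγ
            exact hγ rfl
          rw [hPd]
          have : γ i ≤ S.sup fun β => β i := Finset.le_sup (f := fun β : Fin b →₀ ℕ => β i) hγS
          omega
        · rw [← ha, hcc, map_sum]
          exact Finset.sum_congr rfl fun β _ => eval_mono c bt β _
      have h1 := hco β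
      rw [h0, MvPolynomial.coeff_zero, if_pos hβ] at h1
      exact (smul_eq_zero.mp h1.symm).resolve_right (hp β hβ)
    have hcop := a_cop c.Mr c.Dr ⟨(a_ring N c).2.2.1⟩ b (tt c bt) P hsq hX (by
      intro y hy h0
      obtain ⟨β, hβ⟩ := hSne
      have h1 := hli (fun β => ∏ i, y i ^ β i) (by
        rw [← h0, hPs]
        refine Finset.sum_congr rfl fun β hβ => ?_
        rw [hP, Ph_coeff, if_pos hβ, prod_tt, smul_mul_assoc]) β hβ
      exact Finset.prod_ne_zero_iff.mpr (fun i _ => pow_ne_zero _ (hy i)) h1)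
    obtain ⟨M, m1, m2, m3⟩ := ind_case' hF r Φ bt
      hbt m0 P hev.1 hP0 (W ^ σ) (W ^ (σ + 1)) K (2 * (σ₀ + 1)) (2 * K)
      (fun i => by rw [hPd]; exact hd i)
      (fun i => by
        rw [hPd]
        have := hd i
        omega) hcop
      (fun x hx β => ⟨hWmul x hx _ (hcP β), hWmul x hx _ (hcQ β)⟩) hind hctlW
    refine ⟨hli, ?_⟩
    simp only [hPd] at m1 m2 m3
    have hT := ch_nonneg a_ht r
    obtain ⟨n1, n2⟩ := num_final (fun i => S.sup fun β => β i) hC K hK hd hCK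
      (Module.finrank ℂ ↥(W ^ σ)) (Module.finrank ℂ ↥(W ^ (σ + 1))) M (hgr σ).2.1 hη m1
    have hM0 : (0 : ℝ) < M := by exact_mod_cast n1
    have hK0 : (0 : ℝ) < K := by exact_mod_cast hK
    -- the bound for the counting function of multiplicities
    have hrho : Le (fun n => c.ch (r.s n)) (fun n => c.cnt (fun z => (rho c F z : ℤ)) (r.s n))
        (fun n => (2 * C + 1) / K * ∑ j, c.ht (bt j) (r.s n)
            + (2 * (σ₀ + 1) : ℕ) * ∑ φ ∈ Φ, c.ht φ (r.s n)
            + ((2 * (σ₀ + 1) : ℕ) + ((σ₀ + 2) ^ (2 * S.card + 1)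
              * ∏ i, (K + S.sup fun β => β i) : ℕ))
              * c.cnt (fun z => (c.bad z : ℤ)) (r.s n)) := by
      have m4 := Le.mul hT (a := 1 / M) (by positivity) m3
      refine Le.trans (Le.of_le hT fun n => le_of_eq ?_) (Le.trans m4 (Le.of_le hT fun n => ?_))
      · field_simp
      · have b1 := bad_cnt_nonneg a_cnt a_ord c (r.s n)
        have b2 : 0 ≤ ∑ φ ∈ Φ, c.ht φ (r.s n) :=
          Finset.sum_nonneg fun φ _ => ht_nonneg a_ht r n φ
        have b3 : 0 ≤ ∑ j, c.ht (bt j) (r.s n) :=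
          Finset.sum_nonneg fun j _ => ht_nonneg a_ht r n _
        have b4 : (M : ℝ) ≤ ((σ₀ + 2) ^ (2 * S.card + 1)
            * ∏ i, (K + S.sup fun β => β i) : ℕ) := by
          have b5 : Module.finrank ℂ ↥(W ^ (σ + 1)) ≤ (σ₀ + 2) ^ (2 * S.card + 1) :=
            ((hgr (σ + 1)).2.2).trans (Nat.pow_le_pow_left (by omega) _)
          exact_mod_cast m2.trans (Nat.mul_le_mul_right _ b5)
        have b6 : 1 / (M : ℝ) * ((((Module.finrank ℂ ↥(W ^ (σ + 1))
            * ∏ i, (K + S.sup fun β => β i) : ℕ) : ℝ) - M) * (2 * K : ℕ)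
            * ∑ j, c.ht (bt j) (r.s n)) ≤ (2 * C + 1) / K * ∑ j, c.ht (bt j) (r.s n) := by
          rw [← mul_assoc]
          apply mul_le_mul_of_nonneg_right _ b3
          rw [one_div, inv_mul_le_iff₀ hM0]
          push_cast at n2 ⊢
          linarith
        have e1 : 1 / (M : ℝ) * ((((Module.finrank ℂ ↥(W ^ (σ + 1))
            * ∏ i, (K + S.sup fun β => β i) : ℕ) : ℝ) - M) * (2 * K : ℕ)
            * ∑ j, c.ht (bt j) (r.s n) + M * (2 * (σ₀ + 1) : ℕ) * ∑ φ ∈ Φ, c.ht φ (r.s n)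
            + (M * (2 * (σ₀ + 1) : ℕ) + M ^ 2) * c.cnt (fun z => (c.bad z : ℤ)) (r.s n))
            = 1 / (M : ℝ) * ((((Module.finrank ℂ ↥(W ^ (σ + 1))
            * ∏ i, (K + S.sup fun β => β i) : ℕ) : ℝ) - M) * (2 * K : ℕ)
            * ∑ j, c.ht (bt j) (r.s n)) + (2 * (σ₀ + 1) : ℕ) * ∑ φ ∈ Φ, c.ht φ (r.s n)
            + ((2 * (σ₀ + 1) : ℕ) + M) * c.cnt (fun z => (c.bad z : ℤ)) (r.s n) := by
          field_simp
        rw [e1]
        have b7 := mul_le_mul_of_nonneg_right (add_le_add_right b4 ((2 * (σ₀ + 1) : ℕ) : ℝ)) b1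
        linarith
    exact hrho
  · left
    push Not at hind
    obtain ⟨cc, c1, c2, c3, c4⟩ := hind
    simp only [hPd] at c2
    exact dep_case a_circ a_cl a_ctl a_ht a_cnt a_ord hF r Φ bt _ (2 * (σ₀ + 1)) cc c4
      (fun β _ => hctlW _ (c1 β)) c2 c3

end Pool.Agent.Y192.OG
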