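import Pool.Agent.Y192.OG.Asm1

/-!
Statements for finite covers of subvarieties of tori.
-/

set_option autoImplicit false

namespace Pool.Agent.Y192.OG

open Filter Metric Set Topology Pool.Agent.W603.BP

/-- the estimate for a minimal relation, general form -/
def St_cl2 : Prop :=
  ∀ (N : ℕ) (c : Curve N) (F : c.Mr) (r : Rad c F) (Φ : Finset (Fin N → ℤ)) (w k : ℕ)
    (e : Fin (k + 1) → c.Mr) (lm : Fin (k + 1) → ℂ → ℝ) (nu : Fin (k + 1) → ℂ → ℤ)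
    (Lm Nv : ℂ → ℝ), 1 ≤ k → (∀ i, Ctl r (e i) (lm i) (nu i) Φ w) →
    ∑ i, e i = 0 → LinearIndependent ℂ (fun i : Fin k => e i.succ) →
    (∀ z ∈ c.U, ∀ i, nu i z = nu 0 z ∧ 0 ≤ nu i z) →
    (∀ i, c.LocFin (fun z => (nu i z : ℤ))) →
    (∀ i n, CircleIntegrable (lm i) 0 (r.s n)) →
    (∀ z ∈ Ext c.r0, ∃ i, Lm z ≤ lm i z) → (∀ n, CircleIntegrable Lm 0 (r.s n)) →
    (∀ z ∈ Ext c.r0, ∃ i, (nu i z : ℝ) ≤ Nv z) → c.LocFin Nv →
    Le (fun n => c.ch (r.s n))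
      (fun n => Real.circleAverage Lm 0 (r.s n) - c.cnt Nv (r.s n))
      (fun n => ∑ i, (Real.circleAverage (lm i) 0 (r.s n) - c.cnt (fun z => (nu i z : ℤ)) (r.s n))
        + (k * w * ∑ φ ∈ Φ, c.ht φ (r.s n)
          + (k * w + k ^ 2) * c.cnt (fun z => (c.bad z : ℤ)) (r.s n)))

/-- control of the roots of a monic polynomial -/
def St_root : Prop :=
  ∀ (N : ℕ) (c : Curve N) (F : c.Mr) (r : Rad c F) (Φ : Finset (Fin N → ℤ)) (w d : ℕ)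
    (h : c.Mr) (a : ℕ → c.Mr) (lm : ℂ → ℝ) (nu : ℂ → ℤ),
    h ^ d + ∑ j ∈ Finset.Icc 1 d, a j * h ^ (d - j) = 0 →
    (∀ j ∈ Finset.Icc 1 d, Ctl r (a j) (fun z => j * lm z) (fun z => j * nu z) Φ (j * w)) →
    Ctl r h lm nu Φ w

end Pool.Agent.Y192.OG
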