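import Pool.Agent.Y192.OG.B3
import Pool.Agent.Y192.OG.StD

/-!
The size of a finite set of monomials, and functions controlled by it.
-/

set_option autoImplicit false

namespace Pool.Agent.Y192.OG

open Filter Metric Set Topology Pool.Agent.W603.BP

variable {N : ℕ}

/-- the largest monomial -/
noncomputable def lmT (c : Curve N) (T : Finset (Fin N → ℤ)) (hT : T.Nonempty) (z : ℂ) : ℝ :=
  T.sup' hT (c.lam z)

/-- the smallest order of the monomials -/
noncomputable def dT (c : Curve N) (T : Finset (Fin N → ℤ)) (hT : T.Nonempty) (z : ℂ) : ℤ :=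
  T.inf' hT (c.del z)

/-- the indicator function of the zeros in `U` -/
noncomputable def zr (c : Curve N) (F : c.Mr) (z : ℂ) : ℤ := by
  classical
  exact if z ∈ c.U ∧ c.val F z = 0 then 1 else 0

/-- the smallest order of the monomials, and one at the zeros of `F` -/
noncomputable def nuT (c : Curve N) (F : c.Mr) (T : Finset (Fin N → ℤ)) (hT : T.Nonempty)
    (z : ℂ) : ℤ := dT c T hT z + zr c F z

section basic

variable {c : Curve N} {F : c.Mr} {T : Finset (Fin N → ℤ)} {hT : T.Nonempty}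

theorem le_lmT {m : Fin N → ℤ} (hm : m ∈ T) (z : ℂ) : c.lam z m ≤ lmT c T hT z :=
  Finset.le_sup' (f := c.lam z) hm

theorem dT_le {m : Fin N → ℤ} (hm : m ∈ T) (z : ℂ) : dT c T hT z ≤ c.del z m :=
  Finset.inf'_le (f := c.del z) hm

theorem exists_lmT (z : ℂ) : ∃ m ∈ T, lmT c T hT z = c.lam z m :=
  Finset.exists_mem_eq_sup' hT (c.lam z)

theorem exists_dT (z : ℂ) : ∃ m ∈ T, dT c T hT z = c.del z m :=
  Finset.exists_mem_eq_inf' hT (c.del z)

theorem dT_U {z : ℂ} (hz : z ∈ c.U) : dT c T hT z = 0 := by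
  obtain ⟨m, -, h⟩ := exists_dT (c := c) (hT := hT) z
  rw [h, (a_ord N c).2.1 z hz m]

theorem zr_nonneg (z : ℂ) : 0 ≤ zr c F z := by
  unfold zr
  split_ifs <;> norm_num

theorem zr_of_notMem {z : ℂ} (hz : z ∉ c.U) : zr c F z = 0 := by
  unfold zr
  rw [if_neg fun h => hz h.1]

theorem nuT_U {z : ℂ} (hz : z ∈ c.U) : nuT c F T hT z = zr c F z := by
  unfold nuT
  rw [dT_U hz, zero_add]

theorem lamT_int (r : Rad c F) (n : ℕ) : CircleIntegrable (lmT c T hT) 0 (r.s n) := by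
  classical
  have h1 := ((a_ht N c).1 _ (r.hs n)).2.2.2.2.2.1
  have key : ∀ (s : Finset (Fin N → ℤ)) (hs : s.Nonempty),
      CircleIntegrable (fun z => s.sup' hs (c.lam z)) 0 (r.s n) := by
    intro s hs
    induction hs using Finset.Nonempty.cons_induction with
    | singleton a =>
      simp only [Finset.sup'_singleton]
      exact h1 a
    | cons a s ha hs ih =>
      simp only [Finset.sup'_cons hs]
      have h2 : (fun z => c.lam z a ⊔ s.sup' hs (c.lam z))
          = fun z => (1 / 2 : ℝ) • ((c.lam z a + s.sup' hs (c.lam z))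
            + |c.lam z a - s.sup' hs (c.lam z)|) := by
        funext z
        rw [smul_eq_mul]
        rcases le_total (c.lam z a) (s.sup' hs (c.lam z)) with h | h
        · rw [sup_eq_right.mpr h, abs_of_nonpos (by linarith)]
          ring
        · rw [sup_eq_left.mpr h, abs_of_nonneg (by linarith)]
          ring
      rw [h2]
      exact ((((h1 a).add ih).add ((h1 a).sub ih).abs)).const_fun_smul
  exact key T hT

theorem abs_dT_le (z : ℂ) : |dT c T hT z| ≤ ∑ m ∈ T, |c.del z m| := by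
  obtain ⟨m, hm, h⟩ := exists_dT (c := c) (hT := hT) z
  rw [h]
  exact Finset.single_le_sum (f := fun m => |c.del z m|) (fun i _ => abs_nonneg _) hm

theorem locFin_sum {ι : Type} (s : Finset ι) {E : ι → ℂ → ℝ} (h : ∀ i ∈ s, c.LocFin (E i)) :
    c.LocFin (fun z => ∑ i ∈ s, E i z) := by
  classical
  induction s using Finset.induction_on with
  | empty =>
    intro R
    have : {z : ℂ | c.r0 + 1 ≤ ‖z‖ ∧ ‖z‖ ≤ R ∧ ∑ i ∈ (∅ : Finset ι), E i z ≠ 0} = ∅ := by
      ext z
      simp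
    rw [this]
    exact finite_empty
  | insert a s ha ih =>
    simp only [Finset.sum_insert ha]
    exact ((a_cnt N c).1 _ _ (h a (Finset.mem_insert_self _ _))
      (ih fun i hi => h i (Finset.mem_insert_of_mem hi))).1

theorem locFin_dT : c.LocFin (fun z => (dT c T hT z : ℤ)) := by
  refine (a_cnt N c).2.2.2 (fun z => ∑ m ∈ T, |((c.del z m : ℤ) : ℝ)|) _ ?_ fun z _ => ?_
  · refine locFin_sum T fun m _ => ?_
    exact (a_cnt N c).2.2.2 _ _ ((a_ord N c).2.2.2.2.2.2.2 m) fun z _ => by rw [abs_abs]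
  · refine le_trans ?_ (le_abs_self _)
    have := abs_dT_le (c := c) (hT := hT) z
    exact_mod_cast this

theorem locFin_zr (hF : F ≠ 0) : c.LocFin (fun z => (zr c F z : ℤ)) := by
  refine (a_cnt N c).2.2.2 _ _ ((a_ord N c).2.2.2.2.2.1 F hF) fun z _ => ?_
  unfold zr
  split_ifs with h
  · have h1 := one_le_ord h.1 h.2
    have h2 : ((c.ord z F).untop₀ : WithTop ℤ) = c.ord z F :=
      WithTop.coe_untop₀_of_ne_top ((a_ring N c).2.2.2 F hF z (c.U_sub h.1))
    rw [← h2] at h1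
    have h3 : (1 : ℤ) ≤ (c.ord z F).untop₀ := WithTop.coe_le_coe.mp h1
    rw [abs_of_nonneg (by norm_num), abs_of_nonneg (by exact_mod_cast (by omega : 0 ≤ (c.ord z F).untop₀))]
    exact_mod_cast h3
  · simp

theorem locFin_nuT (hF : F ≠ 0) : c.LocFin (fun z => (nuT c F T hT z : ℤ)) := by
  have := ((a_cnt N c).1 _ _ (locFin_dT (c := c) (hT := hT)) (locFin_zr hF)).1
  refine (a_cnt N c).2.2.2 _ _ this fun z _ => le_of_eq ?_
  unfold nuT
  push_cast
  rfl

end basic

section ctl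

variable {c : Curve N} {F : c.Mr}

theorem bad_nonneg (c : Curve N) (z : ℂ) : 0 ≤ c.bad z := by
  unfold Curve.bad
  split_ifs <;> norm_num

/-- weaker control -/
theorem ctl_weak {r : Rad c F} {g : c.Mr} {lm lm' : ℂ → ℝ} {nu nu' : ℂ → ℤ}
    {Φ Φ' : Finset (Fin N → ℤ)} {w w' : ℕ} (k : ℕ) (h : Ctl r g lm nu Φ w) (hΦ : Φ ⊆ Φ')
    (hw : w + k ≤ w') (h1 : ∀ z ∈ Ext c.r0, lm z ≤ lm' z + k * ∑ φ ∈ Φ', |c.lam z φ|)
    (h2 : ∀ z ∈ Ext c.r0, nu' z ≤ nu z + k * ∑ φ ∈ Φ', |c.del z φ|) :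
    Ctl r g lm' nu' Φ' w' := by
  obtain ⟨⟨C, hC, hg⟩, ho⟩ := h
  refine ⟨⟨C, hC, fun n z hz y hy => (hg n z hz y hy).trans ?_⟩, fun z hz => le_trans ?_ (ho z hz)⟩
  · have hzE : z ∈ Ext c.r0 := by
      have := r.hs n
      change c.r0 < ‖z‖
      linarith
    have he := r.he n
    have e1 : (1 : ℝ) ≤ 1 / r.e n := by
      rw [le_div_iff₀ he.1]
      linarith
    have e2 : (1 / r.e n) ^ w ≤ (1 / r.e n) ^ w' := pow_le_pow_right₀ e1 (by omega)
    have s1 : ∑ φ ∈ Φ, |c.lam z φ| ≤ ∑ φ ∈ Φ', |c.lam z φ| :=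
      Finset.sum_le_sum_of_subset_of_nonneg hΦ fun i _ _ => abs_nonneg _
    have s0 : 0 ≤ ∑ φ ∈ Φ, |c.lam z φ| := Finset.sum_nonneg fun i _ => abs_nonneg _
    have hw' : ((w : ℝ) + k) ≤ w' := by exact_mod_cast hw
    have e3 : lm z + w * ∑ φ ∈ Φ, |c.lam z φ| ≤ lm' z + w' * ∑ φ ∈ Φ', |c.lam z φ| := by
      have t1 := h1 z hzE
      have t2 : (w : ℝ) * ∑ φ ∈ Φ, |c.lam z φ| ≤ w * ∑ φ ∈ Φ', |c.lam z φ| :=
        mul_le_mul_of_nonneg_left s1 (Nat.cast_nonneg w)
      have t3 : ((w : ℝ) + k) * ∑ φ ∈ Φ', |c.lam z φ| ≤ w' * ∑ φ ∈ Φ', |c.lam z φ| :=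
        mul_le_mul_of_nonneg_right hw' (s0.trans s1)
      linarith
    have e4 := Real.exp_le_exp.mpr e3
    calc C * Real.exp (lm z + w * ∑ φ ∈ Φ, |c.lam z φ|) * (1 / r.e n) ^ w
        ≤ C * Real.exp (lm' z + w' * ∑ φ ∈ Φ', |c.lam z φ|) * (1 / r.e n) ^ w :=
          mul_le_mul_of_nonneg_right (mul_le_mul_of_nonneg_left e4 hC) (by positivity)
      _ ≤ _ := mul_le_mul_of_nonneg_left e2 (by positivity)
  · have s1 : ∑ φ ∈ Φ, |c.del z φ| ≤ ∑ φ ∈ Φ', |c.del z φ| :=
      Finset.sum_le_sum_of_subset_of_nonneg hΦ fun i _ _ => abs_nonneg _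
    have s0 : 0 ≤ ∑ φ ∈ Φ, |c.del z φ| := Finset.sum_nonneg fun i _ => abs_nonneg _
    have hb := bad_nonneg c z
    have t1 := h2 z hz
    have hw' : ((w : ℤ) + k) ≤ w' := by exact_mod_cast hw
    have hint : nu' z - w' * (∑ φ ∈ Φ', |c.del z φ| + c.bad z)
        ≤ nu z - w * (∑ φ ∈ Φ, |c.del z φ| + c.bad z) := by
      have t2 : (w : ℤ) * ∑ φ ∈ Φ, |c.del z φ| ≤ w * ∑ φ ∈ Φ', |c.del z φ| :=
        mul_le_mul_of_nonneg_left s1 (Int.natCast_nonneg w)
      have t3 : ((w : ℤ) + k) * ∑ φ ∈ Φ', |c.del z φ| ≤ w' * ∑ φ ∈ Φ', |c.del z φ| :=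
        mul_le_mul_of_nonneg_right hw' (s0.trans s1)
      have t4 : ((w : ℤ) + k) * c.bad z ≤ w' * c.bad z := mul_le_mul_of_nonneg_right hw' hb
      have t5 : 0 ≤ (k : ℤ) * c.bad z := mul_nonneg (Int.natCast_nonneg k) hb
      nlinarith
    exact_mod_cast hint

theorem ctl_mono {r : Rad c F} {g : c.Mr} {lm : ℂ → ℝ} {nu : ℂ → ℤ}
    {Φ Φ' : Finset (Fin N → ℤ)} {w w' : ℕ} (h : Ctl r g lm nu Φ w) (hΦ : Φ ⊆ Φ') (hw : w ≤ w') :
    Ctl r g lm nu Φ' w' :=
  ctl_weak 0 h hΦ (by simpa using hw) (fun z _ => by simp) (fun z _ => by simp)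

/-- control with the zeros -/
theorem ctl_zr {r : Rad c F} {g : c.Mr} {T : Finset (Fin N → ℤ)} {hT : T.Nonempty}
    {lm : ℂ → ℝ} {Φ : Finset (Fin N → ℤ)} {w e : ℕ}
    (h : Ctl r g lm (fun z => e * dT c T hT z) Φ w)
    (hz : ∀ z ∈ c.U, c.val F z = 0 → ((e : ℤ) : WithTop ℤ) ≤ c.ord z g) :
    Ctl r g lm (fun z => e * nuT c F T hT z) Φ w := by
  refine ⟨h.1, fun z hzE => ?_⟩
  by_cases hU : z ∈ c.U ∧ c.val F z = 0
  · have e1 : zr c F z = 1 := by
      unfold zr
      rw [if_pos hU]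
    have e2 : ∑ φ ∈ Φ, |c.del z φ| = 0 :=
      Finset.sum_eq_zero fun φ _ => by rw [(a_ord N c).2.1 z hU.1 φ, abs_zero]
    beta_reduce
    rw [nuT_U hU.1, e1, e2, (a_ord N c).2.2.1 z hU.1, add_zero, mul_zero, sub_zero, mul_one]
    exact hz z hU.1 hU.2
  · have e1 : zr c F z = 0 := by
      unfold zr
      rw [if_neg hU]
    have e2 : nuT c F T hT z = dT c T hT z := by
      unfold nuT
      rw [e1, add_zero]
    beta_reduce
    rw [e2]
    exact h.2 z hzE

/-- a monomial which is dominated by the monomials in `T` up to monomials in `Γ` -/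
def DomE (Γ : Submodule ℤ (Fin N → ℤ)) (T : Finset (Fin N → ℤ)) (hT : T.Nonempty) (e : ℕ)
    (m : Fin N → ℤ) : Prop :=
  ∃ γ ∈ Γ, ∀ (c : Curve N) (z : ℂ), z ∈ Ext c.r0 →
    c.lam z m ≤ e * lmT c T hT z + |c.lam z γ| ∧ e * dT c T hT z ≤ c.del z m + |c.del z γ|

theorem lam_add' (c : Curve N) (z : ℂ) (m m' : Fin N → ℤ) :
    c.lam z (m + m') = c.lam z m + c.lam z m' := by
  unfold Curve.lam
  rw [← Finset.sum_add_distrib]
  refine Finset.sum_congr rfl fun i _ => ?_
  rw [Pi.add_apply]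
  push_cast
  ring

theorem del_add' (c : Curve N) (z : ℂ) (m m' : Fin N → ℤ) :
    c.del z (m + m') = c.del z m + c.del z m' := by
  unfold Curve.del
  rw [← Finset.sum_add_distrib]
  refine Finset.sum_congr rfl fun i _ => ?_
  rw [Pi.add_apply]
  ring

theorem lam_zsmul' (c : Curve N) (z : ℂ) (a : ℤ) (m : Fin N → ℤ) :
    c.lam z (a • m) = a * c.lam z m := by
  unfold Curve.lam
  rw [Finset.mul_sum]
  refine Finset.sum_congr rfl fun i _ => ?_
  rw [Pi.smul_apply, smul_eq_mul]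
  push_cast
  ring

theorem del_zsmul' (c : Curve N) (z : ℂ) (a : ℤ) (m : Fin N → ℤ) :
    c.del z (a • m) = a * c.del z m := by
  unfold Curve.del
  rw [Finset.mul_sum]
  refine Finset.sum_congr rfl fun i _ => ?_
  rw [Pi.smul_apply, smul_eq_mul]
  ring

theorem lam_sum' (c : Curve N) (z : ℂ) {ι : Type} (s : Finset ι) (m : ι → Fin N → ℤ) :
    c.lam z (∑ i ∈ s, m i) = ∑ i ∈ s, c.lam z (m i) := by
  classical
  induction s using Finset.induction_on with
  | empty => simp [lam_zero]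
  | insert a s ha ih => rw [Finset.sum_insert ha, Finset.sum_insert ha, lam_add', ih]

theorem del_sum' (c : Curve N) (z : ℂ) {ι : Type} (s : Finset ι) (m : ι → Fin N → ℤ) :
    c.del z (∑ i ∈ s, m i) = ∑ i ∈ s, c.del z (m i) := by
  classical
  induction s using Finset.induction_on with
  | empty => simp [del_zero]
  | insert a s ha ih => rw [Finset.sum_insert ha, Finset.sum_insert ha, del_add', ih]

theorem domE_of {Γ : Submodule ℤ (Fin N → ℤ)} {T : Finset (Fin N → ℤ)} (hT : T.Nonempty)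
    {e p : ℕ} (hp : 1 ≤ p) {m : Fin N → ℤ} (t : Fin (p * e) → Fin N → ℤ)
    (ht : ∀ l, ∃ τ ∈ T, t l - τ ∈ Γ) (hm : (p : ℤ) • m - ∑ l, t l ∈ Γ) :
    DomE Γ T hT e m := by
  choose τ hτ1 hτ2 using ht
  refine ⟨(p : ℤ) • m - ∑ l, τ l, ?_, ?_⟩
  · have h1 : (p : ℤ) • m - ∑ l, τ l = ((p : ℤ) • m - ∑ l, t l) + ∑ l, (t l - τ l) := by
      rw [Finset.sum_sub_distrib]
      abel
    rw [h1]
    exact Γ.add_mem hm (Γ.sum_mem fun l _ => hτ2 l)
  · intro c z hz
    set γ := (p : ℤ) • m - ∑ l, τ l with hγ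
    have h1 : (p : ℤ) • m = γ + ∑ l, τ l := by rw [hγ]; abel
    have hpr : (1 : ℝ) ≤ p := by exact_mod_cast hp
    have hpz : (1 : ℤ) ≤ p := by exact_mod_cast hp
    constructor
    · have h2 := congrArg (c.lam z) h1
      rw [lam_zsmul', lam_add', lam_sum'] at h2
      have h3 : ∑ l, c.lam z (τ l) ≤ ((p * e : ℕ) : ℝ) * lmT c T hT z := by
        calc ∑ l, c.lam z (τ l) ≤ ∑ _l : Fin (p * e), lmT c T hT z :=
              Finset.sum_le_sum fun l _ => le_lmT (hτ1 l) z
          _ = _ := by simp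
      have h4 := le_abs_self (c.lam z γ)
      have h5 := abs_nonneg (c.lam z γ)
      push_cast at h2 h3
      have h6 : (p : ℝ) * (c.lam z m - e * lmT c T hT z) ≤ |c.lam z γ| := by nlinarith
      by_cases h7 : c.lam z m - e * lmT c T hT z ≤ 0
      · linarith
      · push Not at h7
        nlinarith
    · have h2 := congrArg (c.del z) h1
      rw [del_zsmul', del_add', del_sum'] at h2
      have h3 : ((p * e : ℕ) : ℤ) * dT c T hT z ≤ ∑ l, c.del z (τ l) := by
        calc ((p * e : ℕ) : ℤ) * dT c T hT z = ∑ _l : Fin (p * e), dT c T hT z := by simp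
          _ ≤ _ := Finset.sum_le_sum fun l _ => dT_le (hτ1 l) z
      have h4 := neg_abs_le (c.del z γ)
      have h5 := abs_nonneg (c.del z γ)
      push_cast at h3
      have h6 : (p : ℤ) * (e * dT c T hT z - c.del z m) ≤ |c.del z γ| := by nlinarith
      by_cases h7 : e * dT c T hT z - c.del z m ≤ 0
      · linarith
      · push Not at h7
        nlinarith

/-- control of Laurent polynomials with dominated monomials -/
theorem ctl_dom {Γ : Submodule ℤ (Fin N → ℤ)} {T : Finset (Fin N → ℤ)} {hT : T.Nonempty}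
    {e : ℕ} (g : Lau N) (hg : ∀ m ∈ g.coeff.support, DomE Γ T hT e m) :
    ∃ Φ : Finset (Fin N → ℤ), (∀ φ ∈ Φ, φ ∈ Γ) ∧ ∀ (c : Curve N) (F : c.Mr) (r : Rad c F),
      Ctl r (c.ev g) (fun z => e * lmT c T hT z) (fun z => e * dT c T hT z) Φ 1 := by
  classical
  choose! γ h1 h2 using hg
  refine ⟨g.coeff.support.image γ, ?_, ?_⟩
  · intro φ hφ
    obtain ⟨m, hm, rfl⟩ := Finset.mem_image.mp hφ
    exact h1 m hm
  · intro c F r
    set Φ := g.coeff.support.image γ with hΦ
    obtain ⟨a1, a2, a3, a4, a5, a6, a7, a8, a9⟩ := a_ctl N c F r Φ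
    have hterm : ∀ m ∈ g.coeff.support, Ctl r (g.coeff m • c.mon m)
        (fun z => e * lmT c T hT z) (fun z => e * dT c T hT z) Φ 1 := by
      intro m hm
      apply a8
      have hγΦ : γ m ∈ Φ := Finset.mem_image_of_mem _ hm
      refine ctl_weak 1 (a1 m) (Finset.Subset.refl _) (by norm_num) (fun z hz => ?_) fun z hz => ?_
      · have b1 := (h2 m hm c z hz).1
        have b2 : |c.lam z (γ m)| ≤ ∑ φ ∈ Φ, |c.lam z φ| :=
          Finset.single_le_sum (f := fun φ => |c.lam z φ|) (fun i _ => abs_nonneg _) hγΦ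
        push_cast
        linarith
      · have b1 := (h2 m hm c z hz).2
        have b2 : |c.del z (γ m)| ≤ ∑ φ ∈ Φ, |c.del z φ| :=
          Finset.single_le_sum (f := fun φ => |c.del z φ|) (fun i _ => abs_nonneg _) hγΦ
        push_cast
        linarith
    have key : ∀ s : Finset (Fin N → ℤ), s ⊆ g.coeff.support →
        Ctl r (∑ m ∈ s, g.coeff m • c.mon m)
        (fun z => e * lmT c T hT z) (fun z => e * dT c T hT z) Φ 1 := by
      intro s
      induction s using Finset.induction_on with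
      | empty =>
        intro _
        rw [Finset.sum_empty]
        obtain ⟨τ, hτ⟩ := hT
        -- zero is controlled by everything
        refine ⟨⟨0, le_rfl, fun n z hz y hy => ?_⟩, fun z hz => ?_⟩
        · rw [zero_mul, zero_mul]
          have : c.val 0 y = 0 := by
            have := c.val_smul 0 (0 : c.Mr) y
            rw [zero_smul, zero_mul] at this
            exact this
          rw [this, norm_zero]
        · rw [ord_zero]
          exact le_top
      | insert m s hm ih =>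
        intro hs
        rw [Finset.sum_insert hm]
        exact a7 _ _ _ _ _ (hterm m (hs (Finset.mem_insert_self _ _)))
          (ih fun x hx => hs (Finset.mem_insert_of_mem hx))
    have e1 : c.ev g = ∑ m ∈ g.coeff.support, g.coeff m • c.mon m := by
      have hg' : g = ∑ m ∈ g.coeff.support, AddMonoidAlgebra.single m (g.coeff m) := by
        conv_lhs => rw [← AddMonoidAlgebra.sum_coeff_single g]
        rfl
      conv_lhs => rw [hg']
      rw [map_sum]
      exact Finset.sum_congr rfl fun m _ => c.ev_single m _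
    rw [e1]
    exact key _ (Finset.Subset.refl _)

end ctl

end Pool.Agent.Y192.OG
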