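import Pool.Agent.Y192.OG.B9
import Pool.Agent.Y192.OG.C1

/-!
The induction for a general class of curves, with a weaker condition along the boundary.
-/

set_option autoImplicit false

namespace Pool.Agent.Y192.OG.E

open Filter Metric Set Topology Pool.Agent.W603.BP

/-- a class of curves, depending on the multiplicity -/
structure GC {N : ℕ} (I : Ideal (Lau N)) (A : ℕ → Curve N → Prop) : Prop where
  mono : ∀ {μ μ' : ℕ} {c : Curve N}, μ' ≤ μ → A μ c → A μ' c
  van : ∀ {μ : ℕ} {c : Curve N}, A μ c → ∀ g ∈ I, c.ev g = 0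
  ram : ∀ {μ : ℕ} {c : Curve N}, A μ c → ∀ z ∈ Ext c.r0, (∃ i, c.X i z = 0) →
    ∃ i, (μ : ℕ∞) ≤ analyticOrderAt (c.X i) z

variable {N : ℕ}

/-- the number of points where some coordinate vanishes -/
theorem bad_ch {c : Curve N} {μ : ℕ} (ram : ∀ z ∈ Ext c.r0, (∃ i, c.X i z = 0) →
    ∃ i, (μ : ℕ∞) ≤ analyticOrderAt (c.X i) z) {R : ℝ} (hR : c.r0 + 2 ≤ R) :
    μ * c.cnt (fun z => (c.bad z : ℤ)) R ≤ c.ch R := by
  have pabs : ∀ m', Pool.Agent.Y141.OG.Pc c R (fun z => (|c.del z m'| : ℤ))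
      (c.cnt (fun z => (|c.del z m'| : ℤ)) R) :=
    fun m' => ⟨(a_cnt N c).2.2.2 _ _ ((a_ord N c).2.2.2.2.2.2.2 m') (fun z _ => by
      push_cast; rw [abs_abs]), rfl⟩
  have pbad : Pool.Agent.Y141.OG.Pc c R (fun z => ((c.bad z : ℤ) : ℝ))
      (c.cnt (fun z => (c.bad z : ℤ)) R) := ⟨(a_ord N c).2.2.2.2.2.2.1, rfl⟩
  have h1 := pbad.smul a_cnt (μ : ℝ)
  have h2 := Pool.Agent.Y141.OG.Pc.sum a_cnt (Finset.univ : Finset (Fin N))
    (fun i _ => pabs (Pi.single i 1))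
  have h3 : μ * c.cnt (fun z => (c.bad z : ℤ)) R
      ≤ ∑ i : Fin N, c.cnt (fun z => (|c.del z (Pi.single i 1)| : ℤ)) R := by
    rw [← h1.2, ← h2.2]
    refine (a_cnt N c).2.2.1 _ _ h1.1 h2.1 (fun z hz => ?_) R
    have hzE : z ∈ Ext c.r0 := Pool.Agent.Y141.OG.ext_of_le hz
    have hnn : ∀ i : Fin N, 0 ≤ ((|c.del z (Pi.single i 1)| : ℤ) : ℝ) := fun i => by
      exact_mod_cast abs_nonneg _
    by_cases hb : ∃ i, c.X i z = 0
    · have e1 : c.bad z = 1 := by
        unfold Curve.bad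
        rw [if_pos hb]
      have hdel : ∀ i : Fin N, c.del z (Pi.single i 1) = c.oX i.succ z - c.oX 0 z := by
        intro i
        unfold Curve.del
        rw [Finset.sum_eq_single i]
        · rw [Pi.single_eq_same, one_mul]
        · intro j _ hj
          rw [Pi.single_eq_of_ne hj, zero_mul]
        · intro h
          exact absurd (Finset.mem_univ i) h
      obtain ⟨i, hi⟩ := ram z hzE hb
      obtain ⟨l, hl⟩ := c.ncz z hzE
      have ho : ∀ i', analyticOrderAt (c.X i') z ≠ ⊤ := by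
        intro i' h0
        have h4 := analyticOrderAt_eq_top.mp h0
        have h5 := c.X_punct i' hzE
        have h6 : ∀ᶠ w in 𝓝[≠] z, c.X i' w = 0 := h4.filter_mono nhdsWithin_le_nhds
        obtain ⟨w, hw1, hw2⟩ := (h5.and h6).exists
        exact hw1 hw2
      have hi' : (μ : ℤ) ≤ c.oX i z := by
        unfold Curve.oX
        have h4 : ((analyticOrderAt (c.X i) z).toNat : ℕ∞) = analyticOrderAt (c.X i) z :=
          ENat.natCast_toNat (ho i)
        rw [← h4] at hi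
        exact_mod_cast hi
      have hl' : c.oX l z = 0 := by
        unfold Curve.oX
        rw [(c.an l z hzE).analyticOrderAt_eq_zero.mpr hl]
        rfl
      rw [e1]
      have key : (μ : ℤ) ≤ ∑ i : Fin N, |c.del z (Pi.single i 1)| := by
        simp only [hdel]
        have e2 : ∑ i : Fin N, |c.oX i.succ z - c.oX 0 z|
            = ∑ i' : Fin (N + 1), |c.oX i' z - c.oX 0 z| := by
          rw [Fin.sum_univ_succ, sub_self, abs_zero, zero_add]
        rw [e2]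
        by_cases hil : i = l
        · rw [hil, hl'] at hi'
          exact hi'.trans (Finset.sum_nonneg fun i _ => abs_nonneg _)
        · have h5 : ∑ i' ∈ ({i, l} : Finset (Fin (N + 1))), |c.oX i' z - c.oX 0 z|
              ≤ ∑ i' : Fin (N + 1), |c.oX i' z - c.oX 0 z| :=
            Finset.sum_le_sum_of_subset_of_nonneg (Finset.subset_univ _) fun _ _ _ => abs_nonneg _
          rw [Finset.sum_pair hil, hl'] at h5
          refine le_trans ?_ h5
          have h6 := le_abs_self (c.oX i z - c.oX 0 z)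
          have h7 := neg_abs_le (0 - c.oX 0 z)
          linarith
      exact_mod_cast (by rw [mul_one]; exact key)
    · have e1 : c.bad z = 0 := by
        unfold Curve.bad
        rw [if_neg hb]
      rw [e1]
      simp only [Int.cast_zero, mul_zero]
      exact Finset.sum_nonneg fun i _ => hnn i
  refine h3.trans ?_
  unfold Curve.ch
  refine Finset.sum_le_sum fun i _ => ?_
  unfold Curve.ht
  have h4 : 0 ≤ Real.circleAverage (fun z => |c.lam z (Pi.single i 1)|) 0 R := by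
    apply Real.circleAverage_nonneg_of_nonneg
    intro z _
    exact abs_nonneg _
  linarith

theorem err_small {c : Curve N} {F : c.Mr} {μ : ℕ} (hμ : 1 ≤ μ)
    (ram : ∀ z ∈ Ext c.r0, (∃ i, c.X i z = 0) → ∃ i, (μ : ℕ∞) ≤ analyticOrderAt (c.X i) z)
    {r : Rad c F} {Φ : Finset (Fin N → ℤ)} {ε : ℝ} (h : ∀ φ ∈ Φ, Sm r ε φ) {a b : ℝ}
    (ha : 0 ≤ a) (hb : 0 ≤ b) :
    Le (fun n => c.ch (r.s n)) (fun n => a * ∑ φ ∈ Φ, c.ht φ (r.s n)
      + b * c.cnt (fun z => (c.bad z : ℤ)) (r.s n))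
      (fun n => (a * (Φ.card * ε) + b / μ) * c.ch (r.s n)) := by
  have hT := ch_nonneg a_ht r
  have h1 := Le.mul hT ha (Le.sum hT Φ (X := fun φ n => c.ht φ (r.s n))
      (Y := fun _ n => ε * c.ch (r.s n)) h)
  have h2 : Le (fun n => c.ch (r.s n)) (fun n => b * c.cnt (fun z => (c.bad z : ℤ)) (r.s n))
      (fun n => b / μ * c.ch (r.s n)) := by
    apply Le.of_le hT
    intro n
    have h3 := bad_ch ram (r.hs n)
    have hμ' : (0 : ℝ) < μ := by exact_mod_cast hμ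
    rw [div_mul_eq_mul_div, le_div_iff₀ hμ']
    nlinarith
  refine Le.trans (Le.add h1 h2) (Le.of_le hT fun n => le_of_eq ?_)
  simp only [Finset.sum_const, nsmul_eq_mul]
  ring

/-- the induction statement -/
def IndG (A : ℕ → Curve N → Prop) (I : Ideal (Lau N)) (f : Lau N)
    (Γ : Submodule ℤ (Fin N → ℤ)) : Prop :=
  ∃ (Φ : Finset (Fin N → ℤ)) (ε : ℝ) (μ : ℕ) (G : Lau N), (∀ φ ∈ Φ, φ ∈ Γ) ∧ 0 < ε ∧ G ∉ I ∧
    ∀ c : Curve N, A μ c → ∀ r : Rad c (c.ev f), (∀ φ ∈ Φ, Sm r ε φ) → c.ev G = 0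

/-- the induction statement for finitely many additional monomials -/
def IndGL (A : ℕ → Curve N → Prop) (I : Ideal (Lau N)) (f : Lau N)
    (Γ : Submodule ℤ (Fin N → ℤ)) (S : Finset (Fin N → ℤ)) : Prop :=
  ∃ (Φ : Finset (Fin N → ℤ)) (ε : ℝ) (μ : ℕ) (G : Lau N), (∀ φ ∈ Φ, φ ∈ Γ) ∧ 0 < ε ∧ G ∉ I ∧
    ∀ c : Curve N, A μ c → ∀ r : Rad c (c.ev f), (∀ φ ∈ Φ, Sm r ε φ) →
      (∃ γ ∈ S, Sm r ε γ) → c.ev G = 0

theorem indGL_of {A : ℕ → Curve N → Prop} {I : Ideal (Lau N)} [hI : I.IsPrime] (hA : GC I A)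
    {f : Lau N} {Γ : Submodule ℤ (Fin N → ℤ)} (ih : ∀ Γ', Sat Γ' → Γ < Γ' → IndG A I f Γ')
    (S : Finset (Fin N → ℤ)) (hS : ∀ γ ∈ S, γ ∉ Γ) : IndGL A I f Γ S := by
  classical
  induction S using Finset.induction_on with
  | empty =>
    refine ⟨∅, 1, 0, 1, by simp, one_pos, fun h => hI.ne_top (I.eq_top_of_isUnit_mem h isUnit_one),
      ?_⟩
    rintro c - r - ⟨γ, hγ, -⟩
    simp at hγ
  | insert γ S hγS ihS =>
    obtain ⟨Φ1, ε1, μ1, G1, a1, a2, a3, a4⟩ := ihS fun γ hγ => hS γ (Finset.mem_insert_of_mem hγ)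
    have hγ := hS γ (Finset.mem_insert_self _ _)
    obtain ⟨Φ2, ε2, μ2, G2, b1, b2, b3, b4⟩ := ih (satu Γ γ) (sat_satu Γ γ)
      (lt_of_le_of_ne (le_satu Γ γ) fun h => hγ (by rw [h]; exact mem_satu Γ γ))
    -- the elements of `Φ2` are small as soon as finitely many elements of `Γ` and `γ` are
    have key : ∀ s : Finset (Fin N → ℤ), (∀ φ ∈ s, φ ∈ satu Γ γ) →
        ∃ (Φ : Finset (Fin N → ℤ)) (ε : ℝ), (∀ φ ∈ Φ, φ ∈ Γ) ∧ 0 < ε ∧
          ∀ (c : Curve N) (F : c.Mr) (r : Rad c F), (∀ φ ∈ Φ, Sm r ε φ) → Sm r ε γ →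
            ∀ φ ∈ s, Sm r ε2 φ := by
      intro s
      induction s using Finset.induction_on with
      | empty => exact fun _ => ⟨∅, 1, by simp, one_pos, fun _ _ _ _ _ φ hφ => by simp at hφ⟩
      | insert φ s hφs ihs =>
        intro hs
        obtain ⟨Φ, ε, c1, c2, c3⟩ := ihs fun φ hφ => hs φ (Finset.mem_insert_of_mem hφ)
        obtain ⟨n, k, γ0, d1, d2, d3⟩ := hs φ (Finset.mem_insert_self _ _)
        obtain ⟨ε0, e1, e2⟩ := sm_elim a_ht d1 d3 b2
        refine ⟨insert γ0 Φ, min ε ε0, ?_, lt_min c2 e1, ?_⟩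
        · intro ψ hψ
          rcases Finset.mem_insert.mp hψ with rfl | h
          · exact d2
          · exact c1 ψ h
        · intro c F r h1 h2 ψ hψ
          rcases Finset.mem_insert.mp hψ with rfl | h
          · exact e2 c F r ((h1 γ0 (Finset.mem_insert_self _ _)).mono a_ht (min_le_right _ _))
              (h2.mono a_ht (min_le_right _ _))
          · exact c3 c F r (fun φ hφ => (h1 φ (Finset.mem_insert_of_mem hφ)).mono a_ht
              (min_le_left _ _)) (h2.mono a_ht (min_le_left _ _)) ψ h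
    obtain ⟨Φ3, ε3, c1, c2, c3⟩ := key Φ2 b1
    refine ⟨Φ1 ∪ Φ3, min ε1 ε3, max μ1 μ2, G1 * G2, ?_, lt_min a2 c2, ?_, ?_⟩
    · intro φ hφ
      rcases Finset.mem_union.mp hφ with h | h
      · exact a1 φ h
      · exact c1 φ h
    · intro h
      rcases hI.mem_or_mem h with h | h
      · exact a3 h
      · exact b3 h
    · rintro c hc r h1 ⟨ψ, hψ, h2⟩
      rw [map_mul]
      rcases Finset.mem_insert.mp hψ with rfl | hψ
      · rw [b4 c (hA.mono (le_max_right _ _) hc) r (c3 c _ r (fun φ hφ =>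
          (h1 φ (Finset.mem_union_right _ hφ)).mono a_ht (min_le_right _ _))
          (h2.mono a_ht (min_le_right _ _))), mul_zero]
      · rw [a4 c (hA.mono (le_max_left _ _) hc) r (fun φ hφ =>
          (h1 φ (Finset.mem_union_left _ hφ)).mono a_ht (min_le_left _ _))
          ⟨ψ, hψ, h2.mono a_ht (min_le_left _ _)⟩, zero_mul]

/-- the beginning of the induction -/
theorem indG_top (A : ℕ → Curve N → Prop) {I : Ideal (Lau N)} (hI : I ≠ ⊤) (f : Lau N) :
    IndG A I f ⊤ := by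
  classical
  refine ⟨Finset.univ.image fun i => Pi.single i 1, 1 / (2 * (N + 1)), 0, 1, fun _ _ => trivial,
    by positivity, fun h => hI (I.eq_top_of_isUnit_mem h isUnit_one), ?_⟩
  intro c _ r h
  exfalso
  have hT := ch_nonneg a_ht r
  have h1 : Le (fun n => c.ch (r.s n)) (fun n => c.ch (r.s n))
      (fun n => ∑ _i : Fin N, 1 / (2 * ((N : ℝ) + 1)) * c.ch (r.s n)) := by
    have := Le.sum hT (Finset.univ : Finset (Fin N))
      (X := fun i n => c.ht (Pi.single i 1) (r.s n))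
      (Y := fun _ n => 1 / (2 * ((N : ℝ) + 1)) * c.ch (r.s n))
      (fun i _ => h _ (Finset.mem_image_of_mem _ (Finset.mem_univ i)))
    exact this
  obtain ⟨n, h2, h3⟩ := ((h1 (1 / 4) (by norm_num)).and (ch_pos r)).exists
  simp only [Finset.sum_const, Finset.card_univ, Fintype.card_fin, nsmul_eq_mul] at h2
  have h4 : (N : ℝ) * (1 / (2 * ((N : ℝ) + 1)) * c.ch (r.s n)) ≤ 1 / 2 * c.ch (r.s n) := by
    rw [← mul_assoc]
    apply mul_le_mul_of_nonneg_right _ h3.le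
    rw [mul_one_div, div_le_div_iff₀ (by positivity) (by norm_num)]
    linarith
  linarith

theorem caseAG {A : ℕ → Curve N → Prop} {I : Ideal (Lau N)} [hI : I.IsPrime] (hA : GC I A)
    {f : Lau N} (hf : f ∉ I) {Γ : Submodule ℤ (Fin N → ℤ)}
    (ih : ∀ Γ', Sat Γ' → Γ < Γ' → IndG A I f Γ') {g : Lau N} (hg : g ∈ I)
    (hq : ∃ q, comp Γ q g ∉ I) : IndG A I f Γ := by
  classical
  set cls := g.coeff.support.image Γ.mkQ with hcls
  set Q := cls.filter fun q => comp Γ q g ∉ I with hQ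
  have hb : ∀ q : (Fin N → ℤ) ⧸ Γ, ∃ m, Γ.mkQ m = q := fun q => Γ.mkQ_surjective q
  choose b hb using hb
  set L : Finset (Fin N → ℤ) := ((Q ×ˢ Q).filter fun x => x.1 ≠ x.2).image
    fun x => b x.1 - b x.2 with hL
  have hLΓ : ∀ γ ∈ L, γ ∉ Γ := by
    intro γ hγ h
    obtain ⟨x, hx, rfl⟩ := Finset.mem_image.mp hγ
    apply (Finset.mem_filter.mp hx).2
    have h1 : Γ.mkQ (b x.1 - b x.2) = 0 := (Submodule.Quotient.mk_eq_zero Γ).mpr h
    rw [map_sub, hb, hb, sub_eq_zero] at h1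
    exact h1
  obtain ⟨Φ1, ε1, μ1, G1, a1, a2, a3, a4⟩ := indGL_of hA ih L hLΓ
  set Φ0 : Finset (Fin N → ℤ) := Q.biUnion fun q =>
    (comp Γ q g).coeff.support.image fun m => m - b q with hΦ0
  have hΦ0Γ : ∀ φ ∈ Φ0, φ ∈ Γ := by
    intro φ hφ
    obtain ⟨q, hq, hφ⟩ := Finset.mem_biUnion.mp hφ
    obtain ⟨m, hm, rfl⟩ := Finset.mem_image.mp hφ
    have h1 := (comp_supp Γ q g m hm).1
    rw [← Submodule.Quotient.mk_eq_zero Γ]
    change Γ.mkQ (m - b q) = 0
    rw [map_sub, hb, h1, sub_self]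
  obtain ⟨ε, μ, c1, c2, c3, c4, c5⟩ := consts (2 * (Q.card * (1 : ℕ)))
    (2 * (Q.card * (1 : ℕ) + (Q.card : ℝ) ^ 2)) (by positivity) Φ0.card a2 μ1
  refine ⟨Φ0 ∪ Φ1, ε, μ, f * ((∏ q ∈ Q, comp Γ q g) * G1), ?_, c1, ?_, ?_⟩
  · intro φ hφ
    rcases Finset.mem_union.mp hφ with h | h
    · exact hΦ0Γ φ h
    · exact a1 φ h
  · intro h
    rcases hI.mem_or_mem h with h | h
    · exact hf h
    rcases hI.mem_or_mem h with h | h
    · obtain ⟨q, hq1, hq2⟩ := (hI.prod_mem_iff).mp h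
      exact (Finset.mem_filter.mp hq1).2 hq2
    · exact a3 h
  intro c hc r hsm
  by_contra hG
  rw [map_mul, map_mul, map_prod] at hG
  have hf0 : c.ev f ≠ 0 := left_ne_zero_of_mul hG
  have hG2 := right_ne_zero_of_mul hG
  have hP : ∀ q ∈ Q, c.ev (comp Γ q g) ≠ 0 := by
    intro q hq h0
    exact left_ne_zero_of_mul hG2 (Finset.prod_eq_zero hq h0)
  have hG1 : c.ev G1 ≠ 0 := right_ne_zero_of_mul hG2
  have hsum : ∑ q ∈ Q, c.ev (comp Γ q g) = 0 := by
    have h1 : ∑ q ∈ cls, c.ev (comp Γ q g) = 0 := by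
      rw [← map_sum, hcls, sum_comp, hA.van hc g hg]
    rw [← h1, hQ, Finset.sum_filter]
    refine Finset.sum_congr rfl fun q _ => ?_
    by_cases h : comp Γ q g ∈ I
    · rw [if_neg (not_not.mpr h), hA.van hc _ h]
    · rw [if_pos h]
  obtain ⟨q0, hq0⟩ := hq
  have hq0Q : q0 ∈ Q := by
    refine Finset.mem_filter.mpr ⟨?_, hq0⟩
    by_contra hcon
    apply hq0
    have : comp Γ q0 g = 0 := by
      apply AddMonoidAlgebra.coeff_injective
      ext m
      rw [comp_coeff]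
      split_ifs with h
      · by_contra hne
        apply hcon
        rw [hcls, Finset.mem_image]
        exact ⟨m, Finsupp.mem_support_iff.mpr hne, h⟩
      · rfl
    rw [this]
    exact I.zero_mem
  obtain ⟨i, j, hij, hle⟩ := rel_small a_circ a_cl a_ctl a_ht a_cnt a_ord hf0 r Φ0 1
    (fun q : Q => c.ev (comp Γ q g)) (fun q => b q) (fun q => hP q q.2)
    (Fintype.not_linearIndependent_iff.mpr ⟨fun _ => 1, by
      simp only [one_smul]
      rw [← hsum]
      exact Finset.sum_coe_sort Q fun q => c.ev (comp Γ q g), ⟨q0, hq0Q⟩, one_ne_zero⟩)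
    (fun q => ctl_ev a_ctl r Φ0 _ _ fun m hm =>
      Finset.mem_biUnion.mpr ⟨q, q.2, Finset.mem_image_of_mem _ hm⟩)
  apply hG1
  refine a4 c (hA.mono c4 hc) r (fun φ hφ => (hsm φ (Finset.mem_union_right _ hφ)).mono a_ht c2)
    ⟨b i - b j, Finset.mem_image.mpr ⟨(i, j), Finset.mem_filter.mpr ⟨Finset.mem_product.mpr
      ⟨i.2, j.2⟩, fun h => hij (Subtype.ext h)⟩, rfl⟩, ?_⟩
  rw [Fintype.card_coe] at hle
  refine Le.trans hle (Le.trans (err_small c3 (hA.ram hc) (fun φ hφ =>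
    hsm φ (Finset.mem_union_left _ hφ)) (by positivity) (by positivity)) ?_)
  apply Le.of_le (ch_nonneg a_ht r)
  intro n
  exact mul_le_mul_of_nonneg_right c5 (ch_nonneg a_ht r n)

end Pool.Agent.Y192.OG.E
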