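import Pool.Agent.Y192.OG.C2

/-!
The second main theorem, with the simple zeros only.
-/

set_option autoImplicit false

namespace Pool.Agent.Y192.OG.E

open Filter Metric Set Topology Pool.Agent.W603.BP Pool.Agent.Y141.OG

variable {N : ℕ}

/-- the indicator function of the simple zeros in `U` -/
noncomputable def zr (c : Curve N) (F : c.Mr) (z : ℂ) : ℤ := by
  classical
  exact if z ∈ c.U ∧ c.ord z F = 1 then 1 else 0

/-- the smallest order of the monomials, and one at the simple zeros of `F` -/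
noncomputable def nuT (c : Curve N) (F : c.Mr) (T : Finset (Fin N → ℤ)) (hT : T.Nonempty)
    (z : ℂ) : ℤ := dT c T hT z + zr c F z

section basic

variable {c : Curve N} {F : c.Mr} {T : Finset (Fin N → ℤ)} {hT : T.Nonempty}

theorem zr_nonneg (z : ℂ) : 0 ≤ zr c F z := by
  unfold zr
  split_ifs <;> norm_num

theorem val_of_ord {z : ℂ} (hz : z ∈ c.U) (h : c.ord z F = 1) : c.val F z = 0 := by
  by_contra h0
  have h1 := c.val_an F z hz
  have h2 : c.ord z F = 0 := by
    unfold Curve.ord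
    rw [h1.meromorphicOrderAt_eq, h1.analyticOrderAt_eq_zero.mpr h0]
    rfl
  rw [h2] at h
  exact absurd h (by decide)

theorem zr_le (z : ℂ) : zr c F z ≤ OG.zr c F z := by
  unfold zr OG.zr
  split_ifs with h1 h2 h2
  · exact le_rfl
  · exact absurd ⟨h1.1, val_of_ord h1.1 h1.2⟩ h2
  · norm_num
  · exact le_rfl

theorem le_zr (hF : F ≠ 0) (z : ℂ) : OG.zr c F z ≤ zr c F z + rho c F z := by
  have h0 := zr_nonneg (c := c) (F := F) z
  have h1 := (rho_spec' hF).1 z
  by_cases h : z ∈ c.U ∧ c.val F z = 0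
  · have hint : ((c.ord z F).untop₀ : WithTop ℤ) = c.ord z F :=
      WithTop.coe_untop₀_of_ne_top ((a_ring N c).2.2.2 F hF z (c.U_sub h.1))
    have h2 := one_le_ord h.1 h.2
    have e1 : OG.zr c F z = 1 := by
      unfold OG.zr
      rw [if_pos h]
    have e2 : rho c F z = (c.ord z F).untop₀ - 1 := by
      unfold rho
      rw [if_pos h]
    rw [e1, e2]
    rw [← hint] at h2
    have h3 : (1 : ℤ) ≤ (c.ord z F).untop₀ := WithTop.coe_le_coe.mp h2
    by_cases h4 : (c.ord z F).untop₀ = 1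
    · have e3 : zr c F z = 1 := by
        unfold zr
        rw [if_pos]
        exact ⟨h.1, by rw [← hint, h4]; rfl⟩
      rw [e3]
      omega
    · omega
  · have e1 : OG.zr c F z = 0 := by
      unfold OG.zr
      rw [if_neg h]
    rw [e1]
    omega

theorem zr_of_notMem {z : ℂ} (hz : z ∉ c.U) : zr c F z = 0 := by
  unfold zr
  rw [if_neg fun h => hz h.1]

theorem nuT_U {z : ℂ} (hz : z ∈ c.U) : nuT c F T hT z = zr c F z := by
  unfold nuT
  rw [dT_U hz, zero_add]

theorem locFin_zr (hF : F ≠ 0) : c.LocFin (fun z => (zr c F z : ℤ)) := by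
  refine (a_cnt N c).2.2.2 _ _ (OG.locFin_zr hF) fun z _ => ?_
  have h0 := zr_nonneg (c := c) (F := F) z
  have h1 := zr_le (c := c) (F := F) z
  rw [abs_of_nonneg (by exact_mod_cast h0), abs_of_nonneg (by exact_mod_cast h0.trans h1)]
  exact_mod_cast h1

theorem locFin_nuT (hF : F ≠ 0) : c.LocFin (fun z => (nuT c F T hT z : ℤ)) := by
  have := ((a_cnt N c).1 _ _ (locFin_dT (c := c) (hT := hT)) (locFin_zr hF)).1
  refine (a_cnt N c).2.2.2 _ _ this fun z _ => le_of_eq ?_
  unfold nuT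
  push_cast
  rfl

end basic

/-- the quantity which measures the simple zeros of `F` and the proximity to zero -/
noncomputable def dfc (c : Curve N) (F : c.Mr) (T : Finset (Fin N → ℤ)) (hT : T.Nonempty)
    (R : ℝ) : ℝ :=
  Real.circleAverage (lmT c T hT) 0 R - c.cnt (fun z => (nuT c F T hT z : ℤ)) R

variable {c : Curve N} {F : c.Mr}

theorem dfc_le (hF : F ≠ 0) (T : Finset (Fin N → ℤ)) (hT : T.Nonempty) (R : ℝ) :
    dfc c F T hT R ≤ OG.dfc c F T hT R + c.cnt (fun z => (rho c F z : ℤ)) R := by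
  unfold dfc OG.dfc
  have p1 : Pc c R (fun z => (nuT c F T hT z : ℤ)) (c.cnt (fun z => (nuT c F T hT z : ℤ)) R) :=
    ⟨locFin_nuT hF, rfl⟩
  have p2 : Pc c R (fun z => (rho c F z : ℤ)) (c.cnt (fun z => (rho c F z : ℤ)) R) :=
    ⟨(rho_spec' hF).2.2.1, rfl⟩
  have p3 := p1.add a_cnt p2
  have h1 : c.cnt (fun z => (OG.nuT c F T hT z : ℤ)) R
      ≤ c.cnt (fun z => (nuT c F T hT z : ℤ)) R + c.cnt (fun z => (rho c F z : ℤ)) R := by
    rw [← p3.2]
    refine (a_cnt N c).2.2.1 _ _ (OG.locFin_nuT hF) p3.1 (fun z _ => ?_) R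
    have h2 := le_zr hF z
    unfold OG.nuT nuT
    exact_mod_cast (by omega : dT c T hT z + OG.zr c F z ≤ dT c T hT z + zr c F z + rho c F z)
  linarith

/-- the second main theorem with truncation, modulo the multiplicities -/
theorem smt1 (hF : F ≠ 0) (r : Rad c F) (Φ : Finset (Fin N → ℤ)) {b : ℕ}
    (bt : Fin b → Fin N → ℤ) (m0 : Fin N → ℤ) (S : Finset (Fin b →₀ ℕ)) (hS : S.Nonempty)
    (pp : (Fin b →₀ ℕ) → Lau N) (T : Finset (Fin N → ℤ)) (hT : T.Nonempty)
    (hTS : T = S.image fun β => mb bt β - m0)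
    (hΦ : ∀ β ∈ S, ∀ m ∈ (pp β).coeff.support, m ∈ Φ)
    (hsum : c.mon m0 * F = ∑ β ∈ S, c.ev (pp β) * c.mon (mb bt β))
    (hli : ∀ a : (Fin b →₀ ℕ) → ℂ, ∑ β ∈ S, (a β • c.ev (pp β)) * c.mon (mb bt β) = 0 →
      ∀ β ∈ S, a β = 0) :
    Le (fun n => c.ch (r.s n)) (fun n => dfc c F T hT (r.s n))
      (fun n => 2 * c.cnt (fun z => (rho c F z : ℤ)) (r.s n)
        + (S.card * (1 : ℕ) * ∑ φ ∈ Φ, c.ht φ (r.s n)
          + (S.card * (1 : ℕ) + (S.card : ℝ) ^ 2) * c.cnt (fun z => (c.bad z : ℤ)) (r.s n))) := by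
  have h1 := OG.smt1 hF r Φ bt m0 S hS pp T hT hTS hΦ hsum hli
  intro δ hδ
  filter_upwards [h1 δ hδ] with n hn
  have h2 := dfc_le (c := c) hF T hT (r.s n)
  linarith

/-- control with the zeros -/
theorem ctl_zr {r : Rad c F} {g : c.Mr} {T : Finset (Fin N → ℤ)} {hT : T.Nonempty}
    {lm : ℂ → ℝ} {Φ : Finset (Fin N → ℤ)} {w e : ℕ}
    (h : Ctl r g lm (fun z => e * dT c T hT z) Φ w)
    (hz : ∀ z ∈ c.U, c.ord z F = 1 → ((e : ℤ) : WithTop ℤ) ≤ c.ord z g) :
    Ctl r g lm (fun z => e * nuT c F T hT z) Φ w := by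
  refine ⟨h.1, fun z hzE => ?_⟩
  by_cases hU : z ∈ c.U ∧ c.ord z F = 1
  · have e1 : zr c F z = 1 := by
      unfold zr
      rw [if_pos hU]
    have e2 : ∑ φ ∈ Φ, |c.del z φ| = 0 :=
      Finset.sum_eq_zero fun φ _ => by rw [(a_ord N c).2.1 z hU.1 φ, abs_zero]
    beta_reduce
    rw [nuT_U hU.1, e1, e2, (a_ord N c).2.2.1 z hU.1, add_zero, mul_zero, sub_zero, mul_one]
    exact hz z hU.1 hU.2
  · have e1 : zr c F z = 0 := by
      unfold zr
      rw [if_neg hU]
    have e2 : nuT c F T hT z = dT c T hT z := by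
      unfold nuT
      rw [e1, add_zero]
    beta_reduce
    rw [e2]
    exact h.2 z hzE

theorem rel_step (hF : F ≠ 0) (r : Rad c F) (T : Finset (Fin N → ℤ)) (hT : T.Nonempty)
    (Φ : Finset (Fin N → ℤ)) (w e L : ℕ) (A : ℕ → c.Mr) (x : Fin N → ℤ)
    (hA : ∀ l ≤ L, Ctl r (A l) (fun z => e * lmT c T hT z) (fun z => e * nuT c F T hT z) Φ w)
    (hsum : ∑ l ∈ Finset.range (L + 1), A l * c.mon ((l : ℤ) • x) = 0)
    (hne : ∃ l ≤ L, A l ≠ 0) (B : ℕ → ℝ)
    (hB : Le (fun n => c.ch (r.s n)) (fun n => dfc c F T hT (r.s n)) B) (hB0 : ∀ n, 0 ≤ B n) :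
    Le (fun n => c.ch (r.s n)) (fun n => c.ht x (r.s n))
      (fun n => 2 * (L * e * B n + (L * w * ∑ φ ∈ Φ, c.ht φ (r.s n)
        + (L * w + (L : ℝ) ^ 2) * c.cnt (fun z => (c.bad z : ℤ)) (r.s n)))) := by
  classical
  obtain ⟨h1, h2, h3, h4, h5, h6, h7, h8, h9⟩ := a_ctl N c F r Φ
  have hTT := ch_nonneg a_ht r
  -- the minimal relation
  let ι : Type := {l : Fin (L + 1) // A l ≠ 0}
  obtain ⟨l0, hl0, hA0⟩ := hne
  obtain ⟨k, j, a, hk, hj, ha, hs, hind⟩ := a_circ c.Mr ι
    (fun l => A (l : Fin (L + 1)) * c.mon (((l : Fin (L + 1)) : ℕ) • x))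
    (fun l => by exact mon_mul_ne c l.2 _)
    (Fintype.not_linearIndependent_iff.mpr ⟨fun _ => 1, by
      simp only [one_smul]
      refine Eq.trans ?_ hsum
      rw [Finset.sum_range]
      have e1 : ∑ l : ι, A (l : Fin (L + 1)) * c.mon (((l : Fin (L + 1)) : ℕ) • x)
          = ∑ l ∈ (Finset.univ : Finset (Fin (L + 1))).filter
            (fun l : Fin (L + 1) => A (l : ℕ) ≠ 0), A (l : ℕ) * c.mon ((l : ℕ) • x) :=
        (Finset.sum_subtype ((Finset.univ : Finset (Fin (L + 1))).filter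
          (fun l : Fin (L + 1) => A (l : ℕ) ≠ 0)) (by simp)
          (fun l : Fin (L + 1) => A (l : ℕ) * c.mon ((l : ℕ) • x))).symm
      rw [e1, Finset.sum_filter]
      refine Finset.sum_congr rfl fun l _ => ?_
      split_ifs with h
      · rw [natCast_zsmul]
      · push Not at h
        rw [h, zero_mul], ⟨⟨⟨l0, by omega⟩, hA0⟩, one_ne_zero⟩⟩)
  have hkL : k ≤ L := by
    have := Fintype.card_le_of_injective j hj
    rw [Fintype.card_fin] at this
    have h2 : Fintype.card ι ≤ Fintype.card (Fin (L + 1)) := Fintype.card_subtype_le _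
    rw [Fintype.card_fin] at h2
    omega
  let q : Fin (k + 1) → ℤ := fun i => (((j i : Fin (L + 1)) : ℕ) : ℤ)
  have hq : ∀ i i', q i = q i' → i = i' := by
    intro i i' h
    apply hj
    apply Subtype.ext
    apply Fin.ext
    have h' : ((((j i : Fin (L + 1)) : ℕ)) : ℤ) = (((j i' : Fin (L + 1)) : ℕ) : ℤ) := h
    exact_mod_cast h'
  have h01 : (0 : Fin (k + 1)) ≠ 1 := by
    intro h
    have := congrArg Fin.val h
    rcases k with _ | k
    · omega
    · simp at this
  have hq01 : q 0 - q 1 ≠ 0 := fun h => h01 (hq 0 1 (sub_eq_zero.mp h))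
  -- counting functions and means
  have pdel : ∀ (R : ℝ) m', Pc c R (fun z => (c.del z m' : ℤ)) (c.cnt (fun z => (c.del z m' : ℤ)) R) :=
    fun R m' => ⟨(a_ord N c).2.2.2.2.2.2.2 m', rfl⟩
  have pabs : ∀ (R : ℝ) m', Pc c R (fun z => (|c.del z m'| : ℤ))
      (c.cnt (fun z => (|c.del z m'| : ℤ)) R) :=
    fun R m' => ⟨(a_cnt N c).2.2.2 _ _ ((a_ord N c).2.2.2.2.2.2.2 m') (fun z _ => by
      push_cast; rw [abs_abs]), rfl⟩
  have pnu : ∀ R : ℝ, Pc c R (fun z => (nuT c F T hT z : ℤ))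
      (c.cnt (fun z => (nuT c F T hT z : ℤ)) R) := fun R => ⟨locFin_nuT hF, rfl⟩
  have qlam : ∀ n m', Qm (r.s n) (fun z => c.lam z m')
      (Real.circleAverage (fun z => c.lam z m') 0 (r.s n)) :=
    fun n m' => ⟨((a_ht N c).1 _ (r.hs n)).2.2.2.2.2.1 m', rfl⟩
  have qabs : ∀ n m', Qm (r.s n) (fun z => |c.lam z m'|)
      (Real.circleAverage (fun z => |c.lam z m'|) 0 (r.s n)) := fun n m' => Qm.abs (qlam n m').1
  have qlm : ∀ n, Qm (r.s n) (lmT c T hT) (Real.circleAverage (lmT c T hT) 0 (r.s n)) :=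
    fun n => ⟨lamT_int r n, rfl⟩
  let nu : Fin (k + 1) → ℂ → ℤ := fun i z => e * nuT c F T hT z + c.del z (q i • x)
  have pn : ∀ (R : ℝ) i, Pc c R (fun z => ((nu i z : ℤ) : ℝ))
      (e * c.cnt (fun z => (nuT c F T hT z : ℤ)) R + c.cnt (fun z => (c.del z (q i • x) : ℤ)) R) := by
    intro R i
    have := ((pnu R).smul a_cnt (e : ℝ)).add a_cnt (pdel R (q i • x))
    refine ⟨?_, ?_⟩
    · refine (a_cnt N c).2.2.2 _ _ this.1 fun z _ => le_of_eq ?_
      simp only [nu]
      push_cast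
      rfl
    · rw [← this.2]
      refine cnt_congr fun z _ => ?_
      simp only [nu]
      push_cast
      rfl
  have pN := fun R : ℝ => (((pnu R).smul a_cnt (e : ℝ)).add a_cnt
    (((pdel R (q 0 • x)).add a_cnt (pdel R (q 1 • x))).smul a_cnt (1 / 2))).add a_cnt
      ((pabs R ((q 0 - q 1) • x)).smul a_cnt (-(1 / 2)))
  have qL := fun n => ((((qlm n).smul (e : ℝ)).add
    (((qlam n (q 0 • x)).add (qlam n (q 1 • x))).smul (1 / 2))).add
      ((qabs n ((q 0 - q 1) • x)).smul (1 / 2)))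
  have qi := fun n i => ((qlm n).smul (e : ℝ)).add (qlam n (q i • x))
  have key := a_cl2 N c F r Φ w k (fun i => a i • (A (j i : Fin (L + 1)) * c.mon (q i • x)))
    (fun i z => e * lmT c T hT z + c.lam z (q i • x)) nu
    (fun z => (e * lmT c T hT z + 1 / 2 * (c.lam z (q 0 • x) + c.lam z (q 1 • x)))
      + 1 / 2 * |c.lam z ((q 0 - q 1) • x)|)
    (fun z => ((e : ℝ) * (nuT c F T hT z : ℤ) + 1 / 2 * (((c.del z (q 0 • x) : ℤ) : ℝ)
      + (c.del z (q 1 • x) : ℤ))) + -(1 / 2) * ((|c.del z ((q 0 - q 1) • x)| : ℤ) : ℝ)) hk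
    (fun i => by
      apply h8
      have := h6 _ _ _ _ _ _ _ _ (hA (j i : Fin (L + 1)) (by omega)) (h1 (q i • x))
      rw [add_zero] at this
      exact this)
    (by
      refine Eq.trans ?_ hs
      refine Finset.sum_congr rfl fun i _ => ?_
      simp only [q, natCast_zsmul])
    (by
      have e1 : (fun i : Fin k => a i.succ • (A (j i.succ : Fin (L + 1)) * c.mon (q i.succ • x)))
          = fun i : Fin k => a i.succ • (A (j i.succ : Fin (L + 1))
            * c.mon (((j i.succ : Fin (L + 1)) : ℕ) • x)) := by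
        funext i
        simp only [q, natCast_zsmul]
      rw [e1]
      exact hind)
    (by
      intro z hz i
      have e1 : ∀ i, nu i z = e * zr c F z := by
        intro i
        simp only [nu]
        rw [(a_ord N c).2.1 z hz, nuT_U hz, add_zero]
      rw [e1 i, e1 0]
      exact ⟨rfl, mul_nonneg (Int.natCast_nonneg e) (zr_nonneg z)⟩)
    (fun i => (pn 0 i).1) (fun i n => (qi n i).1)
    (by
      intro z _
      beta_reduce
      have e1 : c.lam z ((q 0 - q 1) • x) = c.lam z (q 0 • x) - c.lam z (q 1 • x) := by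
        rw [← Pool.Agent.Y141.OG.lam_sub, ← sub_smul]
      rcases abs_cases (c.lam z ((q 0 - q 1) • x)) with h | h
      · refine ⟨0, ?_⟩
        rw [h.1, e1]
        linarith
      · refine ⟨1, ?_⟩
        rw [h.1, e1]
        linarith)
    (fun n => (qL n).1)
    (by
      intro z _
      beta_reduce
      have e1 : c.del z ((q 0 - q 1) • x) = c.del z (q 0 • x) - c.del z (q 1 • x) := by
        rw [← Pool.Agent.Y141.OG.del_sub, ← sub_smul]
      rcases abs_cases (c.del z ((q 0 - q 1) • x)) with h | h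
      · refine ⟨1, ?_⟩
        simp only [nu]
        rw [h.1, e1]
        push_cast
        linarith
      · refine ⟨0, ?_⟩
        simp only [nu]
        rw [h.1, e1]
        push_cast
        linarith)
    (pN 0).1
  -- Jensen
  have hJ := fun i : Fin (k + 1) => jen_abs r (q i • x)
  choose Cq hCq hJq using hJ
  have hk0 : (0 : ℝ) ≤ k := Nat.cast_nonneg k
  have hkLr : (k : ℝ) ≤ L := by exact_mod_cast hkL
  have he0 : (0 : ℝ) ≤ e := Nat.cast_nonneg e
  have step1 : Le (fun n => c.ch (r.s n)) (fun n => c.ht x (r.s n))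
      (fun n => 2 * ((Real.circleAverage (fun z => (e * lmT c T hT z
          + 1 / 2 * (c.lam z (q 0 • x) + c.lam z (q 1 • x)))
          + 1 / 2 * |c.lam z ((q 0 - q 1) • x)|) 0 (r.s n)
        - c.cnt (fun z => ((e : ℝ) * (nuT c F T hT z : ℤ) + 1 / 2 * (((c.del z (q 0 • x) : ℤ) : ℝ)
          + (c.del z (q 1 • x) : ℤ))) + -(1 / 2) * ((|c.del z ((q 0 - q 1) • x)| : ℤ) : ℝ)) (r.s n))
        - ∑ i, (Real.circleAverage (fun z => e * lmT c T hT z + c.lam z (q i • x)) 0 (r.s n)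
          - c.cnt (fun z => (nu i z : ℤ)) (r.s n))) + 2 * (k * (e * dfc c F T hT (r.s n)))) := by
    apply Le.of_log r (2 * (∑ i, Cq i) + (Cq 0 + Cq 1))
    intro n
    obtain ⟨a1, a2, a3, a4, a5, a6, a7⟩ := (a_ht N c).1 _ (r.hs n)
    set R := r.s n with hR
    have hlog : 0 ≤ 1 + Real.log R := by
      have h1 := r.hs n
      have h2 := c.hr0
      have := Real.log_nonneg (by linarith : (1 : ℝ) ≤ r.s n)
      linarith
    have m1 := (qL n).2
    have m2 := (pN R).2
    have m3 : ∀ i, Real.circleAverage (fun z => e * lmT c T hT z + c.lam z (q i • x)) 0 R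
        = e * Real.circleAverage (lmT c T hT) 0 R + Real.circleAverage (fun z => c.lam z (q i • x)) 0 R :=
      fun i => (qi n i).2
    have m4 : ∀ i, c.cnt (fun z => (nu i z : ℤ)) R
        = e * c.cnt (fun z => (nuT c F T hT z : ℤ)) R + c.cnt (fun z => (c.del z (q i • x) : ℤ)) R :=
      fun i => (pn R i).2
    have m5 : ∑ i, (Real.circleAverage (fun z => e * lmT c T hT z + c.lam z (q i • x)) 0 R
          - c.cnt (fun z => (nu i z : ℤ)) R)
        ≤ (k + 1) * (e * dfc c F T hT R) + (∑ i, Cq i) * (1 + Real.log R) := by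
      calc ∑ i, (Real.circleAverage (fun z => e * lmT c T hT z + c.lam z (q i • x)) 0 R
          - c.cnt (fun z => (nu i z : ℤ)) R)
          ≤ ∑ i : Fin (k + 1), (e * dfc c F T hT R + Cq i * (1 + Real.log R)) := by
            refine Finset.sum_le_sum fun i _ => ?_
            rw [m3 i, m4 i]
            have j1 := (abs_le.mp (hJq i n)).2
            rw [← hR] at j1
            unfold dfc
            linarith
        _ = _ := by
            rw [Finset.sum_add_distrib, Finset.sum_const, ← Finset.sum_mul, Finset.card_univ,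
              Fintype.card_fin, nsmul_eq_mul]
            push_cast
            ring
    have m6 : c.ht ((q 0 - q 1) • x) R = Real.circleAverage (fun z => |c.lam z ((q 0 - q 1) • x)|) 0 R
        + c.cnt (fun z => (|c.del z ((q 0 - q 1) • x)| : ℤ)) R := rfl
    have m7 : c.ht x R ≤ c.ht ((q 0 - q 1) • x) R := by
      rw [a3]
      have b3 : (1 : ℝ) ≤ |((q 0 - q 1 : ℤ) : ℝ)| := by
        have : 1 ≤ |q 0 - q 1| := Int.one_le_abs hq01
        exact_mod_cast this
      have := a1 x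
      nlinarith
    have j0 := (abs_le.mp (hJq 0 n)).1
    have j1 := (abs_le.mp (hJq 1 n)).1
    rw [← hR] at j0 j1 m1
    have m8 : (dfc c F T hT R : ℝ) = Real.circleAverage (lmT c T hT) 0 R
        - c.cnt (fun z => (nuT c F T hT z : ℤ)) R := rfl
    rw [m1, m2]
    have m9 : (e : ℝ) * dfc c F T hT R = e * Real.circleAverage (lmT c T hT) 0 R
        - e * c.cnt (fun z => (nuT c F T hT z : ℤ)) R := by rw [m8]; ring
    linarith
  have step2 : Le (fun n => c.ch (r.s n)) (fun n => 2 * (k * (e * dfc c F T hT (r.s n))))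
      (fun n => 2 * (L * e * B n)) := by
    have g1 := Le.mul hTT (a := 2 * (k * e)) (by positivity) hB
    refine Le.trans (Le.of_le hTT fun n => le_of_eq (by ring)) (Le.trans g1
      (Le.of_le hTT fun n => ?_))
    have g2 : (k : ℝ) * e * B n ≤ L * e * B n :=
      mul_le_mul_of_nonneg_right (mul_le_mul_of_nonneg_right hkLr he0) (hB0 n)
    linarith
  have step3 := Le.mul hTT (a := 2) (by norm_num) key
  refine Le.trans step1 ?_
  intro δ hδ
  filter_upwards [step2 (δ / 2) (by linarith), step3 (δ / 2) (by linarith)] with n g2 g3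
  have c1 := bad_cnt_nonneg a_cnt a_ord c (r.s n)
  have c2 : 0 ≤ ∑ φ ∈ Φ, c.ht φ (r.s n) := Finset.sum_nonneg fun φ _ => ht_nonneg a_ht r n φ
  have hw0 : (0 : ℝ) ≤ w := Nat.cast_nonneg w
  have hkw : (k : ℝ) * w ≤ L * w := mul_le_mul_of_nonneg_right hkLr hw0
  have hkk : (k : ℝ) ^ 2 ≤ (L : ℝ) ^ 2 := pow_le_pow_left₀ hk0 hkLr 2
  have e1 := mul_le_mul_of_nonneg_right hkw c2
  have e2 := mul_le_mul_of_nonneg_right (add_le_add hkw hkk) c1
  linarith

end Pool.Agent.Y192.OG.E
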