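import Pool.Agent.Y192.OG.C3

/-!
Finite covers of subvarieties of tori: uniform control of the functions, simple zeros.
-/

set_option autoImplicit false

namespace Pool.Agent.Y192.OG.E

open Filter Metric Set Topology Pool.Agent.W603.BP

variable {N : ℕ}

section cover

variable {R : Type} [CommRing R] [Algebra ℂ R] (j : Lau N →ₐ[ℂ] R) (f : Lau N) (k : ℕ) {s : ℕ}
  (h : Fin s → R)

/-- a lift of a curve to the cover -/
structure Lf (c : Curve N) (η : R →ₐ[ℂ] c.Mr) : Prop where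
  ext : ∀ g, η (j g) = c.ev g
  zer : ∀ i, ∀ z ∈ c.U, c.ord z (c.ev f) = 1 → ((k : ℤ) : WithTop ℤ) ≤ c.ord z (η (h i))

/-- uniform control of a function on the cover -/
def UC (Γ : Submodule ℤ (Fin N → ℤ)) (T : Finset (Fin N → ℤ)) (hT : T.Nonempty) (e : ℕ)
    (A : R) : Prop :=
  ∃ (Φ : Finset (Fin N → ℤ)) (w : ℕ), (∀ φ ∈ Φ, φ ∈ Γ) ∧
    ∀ (c : Curve N) (η : R →ₐ[ℂ] c.Mr), c.ev f ≠ 0 → Lf j f k h c η → ∀ r : Rad c (c.ev f),
      Ctl r (η A) (fun z => e * lmT c T hT z) (fun z => e * nuT c (c.ev f) T hT z) Φ w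

variable {j f k h} {Γ : Submodule ℤ (Fin N → ℤ)} {T : Finset (Fin N → ℤ)} {hT : T.Nonempty}

theorem UC.add {e : ℕ} {A B : R} (hA : UC j f k h Γ T hT e A) (hB : UC j f k h Γ T hT e B) :
    UC j f k h Γ T hT e (A + B) := by
  classical
  obtain ⟨Φ, w, a1, a2⟩ := hA
  obtain ⟨Φ', w', b1, b2⟩ := hB
  refine ⟨Φ ∪ Φ', max w w', fun φ hφ => (Finset.mem_union.mp hφ).elim (a1 φ) (b1 φ), ?_⟩
  intro c η hf0 hη r
  rw [map_add]
  exact (a_ctl N c _ r _).2.2.2.2.2.2.1 _ _ _ _ _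
    (ctl_mono (a2 c η hf0 hη r) Finset.subset_union_left (le_max_left _ _))
    (ctl_mono (b2 c η hf0 hη r) Finset.subset_union_right (le_max_right _ _))

theorem UC.mul {e e' : ℕ} {A B : R} (hA : UC j f k h Γ T hT e A)
    (hB : UC j f k h Γ T hT e' B) : UC j f k h Γ T hT (e + e') (A * B) := by
  classical
  obtain ⟨Φ, w, a1, a2⟩ := hA
  obtain ⟨Φ', w', b1, b2⟩ := hB
  refine ⟨Φ ∪ Φ', w + w', fun φ hφ => (Finset.mem_union.mp hφ).elim (a1 φ) (b1 φ), ?_⟩
  intro c η hf0 hη r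
  rw [map_mul]
  have h1 := (a_ctl N c _ r _).2.2.2.2.2.1 _ _ _ _ _ _ _ _
    (ctl_mono (a2 c η hf0 hη r) (Finset.subset_union_left (s₂ := Φ')) le_rfl)
    (ctl_mono (b2 c η hf0 hη r) (Finset.subset_union_right (s₁ := Φ)) le_rfl)
  refine ctl_weak 0 h1 (Finset.Subset.refl _) le_rfl (fun z _ => ?_) fun z _ => ?_
  · push_cast
    linarith
  · push_cast
    linarith

theorem UC.const (x : ℂ) : UC j f k h Γ T hT 0 (algebraMap ℂ R x) := by
  refine ⟨∅, 0, by simp, fun c η hf0 hη r => ?_⟩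
  rw [AlgHom.commutes]
  refine ctl_weak 0 ((a_ctl N c _ r ∅).2.2.2.1 x) (Finset.Subset.refl _) le_rfl (fun z _ => ?_)
    fun z _ => ?_
  · simp
  · simp

theorem UC.mon {φ : Fin N → ℤ} (hφ : φ ∈ Γ) :
    UC j f k h Γ T hT 0 (j (AddMonoidAlgebra.single φ 1)) := by
  refine ⟨{φ}, 1, by simpa using hφ, fun c η hf0 hη r => ?_⟩
  rw [hη.ext, c.ev_single, one_smul]
  refine ctl_weak 0 ((a_ctl N c _ r {φ}).2.1 φ (by simp)) (Finset.Subset.refl _) le_rfl
    (fun z _ => ?_) fun z _ => ?_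
  · simp
  · simp

theorem UC.pow {e : ℕ} {A : R} (hA : UC j f k h Γ T hT e A) (n : ℕ) :
    UC j f k h Γ T hT (e * n) (A ^ n) := by
  induction n with
  | zero =>
    have := UC.const (j := j) (f := f) (k := k) (h := h) (Γ := Γ) (T := T) (hT := hT) 1
    rw [map_one] at this
    simpa using this
  | succ n ih =>
    rw [pow_succ]
    have := UC.mul ih hA
    rwa [show e * n + e = e * (n + 1) by ring] at this

theorem UC.root {I : Ideal (Lau N)} {Γ₀ : Submodule ℤ (Fin N → ℤ)} {i : Fin s} {d : ℕ}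
    {a : ℕ → Lau N} (hrel : h i ^ d + ∑ l ∈ Finset.Icc 1 d, j (a l) * h i ^ (d - l) = 0)
    (hle : Γ₀ ≤ Γ) (ha : ∀ l ∈ Finset.Icc 1 d, ∀ m ∈ (a l).coeff.support, InPol I f Γ₀ (l * k) m)
    (hT' : ∀ t, comp Γ₀ (Γ₀.mkQ t) f ∉ I → ∃ τ ∈ T, t - τ ∈ Γ) :
    UC j f k h Γ T hT k (h i) := by
  classical
  have hd : ∀ l ∈ Finset.Icc 1 d, ∃ Φ : Finset (Fin N → ℤ), (∀ φ ∈ Φ, φ ∈ Γ) ∧
      ∀ (c : Curve N) (F : c.Mr) (r : Rad c F), Ctl r (c.ev (a l))
        (fun z => ((l * k : ℕ) : ℝ) * lmT c T hT z) (fun z => ((l * k : ℕ) : ℤ) * dT c T hT z) Φ 1 := by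
    intro l hl
    refine ctl_dom (a l) fun m hm => ?_
    obtain ⟨p, hp, t, ht, hpm⟩ := ha l hl m hm
    exact domE_of hT hp t (fun l' => hT' _ (ht l')) (hle hpm)
  choose! Φ hΦ1 hΦ2 using hd
  refine ⟨(Finset.Icc 1 d).biUnion Φ, 1, ?_, ?_⟩
  · intro φ hφ
    obtain ⟨l, hl, hφ⟩ := Finset.mem_biUnion.mp hφ
    exact hΦ1 l hl φ hφ
  · intro c η hf0 hη r
    refine ctl_zr ?_ fun z hz h0 => hη.zer i z hz h0
    refine a_root N c _ r _ 1 d (η (h i)) (fun l => c.ev (a l)) _ _ ?_ fun l hl => ?_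
    · have := congrArg η hrel
      rw [map_add, map_pow, map_sum, map_zero] at this
      rw [← this]
      congr 1
      refine Finset.sum_congr rfl fun l _ => ?_
      rw [map_mul, map_pow, hη.ext]
    · have hl1 := (Finset.mem_Icc.mp hl).1
      refine ctl_weak 0 (hΦ2 l hl c _ r) (Finset.subset_biUnion_of_mem Φ hl) (by omega)
        (fun z _ => ?_) fun z _ => ?_
      · push_cast
        linarith
      · push_cast
        linarith

theorem UC.fn {b : ℕ} {bt : Fin b → Fin N → ℤ} {S : Finset (Fin b →₀ ℕ)}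
    {pp : (Fin b →₀ ℕ) → Lau N} {m0 : Fin N → ℤ}
    (hpp : ∀ β ∈ S, ∀ m ∈ (pp β).coeff.support, m ∈ Γ)
    (hrel : AddMonoidAlgebra.single m0 (1 : ℂ) * f
          - ∑ β ∈ S, pp β * AddMonoidAlgebra.single (∑ j, (β j : ℤ) • bt j) (1 : ℂ)
            ∈ RingHom.ker j)
    (hTS : ∀ β ∈ S, mb bt β - m0 ∈ T) : UC j f k h Γ T hT 1 (j f) := by
  classical
  refine ⟨S.biUnion fun β => (pp β).coeff.support, 1, ?_, ?_⟩
  · intro φ hφ
    obtain ⟨β, hβ, hφ⟩ := Finset.mem_biUnion.mp hφ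
    exact hpp β hβ φ hφ
  · intro c η hf0 hη r
    rw [hη.ext]
    refine ctl_zr ?_ fun z hz h0 => le_of_eq (by rw [h0]; rfl)
    set Φ := S.biUnion fun β => (pp β).coeff.support with hΦ
    obtain ⟨h1, h2, h3, h4, h5, h6, h7, h8, h9⟩ := a_ctl N c (c.ev f) r Φ
    have hvan : ∀ g ∈ RingHom.ker j, c.ev g = 0 := by
      intro g hg
      rw [← hη.ext, (RingHom.mem_ker).mp hg, map_zero]
    have hev := Ph_eval c bt S pp hvan hrel
    have hF : c.ev f = ∑ β ∈ S, c.ev (pp β) * c.mon (mb bt β - m0) := by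
      have e1 := hev.1.symm.trans hev.2
      have e2 := congrArg (fun y => c.mon (-m0) * y) e1
      rw [← mul_assoc, ← c.mon_add, neg_add_cancel, c.mon_zero, one_mul] at e2
      rw [e2, Finset.mul_sum]
      refine Finset.sum_congr rfl fun β _ => ?_
      rw [sub_eq_add_neg, c.mon_add]
      ring
    have hterm : ∀ β ∈ S, Ctl r (c.ev (pp β) * c.mon (mb bt β - m0))
        (fun z => ((1 : ℕ) : ℝ) * lmT c T hT z) (fun z => ((1 : ℕ) : ℤ) * dT c T hT z) Φ 1 := by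
      intro β hβ
      have g1 := h6 _ _ _ _ _ _ _ _ (ctl_pp a_ctl r Φ (pp β) fun m hm =>
        Finset.mem_biUnion.mpr ⟨β, hβ, hm⟩) (h1 (mb bt β - m0))
      refine ctl_weak 0 g1 (Finset.Subset.refl _) le_rfl (fun z _ => ?_) fun z _ => ?_
      · have := le_lmT (c := c) (hT := hT) (hTS β hβ) z
        push_cast
        linarith
      · have := dT_le (c := c) (hT := hT) (hTS β hβ) z
        push_cast
        linarith
    have key : ∀ s : Finset (Fin b →₀ ℕ), s ⊆ S →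
        Ctl r (∑ β ∈ s, c.ev (pp β) * c.mon (mb bt β - m0))
        (fun z => ((1 : ℕ) : ℝ) * lmT c T hT z) (fun z => ((1 : ℕ) : ℤ) * dT c T hT z) Φ 1 := by
      intro s
      induction s using Finset.induction_on with
      | empty =>
        intro _
        rw [Finset.sum_empty]
        refine ⟨⟨0, le_rfl, fun n z hz y hy => ?_⟩, fun z hz => ?_⟩
        · rw [zero_mul, zero_mul]
          have : c.val 0 y = 0 := by
            have := c.val_smul 0 (0 : c.Mr) y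
            rw [zero_smul, zero_mul] at this
            exact this
          rw [this, norm_zero]
        · rw [ord_zero]
          exact le_top
      | insert m s hm ih =>
        intro hs
        rw [Finset.sum_insert hm]
        exact h7 _ _ _ _ _ (hterm m (hs (Finset.mem_insert_self _ _)))
          (ih fun x hx => hs (Finset.mem_insert_of_mem hx))
    have := key S (Finset.Subset.refl _)
    rw [← hF] at this
    exact this

end cover

end Pool.Agent.Y192.OG.E
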