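import Pool.Agent.Y192.OG.D1

/-!
Places of the function fields of varieties over tori.
-/

set_option autoImplicit false
set_option linter.unusedSectionVars false

namespace Pool.Agent.Y192.OG

open FF MvPolynomial Pool.Agent.W603.LV Pool.Agent.W602.GT Pool.Agent.TH122.AB

variable {N : ℕ} {K : Type} [Field K] [Algebra ℂ K]

/-- the data of a variety over a torus: a splitting of the group of exponents, and the rational
function field generated by the monomials outside of `Γ` over the field `F0 x Γ` -/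
structure Cx (x : Fin N → Kˣ) (Γ : Submodule ℤ (Fin N → ℤ)) {b : ℕ} (bt : Fin b → Fin N → ℤ)
    (co : (Fin N → ℤ) →+ (Fin b → ℤ)) (F : IntermediateField (F0 x Γ) K) (X : Fin b → F) :
    Prop where
  splt : Splt Γ bt co
  hom : ∀ g ∈ RingHom.ker (ep x), ∀ q, comp Γ q g ∈ RingHom.ker (ep x)
  val : ∀ j, (X j : K) = (xm x (bt j) : K)
  gens : Gens (k := F0 x Γ) X
  mon : ∀ m, ∃ c : F0 x Γ, c ≠ 0 ∧ (xm x m : K) = (c : K) * ∏ j, (xm x (bt j) : K) ^ co m j
  fin : FiniteDimensional F K

variable {x : Fin N → Kˣ} {Γ : Submodule ℤ (Fin N → ℤ)} {b : ℕ} {bt : Fin b → Fin N → ℤ}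
  {co : (Fin N → ℤ) →+ (Fin b → ℤ)} {F : IntermediateField (F0 x Γ) K} {X : Fin b → F}

theorem Cx.aev (h : Cx x Γ bt co F X) (a : MvPolynomial (Fin b) (F0 x Γ)) :
    algebraMap F K (aeval X a) = aeval (fun j => (xm x (bt j) : K)) a := by
  have h1 := (MvPolynomial.aeval_algebraMap_apply K X a).symm
  have h2 : (fun j => algebraMap F K (X j)) = fun j => (xm x (bt j) : K) := funext h.val
  rw [← h2]
  exact h1

theorem Cx.adic0 {p : MvPolynomial (Fin b) (F0 x Γ)} (hp : Irreducible p)
    (hpX : ∀ i, ¬ (MvPolynomial.X i ∣ p)) {q : Place (F0 x Γ) F} (hq : IsAdic X p q) (j : Fin b) :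
    q.ord (X j) = 0 := by
  have h1 := (hq.2 (MvPolynomial.X j) (MvPolynomial.X_ne_zero j)).2
  rw [aeval_X] at h1
  rw [h1]
  intro hd
  have h2 : Irreducible (MvPolynomial.X j : MvPolynomial (Fin b) (F0 x Γ)) :=
    MvPolynomial.X_prime.irreducible
  exact hpX j ((hp.associated_of_dvd h2 hd).symm.dvd)

theorem Cx.ord_xm' (h : Cx x Γ bt co F X) {P : Place (F0 x Γ) K}
    (hP : ∀ j, P.ord (X j : K) = 0) (m : Fin N → ℤ) : P.ord (xm x m : K) = 0 := by
  obtain ⟨c, hc, hm⟩ := h.mon m
  have hne : ∀ j, (xm x (bt j) : K) ^ co m j ≠ 0 := fun j => zpow_ne_zero _ (Units.ne_zero _)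
  have hc' : (c : K) ≠ 0 := fun h0 => hc (Subtype.ext h0)
  have hc0 : P.ord (c : K) = 0 := P.ord_const hc
  rw [hm, P.ord_mul hc' (Finset.prod_ne_zero_iff.2 fun j _ => hne j), hc0, zero_add,
    Pool.Agent.Y500.OG.ord_prod P _ _ fun j _ => hne j]
  refine Finset.sum_eq_zero fun j _ => ?_
  rw [P.ord_zpow, ← h.val j, hP j, mul_zero]

theorem Cx.over0 {p : MvPolynomial (Fin b) (F0 x Γ)} (hp : Irreducible p)
    (hpX : ∀ i, ¬ (MvPolynomial.X i ∣ p)) {q : Place (F0 x Γ) F} (hq : IsAdic X p q)
    {P : Place (F0 x Γ) K} {e : ℕ} (hP : Over P q e) (j : Fin b) : P.ord (X j : K) = 0 := by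
  have h1 := hP.2 (X j)
  rw [Cx.adic0 hp hpX hq j, mul_zero] at h1
  exact h1

theorem Cx.reg_ep (h : Cx x Γ bt co F X) {P : Place (F0 x Γ) K}
    (hP : ∀ j, P.ord (X j : K) = 0) (g : AddMonoidAlgebra ℂ (Fin N → ℤ)) :
    P.Reg (ep x g) := by
  induction g using AddMonoidAlgebra.induction_linear with
  | zero =>
    rw [map_zero]
    exact P.reg_zero
  | add f g hf hg =>
    rw [map_add]
    exact P.reg_add hf hg
  | single m a =>
    rw [ep_single, Algebra.smul_def]
    refine P.reg_mul ?_ (Or.inr (h.ord_xm' hP m).ge)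
    have := P.reg_const (algebraMap ℂ (F0 x Γ) a)
    exact this

theorem Cx.reg_poly {P : Place (F0 x Γ) K} {q : Place (F0 x Γ) F}
    {p : MvPolynomial (Fin b) (F0 x Γ)} (hq : IsAdic X p q) {e : ℕ} (hP : Over P q e)
    (a : MvPolynomial (Fin b) (F0 x Γ)) : P.Reg (algebraMap F K (aeval X a)) := by
  rw [hP.reg]
  by_cases ha : a = 0
  · rw [ha, map_zero]
    exact q.reg_zero
  · exact Or.inr (hq.2 a ha).1

/-- the exponents of the equations -/
theorem Cx.inpol (h : Cx x Γ bt co F X) (h_conv : St_conv) (h_comp : St_comp)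
    {ft : AddMonoidAlgebra ℂ (Fin N → ℤ)} {g : F0 x Γ} {f1 : MvPolynomial (Fin b) (F0 x Γ)}
    (hg : g ≠ 0) (hf1 : f1 ≠ 0)
    (hft : ep x ft = (g : K) * aeval (fun j => (xm x (bt j) : K)) f1) {e : ℕ} (he : 1 ≤ e)
    {m : Fin N → ℤ}
    (hm : ∀ w : Fin b → ℤ, ∃ t ∈ f1.support, (e : ℤ) * tw w t ≤ ∑ i, w i * co m i) :
    InPol (RingHom.ker (ep x)) ft Γ e m := by
  classical
  set T : Finset (Fin b → ℤ) := f1.support.image fun t j => (t j : ℤ) with hT
  have hTne : T.Nonempty := (MvPolynomial.support_nonempty.mpr hf1).image _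
  obtain ⟨p, hp, t, ht1, ht2⟩ := h_conv b T (co m) e hTne he (by
    intro w
    obtain ⟨t, ht, hle⟩ := hm w
    exact ⟨_, Finset.mem_image_of_mem _ ht, hle⟩)
  refine ⟨p, hp, fun l => Pool.Agent.Y809.OG.tt bt (t l), fun l => ?_, ?_⟩
  · obtain ⟨c, hc, hct⟩ := Finset.mem_image.mp (ht1 l)
    refine h_comp N K x Γ b bt co h.splt h.hom ft g f1 hg hft _ ⟨c, hc, ?_⟩
    rw [Pool.Agent.Y809.OG.co_tt h.splt]
    exact hct.symm
  · rw [← h.splt.ker, map_sub, map_zsmul, map_sum, ht2, sub_eq_zero]
    refine Finset.sum_congr rfl fun l _ => ?_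
    rw [Pool.Agent.Y809.OG.co_tt h.splt]

/-- a denominator for finitely many functions -/
theorem Cx.poles (h : Cx x Γ bt co F X) {t : ℕ} (ψ : Fin t → K) :
    ∃ A : MvPolynomial (Fin b) (F0 x Γ), A ≠ 0 ∧ ∀ P : Place (F0 x Γ) K,
      (∀ a : MvPolynomial (Fin b) (F0 x Γ), P.Reg (algebraMap F K (aeval X a))) →
      P.ord (algebraMap F K (aeval X A)) = 0 → ∀ i, P.Reg (ψ i) := by
  classical
  haveI := h.fin
  haveI : CharZero (F0 x Γ) := charZero_of_injective_algebraMap (algebraMap ℂ (F0 x Γ)).injective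
  set Z : Fin b → K := fun j => (xm x (bt j) : K) with hZ
  have hbasis : IsTranscendenceBasis (F0 x Γ) Z := by
    have hind : AlgebraicIndependent (F0 x Γ) Z := by
      refine (injective_iff_map_eq_zero _).2 fun P hP => ?_
      apply (injective_iff_map_eq_zero _).1 h.gens.ind
      apply (algebraMap F K).injective
      change algebraMap F K (aeval X P) = algebraMap F K 0
      rw [h.aev, map_zero]
      exact hP
    rw [hind.isTranscendenceBasis_iff_isAlgebraic]
    refine ⟨fun z => ?_⟩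
    have hF : ∀ y : F, IsAlgebraic (Algebra.adjoin (F0 x Γ) (Set.range Z)) (y : K) := by
      intro y
      obtain ⟨A, B, hB, hy⟩ := h.gens.gen y
      have hmem : ∀ a : MvPolynomial (Fin b) (F0 x Γ),
          aeval Z a ∈ Algebra.adjoin (F0 x Γ) (Set.range Z) := by
        intro a
        rw [Algebra.adjoin_range_eq_range_aeval]
        exact ⟨a, rfl⟩
      have hB' : aeval Z B ≠ 0 := by
        rw [← h.aev]
        intro h0
        exact h.gens.ne hB ((map_eq_zero _).mp h0)
      have hy' : (y : K) = aeval Z A / aeval Z B := by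
        have h1 := congrArg (algebraMap F K) hy
        rw [map_div₀, h.aev, h.aev] at h1
        exact h1
      rw [hy']
      refine ⟨Polynomial.C ⟨aeval Z B, hmem B⟩ * Polynomial.X - Polynomial.C ⟨aeval Z A, hmem A⟩,
        ?_, ?_⟩
      · intro h0
        have h1 := congrArg (fun p => Polynomial.coeff p 1) h0
        simp at h1
        exact hB' (congrArg Subtype.val h1)
      · simp only [map_sub, map_mul, Polynomial.aeval_C, Polynomial.aeval_X]
        change aeval Z B * (aeval Z A / aeval Z B) - aeval Z A = 0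
        field_simp
        ring
    haveI : Algebra.IsAlgebraic F K := inferInstance
    have hz := Algebra.IsAlgebraic.isAlgebraic (R := F) z
    -- transitivity
    let E := algebraicClosure (IntermediateField.adjoin (F0 x Γ) (Set.range Z)) K
    have hFE : ∀ y : F, IsAlgebraic (IntermediateField.adjoin (F0 x Γ) (Set.range Z)) (y : K) := by
      intro y
      let φ : Algebra.adjoin (F0 x Γ) (Set.range Z) →+*
          IntermediateField.adjoin (F0 x Γ) (Set.range Z) :=
        { toFun := fun y => ⟨(y : K), IntermediateField.algebra_adjoin_le_adjoin (F0 x Γ)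
            (Set.range Z) y.2⟩
          map_one' := rfl
          map_zero' := rfl
          map_add' := fun _ _ => rfl
          map_mul' := fun _ _ => rfl }
      exact alg_of φ (fun a b hab => Subtype.ext (by
        have h1 := congrArg Subtype.val hab
        exact h1)) (fun a => rfl) (hF y)
    have hzE : IsAlgebraic (IntermediateField.adjoin (F0 x Γ) (Set.range Z)) z := by
      have h1 : IsAlgebraic E z := by
        let φ : F →+* E :=
          { toFun := fun y => ⟨(y : K), (mem_algebraicClosure_iff).2 (hFE y)⟩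
            map_one' := rfl
            map_zero' := rfl
            map_add' := fun _ _ => rfl
            map_mul' := fun _ _ => rfl }
        exact alg_of φ φ.injective (fun a => rfl) hz
      haveI : Algebra.IsAlgebraic (IntermediateField.adjoin (F0 x Γ) (Set.range Z)) E :=
        algebraicClosure.isAlgebraic _ _
      exact h1.restrictScalars _
    open scoped IntermediateField.algebraAdjoinAdjoin in
    exact (IsFractionRing.isAlgebraic_iff (Algebra.adjoin (F0 x Γ) (Set.range Z))
      (IntermediateField.adjoin (F0 x Γ) (Set.range Z)) K).2 hzE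
  choose Q hQ0 hQ using fun i => exists_mult hbasis (ψ i)
  refine ⟨∏ i, Q i, Finset.prod_ne_zero_iff.2 fun i _ => hQ0 i, fun P hP h0 i => ?_⟩
  have hne : ∀ i, algebraMap F K (aeval X (Q i)) ≠ 0 := by
    intro i h1
    exact h.gens.ne (hQ0 i) ((map_eq_zero _).mp h1)
  have hnn : ∀ i, 0 ≤ P.ord (algebraMap F K (aeval X (Q i))) := fun i =>
    (hP (Q i)).resolve_left (hne i)
  rw [map_prod, map_prod, Pool.Agent.Y500.OG.ord_prod P _ _ fun i _ => hne i] at h0
  have h1 := (Finset.sum_eq_zero_iff_of_nonneg fun i _ => hnn i).1 h0 i (Finset.mem_univ i)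
  have h2 : P.Reg (aeval Z (Q i) * ψ i) :=
    reg_of_int (fun a => by rw [← h.aev]; exact hP a) (hQ i)
  have h3 : aeval Z (Q i) = algebraMap F K (aeval X (Q i)) := (h.aev _).symm
  rw [h3] at h2
  have h4 : ψ i = (algebraMap F K (aeval X (Q i)))⁻¹ * (algebraMap F K (aeval X (Q i)) * ψ i) := by
    rw [← mul_assoc, inv_mul_cancel₀ (hne i), one_mul]
  rw [h4]
  exact P.reg_mul (Or.inr (by rw [P.ord_inv, h1, neg_zero])) h2

end Pool.Agent.Y192.OG
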