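import Pool.Agent.Y192.OG.D3

/-!
The data attached to a variety of log general type over a torus.
-/

set_option autoImplicit false
set_option linter.unusedSectionVars false

namespace Pool.Agent.Y192.OG

open FF MvPolynomial Pool.Agent.W603.LV Pool.Agent.W602.GT Pool.Agent.TH122.AB

variable {N : ℕ} {K : Type} [Field K] [Algebra ℂ K]
  {x : Fin N → Kˣ} {Γ : Submodule ℤ (Fin N → ℤ)} {b : ℕ} {bt : Fin b → Fin N → ℤ}
  {co : (Fin N → ℤ) →+ (Fin b → ℤ)} {F : IntermediateField (F0 x Γ) K} {X : Fin b → F}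

/-- scaling a polynomial so that it lifts to a Laurent polynomial -/
theorem Cx.scale (h : Cx x Γ bt co F X) (h_lift : St_lift) (f0 : MvPolynomial (Fin b) (F0 x Γ)) :
    ∃ (f : MvPolynomial (Fin b) (F0 x Γ)) (A : AddMonoidAlgebra ℂ (Fin N → ℤ)),
      f ∣ f0 ∧ f0 ∣ f ∧ ep x A = aeval (fun j => (xm x (bt j) : K)) f := by
  obtain ⟨g, hg1, hg2, hg3⟩ := h_lift N K x Γ b bt co h.splt {f0}
  obtain ⟨A, hA, -⟩ := hg3 f0 (Finset.mem_singleton_self _)
  set c : F0 x Γ := ⟨ep x g, ep_mem hg1⟩ with hc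
  have hc0 : c ≠ 0 := fun h0 => hg2 (congrArg Subtype.val h0)
  refine ⟨C c * f0, A, ⟨C c⁻¹, ?_⟩, Dvd.intro_left _ rfl, ?_⟩
  · rw [mul_comm (C c * f0), ← mul_assoc, ← C_mul, inv_mul_cancel₀ hc0, C_1, one_mul]
  · rw [hA, map_mul, aeval_C]
    rfl

/-- the functions on a variety of log general type -/
theorem Cx.regs (h : Cx x Γ bt co F X) (h_forms : St_forms) (h_sqp : St_sqp) (hb : 1 ≤ b)
    (d : ℕ) (G : K)
    (hlgt : LogGeneralType ℂ K d (fun P => (∃ i, P.ord (x i : K) ≠ 0) ∨ P.ord G = 1)) :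
    ∃ (κ : ℕ) (ψ : Fin (d + 1) → K) (f0 : MvPolynomial (Fin b) (F0 x Γ)), 1 ≤ κ ∧
      (∀ z : K, IsAlgebraic (IntermediateField.adjoin ℂ (Set.range ψ)) z) ∧
      f0 ≠ 0 ∧ Squarefree f0 ∧ (∀ i, ¬ (MvPolynomial.X i ∣ f0)) ∧
      (∀ f1 : MvPolynomial (Fin b) (F0 x Γ), f0 ∣ f1 →
        ∀ p : MvPolynomial (Fin b) (F0 x Γ), Irreducible p → (∀ i, ¬ (MvPolynomial.X i ∣ p)) →
        ∀ q : Place (F0 x Γ) F, IsAdic X p q → ∀ (P : Place (F0 x Γ) K) (e : ℕ), Over P q e →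
          ∀ i, P.Reg (ψ i * algebraMap F K (aeval X f1) ^ κ)) ∧
      (∀ p : MvPolynomial (Fin b) (F0 x Γ), Irreducible p → (∀ i, ¬ (MvPolynomial.X i ∣ p)) →
        ∀ q : Place (F0 x Γ) F, IsAdic X p q → ∀ (P : Place (F0 x Γ) K) (e : ℕ), Over P q e →
          e = 1 → P.ord G ≠ 1 → ∀ i, P.Reg (ψ i)) ∧
      (∀ w : Fin b → ℤ, Prim w → ∀ q : Place (F0 x Γ) F, IsTor X w q →
        ∀ (P : Place (F0 x Γ) K) (e : ℕ), Over P q e → ∀ i, P.Reg (ψ i)) := by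
  haveI := h.fin
  haveI : CharZero (F0 x Γ) := charZero_of_injective_algebraMap (algebraMap ℂ (F0 x Γ)).injective
  obtain ⟨κ, ψ, hκ, hψalg, hψ1, hψ2⟩ := h_forms (F0 x Γ) F K b d X hb h.gens
    (fun P => (∃ i, P.ord (x i : K) ≠ 0) ∨ P.ord G = 1) G (by
      rintro P hP hG (⟨i, hi⟩ | h1)
      · apply hi
        have := h.ord_xm' (P := P) hP (Pi.single i 1)
        rw [xm_single] at this
        exact this
      · exact hG h1) hlgt
  obtain ⟨A, hA0, hA⟩ := h.poles ψ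
  obtain ⟨f0, M, hf0, hsq, hX, hfA, hAf⟩ := h_sqp (F0 x Γ) b A hA0
  refine ⟨κ, ψ, f0, hκ, hψalg, hf0, hsq, hX, ?_, ?_, hψ2⟩
  · intro f1 hf1 p hp hpX q hq P e hP i
    by_cases hpA : p ∣ A
    · have h1 : p ∣ f0 * ∏ i, MvPolynomial.X i := hp.prime.dvd_of_dvd_pow (hpA.trans hAf)
      have h2 : p ∣ f0 := by
        rcases hp.prime.dvd_or_dvd h1 with h2 | h2
        · exact h2
        · exfalso
          obtain ⟨j, -, hj⟩ := (hp.prime.dvd_finsetProd_iff _).1 h2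
          exact hpX j ((hp.associated_of_dvd MvPolynomial.X_prime.irreducible hj).symm.dvd)
      obtain ⟨t, ht⟩ := h2.trans hf1
      rw [ht, map_mul, map_mul, mul_pow, ← mul_assoc]
      refine P.reg_mul (hψ1 p hp hpX q hq P e hP i).1 ?_
      rw [← map_pow, ← map_pow]
      exact Cx.reg_poly hq hP _
    · have h3 : P.ord (algebraMap F K (aeval X A)) = 0 := by
        rw [hP.2, (hq.2 A hA0).2.2 hpA, mul_zero]
      refine P.reg_mul (hA P (fun a => Cx.reg_poly hq hP a) h3 i) ?_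
      rw [← map_pow, ← map_pow]
      exact Cx.reg_poly hq hP _
  · intro p hp hpX q hq P e hP he hG i
    exact (hψ1 p hp hpX q hq P e hP i).2 he hG

end Pool.Agent.Y192.OG
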