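import Pool.Agent.Y192.OG.D4

/-!
The data attached to a variety of log general type over a torus.
-/

set_option autoImplicit false
set_option linter.unusedSectionVars false

namespace Pool.Agent.Y192.OG

open FF MvPolynomial Pool.Agent.W603.LV Pool.Agent.W602.GT Pool.Agent.TH122.AB

variable {N : ℕ} {K : Type} [Field K] [Algebra ℂ K]
  {x : Fin N → Kˣ} {Γ : Submodule ℤ (Fin N → ℤ)} {b : ℕ} {bt : Fin b → Fin N → ℤ}
  {co : (Fin N → ℤ) →+ (Fin b → ℤ)} {F : IntermediateField (F0 x Γ) K} {X : Fin b → F}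

theorem zne (x : Fin N → Kˣ) (bt : Fin b → Fin N → ℤ) (M : ℕ) :
    (∏ j, (xm x (bt j) : K)) ^ M ≠ 0 :=
  pow_ne_zero _ (Finset.prod_ne_zero_iff.2 fun j _ => Units.ne_zero _)

theorem Cx.prodX (h : Cx x Γ bt co F X) (M : ℕ) :
    algebraMap F K ((∏ i, X i) ^ M) = (∏ j, (xm x (bt j) : K)) ^ M := by
  rw [map_pow, map_prod]
  congr 1
  exact Finset.prod_congr rfl fun j _ => h.val j

/-- the equation with coefficients in the ring of Laurent polynomials -/
theorem Cx.eqL (h : Cx x Γ bt co F X) {f : MvPolynomial (Fin b) (F0 x Γ)} {κ D M : ℕ} {ψ : K}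
    {c : ℕ → F} {a : ℕ → MvPolynomial (Fin b) (F0 x Γ)} {g : AddMonoidAlgebra ℂ (Fin N → ℤ)}
    {A : ℕ → AddMonoidAlgebra ℂ (Fin N → ℤ)}
    (h1 : ψ ^ D + ∑ l ∈ Finset.Icc 1 D, algebraMap F K (c l) * ψ ^ (D - l) = 0)
    (h2 : ∀ l ∈ Finset.Icc 1 D, aeval X f ^ (κ * l) * c l * (∏ i, X i) ^ M = aeval X (a l))
    (h3 : ∀ l ∈ Finset.Icc 1 D, ep x (A l) = ep x g * aeval (fun j => (xm x (bt j) : K)) (a l))
    {r : ℕ} (hr : 1 ≤ r) {u : K}
    (hu : u = ep x g ^ r * aeval (fun j => (xm x (bt j) : K)) f ^ κ) :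
    (u * ψ) ^ D + ∑ l ∈ Finset.Icc 1 D, ep x (La bt g (A l) (r * l - 1) M)
      * (u * ψ) ^ (D - l) = 0 := by
  rw [← eq_scale D (fun l => algebraMap F K (c l)) ψ u h1]
  congr 1
  refine Finset.sum_congr rfl fun l hl => ?_
  congr 1
  have hl1 := (Finset.mem_Icc.mp hl).1
  have hrl : r * l - 1 + 1 = r * l := Nat.sub_add_cancel (Nat.mul_pos hr hl1)
  have h4 := congrArg (algebraMap F K) (h2 l hl)
  rw [map_mul, map_mul, map_pow, h.aev, h.aev, h.prodX] at h4
  rw [La_ep (h3 l hl), hrl, ← h4, hu, mul_pow, ← pow_mul, ← pow_mul]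
  have h5 := zne x bt M
  field_simp

/-- integrality of the functions with bounded poles -/
theorem Cx.int7 (h : Cx x Γ bt co F X) {f : MvPolynomial (Fin b) (F0 x Γ)} {κ D M : ℕ} {ψ : K}
    {c : ℕ → F} {a : ℕ → MvPolynomial (Fin b) (F0 x Γ)} {g : AddMonoidAlgebra ℂ (Fin N → ℤ)}
    {A : ℕ → AddMonoidAlgebra ℂ (Fin N → ℤ)}
    (h1 : ψ ^ D + ∑ l ∈ Finset.Icc 1 D, algebraMap F K (c l) * ψ ^ (D - l) = 0)
    (h2 : ∀ l ∈ Finset.Icc 1 D, aeval X f ^ (κ * l) * c l * (∏ i, X i) ^ M = aeval X (a l))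
    (h3 : ∀ l ∈ Finset.Icc 1 D, ep x (A l) = ep x g * aeval (fun j => (xm x (bt j) : K)) (a l)) :
    (ep x : AddMonoidAlgebra ℂ (Fin N → ℤ) →+* K).IsIntegralElem
      (aeval (fun j => (xm x (bt j) : K)) f ^ κ * ep x g * ψ) :=
  intElem_of_eq _ D (fun l => La bt g (A l) (1 * l - 1) M) _
    (h.eqL h1 h2 h3 le_rfl (by rw [pow_one, mul_comm]))

/-- integrality of functions with bounded denominators -/
theorem Cx.int8 (h : Cx x Γ bt co F X) {s s' u : MvPolynomial (Fin b) (F0 x Γ)} {M D : ℕ} {z : K}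
    {a : ℕ → MvPolynomial (Fin b) (F0 x Γ)} {g : AddMonoidAlgebra ℂ (Fin N → ℤ)}
    {A : ℕ → AddMonoidAlgebra ℂ (Fin N → ℤ)} (hsu : (s' * ∏ i, MvPolynomial.X i) ^ M = s * u)
    (h1 : (algebraMap F K (aeval X s) * z) ^ D + ∑ l ∈ Finset.Icc 1 D,
      algebraMap F K (aeval X (a l)) * (algebraMap F K (aeval X s) * z) ^ (D - l) = 0)
    (h3 : ∀ l ∈ Finset.Icc 1 D, ep x (A l)
      = ep x g * aeval (fun j => (xm x (bt j) : K)) (u ^ l * a l)) :
    (ep x : AddMonoidAlgebra ℂ (Fin N → ℤ) →+* K).IsIntegralElem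
      (ep x g * aeval (fun j => (xm x (bt j) : K)) s' ^ M * z) := by
  have h4 := eq_scale D _ _ (ep x g * algebraMap F K (aeval X u)) h1
  have h5 : (ep x : AddMonoidAlgebra ℂ (Fin N → ℤ) →+* K).IsIntegralElem
      (ep x g * algebraMap F K (aeval X u) * (algebraMap F K (aeval X s) * z)) := by
    refine intElem_of_eq _ D (fun l => g ^ (l - 1) * A l) _ ?_
    rw [← h4]
    congr 1
    refine Finset.sum_congr rfl fun l hl => ?_
    congr 1
    have hl1 := (Finset.mem_Icc.mp hl).1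
    change ep x (g ^ (l - 1) * A l) = _
    rw [map_mul, map_pow, h3 l hl, map_mul, map_pow, h.aev, h.aev, mul_pow]
    have e : ep x g ^ l = ep x g ^ (l - 1) * ep x g := by
      rw [← pow_succ, Nat.sub_add_cancel hl1]
    rw [e]
    ring
  have h6 : (ep x : AddMonoidAlgebra ℂ (Fin N → ℤ) →+* K).IsIntegralElem
      (((∏ j, (xm x (bt j) : K)) ^ M)⁻¹) := by
    have h7 := La_ep (bt := bt) (x := x) (Γ := Γ) (g := 1) (A := 1) (a := 1)
      (by rw [map_one, map_one, mul_one]) 0 M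
    rw [map_one, one_pow, map_one, one_mul, one_mul] at h7
    rw [← h7]
    exact (ep x : AddMonoidAlgebra ℂ (Fin N → ℤ) →+* K).isIntegralElem_map
  have h8 := h5.mul _ h6
  have h9 := congrArg (fun y => algebraMap F K (aeval X y)) hsu
  simp only [map_pow, map_mul, map_prod, aeval_X] at h9
  have h10 : ∏ i, algebraMap F K (X i) = ∏ j, (xm x (bt j) : K) :=
    Finset.prod_congr rfl fun j _ => h.val j
  rw [h10, h.aev, mul_pow] at h9
  have e : ep x g * algebraMap F K (aeval X u) * (algebraMap F K (aeval X s) * z)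
      * ((∏ j, (xm x (bt j) : K)) ^ M)⁻¹
      = ep x g * aeval (fun j => (xm x (bt j) : K)) s' ^ M * z := by
    have h11 := zne x bt M
    field_simp
    linear_combination (-ep x g * z) * h9
  rwa [e] at h8

end Pool.Agent.Y192.OG
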