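import Pool.Agent.Y192.OG.D5

/-!
The data attached to a variety of log general type over a torus.
-/

set_option autoImplicit false
set_option linter.unusedSectionVars false

namespace Pool.Agent.Y192.OG

open FF MvPolynomial Pool.Agent.W603.LV Pool.Agent.W602.GT Pool.Agent.TH122.AB

variable {N : ℕ} {K : Type} [Field K] [Algebra ℂ K]
  {x : Fin N → Kˣ} {Γ : Submodule ℤ (Fin N → ℤ)} {b : ℕ} {bt : Fin b → Fin N → ℤ}
  {co : (Fin N → ℤ) →+ (Fin b → ℤ)} {F : IntermediateField (F0 x Γ) K} {X : Fin b → F}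

/-- the equation of a function -/
structure Eqn (x : Fin N → Kˣ) (Γ : Submodule ℤ (Fin N → ℤ)) (bt : Fin b → Fin N → ℤ)
    (co : (Fin N → ℤ) →+ (Fin b → ℤ)) (F : IntermediateField (F0 x Γ) K) (X : Fin b → F)
    (g : AddMonoidAlgebra ℂ (Fin N → ℤ)) (f : MvPolynomial (Fin b) (F0 x Γ)) (κ : ℕ) (ψ : K)
    (D M : ℕ) (c : ℕ → F) (a : ℕ → MvPolynomial (Fin b) (F0 x Γ))
    (A : ℕ → AddMonoidAlgebra ℂ (Fin N → ℤ)) : Prop where
  eq : ψ ^ D + ∑ l ∈ Finset.Icc 1 D, algebraMap F K (c l) * ψ ^ (D - l) = 0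
  ce : ∀ l ∈ Finset.Icc 1 D, aeval X f ^ (κ * l) * c l * (∏ i, X i) ^ M = aeval X (a l)
  wt : ∀ l ∈ Finset.Icc 1 D, ∀ w : Fin b → ℤ, ∀ m ∈ (a l).support, ∃ t ∈ f.support,
    ((κ * l : ℕ) : ℤ) * tw w t ≤ tw w m - M * ∑ i, w i
  li : ∀ l ∈ Finset.Icc 1 D, ep x (A l) = ep x g * aeval (fun j => (xm x (bt j) : K)) (a l)
  su : ∀ l ∈ Finset.Icc 1 D, ∀ m ∈ (A l).coeff.support, ∃ c ∈ (a l).support,
    co m = fun j => (c j : ℤ)

theorem Cx.data (h : Cx x Γ bt co F X) (h_lift : St_lift) (h_forms : St_forms)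
    (h_coef : St_coef) (h_den : St_den) (h_val : St_val) (h_sqp : St_sqp) (hb : 1 ≤ b)
    (d : ℕ) (gQ : AddMonoidAlgebra ℂ (Fin N → ℤ)) (hgQ : ep x gQ ≠ 0)
    (hlgt : LogGeneralType ℂ K d
      (fun P => (∃ i, P.ord (x i : K) ≠ 0) ∨ P.ord (ep x gQ) = 1)) :
    ∃ (κ : ℕ) (ψ : Fin (d + 1) → K) (f s : MvPolynomial (Fin b) (F0 x Γ))
      (A1 A2 g : AddMonoidAlgebra ℂ (Fin N → ℤ)) (M1 : ℕ) (Z : Finset K), 1 ≤ κ ∧
      (∀ z : K, IsAlgebraic (IntermediateField.adjoin ℂ (Set.range ψ)) z) ∧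
      f * s ≠ 0 ∧ Squarefree (f * s) ∧
      ep x A1 = aeval (fun j => (xm x (bt j) : K)) f ∧
      ep x A2 = aeval (fun j => (xm x (bt j) : K)) s ∧
      (∀ m ∈ g.coeff.support, m ∈ Γ) ∧ ep x g ≠ 0 ∧
      (∀ i, ∃ D M c a A, Eqn x Γ bt co F X g (f * s) κ (ψ i) D M c a A) ∧
      (∀ i, (ep x : AddMonoidAlgebra ℂ (Fin N → ℤ) →+* K).IsIntegralElem
        (ep x A1 ^ κ * ep x g * ψ i)) ∧
      (∀ z ∈ Z, (ep x : AddMonoidAlgebra ℂ (Fin N → ℤ) →+* K).IsIntegralElem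
        (ep x g * ep x A2 ^ M1 * z)) ∧
      ∀ (R : Subring K) (v : R → WithTop ℤ), IsV v → ∀ (W fr Gr g1 : R) (h : Fin (d + 1) → R),
        (∀ z ∈ Z, (W : K) * z ∈ R) → (fr : K) = ep x A1 → (Gr : K) = ep x gQ →
        (∀ i, (h i : K) = (fr : K) ^ κ * (g1 : K) * ψ i) → v W = 0 → v fr = 1 → v Gr ≠ 1 →
        ∀ i, ((κ : ℤ) : WithTop ℤ) ≤ v (h i) := by
  classical
  haveI := h.fin
  haveI : CharZero (F0 x Γ) := charZero_of_injective_algebraMap (algebraMap ℂ (F0 x Γ)).injective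
  obtain ⟨κ, ψ, f0, hκ, hψalg, hf0, hsq, hX, hr1, hr2, hr3⟩ :=
    h.regs h_forms h_sqp hb d (ep x gQ) hlgt
  obtain ⟨f, A1, hff0, hf0f, hA1⟩ := h.scale h_lift f0
  have hf : f ≠ 0 := by
    rintro rfl
    exact hf0 (zero_dvd_iff.mp hff0)
  have hfsq : Squarefree f := hsq.squarefree_of_dvd hff0
  have hfX : ∀ p : MvPolynomial (Fin b) (F0 x Γ), Irreducible p → p ∣ f →
      ∀ i, ¬ (MvPolynomial.X i ∣ p) := fun p _ hpf i hi => hX i ((hi.trans hpf).trans hff0)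
  -- the auxiliary functions
  obtain ⟨Z, hZ1, hZ2⟩ := h_val (F0 x Γ) F K b X h.gens f hf hfsq (ep x gQ) hgQ
    (fun p hp hpf q hq P e hP => h.reg_ep (Cx.over0 hp (hfX p hp hpf) hq hP) gQ)
    κ (d + 1) ψ (fun p hp hpf q hq P e hP he hG => hr2 p hp (hfX p hp hpf) q hq P e hP he hG)
  have hden := fun z (hz : z ∈ Z) => h_den (F0 x Γ) F K b X h.gens f hf z (hZ1 z hz)
  choose! sz hsz0 hszf Dz az hz using hden
  set s1 : MvPolynomial (Fin b) (F0 x Γ) := ∏ z ∈ Z, sz z with hs1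
  have hs10 : s1 ≠ 0 := Finset.prod_ne_zero_iff.2 fun z hz => hsz0 z hz
  have hs1f : IsRelPrime s1 f := IsRelPrime.prod_left fun z hz => hszf z hz
  obtain ⟨s0, M1, hs00, hs0sq, -, hs0s1, hs1s0⟩ := h_sqp (F0 x Γ) b s1 hs10
  obtain ⟨s, A2, hss0, hs0s, hA2⟩ := h.scale h_lift s0
  have hs : s ≠ 0 := by
    rintro rfl
    exact hs00 (zero_dvd_iff.mp hss0)
  have hssq : Squarefree s := hs0sq.squarefree_of_dvd hss0
  have hfs : IsRelPrime f s := (hs1f.of_dvd_left (hss0.trans hs0s1)).symm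
  have hfssq : Squarefree (f * s) := squarefree_mul_iff.2 ⟨hfs, hfsq, hssq⟩
  have hfs0 : f * s ≠ 0 := mul_ne_zero hf hs
  -- the equations
  have hc1 := fun i => h_coef (F0 x Γ) F K b X h.gens (f * s) κ (ψ i) hfs0
    (fun p hp hpX q hq P e hP => hr1 (f * s) (hf0f.trans (Dvd.intro _ rfl)) p hp hpX q hq P e hP i)
    (fun w hw q hq P e hP => hr3 w hw q hq P e hP i)
  have hc2 := fun i => h_coef (F0 x Γ) F K b X h.gens f κ (ψ i) hf
    (fun p hp hpX q hq P e hP => hr1 f hf0f p hp hpX q hq P e hP i)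
    (fun w hw q hq P e hP => hr3 w hw q hq P e hP i)
  choose D1 N1 c1 a1 h11 h12 using hc1
  choose D2 N2 c2 a2 h21 h22 using hc2
  -- the denominators
  have hu : ∀ z ∈ Z, ∃ u, (s * ∏ i, MvPolynomial.X i) ^ M1 = sz z * u := by
    intro z hz
    have e1 : sz z ∣ s1 := Finset.dvd_prod_of_mem _ hz
    have e2 : (s0 * ∏ i, MvPolynomial.X i) ^ M1 ∣ (s * ∏ i, MvPolynomial.X i) ^ M1 :=
      pow_dvd_pow_of_dvd (mul_dvd_mul_right hs0s _) M1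
    exact (e1.trans hs1s0).trans e2
  choose! uz huz using hu
  -- common denominators
  set S : Finset (MvPolynomial (Fin b) (F0 x Γ)) :=
    (Finset.univ.biUnion fun i => (Finset.Icc 1 (D1 i)).image (a1 i)) ∪
    ((Finset.univ.biUnion fun i => (Finset.Icc 1 (D2 i)).image (a2 i)) ∪
      Z.biUnion fun z => (Finset.Icc 1 (Dz z)).image fun l => uz z ^ l * az z l) with hS
  obtain ⟨g, hg1, hg2, hg3⟩ := h_lift N K x Γ b bt co h.splt S
  have hS1 : ∀ i, ∀ l ∈ Finset.Icc 1 (D1 i), a1 i l ∈ S := fun i l hl =>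
    Finset.mem_union_left _ (Finset.mem_biUnion.2 ⟨i, Finset.mem_univ i,
      Finset.mem_image_of_mem _ hl⟩)
  have hS2 : ∀ i, ∀ l ∈ Finset.Icc 1 (D2 i), a2 i l ∈ S := fun i l hl =>
    Finset.mem_union_right _ (Finset.mem_union_left _ (Finset.mem_biUnion.2 ⟨i, Finset.mem_univ i,
      Finset.mem_image_of_mem _ hl⟩))
  have hS3 : ∀ z ∈ Z, ∀ l ∈ Finset.Icc 1 (Dz z), uz z ^ l * az z l ∈ S := fun z hz l hl =>
    Finset.mem_union_right _ (Finset.mem_union_right _ (Finset.mem_biUnion.2 ⟨z, hz,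
      Finset.mem_image_of_mem (fun l => uz z ^ l * az z l) hl⟩))
  choose! Al hAl1 hAl2 using hg3
  refine ⟨κ, ψ, f, s, A1, A2, g, M1, Z, hκ, hψalg, hfs0, hfssq, hA1, hA2, hg1, hg2, ?_, ?_, ?_, ?_⟩
  · intro i
    refine ⟨D1 i, N1 i, c1 i, a1 i, fun l => Al (a1 i l), h11 i, fun l hl => (h12 i l hl).1,
      fun l hl => (h12 i l hl).2, fun l hl => hAl1 _ (hS1 i l hl),
      fun l hl => hAl2 _ (hS1 i l hl)⟩
  · intro i
    rw [hA1]
    exact h.int7 (h21 i) (fun l hl => (h22 i l hl).1) (fun l hl => hAl1 _ (hS2 i l hl))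
  · intro z hzZ
    rw [hA2]
    exact h.int8 (huz z hzZ) (hz z hzZ) (fun l hl => hAl1 _ (hS3 z hzZ l hl))
  · intro R v hv W fr Gr g1 hh e1 e2 e3 e4 e5 e6 e7
    exact hZ2 R v hv W fr Gr g1 hh e1 (by rw [e2, hA1, h.aev]) e3 e4 e5 e6 e7

end Pool.Agent.Y192.OG
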