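import Pool.Agent.Y192.OG.D6
import Pool.Agent.Y32.OG.Val

/-!
The data attached to a variety of log general type over a torus.
-/

set_option autoImplicit false
set_option linter.unusedSectionVars false

namespace Pool.Agent.Y192.OG

open FF MvPolynomial Pool.Agent.W603.LV Pool.Agent.W602.GT Pool.Agent.TH122.AB

variable {N : ℕ} {K : Type} [Field K] [Algebra ℂ K]

theorem three_one {a b c : WithTop ℤ} (ha : 0 ≤ a) (hb : 0 ≤ b) (hc : 0 ≤ c)
    (h : a + b + c = 1) : (a = 1 ∧ b = 0 ∧ c = 0) ∨ b + c = 1 := by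
  have ha' : a ≠ ⊤ := by
    rintro rfl
    rw [top_add, top_add] at h
    exact absurd h (by decide)
  have hb' : b ≠ ⊤ := by
    rintro rfl
    rw [add_top, top_add] at h
    exact absurd h (by decide)
  have hc' : c ≠ ⊤ := by
    rintro rfl
    rw [add_top] at h
    exact absurd h (by decide)
  lift a to ℤ using ha'
  lift b to ℤ using hb'
  lift c to ℤ using hc'
  have ha0 : (0 : ℤ) ≤ a := by exact_mod_cast ha
  have hb0 : (0 : ℤ) ≤ b := by exact_mod_cast hb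
  have hc0 : (0 : ℤ) ≤ c := by exact_mod_cast hc
  have h0 : a + b + c = 1 := by exact_mod_cast h
  by_cases h1 : a = 1
  · left
    have hb1 : b = 0 := by omega
    have hc1 : c = 0 := by omega
    subst h1 hb1 hc1
    exact ⟨rfl, rfl, rfl⟩
  · right
    have h2 : b + c = 1 := by omega
    exact_mod_cast h2

/-- the trivial case -/
theorem alg_zero (x : Fin N → Kˣ) (gQ : AddMonoidAlgebra ℂ (Fin N → ℤ))
    (hleast : ∀ Γ : Submodule ℤ (Fin N → ℤ), Sat Γ →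
      (∀ g ∈ RingHom.ker (ep x), ∀ q, comp Γ q g ∈ RingHom.ker (ep x)) → ⊤ ≤ Γ)
    (hom : ∀ g ∈ RingHom.ker (ep x), ∀ q, comp (⊤ : Submodule ℤ (Fin N → ℤ)) q g
      ∈ RingHom.ker (ep x)) :
    ∃ (R : Subalgebra ℂ K) (j : Lau N →ₐ[ℂ] R) (f : Lau N) (κ s : ℕ) (h : Fin s → R)
      (Γ₀ : Submodule ℤ (Fin N → ℤ)),
      R.FG ∧ (∀ g, (j g : K) = ep x g) ∧ (j : Lau N →+* R).IsIntegral ∧ j f ≠ 0 ∧
      GR (RingHom.ker j) f Γ₀ ∧
      (∀ Γ : Submodule ℤ (Fin N → ℤ), Sat Γ →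
        (∀ g ∈ RingHom.ker j, ∀ q, comp Γ q g ∈ RingHom.ker j) → Γ₀ ≤ Γ) ∧
      (∀ g ∈ RingHom.ker j, ∀ q, comp Γ₀ q g ∈ RingHom.ker j) ∧
      (∀ i, ∃ (d : ℕ) (a : ℕ → Lau N),
        h i ^ d + ∑ l ∈ Finset.Icc 1 d, j (a l) * h i ^ (d - l) = 0 ∧
        ∀ l ∈ Finset.Icc 1 d, ∀ m ∈ (a l).coeff.support, InPol (RingHom.ker j) f Γ₀ (l * κ) m) ∧
      (∀ i : Fin N, IsAlgebraic (Algebra.adjoin ℂ (E.Gn K j f κ h Γ₀)) (x i : K)) ∧
      ∀ v : R → WithTop ℤ, IsV v → v (j f) = 1 → v (j gQ) ≠ 1 →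
        ∀ i, ((κ : ℤ) : WithTop ℤ) ≤ v (h i) := by
  obtain ⟨R, j, hR1, -, hR3, hR4⟩ := mkR x ∅ (by simp)
  have hker : RingHom.ker j = RingHom.ker (ep x) := by
    ext g
    rw [RingHom.mem_ker, RingHom.mem_ker, ← hR3]
    constructor
    · intro h
      rw [h]
      rfl
    · intro h
      exact Subtype.ext h
  have hprime : (RingHom.ker (ep x)).IsPrime := RingHom.ker_isPrime _
  refine ⟨R, j, 1, 1, 0, Fin.elim0, ⊤, hR1, hR3, hR4, ?_, ?_, ?_, ?_, fun i => i.elim0, ?_,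
    fun v _ _ _ i => i.elim0⟩
  · rw [map_one]
    intro h
    have h1 := congrArg Subtype.val h
    exact one_ne_zero (α := K) h1
  · rw [hker]
    intro u hu
    refine ⟨1, fun h => hprime.ne_top ((Ideal.eq_top_iff_one _).2 h), fun m _ => trivial, ?_⟩
    rw [Ideal.span_singleton_one, sup_top_eq]
    trivial
  · rw [hker]
    exact hleast
  · rw [hker]
    exact hom
  · intro i
    have h1 : (x i : K) ∈ Algebra.adjoin ℂ (E.Gn K j (1 : Lau N) 1 Fin.elim0 ⊤) := by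
      refine Algebra.subset_adjoin (Or.inr ⟨Pi.single i 1, trivial, ?_⟩)
      change (x i : K) = (j _ : K)
      rw [hR3, ep_single_one, xm_single]
    exact isAlgebraic_algebraMap
      (⟨(x i : K), h1⟩ : Algebra.adjoin ℂ (E.Gn K j (1 : Lau N) 1 Fin.elim0 ⊤))

end Pool.Agent.Y192.OG
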