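import Pool.Agent.Y192.OG.D7

/-!
The data attached to a variety of log general type over a torus.
-/

set_option autoImplicit false
set_option linter.unusedSectionVars false

namespace Pool.Agent.Y192.OG

open FF MvPolynomial Pool.Agent.W603.LV Pool.Agent.W602.GT Pool.Agent.TH122.AB

variable {N : ℕ} {K : Type} [Field K] [Algebra ℂ K]

/-- the coordinates are algebraic over the functions with bounded poles -/
theorem alg_coord {x : Fin N → Kˣ} {Γ : Submodule ℤ (Fin N → ℤ)} {R : Subalgebra ℂ K}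
    {j : Lau N →ₐ[ℂ] R} (hj : ∀ g, (j g : K) = ep x g) {ft g : Lau N} {κ s : ℕ} {h : Fin s → R}
    {ψ : Fin s → K} (hft : ep x ft ≠ 0) (hg : ∀ m ∈ g.coeff.support, m ∈ Γ) (hg0 : ep x g ≠ 0)
    (hh : ∀ i, (h i : K) = ep x ft ^ κ * ep x g * ψ i)
    {z : K} (hz : IsAlgebraic (IntermediateField.adjoin ℂ (Set.range ψ)) z) :
    IsAlgebraic (Algebra.adjoin ℂ (E.Gn K j ft κ h Γ)) z := by
  set S := E.Gn K j ft κ h Γ with hS
  have hle : IntermediateField.adjoin ℂ (Set.range ψ) ≤ IntermediateField.adjoin ℂ S := by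
    rw [IntermediateField.adjoin_le_iff]
    rintro _ ⟨i, rfl⟩
    have h1 : ep x g * ψ i ∈ IntermediateField.adjoin ℂ S := by
      refine IntermediateField.subset_adjoin _ _ (Or.inl ⟨i, ?_⟩)
      change (h i : K) / (j ft : K) ^ κ = _
      rw [hh, hj]
      field_simp
    have h2 : F0 x Γ ≤ IntermediateField.adjoin ℂ S := by
      unfold F0
      rw [IntermediateField.adjoin_le_iff]
      rintro _ ⟨γ, hγ, rfl⟩
      refine IntermediateField.subset_adjoin _ _ (Or.inr ⟨γ, hγ, ?_⟩)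
      change _ = (j _ : K)
      rw [hj, ep_single_one]
    have h3 : ep x g ∈ IntermediateField.adjoin ℂ S := h2 (ep_mem hg)
    have h4 : ψ i = (ep x g * ψ i) / ep x g := by field_simp
    change ψ i ∈ IntermediateField.adjoin ℂ S
    rw [h4]
    exact (IntermediateField.adjoin ℂ S).div_mem h1 h3
  let φ : IntermediateField.adjoin ℂ (Set.range ψ) →+* IntermediateField.adjoin ℂ S :=
    { toFun := fun a => ⟨a.1, hle a.2⟩
      map_one' := rfl
      map_zero' := rfl
      map_add' := fun _ _ => rfl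
      map_mul' := fun _ _ => rfl }
  have h5 : IsAlgebraic (IntermediateField.adjoin ℂ S) z := alg_of φ φ.injective (fun a => rfl) hz
  open scoped IntermediateField.algebraAdjoinAdjoin in
  exact (IsFractionRing.isAlgebraic_iff (Algebra.adjoin ℂ S)
    (IntermediateField.adjoin ℂ S) K).2 h5

theorem t_alg (h_least : St_least) (h_split : St_split) (h_lift : St_lift) (h_comp : St_comp)
    (h_gr : St_gr) (h_conv : St_conv) (h_forms : St_forms) (h_coef : St_coef) (h_den : St_den)
    (h_val : St_val) (h_sqp : St_sqp) : St_alg := by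
  classical
  intro K _ _ _ n d x gQ hgQ halg hlgt
  obtain ⟨Γ, hsat, hom, hleast⟩ := h_least n (RingHom.ker (ep x))
  obtain ⟨b, bt, co, co1, co2⟩ := Pool.Agent.Y833.OG.basis_exists Γ hsat
  have hS : Splt Γ bt co := ⟨co1, co2⟩
  rcases Nat.eq_zero_or_pos b with hb | hb
  · subst hb
    have htop : Γ = ⊤ := by
      rw [eq_top_iff]
      intro m _
      rw [← co1]
      exact Subsingleton.elim _ _
    rw [htop] at hom hleast
    exact alg_zero x gQ hleast hom
  obtain ⟨F, X, hX1, hX2, hX3⟩ := fld h_split x Γ hS hom halg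
  have h : Cx x Γ bt co F X := ⟨hS, hom, hX1, hX2, splt_xm h_split hS hom, hX3⟩
  obtain ⟨κ, ψ, f, s, A1, A2, g, M1, Z, hκ, hψ, hfs0, hfssq, hA1, hA2, hg1, hg0, he, hi1, hi2, hv⟩ :=
    h.data h_lift h_forms h_coef h_den h_val h_sqp hb d gQ hgQ hlgt
  obtain ⟨R, j, hR1, hR2, hR3, hR4⟩ := mkR x
    ((Finset.univ.image fun i => ep x A1 ^ κ * ep x g * ψ i) ∪
      Z.image fun z => ep x g * ep x A2 ^ M1 * z) (by
    intro z hz
    rcases Finset.mem_union.mp hz with hz | hz
    · obtain ⟨i, -, rfl⟩ := Finset.mem_image.mp hz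
      exact hi1 i
    · obtain ⟨y, hy, rfl⟩ := Finset.mem_image.mp hz
      exact hi2 y hy)
  have hker : RingHom.ker j = RingHom.ker (ep x) := by
    ext g
    rw [RingHom.mem_ker, RingHom.mem_ker, ← hR3]
    constructor
    · intro h
      rw [h]
      rfl
    · intro h
      exact Subtype.ext h
  set c : F0 x Γ := ⟨ep x g, ep_mem hg1⟩ with hc
  have hc0 : c ≠ 0 := fun h0 => hg0 (congrArg Subtype.val h0)
  -- the function
  set ft : Lau n := A1 * A2 * g with hft
  have hfte : ep x ft = (c : K) * aeval (fun j => (xm x (bt j) : K)) (f * s) := by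
    rw [hft, map_mul, map_mul, hA1, hA2, map_mul]
    change _ = ep x g * _
    ring
  have hft0 : ep x ft ≠ 0 := by
    rw [hfte, ← h.aev]
    refine mul_ne_zero hg0 ?_
    rw [Ne, map_eq_zero]
    exact h.gens.ne hfs0
  let hp : Fin (d + 1) → R := fun i => ⟨ep x A1 ^ κ * ep x g * ψ i,
    hR2 _ (Finset.mem_union_left _ (Finset.mem_image_of_mem _ (Finset.mem_univ i)))⟩
  let hh : Fin (d + 1) → R := fun i => (j A2 * j g) ^ κ * hp i
  have hhv : ∀ i, (hh i : K) = ep x ft ^ κ * ep x g * ψ i := by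
    intro i
    change ((j A2 : K) * (j g : K)) ^ κ * (ep x A1 ^ κ * ep x g * ψ i) = _
    rw [hR3, hR3, hft, map_mul, map_mul]
    ring
  refine ⟨R, j, ft, κ, d + 1, hh, Γ, hR1, hR3, hR4, ?_, ?_, ?_, ?_, ?_, ?_, ?_⟩
  · intro h0
    apply hft0
    rw [← hR3, h0]
    rfl
  · rw [hker]
    exact h_gr n K x Γ b bt co hS hom ft c (f * s) hc0 hfs0 hfssq hfte
  · rw [hker]
    exact hleast
  · rw [hker]
    exact hom
  · intro i
    obtain ⟨D, M, cc, a, A, hE⟩ := he i
    refine ⟨D, fun l => La bt g (A l) ((κ + 1) * l - 1) M, ?_, ?_⟩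
    · have h1 := h.eqL hE.eq hE.ce hE.li (r := κ + 1) (by omega)
        (u := ep x ft ^ κ * ep x g) (by
          rw [hfte]
          change (ep x g * _) ^ κ * ep x g = _
          ring)
      apply Subtype.ext
      rw [AddMemClass.coe_add, SubmonoidClass.coe_pow, AddSubmonoidClass.coe_finsetSum, hhv]
      change _ = (0 : K)
      rw [← h1]
      congr 1
      refine Finset.sum_congr rfl fun l _ => ?_
      rw [MulMemClass.coe_mul, SubmonoidClass.coe_pow, hhv, hR3]
    · intro l hl m hm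
      rw [hker]
      obtain ⟨c', hc', hw⟩ := La_supp hS hg1 (hE.su l hl) _ _ m hm
      have hl1 := (Finset.mem_Icc.mp hl).1
      refine h.inpol h_conv h_comp hc0 hfs0 hfte (Nat.mul_pos hl1 hκ) fun w => ?_
      obtain ⟨t, ht1, ht2⟩ := hE.wt l hl w c' hc'
      refine ⟨t, ht1, ?_⟩
      rw [hw w, mul_comm l κ]
      exact ht2
  · intro i
    exact alg_coord hR3 hft0 hg1 hg0 hhv (hψ (x i : K))
  · intro v hv1 hv2 hv3 i
    have h1 : v (j A1) + v (j A2) + v (j g) = 1 := by
      rw [← hv1.mul, ← hv1.mul, ← map_mul, ← map_mul]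
      exact hv2
    have h2 : v (hh i) = κ • (v (j A2) + v (j g)) + v (hp i) := by
      rw [hv1.mul, Pool.Agent.Y32.OG.pow_v hv1, hv1.mul]
    rw [h2]
    rcases three_one (hv1.nonneg _) (hv1.nonneg _) (hv1.nonneg _) h1 with ⟨e1, e2, e3⟩ | e
    · rw [e2, e3, add_zero, smul_zero, zero_add]
      refine hv R.toSubring (fun r => v ⟨r.1, r.2⟩) ?_ (⟨(j g * j A2 ^ M1 : R), Subtype.property _⟩)
        ⟨(j A1 : K), (j A1).2⟩ ⟨(j gQ : K), (j gQ).2⟩ ⟨(j g : K), (j g).2⟩
        (fun i => ⟨(hp i : K), (hp i).2⟩) ?_ (hR3 A1) (hR3 gQ) ?_ ?_ ?_ ?_ i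
      · exact ⟨hv1.one, fun a b => hv1.mul ⟨a.1, a.2⟩ ⟨b.1, b.2⟩,
          fun a b => hv1.add ⟨a.1, a.2⟩ ⟨b.1, b.2⟩, fun a => hv1.nonneg ⟨a.1, a.2⟩⟩
      · intro z hz
        have := hR2 _ (Finset.mem_union_right _ (Finset.mem_image_of_mem
          (fun z => ep x g * ep x A2 ^ M1 * z) hz))
        change ((j g : K) * (j A2 : K) ^ M1) * z ∈ R
        rw [hR3, hR3]
        exact this
      · intro i
        change ep x A1 ^ κ * ep x g * ψ i = (j A1 : K) ^ κ * (j g : K) * ψ i
        rw [hR3, hR3]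
      · change v (j g * j A2 ^ M1) = 0
        rw [hv1.mul, Pool.Agent.Y32.OG.pow_v hv1, e2, e3, smul_zero, add_zero]
      · exact e1
      · exact hv3
    · rw [e]
      have h3 : ∀ κ : ℕ, κ • (1 : WithTop ℤ) = ((κ : ℤ) : WithTop ℤ) := by
        intro κ
        induction κ with
        | zero =>
          rw [zero_smul]
          rfl
        | succ κ ih =>
          rw [succ_nsmul, ih]
          rfl
      rw [h3]
      exact le_add_of_nonneg_right (hv1.nonneg _)

end Pool.Agent.Y192.OG
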