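import Pool.Agent.Y192.OG.D8

/-!
The theorem for quasi-projective varieties over a variety of log general type which is finite over
a subvariety of a torus.
-/

set_option autoImplicit false
set_option linter.unusedSectionVars false

namespace Pool.Agent.Y192.OG

open FF MvPolynomial Metric Pool.Agent.W603.LV Pool.Agent.W602.GT Pool.Agent.TH122.AB
open Pool.Agent.W602.Cov.R Pool.Agent.TH152.HY

theorem aeval_scale {K : Type} [Field K] [Algebra ℂ K] {n q : ℕ}
    {Q : MvPolynomial (Fin (n + 1)) ℂ} (hQ : Q.IsHomogeneous q) (t : K) (y : Fin (n + 1) → K) :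
    aeval (fun i => t * y i) Q = t ^ q * aeval y Q := by
  rw [aeval_def, eval₂_eq', aeval_def, eval₂_eq', Finset.mul_sum]
  refine Finset.sum_congr rfl fun c hc => ?_
  have h1 : ∑ i, c i = q := by
    have h2 := hQ (mem_support_iff.mp hc)
    rw [Finsupp.weight_apply, Finsupp.sum_fintype _ _ (by simp)] at h2
    simpa using h2
  have h3 : ∏ i, (t * y i) ^ c i = t ^ q * ∏ i, y i ^ c i := by
    rw [← h1, ← Finset.prod_pow_eq_pow_sum, ← Finset.prod_mul_distrib]
    exact Finset.prod_congr rfl fun i _ => mul_pow _ _ _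
  rw [h3]
  ring

theorem thmE (h_alg : St_alg) (h_geo : St_geo) (h_gen : St_gen)
    (K : Type) [Field K] [Algebra ℂ K] [Algebra.EssFiniteType ℂ K] (n d q : ℕ)
    (y : Fin (n + 1) → K) (hy : ∀ i, y i ≠ 0) (Q : MvPolynomial (Fin (n + 1)) ℂ)
    (hQ : Q.IsHomogeneous q) (hQy : aeval y Q ≠ 0) (hd : 0 < d)
    (halg : ∀ z : K, IsAlgebraic (IntermediateField.adjoin ℂ (Set.range fun i => y i / y 0)) z)
    (hlgt : LogGeneralType ℂ K d (fun P => (∃ i, P.ord (y i) ≠ P.ord (y 0)) ∨
      P.ord (aeval y Q / y 0 ^ q) = 1)) :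
    ∃ m : ℕ, ∀ (N : ℕ) (X D : BiSet N n), OrbOff X D Q q m →
      ∀ (L : Type) [Field L] [Algebra ℂ L] (a : Fin (N + 1) → L) (b : Fin (n + 1) → L),
      X.FunctionField L a b → ¬ D.Mem a b →
      Algebra.IsAlgebraic
        (IntermediateField.adjoin ℂ {f : L | ∃ i j, b j ≠ 0 ∧ f = b i / b j}) L →
      ∀ σ : K →ₐ[ℂ] L, (∀ i j, σ (y i) * b j = σ (y j) * b i) →
      LogGeneralType ℂ L d (CentreIn D a b) ∧
      ∃ (B : BiPoly N n) (E E' : ℕ), BiHom B E E' ∧
        (∃ u v, QMem X D u v ∧ eval (Sum.elim u v) B ≠ 0) ∧ PicardOff X D B ∧ BrodyOff X D B := by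
  classical
  -- the units
  let x : Fin n → Kˣ := fun i => Units.mk0 (y i.succ / y 0) (div_ne_zero (hy _) (hy 0))
  have hx : ∀ i, (x i : K) = y i.succ / y 0 := fun i => rfl
  obtain ⟨gQ, hgQ⟩ : ∃ gQ : Lau n, gQ = aeval (Fin.cons (α := fun _ => Lau n) 1
      (fun i => AddMonoidAlgebra.single (Pi.single i 1) (1 : ℂ))) Q := ⟨_, rfl⟩
  have hgQe : ep x gQ = aeval y Q / y 0 ^ q := by
    have h1 : ep x gQ = aeval (fun i => (y 0)⁻¹ * y i) Q := by
      rw [hgQ, ← AlgHom.comp_apply, MvPolynomial.comp_aeval]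
      congr 2
      funext i
      refine Fin.cases ?_ (fun i => ?_) i
      · simp only [Fin.cons_zero]
        rw [map_one, inv_mul_cancel₀ (hy 0)]
      · simp only [Fin.cons_succ]
        rw [ep_single_one, xm_single, hx, mul_comm, div_eq_mul_inv]
    rw [h1, aeval_scale hQ, inv_pow, mul_comm, div_eq_mul_inv]
  have hgQ0 : ep x gQ ≠ 0 := by
    rw [hgQe]
    exact div_ne_zero hQy (pow_ne_zero _ (hy 0))
  have halg' : ∀ z : K, IsAlgebraic (IntermediateField.adjoin ℂ
      (Set.range fun i => (x i : K))) z := by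
    intro z
    have hle : IntermediateField.adjoin ℂ (Set.range fun i => y i / y 0)
        ≤ IntermediateField.adjoin ℂ (Set.range fun i => (x i : K)) := by
      rw [IntermediateField.adjoin_le_iff]
      rintro _ ⟨i, rfl⟩
      refine Fin.cases ?_ (fun i => ?_) i
      · change y 0 / y 0 ∈ _
        rw [div_self (hy 0)]
        exact one_mem _
      · exact IntermediateField.subset_adjoin _ _ ⟨i, rfl⟩
    let φ : IntermediateField.adjoin ℂ (Set.range fun i => y i / y 0) →+*
        IntermediateField.adjoin ℂ (Set.range fun i => (x i : K)) :=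
      { toFun := fun a => ⟨a.1, hle a.2⟩
        map_one' := rfl
        map_zero' := rfl
        map_add' := fun _ _ => rfl
        map_mul' := fun _ _ => rfl }
    exact alg_of φ φ.injective (fun a => rfl) (halg z)
  have hlgt' : LogGeneralType ℂ K d
      (fun P => (∃ i, P.ord (x i : K) ≠ 0) ∨ P.ord (ep x gQ) = 1) := by
    have e : (fun P : Place ℂ K => (∃ i, P.ord (x i : K) ≠ 0) ∨ P.ord (ep x gQ) = 1)
        = fun P : Place ℂ K => (∃ i, P.ord (y i) ≠ P.ord (y 0)) ∨
          P.ord (aeval y Q / y 0 ^ q) = 1 := by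
      funext P
      rw [hgQe]
      have h1 : (∃ i, P.ord (x i : K) ≠ 0) ↔ ∃ i, P.ord (y i) ≠ P.ord (y 0) := by
        constructor
        · rintro ⟨i, hi⟩
          refine ⟨i.succ, fun h => hi ?_⟩
          rw [hx, P.ord_div (hy _) (hy 0), h, sub_self]
        · rintro ⟨i, hi⟩
          revert hi
          refine Fin.cases (fun hi => absurd rfl hi) (fun i hi => ⟨i, fun h => hi ?_⟩) i
          rw [hx, P.ord_div (hy _) (hy 0), sub_eq_zero] at h
          exact h
      rw [h1]
    rw [e]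
    exact hlgt
  obtain ⟨R, j, f, κ, s, h, Γ₀, r1, r2, r3, r4, r5, r6, r7, r8, r9, r10⟩ :=
    h_alg K n d x gQ hgQ0 halg' hlgt'
  have hinj : Function.Injective (algebraMap R K) := Subtype.val_injective
  obtain ⟨μ, G, hG, hcurves⟩ := E.curvesE (K := K) hinj r3 r4 r5 r6 r7 r8 (by
    intro i
    have h1 : algebraMap R K (j (AddMonoidAlgebra.single (Pi.single i 1) 1)) = (x i : K) := by
      change (j _ : K) = _
      rw [r2, ep_single_one, xm_single]
    rw [h1]
    exact r9 i)
  obtain ⟨m0, hm0⟩ := h_gen K n d q y Q hd hy hQ hQy halg hlgt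
  refine ⟨max μ m0, fun N X D hX L _ _ a b hL hD hLa σ hσ => ⟨?_, ?_⟩⟩
  · exact hm0 _ (le_max_right _ _) N X D hX L a b hL hD hLa σ hσ
  · exact h_geo K n q y x Q gQ hy hx hgQ hQ R j f G κ s μ _ h r1 r2 r3 hG r10 hcurves
      (le_max_left _ _) N X D hX L a b hL hD hLa σ hσ

end Pool.Agent.Y192.OG
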