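import Pool.Agent.W603.BP.Tame
import Pool.Agent.Y192.OG.StA

/-!
Curves on the exterior of a disc, the ring of meromorphic functions attached to a curve.
-/

set_option autoImplicit false

namespace Pool.Agent.Y192.OG

open Filter Metric Set Topology Pool.Agent.W603.BP

/-- a holomorphic map from the exterior of a disc to projective space, in homogeneous coordinates
without common zeros, whose image is not contained in a coordinate hyperplane -/
structure Curve (N : ℕ) where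
  r0 : ℝ
  X : Fin (N + 1) → ℂ → ℂ
  hr0 : 1 ≤ r0
  an : ∀ i, AnalyticOnNhd ℂ (X i) (Ext r0)
  ncz : ∀ z ∈ Ext r0, ∃ i, X i z ≠ 0
  nz : ∀ i, ∃ z ∈ Ext r0, X i z ≠ 0

namespace Curve

variable {N : ℕ} (c : Curve N)

theorem r0_pos : 0 < c.r0 := lt_of_lt_of_le one_pos c.hr0

/-- the points where no coordinate vanishes -/
def U : Set ℂ := {z | z ∈ Ext c.r0 ∧ ∀ i, c.X i z ≠ 0}

theorem U_sub : c.U ⊆ Ext c.r0 := fun _ hz => hz.1

theorem U_open : IsOpen c.U := by
  rw [isOpen_iff_mem_nhds]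
  intro z hz
  have h1 : ∀ᶠ w in 𝓝 z, ∀ i, c.X i w ≠ 0 := by
    rw [Filter.eventually_all]
    intro i
    exact (c.an i z hz.1).continuousAt.eventually_ne (hz.2 i)
  filter_upwards [h1, (Ext_open c.r0).mem_nhds hz.1] with w h2 h3
  exact ⟨h3, h2⟩

theorem X_punct (i : Fin (N + 1)) {z : ℂ} (hz : z ∈ Ext c.r0) : ∀ᶠ w in 𝓝[≠] z, c.X i w ≠ 0 := by
  rcases (c.an i z hz).eventually_eq_zero_or_eventually_ne_zero with h | h
  · exfalso
    obtain ⟨w, hw, hne⟩ := c.nz i
    exact hne ((c.an i).eqOn_zero_of_preconnected_of_eventuallyEq_zero (Ext_preconn c.r0_pos) hz h hw)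
  · exact h

theorem U_punct {z : ℂ} (hz : z ∈ Ext c.r0) : ∀ᶠ w in 𝓝[≠] z, w ∈ c.U := by
  have h1 : ∀ᶠ w in 𝓝[≠] z, ∀ i, c.X i w ≠ 0 := by
    rw [Filter.eventually_all]
    exact fun i => c.X_punct i hz
  filter_upwards [h1, nhdsWithin_le_nhds ((Ext_open c.r0).mem_nhds hz)] with w h2 h3
  exact ⟨h3, h2⟩

/-- extension by zero -/
noncomputable def ext (f : c.U → ℂ) : ℂ → ℂ := by
  classical
  exact fun z => if h : z ∈ c.U then f ⟨z, h⟩ else 0

theorem ext_of_mem (f : c.U → ℂ) {z : ℂ} (h : z ∈ c.U) : c.ext f z = f ⟨z, h⟩ := by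
  unfold ext
  rw [dif_pos h]

theorem ext_of_notMem (f : c.U → ℂ) {z : ℂ} (h : z ∉ c.U) : c.ext f z = 0 := by
  unfold ext
  rw [dif_neg h]

theorem ext_add (f g : c.U → ℂ) : c.ext (f + g) = c.ext f + c.ext g := by
  funext z
  by_cases h : z ∈ c.U
  · rw [Pi.add_apply, c.ext_of_mem _ h, c.ext_of_mem _ h, c.ext_of_mem _ h, Pi.add_apply]
  · rw [Pi.add_apply, c.ext_of_notMem _ h, c.ext_of_notMem _ h, c.ext_of_notMem _ h, add_zero]

theorem ext_mul (f g : c.U → ℂ) : c.ext (f * g) = c.ext f * c.ext g := by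
  funext z
  by_cases h : z ∈ c.U
  · rw [Pi.mul_apply, c.ext_of_mem _ h, c.ext_of_mem _ h, c.ext_of_mem _ h, Pi.mul_apply]
  · rw [Pi.mul_apply, c.ext_of_notMem _ h, c.ext_of_notMem _ h, c.ext_of_notMem _ h, mul_zero]

/-- a function on `U` that agrees with a meromorphic function has a meromorphic extension -/
theorem ext_congr {g : ℂ → ℂ} {f : c.U → ℂ} (h : ∀ z : c.U, f z = g z) {z : ℂ}
    (hz : z ∈ Ext c.r0) : c.ext f =ᶠ[𝓝[≠] z] g := by
  filter_upwards [c.U_punct hz] with w hw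
  rw [c.ext_of_mem f hw, h]

theorem ext_congr_nhds {g : ℂ → ℂ} {f : c.U → ℂ} (h : ∀ z : c.U, f z = g z) {z : ℂ}
    (hz : z ∈ c.U) : c.ext f =ᶠ[𝓝 z] g := by
  filter_upwards [c.U_open.mem_nhds hz] with w hw
  rw [c.ext_of_mem f hw, h]

/-- the functions on `U` that are analytic on `U` and meromorphic on the exterior of the disc -/
def Mr : Subalgebra ℂ (c.U → ℂ) where
  carrier := {f | MeromorphicOn (c.ext f) (Ext c.r0) ∧ AnalyticOnNhd ℂ (c.ext f) c.U}
  mul_mem' := by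
    intro f g hf hg
    refine ⟨?_, ?_⟩
    · rw [c.ext_mul]
      exact hf.1.mul hg.1
    · rw [c.ext_mul]
      exact hf.2.mul hg.2
  add_mem' := by
    intro f g hf hg
    refine ⟨?_, ?_⟩
    · rw [c.ext_add]
      exact hf.1.add hg.1
    · rw [c.ext_add]
      exact hf.2.add hg.2
  algebraMap_mem' := by
    intro x
    have h : ∀ z : c.U, (algebraMap ℂ (c.U → ℂ) x) z = (fun _ : ℂ => x) z := fun z => rfl
    refine ⟨fun z hz => ?_, fun z hz => ?_⟩
    · exact (MeromorphicAt.const x z).congr (c.ext_congr h hz).symm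
    · exact analyticAt_const.congr (c.ext_congr_nhds h hz).symm

/-- the value of an element of the ring as a function on the plane, zero outside `U` -/
noncomputable def val (f : c.Mr) : ℂ → ℂ := c.ext (f : c.U → ℂ)

theorem val_mero (f : c.Mr) : MeromorphicOn (c.val f) (Ext c.r0) := f.2.1

theorem val_an (f : c.Mr) : AnalyticOnNhd ℂ (c.val f) c.U := f.2.2

theorem val_add (f g : c.Mr) : c.val (f + g) = c.val f + c.val g := c.ext_add _ _

theorem val_mul (f g : c.Mr) : c.val (f * g) = c.val f * c.val g := c.ext_mul _ _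

theorem val_smul (x : ℂ) (f : c.Mr) (z : ℂ) : c.val (x • f) z = x * c.val f z := by
  unfold val
  by_cases h : z ∈ c.U
  · rw [c.ext_of_mem _ h, c.ext_of_mem _ h]
    rfl
  · rw [c.ext_of_notMem _ h, c.ext_of_notMem _ h, mul_zero]

theorem val_one {z : ℂ} (h : z ∈ c.U) : c.val 1 z = 1 := by
  unfold val
  rw [c.ext_of_mem _ h]
  rfl

theorem val_inj {f g : c.Mr} (h : ∀ z ∈ c.U, c.val f z = c.val g z) : f = g := by
  apply Subtype.ext
  funext z
  have h1 := h z z.2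
  unfold val at h1
  rw [c.ext_of_mem _ z.2, c.ext_of_mem _ z.2] at h1
  exact h1

/-- the element of the ring given by a function -/
noncomputable def mr (g : ℂ → ℂ) (h1 : MeromorphicOn g (Ext c.r0)) (h2 : AnalyticOnNhd ℂ g c.U) :
    c.Mr :=
  ⟨fun z => g z, fun z hz => (h1 z hz).congr (c.ext_congr (g := g) (fun _ => rfl) hz).symm,
    fun z hz => (h2 z hz).congr (c.ext_congr_nhds (g := g) (fun _ => rfl) hz).symm⟩

theorem val_mr (g : ℂ → ℂ) (h1 : MeromorphicOn g (Ext c.r0)) (h2 : AnalyticOnNhd ℂ g c.U) {z : ℂ}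
    (hz : z ∈ c.U) : c.val (c.mr g h1 h2) z = g z := by
  unfold val
  rw [c.ext_of_mem _ hz]
  rfl

theorem val_mr_ev (g : ℂ → ℂ) (h1 : MeromorphicOn g (Ext c.r0)) (h2 : AnalyticOnNhd ℂ g c.U) {z : ℂ}
    (hz : z ∈ Ext c.r0) : c.val (c.mr g h1 h2) =ᶠ[𝓝[≠] z] g :=
  c.ext_congr (fun _ => rfl) hz

/-- the derivative -/
noncomputable def der (f : c.Mr) : c.Mr :=
  c.mr (deriv (c.val f)) (c.val_mero f).deriv (c.val_an f).deriv

theorem val_der (f : c.Mr) {z : ℂ} (hz : z ∈ c.U) : c.val (c.der f) z = deriv (c.val f) z := by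
  unfold der
  exact c.val_mr _ _ _ hz

theorem val_der_ev (f : c.Mr) {z : ℂ} (hz : z ∈ Ext c.r0) :
    c.val (c.der f) =ᶠ[𝓝[≠] z] deriv (c.val f) := by
  unfold der
  exact c.val_mr_ev _ _ _ hz

/-- the derivation -/
noncomputable def Dr : Derivation ℂ c.Mr c.Mr where
  toFun f := c.der f
  map_add' f g := by
    apply c.val_inj
    intro z hz
    rw [c.val_add, Pi.add_apply, c.val_der _ hz, c.val_der _ hz, c.val_der _ hz, c.val_add]
    exact deriv_add (c.val_an f z hz).differentiableAt (c.val_an g z hz).differentiableAt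
  map_smul' x f := by
    apply c.val_inj
    intro z hz
    rw [RingHom.id_apply, c.val_smul, c.val_der _ hz, c.val_der _ hz]
    have h1 : c.val (x • f) = fun w => x * c.val f w := funext fun w => c.val_smul x f w
    rw [h1]
    exact deriv_const_mul_field x
  map_one_eq_zero' := by
    apply c.val_inj
    intro z hz
    change c.val (c.der 1) z = c.val 0 z
    rw [c.val_der _ hz]
    have h1 : c.val 1 =ᶠ[𝓝 z] fun _ => (1 : ℂ) := by
      filter_upwards [c.U_open.mem_nhds hz] with w hw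
      exact c.val_one hw
    rw [h1.deriv_eq, deriv_const]
    unfold val
    rw [c.ext_of_mem _ hz]
    rfl
  leibniz' f g := by
    apply c.val_inj
    intro z hz
    change c.val (c.der (f * g)) z = c.val (f * c.der g + g * c.der f) z
    rw [c.val_add, Pi.add_apply, c.val_mul, c.val_mul, Pi.mul_apply, Pi.mul_apply,
      c.val_der _ hz, c.val_der _ hz, c.val_der _ hz, c.val_mul,
      deriv_mul (c.val_an f z hz).differentiableAt (c.val_an g z hz).differentiableAt]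
    ring

theorem Dr_apply (f : c.Mr) : c.Dr f = c.der f := rfl

theorem val_Dr (f : c.Mr) {z : ℂ} (hz : z ∈ c.U) : c.val (c.Dr f) z = deriv (c.val f) z :=
  c.val_der f hz

theorem val_Dr_ev (f : c.Mr) {z : ℂ} (hz : z ∈ Ext c.r0) :
    c.val (c.Dr f) =ᶠ[𝓝[≠] z] deriv (c.val f) :=
  c.val_der_ev f hz

/-- the order of an element of the ring at a point of the exterior of the disc -/
noncomputable def ord (z : ℂ) (f : c.Mr) : WithTop ℤ := meromorphicOrderAt (c.val f) z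

/-- the order of a coordinate -/
noncomputable def oX (i : Fin (N + 1)) (z : ℂ) : ℤ := ((analyticOrderAt (c.X i) z).toNat : ℤ)

/-- the logarithm of the absolute value of the monomial with exponent `m` in the functions
`X (i + 1) / X 0` -/
noncomputable def lam (z : ℂ) (m : Fin N → ℤ) : ℝ :=
  ∑ i, (m i : ℝ) * (Real.log ‖c.X i.succ z‖ - Real.log ‖c.X 0 z‖)

/-- the order of the monomial with exponent `m` -/
noncomputable def del (z : ℂ) (m : Fin N → ℤ) : ℤ := ∑ i, m i * (c.oX i.succ z - c.oX 0 z)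

/-- the indicator function of the points where some coordinate vanishes -/
noncomputable def bad (z : ℂ) : ℤ := by
  classical
  exact if ∃ i, c.X i z = 0 then 1 else 0

/-- the counting function of a divisor, with real coefficients -/
noncomputable def cnt (E : ℂ → ℝ) (R : ℝ) : ℝ :=
  ∑ᶠ z ∈ {z : ℂ | c.r0 + 1 ≤ ‖z‖ ∧ ‖z‖ ≤ R}, E z * Real.log (R / ‖z‖)

/-- divisors with locally finite support in the exterior of the disc -/
def LocFin (E : ℂ → ℝ) : Prop :=
  ∀ R : ℝ, {z : ℂ | c.r0 + 1 ≤ ‖z‖ ∧ ‖z‖ ≤ R ∧ E z ≠ 0}.Finite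

/-- the height of a monomial -/
noncomputable def ht (m : Fin N → ℤ) (R : ℝ) : ℝ :=
  Real.circleAverage (fun z => |c.lam z m|) 0 R + c.cnt (fun z => (|c.del z m| : ℤ)) R

/-- the characteristic -/
noncomputable def ch (R : ℝ) : ℝ := ∑ i : Fin N, c.ht (Pi.single i 1) R

/-- the coordinate functions of the torus -/
noncomputable def xf (i : Fin N) (z : ℂ) : ℂ := c.X i.succ z / c.X 0 z

theorem xf_ne (i : Fin N) {z : ℂ} (hz : z ∈ c.U) : c.xf i z ≠ 0 :=
  div_ne_zero (hz.2 _) (hz.2 _)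

theorem xf_an (i : Fin N) : AnalyticOnNhd ℂ (c.xf i) c.U := fun z hz =>
  (c.an _ z hz.1).fun_div (c.an _ z hz.1) (hz.2 0)

theorem xf_mero (i : Fin N) : MeromorphicOn (c.xf i) (Ext c.r0) := fun z hz =>
  (c.an _ z hz).meromorphicAt.fun_div (c.an _ z hz).meromorphicAt

/-- monomials in the coordinate functions -/
noncomputable def monf (m : Fin N → ℤ) (z : ℂ) : ℂ := ∏ i, c.xf i z ^ m i

theorem monf_ne (m : Fin N → ℤ) {z : ℂ} (hz : z ∈ c.U) : c.monf m z ≠ 0 :=
  Finset.prod_ne_zero_iff.mpr fun i _ => zpow_ne_zero _ (c.xf_ne i hz)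

theorem monf_an (m : Fin N → ℤ) : AnalyticOnNhd ℂ (c.monf m) c.U := fun z hz =>
  Finset.analyticAt_fun_prod _ fun i _ => (c.xf_an i z hz).fun_zpow (c.xf_ne i hz)

theorem monf_mero (m : Fin N → ℤ) : MeromorphicOn (c.monf m) (Ext c.r0) := fun z hz =>
  MeromorphicAt.fun_prod fun i _ => (c.xf_mero i z hz).fun_zpow _

/-- monomials as elements of the ring -/
noncomputable def mon (m : Fin N → ℤ) : c.Mr := c.mr (c.monf m) (c.monf_mero m) (c.monf_an m)

theorem val_mon (m : Fin N → ℤ) {z : ℂ} (hz : z ∈ c.U) : c.val (c.mon m) z = c.monf m z :=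
  c.val_mr _ _ _ hz

theorem mon_zero : c.mon 0 = 1 := by
  apply c.val_inj
  intro z hz
  rw [c.val_mon _ hz, c.val_one hz]
  simp [monf]

theorem mon_add (m m' : Fin N → ℤ) : c.mon (m + m') = c.mon m * c.mon m' := by
  apply c.val_inj
  intro z hz
  rw [c.val_mul, Pi.mul_apply, c.val_mon _ hz, c.val_mon _ hz, c.val_mon _ hz]
  unfold monf
  rw [← Finset.prod_mul_distrib]
  exact Finset.prod_congr rfl fun i _ => by rw [Pi.add_apply, zpow_add₀ (c.xf_ne i hz)]

/-- monomials as units -/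
noncomputable def monu (m : Fin N → ℤ) : c.Mrˣ where
  val := c.mon m
  inv := c.mon (-m)
  val_inv := by rw [← c.mon_add, add_neg_cancel, c.mon_zero]
  inv_val := by rw [← c.mon_add, neg_add_cancel, c.mon_zero]

/-- evaluation of Laurent polynomials along the curve -/
noncomputable def ev : AddMonoidAlgebra ℂ (Fin N → ℤ) →ₐ[ℂ] c.Mr :=
  AddMonoidAlgebra.lift ℂ c.Mr (Fin N → ℤ)
    { toFun := fun m => c.mon m.toAdd
      map_one' := c.mon_zero
      map_mul' := fun m m' => c.mon_add m.toAdd m'.toAdd }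

theorem ev_single (m : Fin N → ℤ) (x : ℂ) : c.ev (AddMonoidAlgebra.single m x) = x • c.mon m := by
  unfold ev
  rw [AddMonoidAlgebra.lift_single]
  rfl

/-- the Wronskian in the ring -/
noncomputable def wrd {M : ℕ} (f : Fin M → c.Mr) : c.Mr :=
  (Matrix.of fun b l : Fin M => ((c.Dr : c.Mr → c.Mr)^[(l : ℕ)]) (f b)).det

end Curve

/-- a sequence of good circles for a curve and a function -/
structure Rad {N : ℕ} (c : Curve N) (F : c.Mr) where
  s : ℕ → ℝ
  e : ℕ → ℝ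
  hs : ∀ n, c.r0 + 2 ≤ s n
  lim : Tendsto s atTop atTop
  he : ∀ n, 0 < e n ∧ e n ≤ 1
  ne : ∀ n z, ‖z‖ = s n → ∀ y ∈ closedBall z (e n), y ∈ c.U
  osc : ∃ C : ℝ, 1 ≤ C ∧ ∀ n z, ‖z‖ = s n → ∀ i j, ∀ y ∈ closedBall z (e n),
    ‖c.X j y / c.X i y‖ ≤ C * ‖c.X j z / c.X i z‖
  oscF : ∃ C : ℝ, ∀ n z, ‖z‖ = s n → ∀ y ∈ closedBall z (e n), ‖c.val F y‖ ≤ C * ‖c.val F z‖
  small : ∀ δ : ℝ, 0 < δ → ∀ᶠ n in atTop, Real.log (s n) ≤ δ * c.ch (s n) ∧
    Real.log (1 / e n) ≤ δ * c.ch (s n)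

/-- comparison up to an arbitrarily small multiple of the characteristic -/
def Le (T A B : ℕ → ℝ) : Prop := ∀ δ : ℝ, 0 < δ → ∀ᶠ n in atTop, A n ≤ B n + δ * T n

/-- functions which are controlled by a monomial up to coefficients of small growth -/
def Ctl {N : ℕ} {c : Curve N} {F : c.Mr} (r : Rad c F) (g : c.Mr) (lm : ℂ → ℝ) (nu : ℂ → ℤ)
    (Φ : Finset (Fin N → ℤ)) (w : ℕ) : Prop :=
  (∃ C : ℝ, 0 ≤ C ∧ ∀ n z, ‖z‖ = r.s n → ∀ y ∈ closedBall z (r.e n / 2),
    ‖c.val g y‖ ≤ C * Real.exp (lm z + w * ∑ φ ∈ Φ, |c.lam z φ|) * (1 / r.e n) ^ w) ∧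
  ∀ z ∈ Ext c.r0, ((nu z - w * (∑ φ ∈ Φ, |c.del z φ| + c.bad z) : ℤ) : WithTop ℤ) ≤ c.ord z g

end Pool.Agent.Y192.OG
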