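import Pool.Agent.Y192.OG.Defs
import Pool.Agent.TH152.HY.QDefs

/-!
Statements of the geometric steps for normal varieties which are finite over subvarieties of tori.
Each `St_` is a proposition that is proved in another file.
-/

set_option autoImplicit false

namespace Pool.Agent.Y192.OG

open FF MvPolynomial

/-- the ring of functions attached to a curve is integrally closed -/
def St_icl : Prop :=
  ∀ (N : ℕ) (c : Curve N) [IsDomain c.Mr] (y : FractionRing c.Mr), IsIntegral c.Mr y →
    ∃ z : c.Mr, algebraMap c.Mr (FractionRing c.Mr) z = y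

section geometry

open Pool.Agent.W602.Cov.R

/-- evaluation of finitely generated rings of functions on a variety at points over fields -/
def St_eval : Prop :=
  ∀ (N n : ℕ) (X : BiSet N n) (L : Type) [Field L] [Algebra ℂ L] (a : Fin (N + 1) → L)
    (b : Fin (n + 1) → L), X.FunctionField L a b → ∀ R : Subalgebra ℂ L, R.FG →
    ∃ (B : BiPoly N n) (E E' : ℕ), BiHom B E E' ∧ aeval (Sum.elim a b) B ≠ 0 ∧
      ∀ (M : Type) [Field M] [Algebra ℂ M] (u : Fin (N + 1) → M) (v : Fin (n + 1) → M),
        X.Mem u v → aeval (Sum.elim u v) B ≠ 0 →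
        ∃ φ : R →ₐ[ℂ] M, ∀ (r : R) (A C : BiPoly N n) (D D' : ℕ), BiHom A D D' → BiHom C D D' →
          (r : L) * aeval (Sum.elim a b) C = aeval (Sum.elim a b) A →
          φ r * aeval (Sum.elim u v) C = aeval (Sum.elim u v) A

end geometry

end Pool.Agent.Y192.OG
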