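import Pool.Agent.Y192.OG.StE
import Pool.Agent.Y192.OG.StF
import Pool.Agent.Y192.OG.C6

/-!
Statements of the final steps for normal varieties of log general type which are finite over
subvarieties of tori. Each `St_` is a proposition that is proved in another file.
-/

set_option autoImplicit false

namespace Pool.Agent.Y192.OG

open FF MvPolynomial Pool.Agent.W603.LV Pool.Agent.W602.GT Pool.Agent.TH122.AB

/-- the squarefree part of a polynomial, up to the variables -/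
def St_sqp : Prop :=
  ∀ (k : Type) [Field k] (b : ℕ) (A : MvPolynomial (Fin b) k), A ≠ 0 →
    ∃ (f : MvPolynomial (Fin b) k) (M : ℕ), f ≠ 0 ∧ Squarefree f ∧
      (∀ i, ¬ (MvPolynomial.X i ∣ f)) ∧ f ∣ A ∧ A ∣ (f * ∏ i, MvPolynomial.X i) ^ M

/-- the data attached to a variety of log general type over a torus -/
def St_alg : Prop :=
  ∀ (K : Type) [Field K] [Algebra ℂ K] [Algebra.EssFiniteType ℂ K] (n d : ℕ) (x : Fin n → Kˣ)
    (gQ : Lau n), ep x gQ ≠ 0 →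
    (∀ z : K, IsAlgebraic (IntermediateField.adjoin ℂ (Set.range fun i => (x i : K))) z) →
    LogGeneralType ℂ K d (fun P => (∃ i, P.ord (x i : K) ≠ 0) ∨ P.ord (ep x gQ) = 1) →
    ∃ (R : Subalgebra ℂ K) (j : Lau n →ₐ[ℂ] R) (f : Lau n) (κ s : ℕ) (h : Fin s → R)
      (Γ₀ : Submodule ℤ (Fin n → ℤ)),
      R.FG ∧ (∀ g, (j g : K) = ep x g) ∧ (j : Lau n →+* R).IsIntegral ∧ j f ≠ 0 ∧
      GR (RingHom.ker j) f Γ₀ ∧
      (∀ Γ : Submodule ℤ (Fin n → ℤ), Sat Γ →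
        (∀ g ∈ RingHom.ker j, ∀ q, comp Γ q g ∈ RingHom.ker j) → Γ₀ ≤ Γ) ∧
      (∀ g ∈ RingHom.ker j, ∀ q, comp Γ₀ q g ∈ RingHom.ker j) ∧
      (∀ i, ∃ (d : ℕ) (a : ℕ → Lau n),
        h i ^ d + ∑ l ∈ Finset.Icc 1 d, j (a l) * h i ^ (d - l) = 0 ∧
        ∀ l ∈ Finset.Icc 1 d, ∀ m ∈ (a l).coeff.support, InPol (RingHom.ker j) f Γ₀ (l * κ) m) ∧
      (∀ i : Fin n, IsAlgebraic (Algebra.adjoin ℂ (E.Gn K j f κ h Γ₀)) (x i : K)) ∧
      ∀ v : R → WithTop ℤ, IsV v → v (j f) = 1 → v (j gQ) ≠ 1 →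
        ∀ i, ((κ : ℤ) : WithTop ℤ) ≤ v (h i)

section geometry

open Metric Pool.Agent.W602.Cov.R Pool.Agent.TH152.HY

/-- The morphism from `X - D` to `P^n` is ramified over the coordinate hyperplanes and over the
hypersurface `Q = 0` of degree `q`, as follows. For every point `(u, v)` of `X` over a field `M`
with a discrete valuation `P` with centre in `X - D`, not over the coordinate hyperplanes: if some
contact order with a coordinate hyperplane is positive, then one of the contact orders is at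
least `m`, and if they are all zero, then the contact order with `Q = 0` is not one. -/
def OrbOff {N n : ℕ} (X D : BiSet N n) (Q : MvPolynomial (Fin (n + 1)) ℂ) (q m : ℕ) : Prop :=
  ∀ (M : Type) [Field M] [Algebra ℂ M] (u : Fin (N + 1) → M) (v : Fin (n + 1) → M), X.Mem u v →
    (∀ i, v i ≠ 0) → ∀ P : Place ℂ M, ¬ CentreIn D u v P → ∀ c : ℤ, Norm P v c →
    ((∃ i, P.ord (v i) ≠ c) → ∃ i, c + m ≤ P.ord (v i)) ∧
    ((∀ i, P.ord (v i) = c) → aeval v Q ≠ 0 → P.ord (aeval v Q) ≠ q * c + 1)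

/-- orders of holomorphic discs -/
def St_dord : Prop :=
  ∀ (N n q m : ℕ) (X D : BiSet N n) (Q : MvPolynomial (Fin (n + 1)) ℂ), OrbOff X D Q q m →
    ∀ (u : ℂ → Fin (N + 1) → ℂ) (v : ℂ → Fin (n + 1) → ℂ), QDisc X D u v →
    (∀ i, ∃ z ∈ ball (0 : ℂ) 1 \ {0}, v z i ≠ 0) → ∀ z0 ∈ ball (0 : ℂ) 1 \ {0},
    ((∃ i, v z0 i = 0) → ∃ i, (m : ℕ∞) ≤ analyticOrderAt (fun z => v z i) z0) ∧
    ((∀ i, v z0 i ≠ 0) → analyticOrderAt (fun z => eval (v z) Q) z0 ≠ 1)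

/-- the theorem for quasi-projective varieties follows from the theorem for curves -/
def St_geo : Prop :=
  ∀ (K : Type) [Field K] [Algebra ℂ K] (n q : ℕ) (y : Fin (n + 1) → K) (x : Fin n → Kˣ)
    (Q : MvPolynomial (Fin (n + 1)) ℂ) (gQ : Lau n), (∀ i, y i ≠ 0) →
    (∀ i, (x i : K) = y i.succ / y 0) →
    gQ = aeval (Fin.cons (α := fun _ => Lau n) 1
      (fun i => AddMonoidAlgebra.single (Pi.single i 1) (1 : ℂ))) Q → Q.IsHomogeneous q →
    ∀ (R : Subalgebra ℂ K) (j : Lau n →ₐ[ℂ] R) (f G : Lau n) (κ s μ m : ℕ) (h : Fin s → R),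
    R.FG → (∀ g, (j g : K) = ep x g) → (j : Lau n →+* R).IsIntegral → j G ≠ 0 →
    (∀ v : R → WithTop ℤ, IsV v → v (j f) = 1 → v (j gQ) ≠ 1 →
        ∀ i, ((κ : ℤ) : WithTop ℤ) ≤ v (h i)) →
    (∀ c : Curve n, E.ACl j f κ h μ c → c.ev G ≠ 0 →
      ∀ i, ∃ S : ℂ → ℂ, MeromorphicAt (fun w => S w⁻¹) 0 ∧ ∃ R0 : ℝ, ∀ z, R0 < ‖z‖ →
        c.X i z = S z * c.X 0 z) → μ ≤ m →
    ∀ (N : ℕ) (X D : BiSet N n), OrbOff X D Q q m →
    ∀ (L : Type) [Field L] [Algebra ℂ L] (a : Fin (N + 1) → L) (b : Fin (n + 1) → L),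
    X.FunctionField L a b → ¬ D.Mem a b →
    Algebra.IsAlgebraic
      (IntermediateField.adjoin ℂ {f : L | ∃ i j, b j ≠ 0 ∧ f = b i / b j}) L →
    ∀ σ : K →ₐ[ℂ] L, (∀ i j, σ (y i) * b j = σ (y j) * b i) →
    ∃ (B : BiPoly N n) (E E' : ℕ), BiHom B E E' ∧
      (∃ u v, QMem X D u v ∧ eval (Sum.elim u v) B ≠ 0) ∧ PicardOff X D B ∧ BrodyOff X D B

/-- log general type -/
def St_gen : Prop :=
  ∀ (K : Type) [Field K] [Algebra ℂ K] [Algebra.EssFiniteType ℂ K] (n d q : ℕ)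
    (y : Fin (n + 1) → K) (Q : MvPolynomial (Fin (n + 1)) ℂ), 1 ≤ d → (∀ i, y i ≠ 0) →
    Q.IsHomogeneous q → aeval y Q ≠ 0 →
    (∀ z : K, IsAlgebraic (IntermediateField.adjoin ℂ (Set.range fun i => y i / y 0)) z) →
    LogGeneralType ℂ K d (fun P => (∃ i, P.ord (y i) ≠ P.ord (y 0)) ∨
      P.ord (aeval y Q / y 0 ^ q) = 1) →
    ∃ m0 : ℕ, ∀ m, m0 ≤ m → ∀ (N : ℕ) (X D : BiSet N n), OrbOff X D Q q m →
    ∀ (L : Type) [Field L] [Algebra ℂ L] (a : Fin (N + 1) → L) (b : Fin (n + 1) → L),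
    X.FunctionField L a b → ¬ D.Mem a b →
    Algebra.IsAlgebraic
      (IntermediateField.adjoin ℂ {f : L | ∃ i j, b j ≠ 0 ∧ f = b i / b j}) L →
    ∀ σ : K →ₐ[ℂ] L, (∀ i j, σ (y i) * b j = σ (y j) * b i) →
    LogGeneralType ℂ L d (CentreIn D a b)

end geometry

end Pool.Agent.Y192.OG
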