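import Pool.Agent.Y192.OG.Gen
import Pool.Agent.Y333.OG.Least
import Pool.Agent.Y809.OG.Split
import Pool.Agent.Y290.OG.Lift
import Pool.Agent.Y220.OG.Conv
import Pool.Agent.Y220.OG.Lgt
import Pool.Agent.Y547.OG.Der
import Pool.Agent.Y448.OG.Div
import Pool.Agent.Y32.OG.Tor
import Pool.Agent.Y32.OG.Val
import Pool.Agent.Y46.OG.DerT
import Pool.Agent.Y500.OG.Coef
import Pool.Agent.Y96.OG.Forms
import Pool.Agent.Y458.OG.Icl
import Pool.Agent.Y987.OG.Eval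
import Pool.Agent.Y141.OG.Sqp
import Pool.Agent.Y255.OG.Dord
import Pool.Agent.Y274.OG.Geom

/-!
All the steps together.
-/

set_option autoImplicit false

namespace Pool.Agent.Y192.OG

theorem alg_all : St_alg :=
  t_alg Pool.Agent.Y333.OG.t_least Pool.Agent.Y809.OG.t_split Pool.Agent.Y290.OG.t_lift
    Pool.Agent.Y809.OG.t_comp (Pool.Agent.Y290.OG.t_gr Pool.Agent.Y809.OG.t_split)
    Pool.Agent.Y220.OG.t_conv
    (Pool.Agent.Y96.OG.t_forms Pool.Agent.Y547.OG.t_der Pool.Agent.Y448.OG.t_divtower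
      Pool.Agent.Y448.OG.t_divadic Pool.Agent.Y448.OG.t_divtor Pool.Agent.Y46.OG.t_deradic
      Pool.Agent.Y46.OG.t_dertor)
    (Pool.Agent.Y500.OG.t_coef Pool.Agent.Y500.OG.t_mp Pool.Agent.Y32.OG.t_tor)
    (Pool.Agent.Y500.OG.t_den Pool.Agent.Y500.OG.t_mp)
    Pool.Agent.Y32.OG.t_val
    Pool.Agent.Y141.OG.t_sqp

theorem geo_all : St_geo :=
  Pool.Agent.Y274.OG.t_geo Pool.Agent.Y255.OG.t_dord Pool.Agent.Y987.OG.t_eval
    Pool.Agent.Y458.OG.t_icl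

theorem gen_all : St_gen := t_gen Pool.Agent.Y220.OG.t_lgt

end Pool.Agent.Y192.OG
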