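import Pool.Agent.Y192.OG.D9

/-!
Log general type of the ramified varieties.
-/

set_option autoImplicit false
set_option linter.unusedSectionVars false

namespace Pool.Agent.Y192.OG

open FF MvPolynomial Metric Pool.Agent.W603.LV Pool.Agent.W602.GT Pool.Agent.TH122.AB
open Pool.Agent.W602.Cov.R Pool.Agent.TH152.HY

theorem t_gen : St_lgt → St_gen := by
  classical
  intro hlgt K _ _ _ n d q y Q hd hy hQ hQy halg hK
  have hG0 : aeval y Q / y 0 ^ q ≠ 0 := div_ne_zero hQy (pow_ne_zero _ (hy 0))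
  obtain ⟨m, hm⟩ := hlgt K n d y (aeval y Q / y 0 ^ q) hd hy hG0 halg hK
  refine ⟨m, fun m' hm' N X D hoff L _ _ a b hF hD hLa σ hσ => ?_⟩
  have hb : ∀ i, b i ≠ 0 := by
    obtain ⟨k0, hk0⟩ := Function.ne_iff.mp hF.mem.2.1
    intro i h0
    have h1 := hσ i k0
    rw [h0, mul_zero] at h1
    exact mul_ne_zero ((map_ne_zero σ).mpr (hy i)) hk0 h1
  have hσy : ∀ i, σ (y i) ≠ 0 := fun i => (map_ne_zero σ).mpr (hy i)
  let _ : Algebra K L := σ.toRingHom.toAlgebra
  have : IsScalarTower ℂ K L := IsScalarTower.of_algebraMap_eq' (σ.comp_algebraMap).symm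
  have hmap : ∀ z : K, algebraMap K L z = σ z := fun z => rfl
  -- `L` is finitely generated
  have : Algebra.EssFiniteType ℂ L := by
    have hfin : ({f : L | ∃ i j, a j ≠ 0 ∧ f = a i / a j} ∪
        {f : L | ∃ i j, b j ≠ 0 ∧ f = b i / b j}).Finite := by
      refine Set.Finite.union ?_ ?_
      · refine (Set.finite_range fun p : Fin (N + 1) × Fin (N + 1) => a p.1 / a p.2).subset ?_
        rintro _ ⟨i, j, -, rfl⟩
        exact ⟨(i, j), rfl⟩
      · refine (Set.finite_range fun p : Fin (n + 1) × Fin (n + 1) => b p.1 / b p.2).subset ?_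
        rintro _ ⟨i, j, -, rfl⟩
        exact ⟨(i, j), rfl⟩
    have h1 : (⊤ : IntermediateField ℂ L).FG := by
      rw [← hF.gen]
      exact IntermediateField.fg_adjoin_of_finite hfin
    exact IntermediateField.fg_top_iff.mp h1
  have : Algebra.IsAlgebraic K L := by
    let T : Set L := {f : L | ∃ i j, b j ≠ 0 ∧ f = b i / b j}
    have hle : IntermediateField.adjoin ℂ T ≤ σ.fieldRange := by
      rw [IntermediateField.adjoin_le_iff]
      rintro _ ⟨i, j, hj, rfl⟩
      refine ⟨y i / y j, ?_⟩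
      change σ (y i / y j) = _
      rw [map_div₀, div_eq_div_iff (hσy j) hj, hσ i j, mul_comm]
    refine ⟨fun z => ?_⟩
    obtain ⟨p, hp, hpz⟩ := hLa.isAlgebraic z
    -- transfer the polynomial to `K`
    have hlift : ∀ c : IntermediateField.adjoin ℂ T, ∃ k : K, σ k = (c : L) := by
      intro c
      obtain ⟨k, hk⟩ := hle c.2
      exact ⟨k, hk⟩
    choose g hg using hlift
    have hginj : Function.Injective g := by
      intro c c' h
      apply Subtype.ext
      rw [← hg c, ← hg c', h]
    have hσi : ∀ x z : K, σ x = σ z → x = z := fun x z h => σ.toRingHom.injective h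
    let φ : IntermediateField.adjoin ℂ T →+* K :=
      { toFun := g
        map_one' := hσi _ _ (by rw [hg, map_one]; rfl)
        map_zero' := hσi _ _ (by rw [hg, map_zero]; rfl)
        map_add' := fun c c' => hσi _ _ (by rw [map_add, hg, hg, hg]; rfl)
        map_mul' := fun c c' => hσi _ _ (by rw [map_mul, hg, hg, hg]; rfl) }
    refine ⟨p.map φ, ?_, ?_⟩
    · rwa [Ne, Polynomial.map_eq_zero_iff hginj]
    · rw [Polynomial.aeval_def, Polynomial.eval₂_map]
      rw [Polynomial.aeval_def] at hpz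
      rw [← hpz]
      congr 1
      ext c
      exact hg c
  refine hm L (CentreIn D a b) fun P hP => ?_
  -- the minimum of the orders
  obtain ⟨i0, -, hi0⟩ := Finset.exists_min_image Finset.univ (fun i => P.ord (b i))
    ⟨0, Finset.mem_univ _⟩
  have hN : Norm P b (P.ord (b i0)) := ⟨fun j _ => hi0 j (Finset.mem_univ j), i0, hb i0, rfl⟩
  obtain ⟨h1, h2⟩ := hoff L a b hF.mem hb P hP _ hN
  have hord : ∀ i j, P.ord (σ (y i)) + P.ord (b j) = P.ord (σ (y j)) + P.ord (b i) := by
    intro i j
    rw [← P.ord_mul (hσy i) (hb j), hσ i j, P.ord_mul (hσy j) (hb i)]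
  by_cases hall : ∀ i, P.ord (b i) = P.ord (b i0)
  · left
    refine ⟨fun i => ?_, ?_⟩
    · rw [hmap, hmap]
      have := hord i 0
      rw [hall i, hall 0] at this
      linarith
    · have hQb : aeval b Q = (b 0 / σ (y 0)) ^ q * σ (aeval y Q) := by
        have e1 : b = fun i => (b 0 / σ (y 0)) * σ (y i) := by
          funext i
          rw [div_mul_eq_mul_div, eq_div_iff (hσy 0), mul_comm (b 0), hσ i 0, mul_comm]
        have e2 : aeval b Q = aeval (fun i => (b 0 / σ (y 0)) * σ (y i)) Q := by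
          rw [← e1]
        rw [e2, aeval_scale hQ]
        congr 1
        have e3 : σ (aeval y Q) = ((σ.comp (aeval y)) : MvPolynomial (Fin (n + 1)) ℂ →ₐ[ℂ] L) Q := rfl
        rw [e3, MvPolynomial.comp_aeval]
      have hQb0 : aeval b Q ≠ 0 := by
        rw [hQb]
        exact mul_ne_zero (pow_ne_zero _ (div_ne_zero (hb 0) (hσy 0))) ((map_ne_zero σ).mpr hQy)
      have h3 := h2 hall hQb0
      have h4 : P.ord (aeval b Q) = q * P.ord (b 0) + P.ord (algebraMap K L (aeval y Q / y 0 ^ q)) := by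
        rw [hmap, map_div₀, map_pow, P.ord_div ((map_ne_zero σ).mpr hQy) (pow_ne_zero _ (hσy 0)),
          hQb, P.ord_mul (pow_ne_zero _ (div_ne_zero (hb 0) (hσy 0))) ((map_ne_zero σ).mpr hQy),
          P.ord_pow, P.ord_pow, P.ord_div (hb 0) (hσy 0)]
        ring
      intro h5
      apply h3
      rw [h4, h5, hall 0]
  · right
    push Not at hall
    obtain ⟨i, hi⟩ := h1 hall
    refine ⟨i0, i, ?_⟩
    rw [hmap, hmap]
    have := hord i i0
    have hmm : (m : ℤ) ≤ m' := by exact_mod_cast hm'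
    linarith

end Pool.Agent.Y192.OG
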