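import Pool.Agent.Y192.OG.Defs

/-!
Statements of the analytic steps. Each `St_` is a proposition that is proved in another file.
-/

set_option autoImplicit false

namespace Pool.Agent.Y192.OG

open Filter Metric Set Topology Pool.Agent.W603.BP

/-- the ring of functions is a domain, and constant ratios -/
def St_ring : Prop :=
  ∀ (N : ℕ) (c : Curve N),
    (∀ f g : c.Mr, f * g = 0 → f = 0 ∨ g = 0) ∧ Nontrivial c.Mr ∧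
    (∀ a b : c.Mr, b ≠ 0 → a * c.Dr b = b * c.Dr a → ∃ x : ℂ, a = x • b) ∧
    (∀ f : c.Mr, f ≠ 0 → ∀ z ∈ Ext c.r0, c.ord z f ≠ ⊤)

/-- orders -/
def St_ord : Prop :=
  ∀ (N : ℕ) (c : Curve N), (∀ z ∈ Ext c.r0,
    (∀ f g : c.Mr, c.ord z (f * g) = c.ord z f + c.ord z g) ∧
    (∀ f g : c.Mr, min (c.ord z f) (c.ord z g) ≤ c.ord z (f + g)) ∧
    (∀ (x : ℂ) (f : c.Mr), c.ord z f ≤ c.ord z (x • f)) ∧
    (z ∈ c.U → ∀ f : c.Mr, 0 ≤ c.ord z f) ∧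
    (∀ (f : c.Mr) (k : ℤ), (k : WithTop ℤ) ≤ c.ord z f →
      ((k - 1 : ℤ) : WithTop ℤ) ≤ c.ord z (c.Dr f)) ∧
    (∀ m : Fin N → ℤ, c.ord z (c.mon m) = (c.del z m : ℤ))) ∧
  (∀ z ∈ c.U, ∀ m : Fin N → ℤ, c.del z m = 0) ∧ (∀ z ∈ c.U, c.bad z = 0) ∧
  (∀ z ∈ c.U, ∀ m : Fin N → ℤ, ‖c.val (c.mon m) z‖ = Real.exp (c.lam z m)) ∧
  (∀ z ∈ c.U, ∀ (f : c.Mr) (l : ℕ), c.val ((c.Dr : c.Mr → c.Mr)^[l] f) z
    = iteratedDeriv l (c.val f) z) ∧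
  (∀ f : c.Mr, f ≠ 0 → c.LocFin (fun z => ((c.ord z f).untop₀ : ℤ))) ∧
  c.LocFin (fun z => (c.bad z : ℤ)) ∧
  (∀ m : Fin N → ℤ, c.LocFin (fun z => (c.del z m : ℤ)))

/-- the counting function -/
def St_cnt : Prop :=
  ∀ (N : ℕ) (c : Curve N),
    (∀ E E' : ℂ → ℝ, c.LocFin E → c.LocFin E' → c.LocFin (fun z => E z + E' z) ∧
      ∀ R, c.cnt (fun z => E z + E' z) R = c.cnt E R + c.cnt E' R) ∧
    (∀ (a : ℝ) (E : ℂ → ℝ), c.LocFin E → c.LocFin (fun z => a * E z) ∧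
      ∀ R, c.cnt (fun z => a * E z) R = a * c.cnt E R) ∧
    (∀ E E' : ℂ → ℝ, c.LocFin E → c.LocFin E' →
      (∀ z, c.r0 + 1 ≤ ‖z‖ → E z ≤ E' z) → ∀ R, c.cnt E R ≤ c.cnt E' R) ∧
    (∀ E E' : ℂ → ℝ, c.LocFin E → (∀ z, c.r0 + 1 ≤ ‖z‖ → |E' z| ≤ |E z|) → c.LocFin E')

/-- Jensen's formula outside of a disc -/
def St_jen : Prop :=
  ∀ (N : ℕ) (c : Curve N) (f : c.Mr), f ≠ 0 → ∃ C : ℝ, ∀ R : ℝ, c.r0 + 2 ≤ R →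
    |Real.circleAverage (fun z => Real.log ‖c.val f z‖) 0 R
      - c.cnt (fun z => ((c.ord z f).untop₀ : ℤ)) R| ≤ C * (1 + Real.log R)

/-- heights -/
def St_ht : Prop :=
  ∀ (N : ℕ) (c : Curve N), (∀ R : ℝ, c.r0 + 2 ≤ R →
    (∀ m, 0 ≤ c.ht m R) ∧ (∀ m m', c.ht (m + m') R ≤ c.ht m R + c.ht m' R) ∧
    (∀ (k : ℤ) (m), c.ht (k • m) R = |(k : ℝ)| * c.ht m R) ∧
    (∀ m, c.ht m R ≤ (∑ i, |(m i : ℝ)|) * c.ch R) ∧ 0 ≤ c.ch R ∧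
    (∀ m, CircleIntegrable (fun z => c.lam z m) 0 R) ∧
    (∀ f : c.Mr, CircleIntegrable (fun z => Real.log ‖c.val f z‖) 0 R)) ∧
  (∀ μ : ℕ, (∀ i, ∀ z ∈ Ext c.r0, c.X i z = 0 → (μ : ℕ∞) ≤ analyticOrderAt (c.X i) z) →
    ∀ R : ℝ, c.r0 + 2 ≤ R → μ * c.cnt (fun z => (c.bad z : ℤ)) R ≤ c.ch R)

/-- closure properties of controlled functions -/
def St_ctl : Prop :=
  ∀ (N : ℕ) (c : Curve N) (F : c.Mr) (r : Rad c F) (Φ : Finset (Fin N → ℤ)),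
    (∀ m, Ctl r (c.mon m) (fun z => c.lam z m) (fun z => c.del z m) Φ 0) ∧
    (∀ φ ∈ Φ, Ctl r (c.mon φ) (fun _ => 0) (fun _ => 0) Φ 1) ∧
    (∀ m, Ctl r (c.mon (-m) * c.Dr (c.mon m)) (fun _ => 0) (fun _ => 0) Φ 1) ∧
    (∀ (x : ℂ), Ctl r (algebraMap ℂ c.Mr x) (fun _ => 0) (fun _ => 0) Φ 0) ∧
    (F ≠ 0 → Ctl r F (fun z => Real.log ‖c.val F z‖) (fun z => (c.ord z F).untop₀) Φ 0) ∧
    (∀ g h lm lm' nu nu' w w', Ctl r g lm nu Φ w → Ctl r h lm' nu' Φ w' →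
      Ctl r (g * h) (fun z => lm z + lm' z) (fun z => nu z + nu' z) Φ (w + w')) ∧
    (∀ g h lm nu w, Ctl r g lm nu Φ w → Ctl r h lm nu Φ w → Ctl r (g + h) lm nu Φ w) ∧
    (∀ (x : ℂ) g lm nu w, Ctl r g lm nu Φ w → Ctl r (x • g) lm nu Φ w) ∧
    (∀ g lm nu w w', w ≤ w' → Ctl r g lm nu Φ w → Ctl r g lm nu Φ w')

/-- existence of good circles for curves that do not extend -/
def St_rad : Prop :=
  ∀ (N : ℕ) (c : Curve N) (f : AddMonoidAlgebra ℂ (Fin N → ℤ)), c.ev f ≠ 0 →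
    (¬ ∀ j, ∃ R : ℂ → ℂ, MeromorphicAt (fun w => R w⁻¹) 0 ∧ ∃ R0 : ℝ, ∀ z, R0 < ‖z‖ →
      c.X j z = R z * c.X 0 z) →
    Nonempty (Rad c (c.ev f))

/-- Wronskians: nonvanishing, order, and size on good circles -/
def St_wr : Prop :=
  ∀ (N : ℕ) (c : Curve N) (F : c.Mr) (r : Rad c F) (M : ℕ) (f : Fin M → c.Mr),
    (LinearIndependent ℂ f → c.wrd f ≠ 0) ∧
    (∀ z ∈ Ext c.r0, ∀ k : Fin M → ℤ, (∀ j, (k j : WithTop ℤ) ≤ c.ord z (f j)) →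
      ((∑ j, k j - (M : ℤ) ^ 2 : ℤ) : WithTop ℤ) ≤ c.ord z (c.wrd f)) ∧
    (∀ z ∈ c.U, ∀ k : ℕ, (∀ j, (k : WithTop ℤ) ≤ c.ord z (f j)) →
      ((M * k : ℕ) : WithTop ℤ) ≤ c.ord z (c.wrd f)) ∧
    (∀ (Φ : Finset (Fin N → ℤ)) (w : ℕ) (lm : Fin M → ℂ → ℝ) (nu : Fin M → ℂ → ℤ),
      (∀ j, Ctl r (f j) (lm j) (nu j) Φ w) → ∃ C : ℝ, 0 < C ∧ ∀ n z, ‖z‖ = r.s n →
        ‖c.val (c.wrd f) z‖ ≤ C * Real.exp (∑ j, lm j z + M * w * ∑ φ ∈ Φ, |c.lam z φ|)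
          * (1 / r.e n) ^ (M * w + M ^ 2))

/-- the main estimate for a large space of functions vanishing to high order -/
def St_gwl : Prop :=
  ∀ (N : ℕ) (c : Curve N) (F : c.Mr) (r : Rad c F) (Φ Ψ : Finset (Fin N → ℤ)) (w B k M : ℕ)
    (m : Fin k → Fin N → ℤ) (e : Fin k → c.Mr) (f : Fin M → c.Mr) (ρ : ℂ → ℤ),
    (∀ i, Ctl r (e i) (fun z => c.lam z (m i)) (fun z => c.del z (m i)) Φ w) →
    (∀ i, ∃ b : (Fin N → ℤ) → ℤ, (∀ ψ ∈ Ψ, |b ψ| ≤ B) ∧ m i = ∑ ψ ∈ Ψ, b ψ • ψ) →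
    LinearIndependent ℂ f → (∀ j, f j ∈ Submodule.span ℂ (Set.range e)) →
    (∀ z, 0 ≤ ρ z) → (∀ z, z ∉ c.U → ρ z = 0) → c.LocFin (fun z => (ρ z : ℤ)) →
    (∀ z ∈ c.U, ∀ j, (ρ z : WithTop ℤ) ≤ c.ord z (f j)) →
    M ≤ k ∧ Le (fun n => c.ch (r.s n)) (fun n => M * c.cnt (fun z => (ρ z : ℤ)) (r.s n))
      (fun n => ((k : ℝ) - M) * B * ∑ ψ ∈ Ψ, c.ht ψ (r.s n)
        + M * w * ∑ φ ∈ Φ, c.ht φ (r.s n)
        + (M * w + M ^ 2) * c.cnt (fun z => (c.bad z : ℤ)) (r.s n))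

/-- the estimate for a minimal relation -/
def St_cl : Prop :=
  ∀ (N : ℕ) (c : Curve N) (F : c.Mr) (r : Rad c F) (Φ : Finset (Fin N → ℤ)) (w k : ℕ)
    (m : Fin (k + 1) → Fin N → ℤ) (a : Fin (k + 1) → ℕ) (e : Fin (k + 1) → c.Mr) (Z : ℂ → ℤ),
    F ≠ 0 → 1 ≤ k →
    (∀ i, Ctl r (e i) (fun z => c.lam z (m i) + a i * Real.log ‖c.val F z‖)
      (fun z => c.del z (m i) + a i * (c.ord z F).untop₀) Φ w) →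
    ∑ i, e i = 0 → LinearIndependent ℂ (fun i : Fin k => e i.succ) → (∀ i, a i ≤ 1) →
    (∀ z, 0 ≤ Z z) → c.LocFin (fun z => (Z z : ℤ)) →
    (∀ z ∈ c.U, (∃ i, a i ≠ 0) → c.val F z = 0 → 1 ≤ Z z) →
    ∀ i j, a i = 0 → a j = 0 → Le (fun n => c.ch (r.s n)) (fun n => c.ht (m i - m j) (r.s n))
      (fun n => 2 * (k * w * ∑ φ ∈ Φ, c.ht φ (r.s n)
        + (k * w + k ^ 2) * (c.cnt (fun z => (c.bad z : ℤ)) (r.s n)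
          + c.cnt (fun z => (Z z : ℤ)) (r.s n))))

end Pool.Agent.Y192.OG
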